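import Pool.Agent.Helper98K9.HP.St

set_option autoImplicit false

/-!
# [ADM], [DIV]: the sequences of the problem
-/

namespace Pool.Agent.Helper98K9.HP

open MeasureTheory ProbabilityTheory Filter Topology
open scoped ENNReal NNReal

namespace AdmL

variable {C0 C1 C2 α : ℝ}

theorem cseq_pos (h0 : 0 ≤ C0) (h1 : 0 ≤ C1) (h2 : 0 < C2) (k : ℕ) (hk : 1 ≤ k) :
    C2 * (k : ℝ) ^ α ≤ cseq C0 C1 C2 α k ∧ 0 < C2 * (k : ℝ) ^ α := by
  have hk1 : (1 : ℝ) ≤ k := by exact_mod_cast hk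
  have h3 : 0 ≤ Real.log k := Real.log_nonneg hk1
  have h4 : 0 < (k : ℝ) ^ α := Real.rpow_pos_of_pos (by linarith) _
  constructor
  · unfold cseq
    have := mul_nonneg h1 h3
    linarith
  · positivity

theorem cseq_mono (h1 : 0 ≤ C1) (h2 : 0 < C2) (hα : 0 < α) (j k : ℕ) (hj : 1 ≤ j)
    (hjk : j ≤ k) : cseq C0 C1 C2 α j ≤ cseq C0 C1 C2 α k := by
  have hj1 : (1 : ℝ) ≤ j := by exact_mod_cast hj
  have hjk' : (j : ℝ) ≤ k := by exact_mod_cast hjk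
  have h3 : Real.log j ≤ Real.log k := Real.log_le_log (by linarith) hjk'
  have h4 : (j : ℝ) ^ α ≤ (k : ℝ) ^ α := Real.rpow_le_rpow (by linarith) hjk' hα.le
  unfold cseq
  have := mul_le_mul_of_nonneg_left h3 h1
  have := mul_le_mul_of_nonneg_left h4 h2.le
  linarith

/-- doubling -/
theorem cseq_mul (h0 : 0 ≤ C0) (h1 : 0 ≤ C1) (h2 : 0 < C2) (hα : 0 < α) (m n : ℕ) (hm : 1 ≤ m)
    (hn : 1 ≤ n) : cseq C0 C1 C2 α (m * n) ≤
      (1 + C1 / C2) * (n : ℝ) ^ (α + 1) * cseq C0 C1 C2 α m := by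
  have hm1 : (1 : ℝ) ≤ m := by exact_mod_cast hm
  have hn1 : (1 : ℝ) ≤ n := by exact_mod_cast hn
  obtain ⟨hp1, hp2⟩ := cseq_pos (α := α) h0 h1 h2 m hm
  have hlm : 0 ≤ Real.log m := Real.log_nonneg hm1
  have hln : Real.log n ≤ n := (Real.log_le_sub_one_of_pos (by linarith)).trans (by linarith)
  have hln0 : 0 ≤ Real.log n := Real.log_nonneg hn1
  have e1 : cseq C0 C1 C2 α (m * n) =
      C0 + C1 * Real.log m + C1 * Real.log n + C2 * (m : ℝ) ^ α * (n : ℝ) ^ α := by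
    unfold cseq
    push_cast
    rw [Real.log_mul (by linarith) (by linarith), Real.mul_rpow (by linarith) (by linarith)]
    ring
  have hna : (n : ℝ) ^ α ≤ (n : ℝ) ^ (α + 1) :=
    Real.rpow_le_rpow_of_exponent_le hn1 (by linarith)
  have hn1' : (n : ℝ) ≤ (n : ℝ) ^ (α + 1) := by
    calc (n : ℝ) = (n : ℝ) ^ (1 : ℝ) := (Real.rpow_one _).symm
      _ ≤ _ := Real.rpow_le_rpow_of_exponent_le hn1 (by linarith)
  have hn1'' : (1 : ℝ) ≤ (n : ℝ) ^ (α + 1) := hn1.trans hn1'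
  have hma : (1 : ℝ) ≤ (m : ℝ) ^ α := Real.one_le_rpow hm1 hα.le
  have hq : 0 ≤ C1 / C2 := by positivity
  set P := (n : ℝ) ^ (α + 1) with hP
  have hlogn : C1 * Real.log n ≤ C1 / C2 * P * cseq C0 C1 C2 α m := by
    have a1 : C1 * Real.log n ≤ C1 * P := mul_le_mul_of_nonneg_left (hln.trans hn1') h1
    have a2 : C1 * P ≤ C1 / C2 * P * (C2 * (m : ℝ) ^ α) := by
      have : C1 / C2 * P * (C2 * (m : ℝ) ^ α) = C1 * P * (m : ℝ) ^ α := by
        field_simp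
      rw [this]
      have h3 : 0 ≤ C1 * P := mul_nonneg h1 (by linarith)
      nlinarith
    have a3 : C1 / C2 * P * (C2 * (m : ℝ) ^ α) ≤ C1 / C2 * P * cseq C0 C1 C2 α m :=
      mul_le_mul_of_nonneg_left hp1 (mul_nonneg hq (by linarith))
    linarith
  have hrest : C0 + C1 * Real.log m + C2 * (m : ℝ) ^ α * (n : ℝ) ^ α ≤
      P * cseq C0 C1 C2 α m := by
    unfold cseq
    have b1 : C0 ≤ P * C0 := by nlinarith
    have b2 : C1 * Real.log m ≤ P * (C1 * Real.log m) := by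
      have := mul_nonneg h1 hlm
      nlinarith
    have b3 : C2 * (m : ℝ) ^ α * (n : ℝ) ^ α ≤ P * (C2 * (m : ℝ) ^ α) := by
      rw [mul_comm P]
      exact mul_le_mul_of_nonneg_left hna hp2.le
    linarith
  rw [e1]
  nlinarith

/-- a convergent majorant -/
theorem summable_maj (N m : ℕ) (hN : 2 ≤ N) :
    Summable fun r : ℕ => ((r : ℝ) + 1) ^ m / (N : ℝ) ^ (r + 1) := by
  have hN0 : (2 : ℝ) ≤ N := by exact_mod_cast hN
  have h1 : Summable fun n : ℕ => (n : ℝ) ^ m * ((N : ℝ)⁻¹) ^ n :=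
    summable_pow_mul_geometric_of_norm_lt_one m (by
      rw [Real.norm_of_nonneg (by positivity)]
      exact inv_lt_one_of_one_lt₀ (by linarith))
  have h2 := (summable_nat_add_iff 1).2 h1
  refine h2.congr fun r => ?_
  rw [inv_pow, div_eq_mul_inv]
  push_cast
  ring

end AdmL

theorem adm : S_ADM := by
  intro N _ C0 C1 C2 α hN h0 h1 h2 hα
  have hN0 : (2 : ℝ) ≤ N := by exact_mod_cast hN
  obtain ⟨m, hm⟩ : ∃ m : ℕ, α + 3 ≤ m := exists_nat_ge _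
  have hmaj := AdmL.summable_maj N m hN
  obtain ⟨K, hK⟩ : ∃ K : ℝ, K = 1 + C1 / C2 := ⟨_, rfl⟩
  have hK1 : 1 ≤ K := by
    rw [hK]
    have : 0 ≤ C1 / C2 := by positivity
    linarith
  have hpos : ∀ k : ℕ, 1 ≤ k → 0 < cseq C0 C1 C2 α k := fun k hk => by
    obtain ⟨a, b⟩ := AdmL.cseq_pos (α := α) h0 h1 h2 k hk
    linarith
  have hmono := AdmL.cseq_mono (C0 := C0) h1 h2 hα
  have hmul := AdmL.cseq_mul h0 h1 h2 hα
  rw [← hK] at hmul
  have hterm : ∀ i r : ℕ, cseq C0 C1 C2 α (i + 1 + r) * ((r : ℝ) + 1) ^ 2 / (N : ℝ) ^ (r + 1) ≤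
      K * cseq C0 C1 C2 α (i + 1) * (((r : ℝ) + 1) ^ m / (N : ℝ) ^ (r + 1)) := by
    intro i r
    have a1 : cseq C0 C1 C2 α (i + 1 + r) ≤ cseq C0 C1 C2 α ((i + 1) * (r + 1)) :=
      hmono _ _ (by omega) (by nlinarith [Nat.zero_le (i * r)])
    have a2 := hmul (i + 1) (r + 1) (by omega) (by omega)
    have a3 : (((r + 1 : ℕ) : ℝ)) ^ (α + 1) * ((r : ℝ) + 1) ^ 2 ≤ ((r : ℝ) + 1) ^ m := by
      have hr1 : (1 : ℝ) ≤ (r : ℝ) + 1 := by
        have : (0 : ℝ) ≤ r := Nat.cast_nonneg r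
        linarith
      push_cast
      rw [← Real.rpow_natCast ((r : ℝ) + 1) 2, ← Real.rpow_natCast ((r : ℝ) + 1) m,
        ← Real.rpow_add (by linarith)]
      apply Real.rpow_le_rpow_of_exponent_le hr1
      push_cast
      linarith
    have hc := hpos (i + 1) (by omega)
    have hr0 : (0 : ℝ) ≤ ((r : ℝ) + 1) ^ 2 := by positivity
    have hNp : (0 : ℝ) < (N : ℝ) ^ (r + 1) := by positivity
    rw [← mul_div_assoc]
    apply div_le_div_of_nonneg_right _ hNp.le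
    calc cseq C0 C1 C2 α (i + 1 + r) * ((r : ℝ) + 1) ^ 2
        ≤ K * (((r + 1 : ℕ) : ℝ)) ^ (α + 1) * cseq C0 C1 C2 α (i + 1) * ((r : ℝ) + 1) ^ 2 :=
          mul_le_mul_of_nonneg_right (a1.trans a2) hr0
      _ = K * cseq C0 C1 C2 α (i + 1) * ((((r + 1 : ℕ) : ℝ)) ^ (α + 1) * ((r : ℝ) + 1) ^ 2) := by
          ring
      _ ≤ K * cseq C0 C1 C2 α (i + 1) * ((r : ℝ) + 1) ^ m :=
          mul_le_mul_of_nonneg_left a3 (by positivity)
  have hnn : ∀ i r : ℕ,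
      0 ≤ cseq C0 C1 C2 α (i + 1 + r) * ((r : ℝ) + 1) ^ 2 / (N : ℝ) ^ (r + 1) := by
    intro i r
    have := hpos (i + 1 + r) (by omega)
    positivity
  have hsumm : ∀ i, Summable fun r : ℕ =>
      cseq C0 C1 C2 α (i + 1 + r) * ((r : ℝ) + 1) ^ 2 / (N : ℝ) ^ (r + 1) := fun i =>
    Summable.of_nonneg_of_le (hnn i) (hterm i) (hmaj.mul_left _)
  obtain ⟨T, hT⟩ : ∃ T : ℝ, T = ∑' r : ℕ, ((r : ℝ) + 1) ^ m / (N : ℝ) ^ (r + 1) := ⟨_, rfl⟩
  have hT0 : 0 ≤ T := by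
    rw [hT]
    exact tsum_nonneg fun r => by positivity
  have h2a : (0 : ℝ) ≤ (2 : ℝ) ^ (α + 1) := Real.rpow_nonneg (by norm_num) _
  refine ⟨K * T + K * (2 : ℝ) ^ (α + 1), hpos, hmono, hsumm, ?_, ?_⟩
  · intro i
    have b1 := (hsumm i).tsum_le_tsum (hterm i) (hmaj.mul_left _)
    rw [tsum_mul_left, ← hT] at b1
    have hc := hpos (i + 1) (by omega)
    have : 0 ≤ K * (2 : ℝ) ^ (α + 1) * cseq C0 C1 C2 α (i + 1) := by positivity
    nlinarith
  · intro i hi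
    have a1 : cseq C0 C1 C2 α (i + 1) ≤ cseq C0 C1 C2 α (i * 2) :=
      hmono _ _ (by omega) (by omega)
    have a2 := hmul i 2 hi (by norm_num)
    push_cast at a2
    have hc := hpos i hi
    have : 0 ≤ K * T * cseq C0 C1 C2 α i := by positivity
    nlinarith

theorem div : S_DIV := by
  intro C0 C1 C2 α h0 h1 h2 hα hα1 hs
  have h3 : ∀ l : ℕ, 1 / (C0 + C1 + C2) * (1 / ((l + 1 : ℕ) : ℝ)) ≤
      1 / cseq C0 C1 C2 α (l + 1) := by
    intro l
    obtain ⟨a, b⟩ := AdmL.cseq_pos (α := α) h0 h1 h2 (l + 1) (by omega)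
    have hl1 : (1 : ℝ) ≤ ((l + 1 : ℕ) : ℝ) := by
      have : (0 : ℝ) ≤ l := Nat.cast_nonneg l
      push_cast
      linarith
    rw [one_div_mul_one_div]
    apply one_div_le_one_div_of_le (by linarith)
    unfold cseq
    have c1 : Real.log ((l + 1 : ℕ) : ℝ) ≤ ((l + 1 : ℕ) : ℝ) :=
      (Real.log_le_sub_one_of_pos (by linarith)).trans (by linarith)
    have c2 : (((l + 1 : ℕ) : ℝ)) ^ α ≤ ((l + 1 : ℕ) : ℝ) := by
      calc (((l + 1 : ℕ) : ℝ)) ^ α ≤ (((l + 1 : ℕ) : ℝ)) ^ (1 : ℝ) :=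
            Real.rpow_le_rpow_of_exponent_le hl1 hα1
        _ = _ := Real.rpow_one _
    have c3 := mul_le_mul_of_nonneg_left c1 h1
    have c4 := mul_le_mul_of_nonneg_left c2 h2.le
    have c5 : C0 ≤ C0 * ((l + 1 : ℕ) : ℝ) := by nlinarith
    nlinarith
  have hC : 0 < C0 + C1 + C2 := by linarith
  have h4 : Summable fun l : ℕ => 1 / (C0 + C1 + C2) * (1 / ((l + 1 : ℕ) : ℝ)) := by
    refine Summable.of_nonneg_of_le (fun l => by positivity) h3 hs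
  have h5 : Summable fun l : ℕ => 1 / ((l + 1 : ℕ) : ℝ) := by
    have := h4.mul_left (C0 + C1 + C2)
    refine this.congr fun l => ?_
    field_simp
  exact Real.not_summable_one_div_natCast ((summable_nat_add_iff 1).1 h5)

end Pool.Agent.Helper98K9.HP
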