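import Pool.Agent.Helper98K9.HP.St2

set_option autoImplicit false

namespace Pool.Agent.Helper98K9.HP

open MeasureTheory ProbabilityTheory Filter Topology
open scoped ENNReal NNReal

namespace BaseL

variable {N : ℕ} [NeZero N]

theorem clu_congr {ω ω' : Cf N} {k : ℕ} {x y : V N} (hy : y ∈ ball k x)
    (h : ∀ e ∈ ins k x, ω e = ω' e) : clu ω k y = clu ω' k y := by
  classical
  have hb : ball k y = ball k x := (ball_eq (mem_ball.1 hy)).symm
  have hG : GW ω (ball k y : Set (V N)) = GW ω' (ball k y : Set (V N)) := by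
    rw [hb]
    ext u v
    constructor
    · rintro ⟨⟨h1, h2⟩, h3, h4⟩
      refine ⟨⟨h1, ?_⟩, h3, h4⟩
      rw [← h]
      · exact h2
      · intro w hw
        rcases Sym2.mem_iff.1 hw with rfl | rfl
        · exact h3
        · exact h4
    · rintro ⟨⟨h1, h2⟩, h3, h4⟩
      refine ⟨⟨h1, ?_⟩, h3, h4⟩
      rw [h]
      · exact h2
      · intro w hw
        rcases Sym2.mem_iff.1 hw with rfl | rfl
        · exact h3
        · exact h4
  unfold clu
  rw [hG]

theorem self_mem_clu (ω : Cf N) (k : ℕ) (x : V N) : x ∈ clu ω k x := by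
  classical
  unfold clu
  rw [Finset.mem_filter]
  exact ⟨self_mem_ball k x, SimpleGraph.Reachable.refl x⟩

theorem reach_rtg {ω : Cf N} {W : Finset (V N)} {u v : V N}
    (h : (GW ω (W : Set (V N))).Reachable u v) :
    Relation.ReflTransGen (fun a b => a ∈ W ∧ b ∈ W ∧ (G ω).Adj a b) u v := by
  rw [SimpleGraph.reachable_iff_reflTransGen] at h
  induction h with
  | refl => exact Relation.ReflTransGen.refl
  | tail _ hab ih => exact ih.tail ⟨hab.2.1, hab.2.2, hab.1⟩

end BaseL

open BaseL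

theorem base (hmeas : S_MEAS) (hgiant : S_GIANT) (hpath : S_PATHF) : S_BASE := by
  intro N _ c A hN hc htend θ hθ hθ1 hperc ε hε
  classical
  obtain ⟨n0, hn0⟩ := hgiant N c A hN hc htend θ hθ hθ1 hperc ε hε
  refine ⟨n0, fun n hn x => ?_⟩
  have hN0 : (0 : ℝ) < N := Nat.cast_pos.2 (Nat.pos_of_ne_zero (NeZero.ne N))
  let E : Set (Cf N) := {ω | ∃ y ∈ ball n x, θ / 8 * (N : ℝ) ^ n ≤ ((clu ω n y).card : ℝ)}
  have hdep : Dep (ins n x) (fun ω => ω ∈ E) := by
    intro ω ω' h
    simp only [E, Set.mem_ofPred_eq, eq_iff_iff]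
    refine exists_congr fun y => and_congr_right fun hy => ?_
    rw [clu_congr hy h]
  have hbound : ∀ ω ∈ E, QQ (θ / 8) n x ω ≤ ENNReal.ofReal (2 * (N : ℝ) ^ n * (N : ℝ) ^ n) := by
    rintro ω ⟨y, hy, hcard⟩
    have hb : ball n y = ball n x := (ball_eq (mem_ball.1 hy)).symm
    have hsub : clu ω n y ⊆ ball n x := by
      rw [← hb]
      unfold clu
      exact Finset.filter_subset _ _
    have hne : (clu ω n y).Nonempty := ⟨y, self_mem_clu ω n y⟩
    obtain ⟨Θ, hΘ, hen⟩ := hpath (V N) (G ω) (ball n x) (clu ω n y) hsub hne (by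
      intro u hu v hv
      unfold clu at hu hv
      rw [Finset.mem_filter, hb] at hu hv
      exact reach_rtg (hu.2.symm.trans hv.2))
    unfold QQ
    refine iInf_le_of_le (clu ω n y) (iInf_le_of_le Θ (iInf_le_of_le hcard
      (iInf_le_of_le (Finset.card_pos.2 hne) (iInf_le_of_le hΘ ?_))))
    apply ENNReal.ofReal_le_ofReal
    rw [card_ball] at hen
    push_cast at hen
    refine hen.trans (le_of_eq ?_)
    ring
  refine ⟨E, hdep, ?_, ?_, ?_, ?_⟩
  · have := hmeas.2 N (ins n x) Prop (fun ω => ω ∈ E) (hmeas.1 N n x) hdep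
    exact measurableSet_setOfPred.2 this
  · intro ω hω
    exact ne_top_of_le_ne_top ENNReal.ofReal_ne_top (hbound ω hω)
  · refine le_trans (measure_mono ?_) (hn0 n hn x)
    intro ω hω y hy
    by_contra h
    exact hω ⟨y, hy, not_lt.1 h⟩
  · have hE : MeasurableSet E := by
      have := hmeas.2 N (ins n x) Prop (fun ω => ω ∈ E) (hmeas.1 N n x) hdep
      exact measurableSet_setOfPred.2 this
    calc ∫⁻ ω in E, QQ (θ / 8) n x ω ∂(PP N c)
        ≤ ∫⁻ _ in E, ENNReal.ofReal (2 * (N : ℝ) ^ n * (N : ℝ) ^ n) ∂(PP N c) :=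
          setLIntegral_mono' hE hbound
      _ = ENNReal.ofReal (2 * (N : ℝ) ^ n * (N : ℝ) ^ n) * PP N c E := by
          rw [setLIntegral_const]
      _ ≤ ENNReal.ofReal (2 * (N : ℝ) ^ n * (N : ℝ) ^ n) * 1 := by
          gcongr
          exact prob_le_one
      _ = _ := by rw [mul_one]

end Pool.Agent.Helper98K9.HP
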