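import Pool.Agent.Helper98K9.HP.Clo

set_option autoImplicit false

namespace Pool.Agent.Helper98K9.HP

open MeasureTheory ProbabilityTheory Filter Topology
open scoped ENNReal NNReal

namespace BerL

variable {N : ℕ}

theorem open_two (c : ℕ → ℝ) {e f : Ed N} (h : e ≠ f) :
    PP N c {ω | ω e = true ∧ ω f = true} = (prE N c e : ℝ≥0∞) * (prE N c f : ℝ≥0∞) := by
  classical
  have hs : {ω : Cf N | ω e = true ∧ ω f = true} =
      (({e, f} : Finset (Ed N)) : Set (Ed N)).pi fun _ => {true} := by
    ext ω
    simp [Set.mem_pi]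
  rw [hs]
  unfold PP
  rw [Measure.infinitePi_pi _ (fun i _ => measurableSet_singleton _), Finset.prod_pair h]
  rw [CloL.bern_true, CloL.bern_true]

theorem meas_open (e : Ed N) : MeasurableSet {ω : Cf N | ω e = true} := by
  have h : Measurable (fun ω : Cf N => ω e) := measurable_pi_apply e
  exact h (measurableSet_singleton true)

theorem meas_open2 (e f : Ed N) : MeasurableSet {ω : Cf N | ω e = true ∧ ω f = true} :=
  (meas_open e).inter (meas_open f)

/-- the coordinates as independent real random variables -/
noncomputable def X (e : Ed N) (ω : Cf N) : ℝ := if ω e = true then 1 else 0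

theorem X_meas (e : Ed N) : Measurable (X e) :=
  Measurable.ite (meas_open e) measurable_const measurable_const

theorem X_indep (c : ℕ → ℝ) : iIndepFun (fun e : Ed N => X e) (PP N c) := by
  unfold PP
  have := iIndepFun_infinitePi
    (P := fun e : Ed N => (PMF.bernoulli (prE N c e) (prE_le N c e)).toMeasure)
    (X := fun (_ : Ed N) (b : Bool) => if b = true then (1 : ℝ) else 0)
    (fun _ => measurable_of_finite _)
  exact this

end BerL

open BerL

theorem ber : S_BER := by
  intro N _ c F p t hp ht
  classical
  have hint : ∀ e f : Ed N, Integrable (fun ω : Cf N =>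
      if ω e = true ∧ ω f = true then t e * t f else 0) (PP N c) := by
    intro e f
    refine Integrable.of_bound ?_ |t e * t f| ?_
    · exact (Measurable.ite ((meas_open e).inter (meas_open f)) measurable_const
        measurable_const).aestronglyMeasurable
    · filter_upwards with ω
      split_ifs
      · exact le_rfl
      · rw [norm_zero]; exact abs_nonneg _
  have hexp : ∀ ω : Cf N, (∑ e ∈ F, if ω e = true then t e else 0) ^ 2 =
      ∑ e ∈ F, ∑ f ∈ F, if ω e = true ∧ ω f = true then t e * t f else 0 := by
    intro ω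
    rw [sq, Finset.sum_mul_sum]
    refine Finset.sum_congr rfl fun e _ => Finset.sum_congr rfl fun f _ => ?_
    by_cases h1 : ω e = true <;> by_cases h2 : ω f = true <;> simp [h1, h2]
  have hval : ∀ e ∈ F, ∀ f ∈ F, ∫ ω, (if ω e = true ∧ ω f = true then t e * t f else 0) ∂(PP N c)
      = t e * t f * (p ^ 2 + if e = f then p - p ^ 2 else 0) := by
    intro e he f hf
    have h1 : (fun ω : Cf N => if ω e = true ∧ ω f = true then t e * t f else 0) =
        Set.indicator {ω : Cf N | ω e = true ∧ ω f = true} (fun _ => t e * t f) := by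
      funext ω
      simp only [Set.indicator_apply, Set.mem_ofPred_eq]
    rw [h1, integral_indicator_const _ (meas_open2 e f), smul_eq_mul, mul_comm]
    congr 1
    rw [Measure.real]
    by_cases hef : e = f
    · subst hef
      simp only [and_self, if_true]
      rw [CloL.open_one, ENNReal.coe_toReal, hp e he]
      ring
    · rw [open_two c hef, ENNReal.toReal_mul, ENNReal.coe_toReal, ENNReal.coe_toReal, hp e he,
        hp f hf, if_neg hef]
      ring
  have hI : ∫ ω, (∑ e ∈ F, if ω e = true then t e else 0) ^ 2 ∂(PP N c) =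
      (p - p ^ 2) * ∑ e ∈ F, t e ^ 2 := by
    simp only [hexp]
    rw [integral_finset_sum _ fun e _ => integrable_finset_sum _ fun f _ => hint e f]
    have h2 : ∀ e ∈ F, ∫ ω, (∑ f ∈ F, if ω e = true ∧ ω f = true then t e * t f else 0) ∂(PP N c)
        = ∑ f ∈ F, t e * t f * (p ^ 2 + if e = f then p - p ^ 2 else 0) := by
      intro e he
      rw [integral_finset_sum _ fun f _ => hint e f]
      exact Finset.sum_congr rfl fun f hf => hval e he f hf
    rw [Finset.sum_congr rfl h2]
    have h3 : ∀ e ∈ F, ∑ f ∈ F, t e * t f * (p ^ 2 + if e = f then p - p ^ 2 else 0) =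
        p ^ 2 * t e * (∑ f ∈ F, t f) + (p - p ^ 2) * t e ^ 2 := by
      intro e he
      simp only [mul_add, Finset.sum_add_distrib, mul_ite, mul_zero]
      rw [Finset.sum_ite_eq F e, if_pos he, Finset.mul_sum]
      congr 1
      · exact Finset.sum_congr rfl fun f _ => by ring
      · ring
    rw [Finset.sum_congr rfl h3, ht]
    simp only [mul_zero, zero_add]
    rw [Finset.mul_sum]
  have hint2 : Integrable (fun ω : Cf N => (∑ e ∈ F, if ω e = true then t e else 0) ^ 2)
      (PP N c) := by
    simp only [hexp]
    exact integrable_finset_sum _ fun e _ => integrable_finset_sum _ fun f _ => hint e f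
  rw [← ofReal_integral_eq_lintegral_ofReal hint2 (Filter.Eventually.of_forall fun _ => sq_nonneg _),
    hI]
  apply ENNReal.ofReal_le_ofReal
  have : 0 ≤ ∑ e ∈ F, t e ^ 2 := Finset.sum_nonneg fun _ _ => sq_nonneg _
  nlinarith [sq_nonneg p]

theorem cher : S_CHER := by
  intro N _ c F p hp
  classical
  rcases F.eq_empty_or_nonempty with h0 | ⟨e0, he0⟩
  · subst h0
    simp
  have hp0 : 0 ≤ p := by rw [← hp e0 he0]; exact NNReal.coe_nonneg _
  have hp1 : p ≤ 1 := by rw [← hp e0 he0]; exact_mod_cast prE_le N c e0
  have hsum : ∀ ω : Cf N, ((F.filter fun e => ω e = true).card : ℝ) = (∑ e ∈ F, X e) ω := by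
    intro ω
    rw [Finset.sum_apply, Finset.card_filter]
    push_cast
    rfl
  have hmgf : ∀ e ∈ F, mgf (X e) (PP N c) (-Real.log 2) = 1 - p / 2 := by
    intro e he
    unfold mgf
    have h1 : (fun ω : Cf N => Real.exp (-Real.log 2 * X e ω)) =
        fun ω => 1 + Set.indicator {ω : Cf N | ω e = true} (fun _ => (-(1 / 2) : ℝ)) ω := by
      funext ω
      unfold X
      by_cases h : ω e = true
      · simp only [h, if_true, Set.indicator_apply, Set.mem_ofPred_eq]
        rw [mul_one, Real.exp_neg, Real.exp_log (by norm_num)]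
        norm_num
      · simp [h]
    rw [h1, integral_add (integrable_const _) ((integrable_const _).indicator (meas_open e)),
      integral_const, integral_indicator_const _ (meas_open e), Measure.real, Measure.real,
      measure_univ, CloL.open_one, ENNReal.coe_toReal, hp e he]
    simp
    ring
  have hind := (X_indep (N := N) c).mgf_sum (t := -Real.log 2) (fun e => X_meas e) F
  rw [Finset.prod_congr rfl hmgf, Finset.prod_const] at hind
  have hlog : 0 < Real.log 2 := Real.log_pos (by norm_num)
  have hlog2 : Real.log 2 < 0.6931471808 := Real.log_two_lt_d9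
  have hbd : ∀ ω : Cf N, |(∑ e ∈ F, X e) ω| ≤ F.card := by
    intro ω
    rw [← hsum, abs_of_nonneg (by positivity)]
    exact_mod_cast Finset.card_filter_le _ _
  have hintg : Integrable (fun ω => Real.exp (-Real.log 2 * (∑ e ∈ F, X e) ω)) (PP N c) := by
    refine Integrable.of_bound ?_ (Real.exp (Real.log 2 * F.card)) ?_
    · have hm : Measurable (∑ e ∈ F, X e : Cf N → ℝ) := by
        have h2 : (∑ e ∈ F, X e : Cf N → ℝ) = fun ω => ∑ e ∈ F, X e ω := by
          funext ω; rw [Finset.sum_apply]
        rw [h2]
        exact Finset.measurable_sum F fun e _ => X_meas e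
      exact (Real.measurable_exp.comp (hm.const_mul _)).aestronglyMeasurable
    · filter_upwards with ω
      rw [Real.norm_eq_abs, abs_of_pos (Real.exp_pos _)]
      apply Real.exp_le_exp.2
      have := hbd ω
      rw [abs_le] at this
      nlinarith
  have hch := measure_le_le_exp_mul_mgf (μ := PP N c) (X := (∑ e ∈ F, X e : Cf N → ℝ))
    (p * F.card / 2) (t := -Real.log 2) (by linarith) hintg
  have hsub : {ω : Cf N | ((F.filter fun e => ω e = true).card : ℝ) < p * F.card / 2} ⊆
      {ω | (∑ e ∈ F, X e : Cf N → ℝ) ω ≤ p * F.card / 2} := by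
    intro ω hω
    rw [Set.mem_ofPred_eq, hsum] at hω
    exact hω.le
  refine (measure_mono hsub).trans ?_
  rw [← ofReal_measureReal]
  apply ENNReal.ofReal_le_ofReal
  refine hch.trans ?_
  rw [hind]
  have h5 : (1 - p / 2) ^ F.card ≤ Real.exp (-(p / 2) * F.card) := by
    rw [mul_comm, Real.exp_nat_mul]
    apply pow_le_pow_left₀ (by linarith)
    have := Real.add_one_le_exp (-(p / 2))
    linarith
  calc Real.exp (-(-Real.log 2) * (p * F.card / 2)) * (1 - p / 2) ^ F.card
      ≤ Real.exp (-(-Real.log 2) * (p * F.card / 2)) * Real.exp (-(p / 2) * F.card) :=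
        mul_le_mul_of_nonneg_left h5 (Real.exp_pos _).le
    _ = Real.exp (-(-Real.log 2) * (p * F.card / 2) + -(p / 2) * F.card) := by rw [Real.exp_add]
    _ ≤ Real.exp (-(p * F.card / 8)) := by
        apply Real.exp_le_exp.2
        have hF : (0 : ℝ) ≤ F.card := Nat.cast_nonneg _
        have hpF : 0 ≤ p * F.card := mul_nonneg hp0 hF
        nlinarith

end Pool.Agent.Helper98K9.HP
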