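import Pool.Agent.Helper98K9.HP.St

set_option autoImplicit false

namespace Pool.Agent.Helper98K9.HP

open MeasureTheory ProbabilityTheory Filter Topology
open scoped ENNReal NNReal

namespace BinbL

theorem ins_disjoint {N : ℕ} [NeZero N] {k l : ℕ} {x z z' : V N} (hz : z ∈ subs k l x)
    (hz' : z' ∈ subs k l x) (hne : z ≠ z') : Disjoint (ins k z) (ins k z') := by
  rw [Set.disjoint_left]
  intro e he he'
  induction e using Sym2.ind with
  | _ u v =>
    exact Finset.disjoint_left.1 (subs_disjoint hz hz' hne) (he u (Sym2.mem_mk_left u v))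
      (he' u (Sym2.mem_mk_left u v))

theorem dep_compl {N : ℕ} {D : Set (Ed N)} {E : Set (Cf N)} (h : Dep D (fun ω => ω ∈ E)) :
    Dep D (fun ω => ω ∈ Eᶜ) := by
  intro ω ω' hω
  have := eq_iff_iff.1 (h ω ω' hω)
  exact eq_iff_iff.2 (not_congr this)

theorem fact (m : ℕ) : ((m : ℝ) / 3) ^ m ≤ (m.factorial : ℝ) := by
  have h1 := Real.pow_div_factorial_le_exp (m : ℝ) (Nat.cast_nonneg m) m
  have h2 : Real.exp (m : ℝ) ≤ 3 ^ m := by
    have h3 : Real.exp (m : ℝ) = Real.exp 1 ^ m := by rw [← Real.exp_nat_mul, mul_one]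
    rw [h3]
    exact pow_le_pow_left₀ (Real.exp_pos _).le (by linarith [Real.exp_one_lt_d9]) m
  have hf : (0 : ℝ) < m.factorial := by exact_mod_cast m.factorial_pos
  rw [div_le_iff₀ hf] at h1
  rw [div_pow, div_le_iff₀ (by positivity)]
  calc (m : ℝ) ^ m ≤ Real.exp m * m.factorial := h1
    _ ≤ 3 ^ m * m.factorial := mul_le_mul_of_nonneg_right h2 hf.le
    _ = m.factorial * 3 ^ m := mul_comm _ _

theorem choose_bd (n m : ℕ) (hm : 0 < m) (q : ℝ) (hq : 0 ≤ q) :
    (n.choose m : ℝ) * q ^ m ≤ (3 * n * q / m) ^ m := by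
  have h1 : (n.choose m : ℝ) ≤ (n : ℝ) ^ m / m.factorial := Nat.choose_le_pow_div m n
  have hmR : (0 : ℝ) < m := by exact_mod_cast hm
  have h2 := fact m
  have h3 : (n : ℝ) ^ m / m.factorial ≤ (n : ℝ) ^ m / ((m : ℝ) / 3) ^ m :=
    div_le_div_of_nonneg_left (by positivity) (by positivity) h2
  calc (n.choose m : ℝ) * q ^ m ≤ (n : ℝ) ^ m / ((m : ℝ) / 3) ^ m * q ^ m :=
        mul_le_mul_of_nonneg_right (h1.trans h3) (by positivity)
    _ = (3 * n * q / m) ^ m := by
        rw [← div_pow, ← mul_pow]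
        congr 1
        field_simp

end BinbL

open BinbL

open Classical in
theorem binb : S_INDF → S_BINB := by
  intro hindf N _ c k l r x q E hq hE
  set n := N ^ l with hn
  have hcard : (subs k l x).card = n := card_subs k l x
  have hsub : {ω : Cf N | r < ((subs k l x).filter fun z => ω ∉ E z).card} ⊆
      ⋃ S ∈ Finset.powersetCard (r + 1) (subs k l x), ⋂ z ∈ S, (E z)ᶜ := by
    intro ω hω
    obtain ⟨S, hS, hSc⟩ := Finset.exists_subset_card_eq (show r + 1 ≤ _ from hω)
    simp only [Set.mem_iUnion]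
    refine ⟨S, Finset.mem_powersetCard.2 ⟨hS.trans (Finset.filter_subset _ _), hSc⟩, ?_⟩
    simp only [Set.mem_iInter]
    intro z hz
    exact (Finset.mem_filter.1 (hS hz)).2
  refine (measure_mono hsub).trans ((measure_biUnion_finset_le _ _).trans ?_)
  have hterm : ∀ S ∈ Finset.powersetCard (r + 1) (subs k l x),
      PP N c (⋂ z ∈ S, (E z)ᶜ) ≤ ENNReal.ofReal q ^ (r + 1) := by
    intro S hS
    rw [Finset.mem_powersetCard] at hS
    rw [hindf N c (V N) S (fun z => ins k z) (fun z => (E z)ᶜ)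
      (fun i hi j hj hij => ins_disjoint (hS.1 hi) (hS.1 hj) hij)
      (fun i hi => dep_compl (hE i (hS.1 hi)).1) (fun i hi => (hE i (hS.1 hi)).2.1.compl)]
    rw [← hS.2]
    exact Finset.prod_le_pow_card _ _ _ fun z hz => (hE z (hS.1 hz)).2.2
  refine (Finset.sum_le_sum hterm).trans ?_
  rw [Finset.sum_const, Finset.card_powersetCard, hcard, nsmul_eq_mul, ← ENNReal.ofReal_pow hq,
    ← ENNReal.ofReal_natCast, ← ENNReal.ofReal_mul (Nat.cast_nonneg _)]
  apply ENNReal.ofReal_le_ofReal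
  have := choose_bd n (r + 1) (Nat.succ_pos r) q hq
  rw [hn] at this ⊢
  push_cast at this ⊢
  exact this

end Pool.Agent.Helper98K9.HP
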