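import Pool.Agent.Helper98K9.HP.St2

set_option autoImplicit false

namespace Pool.Agent.Helper98K9.HP

open Filter Topology

namespace BootL

/-- one step of the error recursion -/
theorem stepq {Nl γ q e : ℝ} {r : ℕ} {Y Y' : ℝ} (hNl : 0 < Nl) (hγ : 0 < γ)
    (hr : γ * Nl ≤ (r : ℝ) + 1) (hq0 : 0 ≤ q) (hq : q = γ / 3 * Real.exp (-(2 * Y)))
    (hY : 4 * Y' ≤ 2 * Y * (γ * Nl)) (hY0 : 0 ≤ Y) (h6 : 6 / γ ≤ Real.exp (2 * Y'))
    (he : e ≤ γ / 6 * Real.exp (-(2 * Y'))) :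
    (3 * Nl * q / (r + 1)) ^ (r + 1) + e ≤ γ / 3 * Real.exp (-(2 * Y')) := by
  have hr1 : (0 : ℝ) < r + 1 := by positivity
  have h1 : 3 * Nl * q / (r + 1) ≤ Real.exp (-(2 * Y)) := by
    rw [div_le_iff₀ hr1, hq]
    have : 3 * Nl * (γ / 3 * Real.exp (-(2 * Y))) = Real.exp (-(2 * Y)) * (γ * Nl) := by ring
    rw [this]
    exact mul_le_mul_of_nonneg_left hr (Real.exp_pos _).le
  have h0 : 0 ≤ 3 * Nl * q / (r + 1) := by positivity
  have h2 : (3 * Nl * q / (r + 1)) ^ (r + 1) ≤ Real.exp (-(4 * Y')) := by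
    refine (pow_le_pow_left₀ h0 h1 _).trans ?_
    rw [← Real.exp_nat_mul, Real.exp_le_exp]
    push_cast
    have := mul_le_mul_of_nonneg_left hr (mul_nonneg (by norm_num : (0:ℝ) ≤ 2) hY0)
    linarith
  have h3 : Real.exp (-(4 * Y')) ≤ γ / 6 * Real.exp (-(2 * Y')) := by
    have e1 : Real.exp (-(4 * Y')) = Real.exp (-(2 * Y')) * Real.exp (-(2 * Y')) := by
      rw [← Real.exp_add]; congr 1; ring
    rw [e1]
    refine mul_le_mul_of_nonneg_right ?_ (Real.exp_pos _).le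
    rw [Real.exp_neg, inv_le_comm₀ (Real.exp_pos _) (by positivity)]
    rw [inv_div]
    exact h6
  linarith

end BootL

open BootL

theorem boot : S_BOOT := by
  intro N c a0 η β L hN ha0 hη hη1 hc hβ hβ1 hR hL K0
  have hN0 : (0 : ℝ) < N := by positivity
  have hN1 : (1 : ℝ) < N := by exact_mod_cast (by omega : 1 < N)
  have hN2 : (2 : ℝ) ≤ N := by exact_mod_cast hN
  obtain ⟨k1, hstep⟩ := hR.step
  -- parameters
  obtain ⟨s, hs⟩ : ∃ s : ℕ, 16 / η + 4 ≤ (s : ℝ) := exists_nat_ge _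
  have hs0 : (0 : ℝ) < s := lt_of_lt_of_le (by positivity) hs
  have h16 : 0 < 16 / η := by positivity
  have hs4 : (4 : ℝ) ≤ s := by linarith
  set γ : ℝ := 1 / (8 * s) with hγ
  have hγ0 : 0 < γ := by positivity
  have hγs : (s : ℝ) * γ = 1 / 8 := by rw [hγ]; field_simp
  have hγ1 : γ ≤ 1 / 8 := by
    rw [hγ]
    exact one_div_le_one_div_of_le (by norm_num) (by linarith)
  set δ : ℝ := (1 + η / 4) / s with hδ
  have hδ0 : 0 < δ := by positivity
  have hδ4 : 4 * δ ≤ η / 4 := by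
    have h1 : 16 + 4 * η ≤ s * η := by
      have := mul_le_mul_of_nonneg_right hs hη.le
      have e : (16 / η + 4) * η = 16 + 4 * η := by field_simp
      linarith
    rw [hδ, mul_div_assoc', div_le_iff₀ hs0]
    linarith
  set C : ℝ := (3 / 4 * β) ^ 2 * a0 / 8 with hC
  have hC0 : 0 < C := by positivity
  obtain ⟨n0, hn0⟩ := hL (γ / 3 * Real.exp (-(2 * 1))) (by positivity)
  -- large n
  have htend : ∀ e : ℝ, 0 < e → Tendsto (fun n : ℕ => (n : ℝ) ^ e) atTop atTop := fun e he =>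
    (tendsto_rpow_atTop he).comp tendsto_natCast_atTop_atTop
  obtain ⟨n, hnK, hnn0, hnk1, hn1, hA, hB, hD, hE⟩ : ∃ n : ℕ, K0 ≤ n ∧ n0 ≤ n ∧ k1 ≤ n ∧ 1 ≤ n ∧
      2 * N / γ ≤ (n : ℝ) ^ δ ∧ 4 / C ≤ (n : ℝ) ^ (η / 2) ∧
      (1 + s) * Real.log N ≤ (n : ℝ) ^ (η / 4) ∧ 6 / γ ≤ (n : ℝ) ^ (1 + η / 4) := by
    have h := ((eventually_ge_atTop K0).and ((eventually_ge_atTop n0).and
      ((eventually_ge_atTop k1).and ((eventually_ge_atTop 1).and
      (((htend δ hδ0).eventually_ge_atTop (2 * N / γ)).and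
      (((htend (η / 2) (by positivity)).eventually_ge_atTop (4 / C)).and
      (((htend (η / 4) (by positivity)).eventually_ge_atTop ((1 + s) * Real.log N)).and
      ((htend (1 + η / 4) (by positivity)).eventually_ge_atTop (6 / γ)))))))))
    exact h.exists
  have hnR : (1 : ℝ) ≤ n := by exact_mod_cast hn1
  have hnR0 : (0 : ℝ) < n := by linarith
  set y : ℝ := (n : ℝ) ^ δ with hy
  set T : ℝ := (n : ℝ) ^ (1 + η / 4) with hT
  have hys : y ^ s = T := by
    rw [hy, hT, ← Real.rpow_natCast, ← Real.rpow_mul hnR0.le]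
    congr 1
    rw [hδ]; field_simp
  have hy4 : y ^ 4 ≤ (n : ℝ) ^ (η / 4) := by
    rw [hy, ← Real.rpow_natCast, ← Real.rpow_mul hnR0.le]
    apply Real.rpow_le_rpow_of_exponent_le hnR
    push_cast; linarith
  have hyA : 4 / γ ≤ y := by
    refine le_trans ?_ hA
    rw [div_le_div_iff_of_pos_right hγ0]; linarith
  have hy1 : 1 ≤ y := by
    have : 1 ≤ 4 / γ := by rw [le_div_iff₀ hγ0]; linarith
    linarith
  have hy0 : 0 < y := by linarith
  obtain ⟨l, hl1, hl2⟩ := exists_nat_pow_near (x := y ^ 2) (y := (N : ℝ)) (one_le_pow₀ hy1) hN1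
  have hNl : (0 : ℝ) < (N : ℝ) ^ l := by positivity
  set r : ℕ := ⌊γ * (N : ℝ) ^ l⌋₊ with hr
  have hr1 : γ * (N : ℝ) ^ l ≤ (r : ℝ) + 1 := (Nat.lt_floor_add_one _).le
  have hr2 : (r : ℝ) ≤ γ * (N : ℝ) ^ l := Nat.floor_le (by positivity)
  have hrN : r < N ^ l := by
    have : (r : ℝ) < ((N ^ l : ℕ) : ℝ) := by
      push_cast
      have := mul_le_mul_of_nonneg_right hγ1 hNl.le
      linarith
    exact_mod_cast this
  set d : ℝ := 1 - r / (N : ℝ) ^ l with hd
  have hd1 : d ≤ 1 := by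
    have : 0 ≤ (r : ℝ) / (N : ℝ) ^ l := by positivity
    linarith
  have hdγ : 1 - γ ≤ d := by
    have : (r : ℝ) / (N : ℝ) ^ l ≤ γ := by rw [div_le_iff₀ hNl]; exact hr2
    linarith
  have hd0 : 0 < d := by linarith
  have hdi : ∀ i : ℕ, i ≤ s → 3 / 4 ≤ d ^ i := by
    intro i hi
    have h1 : (1 - γ) ^ i ≤ d ^ i := pow_le_pow_left₀ (by linarith) hdγ i
    have h2 : 1 + (i : ℝ) * (-γ) ≤ (1 + (-γ)) ^ i := one_add_mul_le_pow (by linarith) i
    have h3 : (i : ℝ) * γ ≤ 1 / 8 := by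
      rw [← hγs]
      exact mul_le_mul_of_nonneg_right (by exact_mod_cast hi) hγ0.le
    have h4 : (1 + (-γ)) ^ i = (1 - γ) ^ i := by rw [← sub_eq_add_neg]
    rw [h4] at h2
    linarith
  -- sizes
  have hNy : y ^ 2 / N ≤ (N : ℝ) ^ l := by
    rw [div_le_iff₀ hN0, ← pow_succ]
    exact hl2.le
  have h2y : 2 * y ≤ γ * (N : ℝ) ^ l := by
    have h1 : γ * (y ^ 2 / N) ≤ γ * (N : ℝ) ^ l := mul_le_mul_of_nonneg_left hNy hγ0.le
    have h2 : 2 * y ≤ γ * (y ^ 2 / N) := by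
      rw [div_le_iff₀ hγ0] at hA
      rw [mul_div_assoc', le_div_iff₀ hN0]
      calc 2 * y * N = y * (2 * N) := by ring
        _ ≤ y * (y * γ) := mul_le_mul_of_nonneg_left hA hy0.le
        _ = γ * y ^ 2 := by ring
    linarith
  have hN2l : (N : ℝ) ^ (2 * l) ≤ (n : ℝ) ^ (η / 4) := by
    refine le_trans ?_ hy4
    calc (N : ℝ) ^ (2 * l) = ((N : ℝ) ^ l) ^ 2 := by rw [mul_comm, pow_mul]
      _ ≤ (y ^ 2) ^ 2 := pow_le_pow_left₀ hNl.le hl1 2
      _ = y ^ 4 := by ring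
  have hT6 : 6 / γ ≤ Real.exp T := hE.trans ((by linarith [Real.add_one_le_exp T]))
  have hTn : (n : ℝ) ^ (η / 4) ≤ T :=
    Real.rpow_le_rpow_of_exponent_le hnR (by linarith)
  have herr : ∀ (k : ℕ) (ρ : ℝ), n ≤ k → 3 / 4 * β ≤ ρ →
      (N : ℝ) ^ (2 * l) * Real.exp (-(ρ ^ 2 * c (k + 1) / (N : ℝ) ^ (2 * l) / 8)) ≤
        γ / 6 * Real.exp (-(2 * T)) := by
    intro k ρ hk hρ
    have hN2p : (0 : ℝ) < (N : ℝ) ^ (2 * l) := by positivity
    have h1 : a0 * (n : ℝ) ^ (1 + η) ≤ c (k + 1) := by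
      refine le_trans ?_ (hc (k + 1) (by omega))
      refine mul_le_mul_of_nonneg_left ?_ ha0.le
      refine Real.rpow_le_rpow hnR0.le ?_ (by linarith)
      exact_mod_cast (by omega : n ≤ k + 1)
    have h2 : (3 / 4 * β) ^ 2 ≤ ρ ^ 2 := pow_le_pow_left₀ (by positivity) hρ 2
    have h3 : 4 * T ≤ ρ ^ 2 * c (k + 1) / (N : ℝ) ^ (2 * l) / 8 := by
      rw [div_div, le_div_iff₀ (by positivity)]
      have h4 : (3 / 4 * β) ^ 2 * (a0 * (n : ℝ) ^ (1 + η)) ≤ ρ ^ 2 * c (k + 1) :=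
        mul_le_mul h2 h1 (by positivity) (by positivity)
      refine le_trans ?_ h4
      have h5 : (n : ℝ) ^ (1 + η) = T * (n : ℝ) ^ (η / 2) * (n : ℝ) ^ (η / 4) := by
        rw [hT, ← Real.rpow_add hnR0, ← Real.rpow_add hnR0]
        congr 1; ring
      have h6 : 4 ≤ C * (n : ℝ) ^ (η / 2) := by
        rw [div_le_iff₀ hC0] at hB; linarith
      have hT0 : 0 ≤ T := by positivity
      have e1 : (3 / 4 * β) ^ 2 * (a0 * (n : ℝ) ^ (1 + η)) =
          8 * (C * (n : ℝ) ^ (η / 2)) * (T * (n : ℝ) ^ (η / 4)) := by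
        rw [h5, hC]; ring
      rw [e1]
      have h7 : T * (N : ℝ) ^ (2 * l) ≤ T * (n : ℝ) ^ (η / 4) :=
        mul_le_mul_of_nonneg_left hN2l hT0
      have h8 : 0 ≤ T * (n : ℝ) ^ (η / 4) := by positivity
      have h9 : 8 * 4 * (T * (n : ℝ) ^ (η / 4)) ≤
          8 * (C * (n : ℝ) ^ (η / 2)) * (T * (n : ℝ) ^ (η / 4)) :=
        mul_le_mul_of_nonneg_right (by linarith) h8
      calc 4 * T * ((N : ℝ) ^ (2 * l) * 8) = 32 * (T * (N : ℝ) ^ (2 * l)) := by ring
        _ ≤ 32 * (T * (n : ℝ) ^ (η / 4)) := mul_le_mul_of_nonneg_left h7 (by norm_num)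
        _ = 8 * 4 * (T * (n : ℝ) ^ (η / 4)) := by ring
        _ ≤ _ := h9
    have h10 : Real.exp (-(ρ ^ 2 * c (k + 1) / (N : ℝ) ^ (2 * l) / 8)) ≤ Real.exp (-(4 * T)) :=
      Real.exp_le_exp.2 (by linarith)
    have h11 : (N : ℝ) ^ (2 * l) ≤ Real.exp T := by
      linarith [Real.add_one_le_exp T]
    have h12 : 1 ≤ γ / 6 * Real.exp T := by
      rw [div_le_iff₀ hγ0] at hT6
      linarith
    calc (N : ℝ) ^ (2 * l) * Real.exp (-(ρ ^ 2 * c (k + 1) / (N : ℝ) ^ (2 * l) / 8))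
        ≤ Real.exp T * Real.exp (-(4 * T)) :=
          mul_le_mul h11 h10 (Real.exp_pos _).le (Real.exp_pos _).le
      _ = 1 * Real.exp (-(3 * T)) := by rw [one_mul, ← Real.exp_add]; congr 1; ring
      _ ≤ γ / 6 * Real.exp T * Real.exp (-(3 * T)) :=
          mul_le_mul_of_nonneg_right h12 (Real.exp_pos _).le
      _ = γ / 6 * Real.exp (-(2 * T)) := by rw [mul_assoc, ← Real.exp_add]; congr 2; ring
  -- induction
  have hind : ∀ i : ℕ, i ≤ s → ∃ a, 0 ≤ a ∧
      L (n + i * l) (β * d ^ i) (γ / 3 * Real.exp (-(2 * y ^ i))) a := by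
    intro i
    induction i with
    | zero =>
      intro _
      refine ⟨2 * (N : ℝ) ^ n, by positivity, ?_⟩
      simpa using hn0 n hnn0
    | succ i ih =>
      intro hi
      obtain ⟨a, ha, hLa⟩ := ih (by omega)
      have hρ0 : 0 < β * d ^ i := by positivity
      have hρ1 : β * d ^ i ≤ 1 := by
        exact mul_le_one₀ hβ1 (pow_nonneg hd0.le i) (pow_le_one₀ hd0.le hd1)
      have hρ2 : 3 / 4 * β ≤ β * d ^ i := by
        have := mul_le_mul_of_nonneg_left (hdi i (by omega)) hβ.le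
        linarith
      have hk : k1 ≤ n + i * l := le_trans hnk1 (Nat.le_add_right _ _)
      have h1 := hstep (n + i * l) hk (β * d ^ i) (γ / 3 * Real.exp (-(2 * y ^ i))) a l r hρ0 hρ1
        (by positivity) ha hrN hLa
      have hcpos : 0 < c (n + i * l + 1) := by
        refine lt_of_lt_of_le ?_ (hc _ (by omega))
        positivity
      refine ⟨_, ?_, hR.mono _ _ _ _ _ _ _ (by
        rw [show n + (i + 1) * l = n + i * l + l by ring]; exact h1) ?_ ?_ le_rfl⟩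
      · positivity
      · rw [← hd, pow_succ, ← mul_assoc]
      · have hyi : y ≤ y ^ (i + 1) := by
          calc y = y ^ 1 := (pow_one y).symm
            _ ≤ y ^ (i + 1) := pow_le_pow_right₀ hy1 (by omega)
        refine stepq (Y := y ^ i) hNl hγ0 hr1 (by positivity) rfl ?_ (by positivity) ?_ ?_
        · have := mul_le_mul_of_nonneg_left h2y (by positivity : (0:ℝ) ≤ 2 * y ^ i)
          calc 4 * y ^ (i + 1) = 2 * y ^ i * (2 * y) := by ring
            _ ≤ _ := this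
        · have h2 : 6 / γ ≤ 2 * y ^ (i + 1) := by
            have h3 : 6 / γ ≤ 2 * (4 / γ) := by
              rw [mul_div_assoc', div_le_div_iff_of_pos_right hγ0]; norm_num
            linarith
          linarith [Real.add_one_le_exp (2 * y ^ (i + 1))]
        · refine (herr (n + i * l) (β * d ^ i) (Nat.le_add_right _ _) hρ2).trans ?_
          refine mul_le_mul_of_nonneg_left ?_ (by positivity)
          rw [Real.exp_le_exp, ← hys]
          have := pow_le_pow_right₀ hy1 hi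
          linarith
  obtain ⟨a, ha, hLa⟩ := hind s le_rfl
  refine ⟨n + s * l, by omega, a, ha, hR.mono _ _ _ _ _ _ _ hLa ?_ ?_ le_rfl⟩
  · have := mul_le_mul_of_nonneg_left (hdi s le_rfl) hβ.le
    linarith
  · rw [hys]
    have h1 : (l : ℝ) ≤ n := by
      have h2 : l ≤ N ^ l := (Nat.lt_pow_self (by omega)).le
      have h3 : (l : ℝ) ≤ (N : ℝ) ^ l := by exact_mod_cast h2
      have h4 : y ^ 2 ≤ y ^ 4 := pow_le_pow_right₀ hy1 (by norm_num)
      have h5 : (n : ℝ) ^ (η / 4) ≤ (n : ℝ) ^ (1 : ℝ) :=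
        Real.rpow_le_rpow_of_exponent_le hnR (by linarith)
      rw [Real.rpow_one] at h5
      linarith
    have hlog : 0 ≤ Real.log N := Real.log_nonneg hN1.le
    have h2 : ((n + s * l : ℕ) : ℝ) * Real.log N ≤ 2 * T := by
      push_cast
      have h3 : ((n : ℝ) + s * l) ≤ n * (1 + s) := by
        have := mul_le_mul_of_nonneg_left h1 hs0.le
        linarith
      have h4 : T = n * (n : ℝ) ^ (η / 4) := by
        rw [hT, Real.rpow_add hnR0, Real.rpow_one]
      have h5 : ((n : ℝ) + s * l) * Real.log N ≤ n * (1 + s) * Real.log N :=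
        mul_le_mul_of_nonneg_right h3 hlog
      have h6 : (n : ℝ) * ((1 + s) * Real.log N) ≤ n * (n : ℝ) ^ (η / 4) :=
        mul_le_mul_of_nonneg_left hD hnR0.le
      have h7 : 0 ≤ T := by positivity
      have h8 : (n : ℝ) * (1 + s) * Real.log N = n * ((1 + s) * Real.log N) := by ring
      linarith
    have h3 : ((N : ℝ) ^ (n + s * l))⁻¹ = Real.exp (-(((n + s * l : ℕ) : ℝ) * Real.log N)) := by
      rw [Real.exp_neg, Real.exp_nat_mul, Real.exp_log hN0]
    rw [h3]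
    calc γ / 3 * Real.exp (-(2 * T)) ≤ 1 * Real.exp (-(2 * T)) :=
          mul_le_mul_of_nonneg_right (by linarith) (Real.exp_pos _).le
      _ = Real.exp (-(2 * T)) := one_mul _
      _ ≤ _ := Real.exp_le_exp.2 (by linarith)

end Pool.Agent.Helper98K9.HP
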