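import Pool.Agent.Helper98K9.HP.St

set_option autoImplicit false

namespace Pool.Agent.Helper98K9.HP

open MeasureTheory ProbabilityTheory Filter Topology
open scoped ENNReal NNReal

namespace CloL

variable {N : ℕ}

theorem bern_false (p : ℝ≥0) (hp : p ≤ 1) :
    (PMF.bernoulli p hp).toMeasure {false} = ((1 - p : ℝ≥0) : ℝ≥0∞) := by
  rw [PMF.toMeasure_apply_singleton _ _ (measurableSet_singleton _), PMF.bernoulli_apply,
    Bool.cond_false]

theorem bern_true (p : ℝ≥0) (hp : p ≤ 1) :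
    (PMF.bernoulli p hp).toMeasure {true} = (p : ℝ≥0∞) := by
  rw [PMF.toMeasure_apply_singleton _ _ (measurableSet_singleton _), PMF.bernoulli_apply,
    Bool.cond_true]

/-- probability that all edges of a finite set are closed -/
theorem closed_fin (c : ℕ → ℝ) (F : Finset (Ed N)) :
    PP N c {ω | ∀ e ∈ F, ω e = false} = ∏ e ∈ F, ((1 - prE N c e : ℝ≥0) : ℝ≥0∞) := by
  have h : {ω : Cf N | ∀ e ∈ F, ω e = false} = (F : Set (Ed N)).pi fun _ => {false} := by
    ext ω
    simp [Set.mem_pi]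
  rw [h]
  unfold PP
  rw [Measure.infinitePi_pi _ (fun i _ => measurableSet_singleton _)]
  exact Finset.prod_congr rfl fun e _ => bern_false _ _

theorem open_one (c : ℕ → ℝ) (e : Ed N) :
    PP N c {ω | ω e = true} = (prE N c e : ℝ≥0∞) := by
  have h : {ω : Cf N | ω e = true} = (({e} : Finset (Ed N)) : Set (Ed N)).pi fun _ => {true} := by
    ext ω
    simp [Set.mem_pi]
  rw [h]
  unfold PP
  rw [Measure.infinitePi_pi _ (fun i _ => measurableSet_singleton _), Finset.prod_singleton]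
  exact bern_true _ _

theorem one_sub_coe (c : ℕ → ℝ) (e : Ed N) :
    ((1 - prE N c e : ℝ≥0) : ℝ≥0∞) = ENNReal.ofReal (1 - (prE N c e : ℝ)) := by
  have h : (1 : ℝ) - (prE N c e : ℝ) = ((1 - prE N c e : ℝ≥0) : ℝ) := by
    rw [NNReal.coe_sub (prE_le N c e), NNReal.coe_one]
  rw [h, ENNReal.ofReal_coe_nnreal]

theorem closed_fin' (c : ℕ → ℝ) (F : Finset (Ed N)) :
    PP N c {ω | ∀ e ∈ F, ω e = false} = ENNReal.ofReal (∏ e ∈ F, (1 - (prE N c e : ℝ))) := by
  rw [closed_fin, ENNReal.ofReal_prod_of_nonneg]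
  · exact Finset.prod_congr rfl fun e _ => one_sub_coe c e
  · intro e _
    have : (prE N c e : ℝ) ≤ 1 := by exact_mod_cast prE_le N c e
    linarith

/-- `exp (-2p) ≤ 1 - p` for `0 ≤ p ≤ 1/2` -/
theorem exp_le {p : ℝ} (h0 : 0 ≤ p) (h1 : p ≤ 1 / 2) : Real.exp (-(2 * p)) ≤ 1 - p := by
  -- 1/(1-p) = 1 + p/(1-p) ≤ exp(p/(1-p)) ≤ exp(2p)
  have hp : 0 < 1 - p := by linarith
  have h2 : (1 - p)⁻¹ ≤ Real.exp (2 * p) := by
    have h3 : (1 - p)⁻¹ = p / (1 - p) + 1 := by field_simp; ring
    have h4 : p / (1 - p) ≤ 2 * p := by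
      rw [div_le_iff₀ hp]
      nlinarith
    calc (1 - p)⁻¹ = p / (1 - p) + 1 := h3
      _ ≤ Real.exp (p / (1 - p)) := Real.add_one_le_exp _
      _ ≤ Real.exp (2 * p) := Real.exp_le_exp.2 h4
  rw [Real.exp_neg]
  rw [inv_le_comm₀ (Real.exp_pos _) hp]
  exact h2

end CloL

open CloL

theorem clof : S_CLOF := by
  intro N _ c F
  rw [closed_fin']
  apply ENNReal.ofReal_le_ofReal
  rw [← Finset.sum_neg_distrib, Real.exp_sum]
  apply Finset.prod_le_prod
  · intro e _
    have : (prE N c e : ℝ) ≤ 1 := by exact_mod_cast prE_le N c e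
    linarith
  · intro e _
    have := Real.add_one_le_exp (-(prE N c e : ℝ))
    linarith

theorem clo : S_CLO := by
  intro N _ c D s hs hD hsum
  classical
  -- finite subsets
  have hfin : ∀ F : Finset (Ed N), (F : Set (Ed N)) ⊆ D →
      ENNReal.ofReal (Real.exp (-(2 * s))) ≤ PP N c {ω | ∀ e ∈ F, ω e = false} := by
    intro F hF
    rw [closed_fin']
    apply ENNReal.ofReal_le_ofReal
    have hs' : ∑ e ∈ F, (prE N c e : ℝ) ≤ s := by
      have h1 : ∑ e ∈ F, (prE N c e : ℝ≥0∞) ≤ ENNReal.ofReal s := by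
        refine le_trans ?_ hsum
        have h2 : ∑ e ∈ F, (prE N c e : ℝ≥0∞) =
            ∑ e ∈ (F.subtype (· ∈ D)), (prE N c (e : Ed N) : ℝ≥0∞) := by
          rw [Finset.sum_subtype_of_mem (f := fun e : Ed N => (prE N c e : ℝ≥0∞))]
          intro e he
          exact hF he
        rw [h2]
        exact ENNReal.sum_le_tsum _
      have h3 : ENNReal.ofReal (∑ e ∈ F, (prE N c e : ℝ)) = ∑ e ∈ F, (prE N c e : ℝ≥0∞) := by
        rw [ENNReal.ofReal_sum_of_nonneg fun e _ => NNReal.coe_nonneg _]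
        exact Finset.sum_congr rfl fun e _ => ENNReal.ofReal_coe_nnreal
      rw [← h3] at h1
      exact (ENNReal.ofReal_le_ofReal_iff hs).1 h1
    calc Real.exp (-(2 * s)) ≤ Real.exp (-(2 * ∑ e ∈ F, (prE N c e : ℝ))) := by
          apply Real.exp_le_exp.2
          linarith
      _ = ∏ e ∈ F, Real.exp (-(2 * (prE N c e : ℝ))) := by
          rw [← Real.exp_sum, Finset.mul_sum, Finset.sum_neg_distrib]
      _ ≤ ∏ e ∈ F, (1 - (prE N c e : ℝ)) := by
          apply Finset.prod_le_prod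
          · intro e _; exact (Real.exp_pos _).le
          · intro e he
            exact exp_le (NNReal.coe_nonneg _) (hD e (hF he))
  -- countable limit
  have : Countable D := inferInstance
  obtain ⟨F, hFm, hFD⟩ : ∃ F : ℕ → Finset (Ed N), Monotone F ∧ (⋃ n, (F n : Set (Ed N))) = D := by
    rcases D.eq_empty_or_nonempty with h0 | h0
    · refine ⟨fun _ => ∅, monotone_const, ?_⟩
      simp [h0]
    · obtain ⟨f, hf⟩ := D.to_countable.exists_eq_range h0
      refine ⟨fun n => (Finset.range n).image f, ?_, ?_⟩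
      · intro m n hmn
        exact Finset.image_subset_image (Finset.range_mono hmn)
      · rw [hf]
        ext e
        simp only [Set.mem_iUnion, Finset.coe_image, Finset.coe_range, Set.mem_image, Set.mem_Iio,
          Set.mem_range]
        constructor
        · rintro ⟨n, m, _, h⟩; exact ⟨m, h⟩
        · rintro ⟨m, h⟩; exact ⟨m + 1, m, by omega, h⟩
  have hset : {ω : Cf N | ∀ e ∈ D, ω e = false} = ⋂ n, {ω : Cf N | ∀ e ∈ F n, ω e = false} := by
    ext ω
    simp only [Set.mem_ofPred_eq, Set.mem_iInter]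
    constructor
    · intro h n e he
      exact h e (hFD ▸ Set.mem_iUnion.2 ⟨n, he⟩)
    · intro h e he
      rw [← hFD] at he
      obtain ⟨n, hn⟩ := Set.mem_iUnion.1 he
      exact h n e hn
  rw [hset]
  have hmeas : ∀ n, MeasurableSet {ω : Cf N | ∀ e ∈ F n, ω e = false} := by
    intro n
    have h : {ω : Cf N | ∀ e ∈ F n, ω e = false} =
        ((F n : Finset (Ed N)) : Set (Ed N)).pi fun _ => {false} := by
      ext ω
      simp [Set.mem_pi]
    rw [h]
    exact MeasurableSet.pi (F n).countable_toSet fun _ _ => measurableSet_singleton _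
  have hanti : Antitone fun n => {ω : Cf N | ∀ e ∈ F n, ω e = false} := by
    intro m n hmn ω h e he
    exact h e (hFm hmn he)
  rw [Antitone.measure_iInter hanti (fun n => (hmeas n).nullMeasurableSet)
    ⟨0, measure_ne_top _ _⟩]
  apply le_iInf
  intro n
  exact hfin (F n) (fun e he => hFD ▸ Set.mem_iUnion.2 ⟨n, he⟩)

end Pool.Agent.Helper98K9.HP
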