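import Pool.Agent.Helper98K9.HP.St

set_option autoImplicit false

/-!
# Project HP, leaf [CUT]
-/

namespace Pool.Agent.Helper98K9.HP

theorem cut : S_CUT := by
  classical
  intro X I w R hw hR hI hcross
  by_contra hno
  push Not at hno
  set T : ℝ := ∑ i ∈ I, w i with hT
  set Rel : X → X → Prop := fun a b => a ∈ I ∧ b ∈ I ∧ R a b with hRel
  have hT0 : 0 ≤ T := Finset.sum_nonneg hw
  have hTpos : 0 < T := by
    obtain ⟨i, hi⟩ := hI
    have h1 := hno i hi
    have h2 : 0 ≤ ∑ j ∈ I.filter (fun j => Relation.ReflTransGen Rel i j), w j :=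
      Finset.sum_nonneg fun j hj => hw j (Finset.mem_filter.1 hj).1
    have h3 : ∑ j ∈ I.filter (fun j => Relation.ReflTransGen Rel i j), w j < T / 2 := by
      convert h1
    linarith
  -- closed sets
  let 𝒦 : Finset (Finset X) := I.powerset.filter fun J =>
    (∀ i ∈ J, ∀ j ∈ I \ J, ¬ R i j) ∧ T / 4 ≤ ∑ i ∈ J, w i
  have hne : 𝒦.Nonempty := by
    refine ⟨I, Finset.mem_filter.2 ⟨Finset.mem_powerset.2 subset_rfl, ?_, ?_⟩⟩
    · intro i _ j hj
      simp at hj
    · rw [← hT]; linarith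
  obtain ⟨J, hJ, hmin⟩ := Finset.exists_min_image 𝒦 (fun J => J.card) hne
  obtain ⟨hJI, hJc, hJw⟩ := Finset.mem_filter.1 hJ
  rw [Finset.mem_powerset] at hJI
  have hJne : J.Nonempty := by
    rw [Finset.nonempty_iff_ne_empty]
    rintro rfl
    simp only [Finset.sum_empty] at hJw
    linarith
  obtain ⟨i, hi⟩ := hJne
  set C : Finset X := I.filter (fun j => Relation.ReflTransGen Rel i j) with hC
  have hCJ : C ⊆ J := by
    intro j hj
    have h1 := (Finset.mem_filter.1 hj).2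
    clear hj
    induction h1 with
    | refl => exact hi
    | tail _ hab ih =>
      by_contra hb
      exact hJc _ ih _ (Finset.mem_sdiff.2 ⟨hab.2.1, hb⟩) hab.2.2
  have hCw : ∑ j ∈ C, w j < T / 2 := by
    have h1 := hno i (hJI hi)
    convert h1
  have hiC : i ∈ C := Finset.mem_filter.2 ⟨hJI hi, Relation.ReflTransGen.refl⟩
  have hnot : J \ C ∉ 𝒦 := by
    intro hmem
    have h1 := hmin _ hmem
    have h2 : (J \ C).card < J.card := by
      apply Finset.card_lt_card
      refine ⟨Finset.sdiff_subset, fun h => ?_⟩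
      exact (Finset.mem_sdiff.1 (h hi)).2 hiC
    omega
  have hlt : ∑ j ∈ J \ C, w j < T / 4 := by
    by_contra hge
    rw [not_lt] at hge
    apply hnot
    refine Finset.mem_filter.2 ⟨Finset.mem_powerset.2 (Finset.sdiff_subset.trans hJI), ?_, hge⟩
    intro a ha b hb hab
    obtain ⟨haJ, haC⟩ := Finset.mem_sdiff.1 ha
    obtain ⟨hbI, hb2⟩ := Finset.mem_sdiff.1 hb
    by_cases hbJ : b ∈ J
    · have hbC : b ∈ C := by
        by_contra h
        exact hb2 (Finset.mem_sdiff.2 ⟨hbJ, h⟩)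
      apply haC
      refine Finset.mem_filter.2 ⟨hJI haJ, ?_⟩
      exact (Finset.mem_filter.1 hbC).2.tail ⟨hbI, hJI haJ, hR _ _ hab⟩
    · exact hJc a haJ b (Finset.mem_sdiff.2 ⟨hbI, hbJ⟩) hab
  have hsum : ∑ j ∈ J, w j = ∑ j ∈ J \ C, w j + ∑ j ∈ C, w j := (Finset.sum_sdiff hCJ).symm
  have hsum2 : T = ∑ j ∈ I \ J, w j + ∑ j ∈ J, w j := (Finset.sum_sdiff hJI).symm
  obtain ⟨a, ha, b, hb, hab⟩ := hcross J hJI hJw (by linarith)
  exact hJc a ha b hb hab

end Pool.Agent.Helper98K9.HP
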