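import Pool.Agent.Helper98K9.HP.St

set_option autoImplicit false

/-!
# Project HP, leaf [CUTP]
-/

namespace Pool.Agent.Helper98K9.HP

open MeasureTheory ProbabilityTheory
open scoped ENNReal NNReal

namespace H10

open Classical in
/-- number of the pairs in different sub-balls -/
theorem cross_card {N : ℕ} [NeZero N] (k l : ℕ) (x : V N) (U W : Finset (V N))
    (hU : U ⊆ ball (k + l) x) (hd : Disjoint U W) :
    (U.card : ℝ) * W.card - (N : ℝ) ^ l * (N : ℝ) ^ (2 * k) / 4 ≤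
      (((U ×ˢ W).filter fun p => tr k p.1 ≠ tr k p.2).card : ℝ) := by
  have h1 : ((U ×ˢ W).filter fun p => tr k p.1 = tr k p.2).card +
      ((U ×ˢ W).filter fun p => ¬ tr k p.1 = tr k p.2).card = (U ×ˢ W).card :=
    Finset.card_filter_add_card_filter_not _
  have h2 : (((U ×ˢ W).filter fun p => tr k p.1 = tr k p.2).card : ℝ) ≤
      (N : ℝ) ^ l * (N : ℝ) ^ (2 * k) / 4 := by
    have hmaps : Set.MapsTo (fun p : V N × V N => tr k p.1)
        (((U ×ˢ W).filter fun p => tr k p.1 = tr k p.2 : Finset (V N × V N)) : Set (V N × V N))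
        (subs k l x : Set (V N)) := by
      intro p hp
      exact tr_mem_subs (hU (Finset.mem_product.1 (Finset.mem_filter.1 hp).1).1)
    rw [Finset.card_eq_sum_card_fiberwise hmaps]
    push_cast
    calc _ ≤ ∑ z ∈ subs k l x, ((N : ℝ) ^ (2 * k) / 4) := by
          apply Finset.sum_le_sum
          intro z hz
          set Uz := U.filter fun u => tr k u = z with hUz
          set Wz := W.filter fun u => tr k u = z with hWz
          have h3 : (((U ×ˢ W).filter fun p => tr k p.1 = tr k p.2).filter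
              fun p => tr k p.1 = z) ⊆ Uz ×ˢ Wz := by
            intro p hp
            obtain ⟨hp1, hp2⟩ := Finset.mem_filter.1 hp
            obtain ⟨hp3, hp4⟩ := Finset.mem_filter.1 hp1
            obtain ⟨hp5, hp6⟩ := Finset.mem_product.1 hp3
            exact Finset.mem_product.2 ⟨Finset.mem_filter.2 ⟨hp5, hp2⟩,
              Finset.mem_filter.2 ⟨hp6, hp4.symm.trans hp2⟩⟩
          have h4 : Uz.card + Wz.card ≤ N ^ k := by
            rw [← Finset.card_union_of_disjoint (Finset.disjoint_filter_filter hd),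
              ← card_ball k z]
            apply Finset.card_le_card
            intro y hy
            rw [mem_ball_label hz]
            rcases Finset.mem_union.1 hy with hy | hy
            · exact (Finset.mem_filter.1 hy).2
            · exact (Finset.mem_filter.1 hy).2
          have h5 := Finset.card_le_card h3
          rw [Finset.card_product] at h5
          have h6 : ((((U ×ˢ W).filter fun p => tr k p.1 = tr k p.2).filter
              fun p => tr k p.1 = z).card : ℝ) ≤ (Uz.card : ℝ) * Wz.card := by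
            exact_mod_cast h5
          have h7 : (Uz.card : ℝ) + Wz.card ≤ (N : ℝ) ^ k := by exact_mod_cast h4
          have h8 : (0 : ℝ) ≤ (Uz.card : ℝ) + Wz.card := by positivity
          have h9 : ((Uz.card : ℝ) + Wz.card) ^ 2 ≤ ((N : ℝ) ^ k) ^ 2 :=
            pow_le_pow_left₀ h8 h7 2
          have h10 : (N : ℝ) ^ (2 * k) = ((N : ℝ) ^ k) ^ 2 := by
            rw [← pow_mul, mul_comm]
          rw [h10]
          nlinarith [sq_nonneg ((Uz.card : ℝ) - Wz.card)]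
      _ = _ := by
          rw [Finset.sum_const, card_subs, nsmul_eq_mul]
          push_cast
          ring
  have h3 : (((U ×ˢ W).filter fun p => tr k p.1 = tr k p.2).card : ℝ) +
      ((U ×ˢ W).filter fun p => ¬ tr k p.1 = tr k p.2).card = (U.card : ℝ) * W.card := by
    have := h1
    rw [Finset.card_product] at this
    exact_mod_cast this
  have h4 : (((U ×ˢ W).filter fun p => tr k p.1 ≠ tr k p.2).card : ℝ) =
    (((U ×ˢ W).filter fun p => ¬ tr k p.1 = tr k p.2).card : ℝ) := rfl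
  rw [h4]
  linarith

/-- lower bound for the connection probability -/
theorem pr_ge {N : ℕ} [NeZero N] {c : ℕ → ℝ} {A : ℝ} (hN : 2 ≤ N) (hA : Adm N c A) {k l j : ℕ}
    (hck : c (k + 1) ≤ (N : ℝ) ^ (2 * (k + l))) (h1 : k < j) (h2 : j ≤ k + l) :
    c (k + 1) / (N : ℝ) ^ (2 * (k + l)) ≤ (pr N c j : ℝ) := by
  have hN1 : (1 : ℝ) ≤ N := by exact_mod_cast (by omega : 1 ≤ N)
  have hpos : (0 : ℝ) < (N : ℝ) ^ (2 * (k + l)) := by positivity
  have hposj : (0 : ℝ) < (N : ℝ) ^ (2 * j) := by positivity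
  unfold pr
  rw [NNReal.coe_min]
  apply le_min
  · rw [Real.coe_toNNReal']
    apply le_max_of_le_left
    have h3 : c (k + 1) ≤ c j := hA.mono _ _ (by omega) (by omega)
    have h4 : (N : ℝ) ^ (2 * j) ≤ (N : ℝ) ^ (2 * (k + l)) := pow_le_pow_right₀ hN1 (by omega)
    have h5 : 0 < c (k + 1) := hA.pos _ (by omega)
    exact div_le_div₀ (h5.le.trans h3) h3 hposj h4
  · rw [NNReal.coe_one, div_le_one hpos]
    exact hck

end H10

open H10 in
theorem cutp (hclof : S_CLOF) : S_CUTP := by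
  classical
  intro N _ c A hN hA θ M k l x 𝒞 hθ hθ1 hl hM hck h𝒞 hdis hT
  set T : ℝ := ∑ C ∈ 𝒞, (C.card : ℝ) with hTdef
  set c1 : ℝ := c (k + 1) with hc1
  have hc1pos : 0 < c1 := hA.pos _ (by omega)
  have hN0 : (0 : ℝ) < N := by exact_mod_cast (by omega : 0 < N)
  have hNk : (0 : ℝ) < (N : ℝ) ^ k := by positivity
  have hNl : (0 : ℝ) < (N : ℝ) ^ l := by positivity
  have hMpos : 0 < M := lt_of_lt_of_le (by positivity) hM
  have hsub : ∀ C ∈ 𝒞, C ⊆ ball (k + l) x := by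
    intro C hC
    obtain ⟨⟨z, hz, hz2⟩, -⟩ := h𝒞 C hC
    exact hz2.trans (ball_subs_subset hz)
  have hpd : ∀ 𝒜 ⊆ 𝒞, (𝒜 : Set (Finset (V N))).PairwiseDisjoint id := by
    intro 𝒜 h𝒜 C hC C' hC' hne
    exact hdis C (h𝒜 hC) C' (h𝒜 hC') hne
  have hcardU : ∀ 𝒜 ⊆ 𝒞, ((𝒜.biUnion id).card : ℝ) = ∑ C ∈ 𝒜, (C.card : ℝ) := by
    intro 𝒜 h𝒜
    rw [Finset.card_biUnion (hpd 𝒜 h𝒜)]
    push_cast
    rfl
  -- the number of clusters
  have hTle : T ≤ (N : ℝ) ^ (k + l) := by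
    rw [hTdef, ← hcardU 𝒞 subset_rfl]
    have h1 : (𝒞.biUnion id).card ≤ N ^ (k + l) := by
      rw [← card_ball (k + l) x]
      apply Finset.card_le_card
      intro y hy
      obtain ⟨C, hC, hy⟩ := Finset.mem_biUnion.1 hy
      exact hsub C hC hy
    exact_mod_cast h1
  have hnum : (𝒞.card : ℝ) ≤ θ ^ 2 * c1 / 256 := by
    have h1 : (𝒞.card : ℝ) * (M * (N : ℝ) ^ k) ≤ T * c1 := by
      rw [hTdef, Finset.sum_mul, ← nsmul_eq_mul, ← Finset.sum_const]
      exact Finset.sum_le_sum fun C hC => (h𝒞 C hC).2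
    have h2 : (𝒞.card : ℝ) * (M * (N : ℝ) ^ k) ≤ (N : ℝ) ^ (k + l) * c1 :=
      h1.trans (mul_le_mul_of_nonneg_right hTle hc1pos.le)
    have h3 : (𝒞.card : ℝ) * M ≤ (N : ℝ) ^ l * c1 := by
      have h4 : (𝒞.card : ℝ) * M * (N : ℝ) ^ k ≤ (N : ℝ) ^ l * c1 * (N : ℝ) ^ k := by
        calc _ = (𝒞.card : ℝ) * (M * (N : ℝ) ^ k) := by ring
          _ ≤ _ := h2
          _ = _ := by rw [pow_add]; ring
      exact le_of_mul_le_mul_right h4 hNk
    have h5 : (𝒞.card : ℝ) * (256 * (N : ℝ) ^ l / θ ^ 2) ≤ (N : ℝ) ^ l * c1 :=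
      (mul_le_mul_of_nonneg_left hM (Nat.cast_nonneg _)).trans h3
    have h6 : (𝒞.card : ℝ) * (256 / θ ^ 2) ≤ c1 := by
      have h7 : (𝒞.card : ℝ) * (256 / θ ^ 2) * (N : ℝ) ^ l ≤ c1 * (N : ℝ) ^ l := by
        calc _ = (𝒞.card : ℝ) * (256 * (N : ℝ) ^ l / θ ^ 2) := by ring
          _ ≤ _ := h5
          _ = _ := by ring
      exact le_of_mul_le_mul_right h7 hNl
    have hθ2 : 0 < θ ^ 2 := by positivity
    calc (𝒞.card : ℝ) = (𝒞.card : ℝ) * (256 / θ ^ 2) * (θ ^ 2 / 256) := by field_simp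
      _ ≤ c1 * (θ ^ 2 / 256) := mul_le_mul_of_nonneg_right h6 (by positivity)
      _ = _ := by ring
  -- one cut
  have hone : ∀ 𝒜 ⊆ 𝒞, T / 4 ≤ ∑ C ∈ 𝒜, (C.card : ℝ) → ∑ C ∈ 𝒜, (C.card : ℝ) ≤ T * (3 / 4) →
      PP N c {ω | ∀ C ∈ 𝒜, ∀ C' ∈ 𝒞, C' ∉ 𝒜 → ∀ u ∈ C, ∀ v ∈ C', tr k u ≠ tr k v →
        ω s(u, v) = false} ≤ ENNReal.ofReal (Real.exp (-(θ ^ 2 * c1 / 128))) := by
    intro 𝒜 h𝒜 hw1 hw2
    set U := 𝒜.biUnion id with hU
    set W := (𝒞 \ 𝒜).biUnion id with hW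
    have hUball : U ⊆ ball (k + l) x := by
      intro y hy
      obtain ⟨C, hC, hy⟩ := Finset.mem_biUnion.1 hy
      exact hsub C (h𝒜 hC) hy
    have hWball : W ⊆ ball (k + l) x := by
      intro y hy
      obtain ⟨C, hC, hy⟩ := Finset.mem_biUnion.1 hy
      exact hsub C (Finset.mem_sdiff.1 hC).1 hy
    have hUW : Disjoint U W := by
      rw [Finset.disjoint_left]
      intro y hy hy'
      obtain ⟨C, hC, hyC⟩ := Finset.mem_biUnion.1 hy
      obtain ⟨C', hC', hyC'⟩ := Finset.mem_biUnion.1 hy'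
      obtain ⟨h1, h2⟩ := Finset.mem_sdiff.1 hC'
      have hne : C ≠ C' := by
        rintro rfl
        exact h2 hC
      exact (Finset.disjoint_left.1 (hdis C (h𝒜 hC) C' h1 hne)) hyC hyC'
    have ha : (U.card : ℝ) = ∑ C ∈ 𝒜, (C.card : ℝ) := hcardU 𝒜 h𝒜
    have hb : (W.card : ℝ) = T - ∑ C ∈ 𝒜, (C.card : ℝ) := by
      rw [hW, hcardU _ Finset.sdiff_subset, hTdef, ← Finset.sum_sdiff h𝒜]
      ring
    set P0 := (U ×ˢ W).filter fun p => tr k p.1 ≠ tr k p.2 with hP0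
    have hcross := cross_card k l x U W hUball hUW
    rw [← hP0] at hcross
    have hinj : Set.InjOn (fun p : V N × V N => s(p.1, p.2)) (P0 : Set (V N × V N)) := by
      intro p hp q hq hpq
      obtain ⟨hp1, hp2⟩ := Finset.mem_product.1 (Finset.mem_filter.1 hp).1
      obtain ⟨hq1, hq2⟩ := Finset.mem_product.1 (Finset.mem_filter.1 hq).1
      rcases Sym2.eq_iff.1 hpq with h | h
      · exact Prod.ext h.1 h.2
      · exfalso
        have h3 : p.1 ∈ W := h.1 ▸ hq2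
        exact (Finset.disjoint_left.1 hUW) hp1 h3
    set F := P0.image (fun p : V N × V N => s(p.1, p.2)) with hF
    have hsum : ∑ e ∈ F, (prE N c e : ℝ) = ∑ p ∈ P0, (pr N c (dist p.1 p.2) : ℝ) := by
      rw [hF, Finset.sum_image hinj]
      rfl
    have hlow : (P0.card : ℝ) * (c1 / (N : ℝ) ^ (2 * (k + l))) ≤ ∑ e ∈ F, (prE N c e : ℝ) := by
      rw [hsum, ← nsmul_eq_mul, ← Finset.sum_const]
      apply Finset.sum_le_sum
      intro p hp
      obtain ⟨hp0, hp3⟩ := Finset.mem_filter.1 hp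
      obtain ⟨hp1, hp2⟩ := Finset.mem_product.1 hp0
      apply pr_ge hN hA hck
      · by_contra h
        rw [not_lt, ← tr_eq] at h
        exact hp3 h
      · have h1 := hUball hp1
        have h2 := hWball hp2
        rw [mem_ball] at h1 h2
        refine (dist_ultra p.1 x p.2).trans (max_le ?_ h2)
        rw [dist_comm]; exact h1
    have hT2 : (N : ℝ) ^ l * (N : ℝ) ^ (2 * k) / 4 ≤ T ^ 2 / 16 := by
      have h1 : (θ / 4 * (N : ℝ) ^ (k + l)) ^ 2 ≤ T ^ 2 :=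
        pow_le_pow_left₀ (by positivity) hT 2
      have h2 : (θ / 4 * (N : ℝ) ^ (k + l)) ^ 2 =
          θ ^ 2 / 16 * (N : ℝ) ^ l * ((N : ℝ) ^ l * (N : ℝ) ^ (2 * k)) := by
        rw [pow_add, two_mul, pow_add]; ring
      have h3 : 4 ≤ θ ^ 2 / 16 * (N : ℝ) ^ l := by
        have hθ2 : 0 < θ ^ 2 := by positivity
        have h4 := mul_le_mul_of_nonneg_left hl (by positivity : 0 ≤ θ ^ 2 / 16)
        have h5 : θ ^ 2 / 16 * (64 / θ ^ 2) = 4 := by field_simp; norm_num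
        linarith
      have h4 : 4 * ((N : ℝ) ^ l * (N : ℝ) ^ (2 * k)) ≤
          θ ^ 2 / 16 * (N : ℝ) ^ l * ((N : ℝ) ^ l * (N : ℝ) ^ (2 * k)) :=
        mul_le_mul_of_nonneg_right h3 (by positivity)
      nlinarith
    have hcard : T ^ 2 / 8 ≤ (P0.card : ℝ) := by
      have h1 : 3 / 16 * T ^ 2 ≤ (U.card : ℝ) * W.card := by
        rw [ha, hb]
        nlinarith [mul_nonneg (sub_nonneg.2 hw1) (sub_nonneg.2 hw2)]
      linarith
    have hfin : θ ^ 2 * c1 / 128 ≤ ∑ e ∈ F, (prE N c e : ℝ) := by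
      refine le_trans ?_ hlow
      have h1 : (θ / 4 * (N : ℝ) ^ (k + l)) ^ 2 ≤ T ^ 2 :=
        pow_le_pow_left₀ (by positivity) hT 2
      have h2 : θ ^ 2 / 128 * (N : ℝ) ^ (2 * (k + l)) ≤ (P0.card : ℝ) := by
        refine le_trans ?_ hcard
        have h3 : (N : ℝ) ^ (2 * (k + l)) = ((N : ℝ) ^ (k + l)) ^ 2 := by
          rw [← pow_mul, mul_comm]
        rw [h3]
        nlinarith
      have h4 : (0 : ℝ) < (N : ℝ) ^ (2 * (k + l)) := by positivity
      calc θ ^ 2 * c1 / 128 = θ ^ 2 / 128 * (N : ℝ) ^ (2 * (k + l)) *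
            (c1 / (N : ℝ) ^ (2 * (k + l))) := by field_simp
        _ ≤ _ := mul_le_mul_of_nonneg_right h2 (by positivity)
    refine le_trans (le_trans (measure_mono ?_) (hclof N c F)) ?_
    · intro ω hω e he
      obtain ⟨p, hp, rfl⟩ := Finset.mem_image.1 he
      obtain ⟨hp0, hp3⟩ := Finset.mem_filter.1 hp
      obtain ⟨hp1, hp2⟩ := Finset.mem_product.1 hp0
      obtain ⟨C, hC, hyC⟩ := Finset.mem_biUnion.1 hp1
      obtain ⟨C', hC', hyC'⟩ := Finset.mem_biUnion.1 hp2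
      obtain ⟨h1, h2⟩ := Finset.mem_sdiff.1 hC'
      exact hω C hC C' h1 h2 p.1 hyC p.2 hyC' hp3
    · apply ENNReal.ofReal_le_ofReal
      apply Real.exp_le_exp.2
      linarith
  -- union bound
  set Pw : Finset (Finset (Finset (V N))) := 𝒞.powerset.filter fun 𝒜 =>
    T / 4 ≤ ∑ C ∈ 𝒜, (C.card : ℝ) ∧ ∑ C ∈ 𝒜, (C.card : ℝ) ≤ T * (3 / 4) with hPw
  have hcov : {ω : Cf N | ∃ 𝒜 ⊆ 𝒞, T / 4 ≤ ∑ C ∈ 𝒜, (C.card : ℝ) ∧
      T * (3 / 4) ≥ ∑ C ∈ 𝒜, (C.card : ℝ) ∧
      ∀ C ∈ 𝒜, ∀ C' ∈ 𝒞, C' ∉ 𝒜 → ∀ u ∈ C, ∀ v ∈ C', tr k u ≠ tr k v → ω s(u, v) = false} ⊆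
      ⋃ 𝒜 ∈ Pw, {ω | ∀ C ∈ 𝒜, ∀ C' ∈ 𝒞, C' ∉ 𝒜 → ∀ u ∈ C, ∀ v ∈ C', tr k u ≠ tr k v →
        ω s(u, v) = false} := by
    rintro ω ⟨𝒜, h1, h2, h3, h4⟩
    simp only [Set.mem_iUnion]
    exact ⟨𝒜, Finset.mem_filter.2 ⟨Finset.mem_powerset.2 h1, h2, h3⟩, h4⟩
  refine (measure_mono hcov).trans ((measure_biUnion_finset_le _ _).trans ?_)
  calc _ ≤ ∑ _𝒜 ∈ Pw, ENNReal.ofReal (Real.exp (-(θ ^ 2 * c1 / 128))) := by
        apply Finset.sum_le_sum
        intro 𝒜 h𝒜
        obtain ⟨h1, h2, h3⟩ := Finset.mem_filter.1 h𝒜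
        exact hone 𝒜 (Finset.mem_powerset.1 h1) h2 h3
    _ = ENNReal.ofReal ((Pw.card : ℝ) * Real.exp (-(θ ^ 2 * c1 / 128))) := by
        rw [Finset.sum_const, nsmul_eq_mul, ENNReal.ofReal_mul (Nat.cast_nonneg _),
          ENNReal.ofReal_natCast]
    _ ≤ _ := by
        apply ENNReal.ofReal_le_ofReal
        have h1 : (Pw.card : ℝ) ≤ Real.exp (𝒞.card : ℝ) := by
          have h2 : Pw.card ≤ 2 ^ 𝒞.card := by
            rw [← Finset.card_powerset]
            exact Finset.card_filter_le _ _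
          have h3 : (Pw.card : ℝ) ≤ 2 ^ 𝒞.card := by exact_mod_cast h2
          refine h3.trans ?_
          rw [← Real.exp_one_pow 𝒞.card]
          apply pow_le_pow_left₀ (by norm_num)
          have := Real.add_one_le_exp (1 : ℝ)
          linarith
        calc (Pw.card : ℝ) * Real.exp (-(θ ^ 2 * c1 / 128))
            ≤ Real.exp (θ ^ 2 * c1 / 256) * Real.exp (-(θ ^ 2 * c1 / 128)) :=
              mul_le_mul_of_nonneg_right (h1.trans (Real.exp_le_exp.2 hnum)) (Real.exp_pos _).le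
          _ = Real.exp (-(θ ^ 2 * c1 / 256)) := by
              rw [← Real.exp_add]; congr 1; ring

end Pool.Agent.Helper98K9.HP
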