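import Pool.Agent.Helper98K9.HP.St
import Pool.Agent.Helper98K9.HP.Cut
import Pool.Agent.Helper98K9.HP.Cutp

set_option autoImplicit false

/-!
# Project HP, leaf [MERGE]
-/

namespace Pool.Agent.Helper98K9.HP

open MeasureTheory ProbabilityTheory
open scoped ENNReal NNReal

namespace H10

variable {N : ℕ} [NeZero N]

theorem mem_clu {ω : Cf N} {k : ℕ} {x y : V N} :
    y ∈ clu ω k x ↔ y ∈ ball k x ∧ (GW ω (ball k x : Set (V N))).Reachable x y := by
  classical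
  unfold clu
  simp only [Finset.mem_filter]

theorem GW_congr {ω ω' : Cf N} {k : ℕ} {x : V N} (h : ∀ e ∈ ins k x, ω e = ω' e) :
    GW ω (ball k x : Set (V N)) = GW ω' (ball k x : Set (V N)) := by
  ext u v
  show ((u ≠ v ∧ ω s(u, v) = true) ∧ u ∈ (ball k x : Set (V N)) ∧ v ∈ (ball k x : Set (V N))) ↔
    ((u ≠ v ∧ ω' s(u, v) = true) ∧ u ∈ (ball k x : Set (V N)) ∧ v ∈ (ball k x : Set (V N)))
  constructor
  · rintro ⟨⟨h1, h2⟩, h3, h4⟩
    refine ⟨⟨h1, ?_⟩, h3, h4⟩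
    rw [← h]
    · exact h2
    · intro w hw
      rcases Sym2.mem_iff.1 hw with rfl | rfl
      · exact h3
      · exact h4
  · rintro ⟨⟨h1, h2⟩, h3, h4⟩
    refine ⟨⟨h1, ?_⟩, h3, h4⟩
    rw [h]
    · exact h2
    · intro w hw
      rcases Sym2.mem_iff.1 hw with rfl | rfl
      · exact h3
      · exact h4

theorem clu_congr {ω ω' : Cf N} {k : ℕ} {x : V N} (h : ∀ e ∈ ins k x, ω e = ω' e) :
    clu ω k x = clu ω' k x := by
  ext y
  rw [mem_clu, mem_clu, GW_congr h]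

theorem self_mem_clu (ω : Cf N) (k : ℕ) (x : V N) : x ∈ clu ω k x :=
  mem_clu.2 ⟨self_mem_ball k x, SimpleGraph.Reachable.refl _⟩

theorem clu_eq {ω : Cf N} {k : ℕ} {x y : V N} (h : y ∈ clu ω k x) : clu ω k y = clu ω k x := by
  obtain ⟨h1, h2⟩ := mem_clu.1 h
  have hb : ball k x = ball k y := ball_eq (mem_ball.1 h1)
  ext z
  rw [mem_clu, mem_clu, ← hb]
  exact ⟨fun hz => ⟨hz.1, h2.trans hz.2⟩, fun hz => ⟨hz.1, h2.symm.trans hz.2⟩⟩

theorem GW_mono {ω : Cf N} {W W' : Set (V N)} (h : W ⊆ W') : GW ω W ≤ GW ω W' := by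
  intro u v huv
  exact ⟨huv.1, h huv.2.1, h huv.2.2⟩

theorem clu_subset_ball (ω : Cf N) (k : ℕ) (x : V N) : clu ω k x ⊆ ball k x := fun _ hy =>
  (mem_clu.1 hy).1

theorem ins_eq {k : ℕ} {x y : V N} (h : dist x y ≤ k) : ins k x = ins k y := by
  unfold ins
  rw [ball_eq h]

theorem ins_subset {k l : ℕ} {x y : V N} (h : y ∈ ball (k + l) x) : ins k y ⊆ ins (k + l) x := by
  intro e he v hv
  have h1 := he v hv
  rw [mem_ball] at h1 h ⊢
  exact (dist_ultra x y v).trans (max_le h (h1.trans (Nat.le_add_right _ _)))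

theorem mem_light {c : ℕ → ℝ} {k : ℕ} {M : ℝ} {u : V N} {ω : Cf N} :
    ω ∈ light c k M u ↔ ((clu ω k u).card : ℝ) * c (k + 1) < M * (N : ℝ) ^ k := Iff.rfl

theorem light_congr {ω ω' : Cf N} {k : ℕ} {u : V N} (c : ℕ → ℝ) (M : ℝ)
    (h : ∀ e ∈ ins k u, ω e = ω' e) : ω ∈ light c k M u ↔ ω' ∈ light c k M u := by
  rw [mem_light, mem_light, clu_congr h]

end H10

open H10 in
theorem merge (hmix : S_MIX) (hmeas : S_MEAS) (hcut : S_CUT) (hcutp : S_CUTP) : S_MERGE := by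
  classical
  intro N _ c A hN hA θ M k l x hθ hθ1 hl hM hck
  set bound : ℝ≥0∞ := ENNReal.ofReal (Real.exp (-(θ ^ 2 * c (k + 1) / 256))) with hbound
  set B : Set (Cf N) := {ω | θ / 4 * (N : ℝ) ^ (k + l) ≤
      ∑ z ∈ subs k l x, ((Hv c ω k M z).card : ℝ) ∧
      ∀ y ∈ ball (k + l) x, ((clu ω (k + l) y).card : ℝ) < θ / 8 * (N : ℝ) ^ (k + l)} with hB
  have hN0 : (0 : ℝ) < N := by exact_mod_cast (by omega : 0 < N)
  -- locality of the heavy points
  have hHv : ∀ (ω ω' : Cf N) (z : V N), z ∈ subs k l x → (∀ e ∈ ins k z, ω e = ω' e) →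
      Hv c ω k M z = Hv c ω' k M z := by
    intro ω ω' z hz h
    unfold Hv
    apply Finset.filter_congr
    intro u hu
    have h1 : ins k u = ins k z := (ins_eq (mem_ball.1 hu)).symm
    rw [not_iff_not]
    exact light_congr c M (h1 ▸ h)
  have hdep : Dep (ins (k + l) x) (fun ω => ω ∈ B) := by
    intro ω ω' h
    have h1 : ∑ z ∈ subs k l x, ((Hv c ω k M z).card : ℝ) =
        ∑ z ∈ subs k l x, ((Hv c ω' k M z).card : ℝ) := by
      apply Finset.sum_congr rfl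
      intro z hz
      rw [hHv ω ω' z hz fun e he => h e (ins_subset
        (mem_ball.2 (mem_subs.1 hz).2) he)]
    have h2 : ∀ y ∈ ball (k + l) x, clu ω (k + l) y = clu ω' (k + l) y := by
      intro y hy
      apply clu_congr
      rw [← ins_eq (mem_ball.1 hy)]
      exact h
    apply propext
    show (_ ∧ _) ↔ (_ ∧ _)
    rw [h1]
    constructor
    · rintro ⟨h3, h4⟩
      exact ⟨h3, fun y hy => by rw [← h2 y hy]; exact h4 y hy⟩
    · rintro ⟨h3, h4⟩
      exact ⟨h3, fun y hy => by rw [h2 y hy]; exact h4 y hy⟩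
  have hBm : MeasurableSet B :=
    measurable_mem.1 (hmeas.2 N (ins (k + l) x) Prop (fun ω => ω ∈ B) (hmeas.1 N (k + l) x) hdep)
  set D : Set (Ed N) := ⋃ z ∈ subs k l x, ins k z with hD
  have hmp := hmix N c D
  rw [← hmp.measure_preimage hBm.nullMeasurableSet,
    Measure.prod_apply (hmp.measurable hBm)]
  suffices hfib : ∀ ω₀ : Cf N, PP N c (Prod.mk ω₀ ⁻¹'
      ((fun q : Cf N × Cf N => fun e : Ed N => if e ∈ D then q.1 e else q.2 e) ⁻¹' B)) ≤ bound by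
    calc _ ≤ ∫⁻ _ω₀, bound ∂(PP N c) := lintegral_mono hfib
      _ = bound := by rw [lintegral_const, measure_univ, mul_one]
  intro ω₀
  set mx : Cf N → Cf N := fun ω e => if e ∈ D then ω₀ e else ω e with hmx
  have hset : (Prod.mk ω₀ ⁻¹'
      ((fun q : Cf N × Cf N => fun e : Ed N => if e ∈ D then q.1 e else q.2 e) ⁻¹' B)) =
      {ω | mx ω ∈ B} := rfl
  rw [hset]
  -- the first configuration rules inside the small balls
  have hin : ∀ (ω : Cf N) (z : V N), z ∈ subs k l x → ∀ e ∈ ins k z, mx ω e = ω₀ e := by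
    intro ω z hz e he
    show (if e ∈ D then ω₀ e else ω e) = ω₀ e
    rw [if_pos]
    rw [hD]
    simp only [Set.mem_iUnion]
    exact ⟨z, hz, he⟩
  have hinu : ∀ (ω : Cf N) (u : V N), u ∈ ball (k + l) x → ∀ e ∈ ins k u, mx ω e = ω₀ e := by
    intro ω u hu
    have h1 : ins k u = ins k (tr k u) := by
      apply ins_eq
      rw [dist_comm]
      exact dist_tr k u
    rw [h1]
    exact hin ω _ (tr_mem_subs hu)
  set Hs : Finset (V N) := (ball (k + l) x).filter fun u => ω₀ ∉ light c k M u with hHs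
  set 𝒞 : Finset (Finset (V N)) := Hs.image fun u => clu ω₀ k u with h𝒞
  have hHsum : ∑ z ∈ subs k l x, ((Hv c ω₀ k M z).card : ℝ) = (Hs.card : ℝ) := by
    have h1 : (Hs.card : ℝ) = ∑ y ∈ ball (k + l) x, if ω₀ ∉ light c k M y then (1 : ℝ) else 0 := by
      rw [hHs, Finset.card_filter]
      push_cast
      rfl
    rw [h1, sum_subs k l x]
    apply Finset.sum_congr rfl
    intro z _
    unfold Hv
    rw [Finset.card_filter]
    push_cast
    rfl
  have hdisj : ∀ C ∈ 𝒞, ∀ C' ∈ 𝒞, C ≠ C' → Disjoint C C' := by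
    intro C hC C' hC' hne
    obtain ⟨u, hu, rfl⟩ := Finset.mem_image.1 hC
    obtain ⟨u', hu', rfl⟩ := Finset.mem_image.1 hC'
    rw [Finset.disjoint_left]
    intro y hy hy'
    exact hne ((clu_eq hy).symm.trans (clu_eq hy'))
  have hpd : ∀ 𝒜 ⊆ 𝒞, (𝒜 : Set (Finset (V N))).PairwiseDisjoint id := by
    intro 𝒜 h𝒜 C hC C' hC' hne
    exact hdisj C (h𝒜 hC) C' (h𝒜 hC') hne
  have hcardU : ∀ 𝒜 ⊆ 𝒞, ((𝒜.biUnion id).card : ℝ) = ∑ C ∈ 𝒜, (C.card : ℝ) := by
    intro 𝒜 h𝒜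
    rw [Finset.card_biUnion (hpd 𝒜 h𝒜)]
    push_cast
    rfl
  by_cases hT : θ / 4 * (N : ℝ) ^ (k + l) ≤ (Hs.card : ℝ)
  swap
  · have hempty : {ω | mx ω ∈ B} = ∅ := by
      rw [Set.eq_empty_iff_forall_notMem]
      intro ω hω
      apply hT
      have h1 : θ / 4 * (N : ℝ) ^ (k + l) ≤
        ∑ z ∈ subs k l x, ((Hv c (mx ω) k M z).card : ℝ) := hω.1
      rw [← hHsum]
      refine h1.trans (le_of_eq ?_)
      apply Finset.sum_congr rfl
      intro z hz
      rw [hHv (mx ω) ω₀ z hz (hin ω z hz)]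
    rw [hempty, measure_empty]
    exact zero_le
  have hsubC : ∀ C ∈ 𝒞, C ⊆ ball (k + l) x := by
    intro C hC y hy
    obtain ⟨u, hu, rfl⟩ := Finset.mem_image.1 hC
    have h1 := mem_ball.1 (Finset.mem_filter.1 hu).1
    have h2 := mem_ball.1 (clu_subset_ball ω₀ k u hy)
    rw [mem_ball]
    exact (dist_ultra x u y).trans (max_le h1 (h2.trans (Nat.le_add_right _ _)))
  have hT2 : (Hs.card : ℝ) ≤ ∑ C ∈ 𝒞, (C.card : ℝ) := by
    rw [← hcardU 𝒞 subset_rfl]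
    have h1 : Hs ⊆ 𝒞.biUnion id := by
      intro u hu
      exact Finset.mem_biUnion.2 ⟨clu ω₀ k u, Finset.mem_image_of_mem _ hu, self_mem_clu ω₀ k u⟩
    exact_mod_cast Finset.card_le_card h1
  have hfam : ∀ C ∈ 𝒞, (∃ z ∈ subs k l x, C ⊆ ball k z) ∧
      M * (N : ℝ) ^ k ≤ (C.card : ℝ) * c (k + 1) := by
    intro C hC
    obtain ⟨u, hu, rfl⟩ := Finset.mem_image.1 hC
    obtain ⟨h1, h2⟩ := Finset.mem_filter.1 hu
    refine ⟨⟨tr k u, tr_mem_subs h1, ?_⟩, ?_⟩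
    · rw [ball_tr]
      exact clu_subset_ball ω₀ k u
    · rw [mem_light, not_lt] at h2
      exact h2
  refine (measure_mono ?_).trans (hcutp N c A hN hA θ M k l x 𝒞 hθ hθ1 hl hM hck hfam hdisj
    (hT.trans hT2))
  intro ω hω
  have hω2 : ∀ y ∈ ball (k + l) x, ((clu (mx ω) (k + l) y).card : ℝ) <
    θ / 8 * (N : ℝ) ^ (k + l) := hω.2
  set T : ℝ := ∑ C ∈ 𝒞, (C.card : ℝ) with hTdef
  by_contra hno
  have hno2 : ∀ 𝒜 ⊆ 𝒞, T / 4 ≤ ∑ C ∈ 𝒜, (C.card : ℝ) → ∑ C ∈ 𝒜, (C.card : ℝ) ≤ T * (3 / 4) →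
      ¬ ∀ C ∈ 𝒜, ∀ C' ∈ 𝒞, C' ∉ 𝒜 → ∀ u ∈ C, ∀ v ∈ C', tr k u ≠ tr k v → ω s(u, v) = false :=
    fun 𝒜 h1 h2 h3 h4 => hno ⟨𝒜, h1, h2, h3, h4⟩
  have hTpos : 0 < T := lt_of_lt_of_le (by positivity) (hT.trans hT2)
  have hCne : 𝒞.Nonempty := by
    rw [Finset.nonempty_iff_ne_empty]
    intro h
    rw [hTdef, h, Finset.sum_empty] at hTpos
    exact lt_irrefl _ hTpos
  obtain ⟨C₀, hC₀, hbig⟩ := hcut (Finset (V N)) 𝒞 (fun C => (C.card : ℝ))
    (fun C C' => ∃ u ∈ C, ∃ v ∈ C', tr k u ≠ tr k v ∧ ω s(u, v) = true)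
    (fun C _ => Nat.cast_nonneg _)
    (by
      rintro C C' ⟨u, hu, v, hv, h1, h2⟩
      exact ⟨v, hv, u, hu, h1.symm, by rw [Sym2.eq_swap]; exact h2⟩)
    hCne
    (by
      intro J hJ h1 h2
      by_contra h3
      have h4 : ∑ C ∈ J, (C.card : ℝ) ≤ T * (3 / 4) := by
        have h5 : T = ∑ C ∈ 𝒞 \ J, (C.card : ℝ) + ∑ C ∈ J, (C.card : ℝ) :=
          (Finset.sum_sdiff hJ).symm
        have h6 : T / 4 ≤ ∑ C ∈ 𝒞 \ J, (C.card : ℝ) := by
          refine h2.trans (le_of_eq ?_)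
          refine Finset.sum_congr ?_ fun _ _ => rfl
          ext C
          simp only [Finset.mem_sdiff]
        linarith
      apply hno2 J hJ h1 h4
      intro C hC C' hC' hC'' u hu v hv huv
      by_contra h6
      rw [Bool.not_eq_false] at h6
      exact h3 ⟨C, hC, C', (@Finset.mem_sdiff _ (fun a b => Classical.propDecidable (a = b)) _ _ _).2 ⟨hC', hC''⟩, u, hu, v, hv, huv, h6⟩)
  obtain ⟨u₀, hu₀, rfl⟩ := Finset.mem_image.1 hC₀
  have hu₀b : u₀ ∈ ball (k + l) x := (Finset.mem_filter.1 hu₀).1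
  have hbb : ball (k + l) u₀ = ball (k + l) x := (ball_eq (mem_ball.1 hu₀b)).symm
  -- points of one small cluster
  have hsmall : ∀ u ∈ ball (k + l) x, ∀ y ∈ clu ω₀ k u,
      (GW (mx ω) (ball (k + l) x : Set (V N))).Reachable u y := by
    intro u hu y hy
    have h1 : clu (mx ω) k u = clu ω₀ k u := clu_congr (hinu ω u hu)
    rw [← h1] at hy
    refine (mem_clu.1 hy).2.mono (GW_mono ?_)
    intro w hw
    rw [Finset.mem_coe, mem_ball] at hw ⊢
    exact (dist_ultra x u w).trans (max_le (mem_ball.1 hu) (hw.trans (Nat.le_add_right _ _)))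
  have hreach : ∀ C, Relation.ReflTransGen (fun a b => a ∈ 𝒞 ∧ b ∈ 𝒞 ∧
      ∃ u ∈ a, ∃ v ∈ b, tr k u ≠ tr k v ∧ ω s(u, v) = true) (clu ω₀ k u₀) C →
      ∀ y ∈ C, (GW (mx ω) (ball (k + l) x : Set (V N))).Reachable u₀ y := by
    intro C hC
    induction hC with
    | refl => exact hsmall u₀ hu₀b
    | @tail C C' _ hab ih =>
      obtain ⟨hCm, hCm', u, hu, v, hv, h1, h2⟩ := hab
      have hux := hsubC C hCm hu
      have hvx := hsubC C' hCm' hv
      have hadj : (GW (mx ω) (ball (k + l) x : Set (V N))).Adj u v := by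
        refine ⟨⟨?_, ?_⟩, hux, hvx⟩
        · rintro rfl
          exact h1 rfl
        · show (if s(u, v) ∈ D then ω₀ s(u, v) else ω s(u, v)) = true
          rw [if_neg, h2]
          rw [hD]
          simp only [Set.mem_iUnion, not_exists]
          intro z hz he
          apply h1
          have h3 := he u (Sym2.mem_mk_left u v)
          have h4 := he v (Sym2.mem_mk_right u v)
          rw [mem_ball_label hz] at h3 h4
          rw [h3, h4]
      have hv0 : (GW (mx ω) (ball (k + l) x : Set (V N))).Reachable u₀ v :=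
        (ih u hu).trans hadj.reachable
      intro y hy
      obtain ⟨u', hu', rfl⟩ := Finset.mem_image.1 hCm'
      rw [← clu_eq hv] at hy
      exact hv0.trans (hsmall v hvx y hy)
  have hfinal : T / 2 ≤ ((clu (mx ω) (k + l) u₀).card : ℝ) := by
    refine le_trans hbig ?_
    rw [← hcardU _ (Finset.filter_subset _ _)]
    have h1 : (𝒞.filter (fun j => Relation.ReflTransGen (fun a b => a ∈ 𝒞 ∧ b ∈ 𝒞 ∧
        ∃ u ∈ a, ∃ v ∈ b, tr k u ≠ tr k v ∧ ω s(u, v) = true) (clu ω₀ k u₀) j)).biUnion id ⊆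
        clu (mx ω) (k + l) u₀ := by
      intro y hy
      obtain ⟨C, hC, hyC⟩ := Finset.mem_biUnion.1 hy
      obtain ⟨hC1, hC2⟩ := Finset.mem_filter.1 hC
      rw [mem_clu, hbb]
      exact ⟨hsubC C hC1 hyC, hreach C hC2 y hyC⟩
    exact_mod_cast Finset.card_le_card h1
  have h1 := hω2 u₀ hu₀b
  have h2 := hT.trans hT2
  linarith

end Pool.Agent.Helper98K9.HP
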