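import Pool.Agent.Helper98K9.HP.Binb

set_option autoImplicit false

namespace Pool.Agent.Helper98K9.HP

open MeasureTheory ProbabilityTheory Filter Topology
open scoped ENNReal NNReal

namespace StepL

variable {N : ℕ} [NeZero N]

theorem fam_congr {k : ℕ} {x : V N} {ω ω' : Cf N} {S : Finset (V N)}
    {Θ : V N → V N → V N → ℝ} (h : ∀ e ∈ ins k x, ω e = ω' e) (hF : Fam (G ω) (ball k x) S Θ) :
    Fam (G ω') (ball k x) S Θ := by
  refine ⟨hF.sub, ?_, hF.anti, hF.div, hF.zero⟩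
  intro u hu a b hab
  obtain ⟨h1, h2, h3⟩ := hF.supp u hu a b hab
  refine ⟨⟨h1.1, ?_⟩, h2, h3⟩
  rw [← h s(a, b)]
  · exact h1.2
  · intro v hv
    rcases Sym2.mem_iff.1 hv with rfl | rfl
    · exact h2
    · exact h3

theorem qq_dep (ρ : ℝ) (k : ℕ) (x : V N) : Dep (ins k x) (QQ ρ k x) := by
  intro ω ω' h
  unfold QQ
  refine iInf_congr fun S => iInf_congr fun Θ => iInf_congr fun _ => iInf_congr fun _ => ?_
  have : Fam (G ω) (ball k x) S Θ ↔ Fam (G ω') (ball k x) S Θ :=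
    ⟨fam_congr h, fam_congr fun e he => (h e he).symm⟩
  exact iInf_congr_Prop this fun _ => rfl

theorem exists_fam {ρ : ℝ} {k : ℕ} {x : V N} {ω : Cf N} (h : QQ ρ k x ω ≠ ∞) {ε : ℝ≥0∞}
    (hε : ε ≠ 0) : ∃ (S : Finset (V N)) (Θ : V N → V N → V N → ℝ), ρ * (N : ℝ) ^ k ≤ S.card ∧
      Fam (G ω) (ball k x) S Θ ∧ ENNReal.ofReal (enF (ball k x) S Θ) ≤ QQ ρ k x ω + ε := by
  have h1 : QQ ρ k x ω < QQ ρ k x ω + ε := ENNReal.lt_add_right h hε
  have h2 := h1
  conv_lhs at h2 => unfold QQ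
  simp only [iInf_lt_iff] at h2
  obtain ⟨S, Θ, hS, -, hF, hlt⟩ := h2
  exact ⟨S, Θ, hS, hF, hlt.le⟩

theorem enF_nonneg (W S : Finset (V N)) (Θ : V N → V N → V N → ℝ) : 0 ≤ enF W S Θ :=
  Finset.sum_nonneg fun _ _ => Finset.sum_nonneg fun _ _ => Finset.sum_nonneg fun _ _ =>
    sq_nonneg _

theorem meas_set (hmeas : S_MEAS) {D : Set (Ed N)} (hD : D.Finite) {E : Set (Cf N)}
    (h : Dep D (fun ω => ω ∈ E)) : MeasurableSet E := by
  have := hmeas.2 N D Prop (fun ω => ω ∈ E) hD h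
  exact measurableSet_setOfPred.2 this

end StepL

open StepL

open Classical in
theorem step : S_MIX → S_MEAS → S_BINB → S_ONE → S_STEP := by
  intro hmix hmeas hbinb hone N _ c A hN hA ρ q a k l r hρ hρ1 hq ha hr hc hL x
  have hN0 : (0 : ℝ) < N := by positivity
  have hcp : 0 < c (k + 1) := hA.pos _ (by omega)
  set lam : ℝ := ρ ^ 2 * c (k + 1) / (N : ℝ) ^ (2 * l) with hlam
  have hlam0 : 0 < lam := by positivity
  set δ : ℝ := (N : ℝ) ^ (2 * l) * Real.exp (-(lam / 8)) with hδ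
  have hδ0 : 0 ≤ δ := by positivity
  set ε : ℝ := 4 * (N : ℝ) ^ k / (lam + 8) with hε
  have hε0 : 0 < ε := by positivity
  set D : Set (Ed N) := ⋃ z ∈ subs k l x, ins k z with hD
  have hDz : ∀ z ∈ subs k l x, ins k z ⊆ D := fun z hz =>
    Set.subset_biUnion_of_mem (u := fun z => ins k z) hz
  have hDx : D ⊆ ins (k + l) x := by
    refine Set.iUnion₂_subset fun z hz => ?_
    intro e he v hv
    exact ball_subs_subset hz (he v hv)
  have hfin : (ins (k + l) x).Finite := hmeas.1 N (k + l) x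
  -- the events of the sub-balls
  have hEx : ∀ z : V N, ∃ E : Set (Cf N), Dep (ins k z) (fun ω => ω ∈ E) ∧ MeasurableSet E ∧
    (∀ ω ∈ E, QQ ρ k z ω ≠ ∞) ∧ PP N c Eᶜ ≤ ENNReal.ofReal q ∧
    ∫⁻ ω in E, QQ ρ k z ω ∂(PP N c) ≤ ENNReal.ofReal (a * (N : ℝ) ^ k) := fun z => hL z
  choose E hEdep hEmeas hEfin hEpr hEint using hEx
  let Zf : Cf N → Finset (V N) := fun ω => (subs k l x).filter fun z => ω ∈ E z
  have hfam : ∀ (ω : Cf N) (z : V N), ∃ p : Finset (V N) × (V N → V N → V N → ℝ),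
      ω ∈ E z → ρ * (N : ℝ) ^ k ≤ p.1.card ∧ Fam (G ω) (ball k z) p.1 p.2 ∧
        ENNReal.ofReal (enF (ball k z) p.1 p.2) ≤ QQ ρ k z ω + ENNReal.ofReal ε := by
    intro ω z
    by_cases h : ω ∈ E z
    · obtain ⟨S, Θ, h1, h2, h3⟩ := exists_fam (hEfin z ω h)
        (ε := ENNReal.ofReal ε) (by simpa using hε0)
      exact ⟨(S, Θ), fun _ => ⟨h1, h2, h3⟩⟩
    · exact ⟨(∅, fun _ _ _ => 0), fun h' => absurd h' h⟩
  choose pf hpf using hfam
  -- the events of one step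
  let mx : Cf N → Cf N → Cf N := fun ω₀ ω e => if e ∈ D then ω₀ e else ω e
  have hE1x : ∀ ω₀ : Cf N, ∃ E₁ : Set (Cf N), N ^ l ≤ (Zf ω₀).card + r →
      Dep (ins (k + l) x \ D) (fun ω => ω ∈ E₁) ∧
      PP N c E₁ᶜ ≤ ENNReal.ofReal δ ∧
      (∀ ω ∈ E₁, QQ (ρ * (1 - r / (N : ℝ) ^ l)) (k + l) x (mx ω₀ ω) ≠ ∞) ∧
      ∫⁻ ω in E₁, QQ (ρ * (1 - r / (N : ℝ) ^ l)) (k + l) x (mx ω₀ ω) ∂(PP N c) ≤
        ENNReal.ofReal ((1 + 8 / lam) *
            ∑ z ∈ Zf ω₀, enF (ball k z) (pf ω₀ z).1 (pf ω₀ z).2 +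
          4 * (N : ℝ) ^ (k + l) / lam) := by
    intro ω₀
    by_cases h : N ^ l ≤ (Zf ω₀).card + r
    · obtain ⟨E₁, h1, h2, h3, h4⟩ := hone N c A hN hA ρ k l r x hρ hρ1 hr hc (Zf ω₀)
        (fun z => (pf ω₀ z).1) (fun z => (pf ω₀ z).2) ω₀ (Finset.filter_subset _ _) h
        (fun z hz => ⟨(hpf ω₀ z (Finset.mem_filter.1 hz).2).1,
          (hpf ω₀ z (Finset.mem_filter.1 hz).2).2.1⟩)
      exact ⟨E₁, fun _ => ⟨h1, h2, h3, h4⟩⟩
    · exact ⟨∅, fun h' => absurd h' h⟩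
  choose E1 hE1 using hE1x
  let ct : Cf N → Cf N := fun ω e => if e ∈ D then ω e else false
  -- facts
  have hmxD : ∀ ω₁ ω₂ : Cf N, ∀ e ∈ D, mx ω₁ ω₂ e = ω₁ e := fun ω₁ ω₂ e he => if_pos he
  have hmxD' : ∀ ω₁ ω₂ : Cf N, ∀ e, e ∉ D → mx ω₁ ω₂ e = ω₂ e := fun ω₁ ω₂ e he => if_neg he
  have hctD : ∀ ω : Cf N, ∀ e ∈ D, ct ω e = ω e := fun ω e he => if_pos he
  have hct : ∀ ω ω' : Cf N, (∀ e ∈ D, ω e = ω' e) → ct ω = ct ω' := by
    intro ω ω' h
    funext e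
    by_cases he : e ∈ D
    · rw [hctD _ e he, hctD _ e he, h e he]
    · change (if e ∈ D then ω e else false) = (if e ∈ D then ω' e else false)
      rw [if_neg he, if_neg he]
  have hmxct : ∀ ω₁ ω₂ : Cf N, mx (ct ω₁) ω₂ = mx ω₁ ω₂ := by
    intro ω₁ ω₂
    funext e
    by_cases he : e ∈ D
    · rw [hmxD _ _ e he, hmxD _ _ e he, hctD _ e he]
    · rw [hmxD' _ _ e he, hmxD' _ _ e he]
  have hmxself : ∀ ω : Cf N, mx ω ω = ω := by
    intro ω
    funext e
    by_cases he : e ∈ D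
    · rw [hmxD _ _ e he]
    · rw [hmxD' _ _ e he]
  have hEz : ∀ ω ω' : Cf N, (∀ e ∈ D, ω e = ω' e) → ∀ z ∈ subs k l x, (ω ∈ E z ↔ ω' ∈ E z) := by
    intro ω ω' h z hz
    exact eq_iff_iff.1 (hEdep z ω ω' fun e he => h e (hDz z hz he))
  have hZ : ∀ ω ω' : Cf N, (∀ e ∈ D, ω e = ω' e) → Zf ω = Zf ω' := by
    intro ω ω' h
    exact Finset.filter_congr fun z hz => hEz ω ω' h z hz
  have hgood : ∀ ω : Cf N, N ^ l ≤ (Zf ω).card + r → N ^ l ≤ (Zf (ct ω)).card + r := by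
    intro ω h
    rwa [hZ (ct ω) ω (hctD ω)]
  let EE : Set (Cf N) := {ω | N ^ l ≤ (Zf ω).card + r ∧ ω ∈ E1 (ct ω)}
  have hEE : Dep (ins (k + l) x) (fun ω => ω ∈ EE) := by
    have key : ∀ ω ω' : Cf N, (∀ e ∈ ins (k + l) x, ω e = ω' e) → ω ∈ EE → ω' ∈ EE := by
      rintro ω ω' h ⟨h1, h2⟩
      have h3 : ∀ e ∈ D, ω e = ω' e := fun e he => h e (hDx he)
      refine ⟨by rwa [← hZ ω ω' h3], ?_⟩
      rw [← hct ω ω' h3]
      exact (eq_iff_iff.1 ((hE1 (ct ω) (hgood ω h1)).1 ω ω' fun e he => h e he.1)).1 h2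
    intro ω ω' h
    exact eq_iff_iff.2 ⟨key ω ω' h, key ω' ω fun e he => (h e he).symm⟩
  have mEE : MeasurableSet EE := meas_set hmeas hfin hEE
  have hmp := hmix N c D
  have hmxm : Measurable fun q : Cf N × Cf N => mx q.1 q.2 := hmp.measurable
  have hmp' : MeasurePreserving (fun q : Cf N × Cf N => mx q.1 q.2) ((PP N c).prod (PP N c))
    (PP N c) := hmp
  refine ⟨EE, hEE, mEE, ?_, ?_, ?_⟩
  · rintro ω ⟨h1, h2⟩
    have h3 := (hE1 (ct ω) (hgood ω h1)).2.2.1 ω h2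
    rwa [hmxct, hmxself] at h3
  · -- probability
    let B : Set (Cf N) := {ω | r < ((subs k l x).filter fun z => ω ∉ E z).card}
    let B2 : Set (Cf N) := {ω | N ^ l ≤ (Zf ω).card + r ∧ ω ∉ E1 (ct ω)}
    have hcov : EEᶜ ⊆ B ∪ B2 := by
      intro ω hω
      by_cases h : N ^ l ≤ (Zf ω).card + r
      · right
        exact ⟨h, fun h' => hω ⟨h, h'⟩⟩
      · left
        have h1 : (Zf ω).card + ((subs k l x).filter fun z => ω ∉ E z).card = N ^ l := by
          rw [← card_subs k l x]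
          exact Finset.card_filter_add_card_filter_not _
        change r < ((subs k l x).filter fun z => ω ∉ E z).card
        omega
    have hB := hbinb N c k l r x q E hq fun z _ => ⟨hEdep z, hEmeas z, hEpr z⟩
    have hB2dep : Dep (ins (k + l) x) (fun ω => ω ∈ B2) := by
      have key : ∀ ω ω' : Cf N, (∀ e ∈ ins (k + l) x, ω e = ω' e) → ω ∈ B2 → ω' ∈ B2 := by
        rintro ω ω' h ⟨h1, h2⟩
        have h3 : ∀ e ∈ D, ω e = ω' e := fun e he => h e (hDx he)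
        refine ⟨by rwa [← hZ ω ω' h3], ?_⟩
        rw [← hct ω ω' h3]
        exact fun h4 => h2
          ((eq_iff_iff.1 ((hE1 (ct ω) (hgood ω h1)).1 ω ω' fun e he => h e he.1)).2 h4)
      intro ω ω' h
      exact eq_iff_iff.2 ⟨key ω ω' h, key ω' ω fun e he => (h e he).symm⟩
    have mB2 : MeasurableSet B2 := meas_set hmeas hfin hB2dep
    have hB2 : PP N c B2 ≤ ENNReal.ofReal δ := by
      rw [← hmp'.measure_preimage mB2.nullMeasurableSet, Measure.prod_apply (hmxm mB2)]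
      calc ∫⁻ ω₁, PP N c (Prod.mk ω₁ ⁻¹' ((fun q : Cf N × Cf N => mx q.1 q.2) ⁻¹' B2)) ∂(PP N c)
          ≤ ∫⁻ _, ENNReal.ofReal δ ∂(PP N c) := by
            refine lintegral_mono fun ω₁ => ?_
            by_cases h : N ^ l ≤ (Zf ω₁).card + r
            · refine le_trans (measure_mono ?_) (hE1 (ct ω₁) (hgood ω₁ h)).2.1
              intro ω₂ hω₂ h2
              have h3 : mx ω₁ ω₂ ∉ E1 (ct (mx ω₁ ω₂)) := hω₂.2
              rw [hct (mx ω₁ ω₂) ω₁ (hmxD ω₁ ω₂)] at h3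
              exact h3 ((eq_iff_iff.1 ((hE1 (ct ω₁) (hgood ω₁ h)).1 ω₂ (mx ω₁ ω₂)
                fun e he => (hmxD' ω₁ ω₂ e he.2).symm)).1 h2)
            · have : Prod.mk ω₁ ⁻¹' ((fun q : Cf N × Cf N => mx q.1 q.2) ⁻¹' B2) = ∅ := by
                rw [Set.eq_empty_iff_forall_notMem]
                intro ω₂ hω₂
                have h3 : N ^ l ≤ (Zf (mx ω₁ ω₂)).card + r := hω₂.1
                rw [hZ (mx ω₁ ω₂) ω₁ (hmxD ω₁ ω₂)] at h3
                exact h h3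
              simp [this]
        _ = ENNReal.ofReal δ := by simp
    calc PP N c EEᶜ ≤ PP N c (B ∪ B2) := measure_mono hcov
      _ ≤ PP N c B + PP N c B2 := measure_union_le _ _
      _ ≤ ENNReal.ofReal ((3 * (N : ℝ) ^ l * q / (r + 1)) ^ (r + 1)) + ENNReal.ofReal δ :=
        add_le_add hB hB2
      _ = _ := by rw [← ENNReal.ofReal_add (by positivity) hδ0]
  · -- energy
    set QB : Cf N → ℝ≥0∞ := QQ (ρ * (1 - r / (N : ℝ) ^ l)) (k + l) x with hQB
    have mQB : Measurable QB := hmeas.2 N (ins (k + l) x) ℝ≥0∞ QB hfin (qq_dep _ _ _)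
    have mQz : ∀ z : V N, Measurable (QQ ρ k z) := fun z =>
      hmeas.2 N (ins k z) ℝ≥0∞ (QQ ρ k z) (hmeas.1 N k z) (qq_dep _ _ _)
    have m1 : Measurable (EE.indicator QB) := mQB.indicator mEE
    have m4 : Measurable fun p : Cf N × Cf N => EE.indicator QB (mx p.1 p.2) := m1.comp hmxm
    rw [← lintegral_indicator mEE, ← hmp'.lintegral_comp m1, lintegral_prod _ m4.aemeasurable]
    have hpt : ∀ ω₁ : Cf N, ∫⁻ ω₂, EE.indicator QB (mx ω₁ ω₂) ∂(PP N c) ≤
        ENNReal.ofReal (1 + 8 / lam) * ∑ z ∈ subs k l x,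
          (E z).indicator (fun ω => QQ ρ k z ω + ENNReal.ofReal ε) ω₁ +
        ENNReal.ofReal (4 * (N : ℝ) ^ (k + l) / lam) := by
      intro ω₁
      by_cases h : N ^ l ≤ (Zf ω₁).card + r
      · have hg := hgood ω₁ h
        have h1 : ∫⁻ ω₂, EE.indicator QB (mx ω₁ ω₂) ∂(PP N c) ≤
            ∫⁻ ω₂ in E1 (ct ω₁), QB (mx (ct ω₁) ω₂) ∂(PP N c) := by
          refine le_trans (lintegral_mono fun ω₂ => ?_)
            (lintegral_indicator_le (fun ω₂ => QB (mx (ct ω₁) ω₂)) (E1 (ct ω₁)))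
          by_cases h2 : mx ω₁ ω₂ ∈ EE
          · have h3 : mx ω₁ ω₂ ∈ E1 (ct (mx ω₁ ω₂)) := h2.2
            rw [hct (mx ω₁ ω₂) ω₁ (hmxD ω₁ ω₂)] at h3
            have h4 : ω₂ ∈ E1 (ct ω₁) := (eq_iff_iff.1 ((hE1 (ct ω₁) hg).1 ω₂ (mx ω₁ ω₂)
                fun e he => (hmxD' ω₁ ω₂ e he.2).symm)).2 h3
            rw [Set.indicator_of_mem h2, Set.indicator_of_mem h4, hmxct]
          · rw [Set.indicator_of_notMem h2]
            exact bot_le
        refine h1.trans ((hE1 (ct ω₁) hg).2.2.2.trans ?_)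
        have hsn : 0 ≤ ∑ z ∈ Zf (ct ω₁), enF (ball k z) (pf (ct ω₁) z).1 (pf (ct ω₁) z).2 :=
          Finset.sum_nonneg fun z _ => enF_nonneg _ _ _
        have h18 : 0 ≤ 1 + 8 / lam := by positivity
        have h4N : 0 ≤ 4 * (N : ℝ) ^ (k + l) / lam := by positivity
        rw [ENNReal.ofReal_add (mul_nonneg h18 hsn) h4N, ENNReal.ofReal_mul h18,
          ENNReal.ofReal_sum_of_nonneg fun z _ => enF_nonneg _ _ _]
        refine add_le_add (mul_le_mul_right ?_ _) le_rfl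
        calc ∑ z ∈ Zf (ct ω₁), ENNReal.ofReal (enF (ball k z) (pf (ct ω₁) z).1 (pf (ct ω₁) z).2)
            ≤ ∑ z ∈ Zf (ct ω₁), (E z).indicator (fun ω => QQ ρ k z ω + ENNReal.ofReal ε) ω₁ := by
              refine Finset.sum_le_sum fun z hz => ?_
              have hz' := Finset.mem_filter.1 hz
              have h5 : ω₁ ∈ E z := (hEz (ct ω₁) ω₁ (hctD ω₁) z hz'.1).1 hz'.2
              rw [Set.indicator_of_mem h5]
              have h6 := (hpf (ct ω₁) z hz'.2).2.2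
              have h7 : QQ ρ k z (ct ω₁) = QQ ρ k z ω₁ :=
                qq_dep ρ k z _ _ fun e he => hctD ω₁ e (hDz z hz'.1 he)
              rwa [h7] at h6
          _ ≤ _ := Finset.sum_le_sum_of_subset (Finset.filter_subset _ _)
      · have h1 : ∀ ω₂, EE.indicator QB (mx ω₁ ω₂) = 0 := by
          intro ω₂
          refine Set.indicator_of_notMem (fun h2 => ?_) _
          have h3 : N ^ l ≤ (Zf (mx ω₁ ω₂)).card + r := h2.1
          rw [hZ (mx ω₁ ω₂) ω₁ (hmxD ω₁ ω₂)] at h3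
          exact h h3
        simp [h1]
    have m2 : ∀ z : V N, Measurable ((E z).indicator fun ω => QQ ρ k z ω + ENNReal.ofReal ε) :=
      fun z => ((mQz z).add_const _).indicator (hEmeas z)
    have m3 : Measurable fun ω₁ => ∑ z ∈ subs k l x,
        (E z).indicator (fun ω => QQ ρ k z ω + ENNReal.ofReal ε) ω₁ :=
      Finset.measurable_fun_sum _ fun z _ => m2 z
    calc ∫⁻ ω₁, ∫⁻ ω₂, EE.indicator QB (mx ω₁ ω₂) ∂(PP N c) ∂(PP N c)
        ≤ ∫⁻ ω₁, (ENNReal.ofReal (1 + 8 / lam) * ∑ z ∈ subs k l x,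
          (E z).indicator (fun ω => QQ ρ k z ω + ENNReal.ofReal ε) ω₁ +
        ENNReal.ofReal (4 * (N : ℝ) ^ (k + l) / lam)) ∂(PP N c) := lintegral_mono hpt
      _ = ENNReal.ofReal (1 + 8 / lam) * ∑ z ∈ subs k l x,
            ∫⁻ ω₁, (E z).indicator (fun ω => QQ ρ k z ω + ENNReal.ofReal ε) ω₁ ∂(PP N c) +
          ENNReal.ofReal (4 * (N : ℝ) ^ (k + l) / lam) := by
            rw [lintegral_add_right _ measurable_const, lintegral_const_mul _ m3,
              lintegral_finsetSum _ fun z _ => m2 z]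
            simp
      _ ≤ ENNReal.ofReal (1 + 8 / lam) * ∑ z ∈ subs k l x,
            ENNReal.ofReal (a * (N : ℝ) ^ k + ε) +
          ENNReal.ofReal (4 * (N : ℝ) ^ (k + l) / lam) := by
            refine add_le_add (mul_le_mul_right (Finset.sum_le_sum fun z _ => ?_) _) le_rfl
            rw [lintegral_indicator (hEmeas z), lintegral_add_right _ measurable_const,
              ENNReal.ofReal_add (by positivity) hε0.le]
            refine add_le_add (hEint z) ?_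
            rw [setLIntegral_const]
            exact mul_le_of_le_one_right' prob_le_one
      _ = ENNReal.ofReal ((1 + 8 / lam) * ((N : ℝ) ^ l * (a * (N : ℝ) ^ k + ε)) +
            4 * (N : ℝ) ^ (k + l) / lam) := by
            rw [Finset.sum_const, card_subs, nsmul_eq_mul, ← ENNReal.ofReal_natCast,
              ← ENNReal.ofReal_mul (Nat.cast_nonneg _), ← ENNReal.ofReal_mul (by positivity),
              ← ENNReal.ofReal_add (by positivity) (by positivity)]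
            push_cast
            rfl
      _ = ENNReal.ofReal (((1 + 8 / lam) * a + 8 / lam) * (N : ℝ) ^ (k + l)) := by
            congr 1
            rw [hε, pow_add]
            field_simp
            ring

end Pool.Agent.Helper98K9.HP
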