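import Pool.Agent.Helper98K9.HP.St2
import Pool.Agent.Helper98K9.HP.Merge
import Pool.Agent.Helper98K9.HP.Step

set_option autoImplicit false

namespace Pool.Agent.Helper98K9.HP

open MeasureTheory ProbabilityTheory Filter Topology
open scoped ENNReal NNReal

open H10 in
theorem conn : S_MIX → S_MEAS → S_CLOF → S_CONN := by
  classical
  intro hmix hmeas hclof N _ c A hN hA ρ M k x y T hρ hM hck hxy hT hTs
  have hN0 : (0 : ℝ) < N := by exact_mod_cast (by omega : 0 < N)
  have hcp : 0 < c (k + 1) := hA.pos _ (by omega)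
  set bound : ℝ≥0∞ := ENNReal.ofReal (Real.exp (-(M * ρ / (N : ℝ) ^ 2))) with hbound
  set B : Set (Cf N) := {ω | ω ∉ light c k M x ∧ ρ * (N : ℝ) ^ k ≤ (T ω).card ∧
      ∀ u ∈ clu ω k x, ∀ v ∈ T ω, ω s(u, v) = false} with hB
  have hyx : y ∈ ball (k + 1) x := mem_ball.2 hxy.le
  have hdist : ∀ u ∈ ball k x, ∀ v ∈ ball k y, dist u v = k + 1 := by
    intro u hu v hv
    rw [mem_ball] at hu hv
    apply le_antisymm
    · refine (dist_ultra u x v).trans (max_le ?_ ((dist_ultra x y v).trans (max_le hxy.le ?_)))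
      · rw [dist_comm]; omega
      · omega
    · by_contra h
      have h1 : dist x y ≤ k := by
        refine (dist_ultra x u y).trans (max_le hu ((dist_ultra u v y).trans (max_le ?_ ?_)))
        · omega
        · rwa [dist_comm]
      omega
  have hsx : ins k x ⊆ ins (k + 1) x := ins_subset (self_mem_ball _ _)
  have hsy : ins k y ⊆ ins (k + 1) x := ins_subset hyx
  have huv : ∀ u ∈ ball k x, ∀ v ∈ ball k y, s(u, v) ∈ ins (k + 1) x := by
    intro u hu v hv w hw
    rcases Sym2.mem_iff.1 hw with rfl | rfl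
    · exact ball_mono (by omega) x hu
    · have := mem_ball.1 hv
      exact mem_ball.2 ((dist_ultra x y _).trans (max_le hxy.le (by omega)))
  have key : ∀ ω ω' : Cf N, (∀ e ∈ ins (k + 1) x, ω e = ω' e) → ω ∈ B → ω' ∈ B := by
    rintro ω ω' h ⟨h1, h2, h3⟩
    have e1 : clu ω k x = clu ω' k x := clu_congr fun e he => h e (hsx he)
    have e2 : T ω = T ω' := hT ω ω' fun e he => h e (hsy he)
    refine ⟨fun h4 => h1 ((light_congr c M fun e he => h e (hsx he)).2 h4), e2 ▸ h2, ?_⟩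
    rw [← e1, ← e2]
    intro u hu v hv
    rw [← h s(u, v) (huv u (clu_subset_ball ω k x hu) v (hTs ω hv))]
    exact h3 u hu v hv
  have hdep : Dep (ins (k + 1) x) (fun ω => ω ∈ B) := fun ω ω' h =>
    eq_iff_iff.2 ⟨key ω ω' h, key ω' ω fun e he => (h e he).symm⟩
  have hBm : MeasurableSet B := StepL.meas_set hmeas (hmeas.1 N (k + 1) x) hdep
  obtain ⟨D, hDx, hDy, hDc⟩ : ∃ D : Set (Ed N), ins k x ⊆ D ∧ ins k y ⊆ D ∧
      ∀ e ∈ D, e ∈ ins k x ∨ e ∈ ins k y :=
    ⟨ins k x ∪ ins k y, Set.subset_union_left, Set.subset_union_right, fun _ h => h⟩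
  have hmp := hmix N c D
  rw [← hmp.measure_preimage hBm.nullMeasurableSet, Measure.prod_apply (hmp.measurable hBm)]
  suffices hfib : ∀ ω₀ : Cf N, PP N c (Prod.mk ω₀ ⁻¹'
      ((fun q : Cf N × Cf N => fun e : Ed N => if e ∈ D then q.1 e else q.2 e) ⁻¹' B)) ≤ bound by
    calc _ ≤ ∫⁻ _ω₀, bound ∂(PP N c) := lintegral_mono hfib
      _ = bound := by rw [lintegral_const, measure_univ, mul_one]
  intro ω₀
  set mx : Cf N → Cf N := fun ω e => if e ∈ D then ω₀ e else ω e with hmx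
  have hset : (Prod.mk ω₀ ⁻¹'
      ((fun q : Cf N × Cf N => fun e : Ed N => if e ∈ D then q.1 e else q.2 e) ⁻¹' B)) =
      {ω | mx ω ∈ B} := rfl
  rw [hset]
  have hin : ∀ (ω : Cf N), ∀ e ∈ D, mx ω e = ω₀ e := fun ω e he => if_pos he
  have hout : ∀ (ω : Cf N), ∀ e, e ∉ D → mx ω e = ω e := fun ω e he => if_neg he
  have ec : ∀ ω, clu (mx ω) k x = clu ω₀ k x := fun ω =>
    clu_congr fun e he => hin ω e (hDx he)
  have eT : ∀ ω, T (mx ω) = T ω₀ := fun ω => hT _ _ fun e he => hin ω e (hDy he)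
  have el : ∀ ω, (mx ω ∈ light c k M x ↔ ω₀ ∈ light c k M x) := fun ω =>
    light_congr c M fun e he => hin ω e (hDx he)
  by_cases hgood : ω₀ ∉ light c k M x ∧ ρ * (N : ℝ) ^ k ≤ (T ω₀).card
  · obtain ⟨hg1, hg2⟩ := hgood
    set F : Finset (Ed N) := (clu ω₀ k x ×ˢ T ω₀).image fun p => s(p.1, p.2) with hF
    have hsub : {ω | mx ω ∈ B} ⊆ {ω | ∀ e ∈ F, ω e = false} := by
      rintro ω ⟨-, -, h3⟩ e he
      obtain ⟨p, hp, rfl⟩ := Finset.mem_image.1 he
      rw [Finset.mem_product] at hp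
      have h4 := h3 p.1 (by rw [ec]; exact hp.1) p.2 (by rw [eT]; exact hp.2)
      have hu := clu_subset_ball ω₀ k x hp.1
      have hv := hTs ω₀ hp.2
      have hd := hdist _ hu _ hv
      rw [hout] at h4
      · exact h4
      · intro h5
        rcases hDc _ h5 with h5 | h5
        · have h6 := mem_ball.1 (h5 p.1 (Sym2.mem_mk_left _ _))
          have h7 := mem_ball.1 (h5 p.2 (Sym2.mem_mk_right _ _))
          have h8 := (dist_ultra p.1 x p.2).trans (max_le (by rwa [dist_comm]) h7)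
          omega
        · have h6 := mem_ball.1 (h5 p.1 (Sym2.mem_mk_left _ _))
          have h7 := mem_ball.1 (h5 p.2 (Sym2.mem_mk_right _ _))
          have h8 := (dist_ultra p.1 y p.2).trans (max_le (by rwa [dist_comm]) h7)
          omega
    refine (measure_mono hsub).trans ((hclof N c F).trans ?_)
    apply ENNReal.ofReal_le_ofReal
    rw [Real.exp_le_exp, neg_le_neg_iff]
    have hcard : F.card = (clu ω₀ k x).card * (T ω₀).card := by
      rw [hF, Finset.card_image_of_injOn, Finset.card_product]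
      rintro ⟨u, v⟩ hp ⟨u', v'⟩ hp' he
      rw [Finset.mem_coe, Finset.mem_product] at hp hp'
      simp only at he hp hp'
      rcases Sym2.eq_iff.1 he with ⟨h1, h2⟩ | ⟨h1, h2⟩
      · rw [h1, h2]
      · exfalso
        have h3 := hdist _ (clu_subset_ball ω₀ k x hp.1) _ (hTs ω₀ hp'.2)
        rw [h1, dist_self] at h3
        omega
    have hval : ∀ e ∈ F, (prE N c e : ℝ) = c (k + 1) / (N : ℝ) ^ (2 * (k + 1)) := by
      intro e he
      obtain ⟨p, hp, rfl⟩ := Finset.mem_image.1 he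
      rw [Finset.mem_product] at hp
      rw [prE_mk, hdist _ (clu_subset_ball ω₀ k x hp.1) _ (hTs ω₀ hp.2)]
      unfold pr
      have h1 : c (k + 1) / (N : ℝ) ^ (2 * (k + 1)) ≤ 1 := by
        rw [div_le_one (by positivity)]; exact hck
      rw [NNReal.coe_min, Real.coe_toNNReal _ (by positivity), NNReal.coe_one, min_eq_left h1]
    rw [Finset.sum_congr rfl hval, Finset.sum_const, hcard, nsmul_eq_mul]
    push_cast
    have h1 : M * (N : ℝ) ^ k ≤ ((clu ω₀ k x).card : ℝ) * c (k + 1) := by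
      rw [mem_light, not_lt] at hg1
      exact hg1
    have h2 : (M * (N : ℝ) ^ k) * (ρ * (N : ℝ) ^ k) ≤
        ((clu ω₀ k x).card : ℝ) * c (k + 1) * (T ω₀).card :=
      mul_le_mul h1 hg2 (by positivity) (by positivity)
    rw [div_le_iff₀ (by positivity)]
    have h3 : ((clu ω₀ k x).card : ℝ) * (T ω₀).card * (c (k + 1) / (N : ℝ) ^ (2 * (k + 1))) *
        (N : ℝ) ^ 2 = ((clu ω₀ k x).card : ℝ) * c (k + 1) * (T ω₀).card / (N : ℝ) ^ (2 * k) := by
      rw [show 2 * (k + 1) = 2 * k + 2 by ring, pow_add]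
      field_simp
    rw [h3, le_div_iff₀ (by positivity)]
    calc M * ρ * (N : ℝ) ^ (2 * k) = (M * (N : ℝ) ^ k) * (ρ * (N : ℝ) ^ k) := by
          rw [two_mul, pow_add]; ring
      _ ≤ _ := h2
  · have : {ω | mx ω ∈ B} = ∅ := by
      rw [Set.eq_empty_iff_forall_notMem]
      rintro ω ⟨h1, h2, -⟩
      exact hgood ⟨fun h => h1 ((el ω).2 h), by rwa [eT] at h2⟩
    rw [this]
    simp

end Pool.Agent.Helper98K9.HP
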