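import Pool.Agent.Helper98K9.HP.St2

set_option autoImplicit false

/-!
# [DUAL], [SCON], [CNT]
-/

namespace Pool.Agent.Helper98K9.HP

namespace DualL

open Finset Filter Topology
open scoped ENNReal NNReal

variable {X : Type}

open Classical in
theorem sum_le_energy (Γ : SimpleGraph X) (f : X → ℝ) (B : Finset X) :
    ENNReal.ofReal (∑ a ∈ B, ∑ b ∈ B, if Γ.Adj a b then (f a - f b) ^ 2 else 0) ≤
      energy Γ f := by
  rw [ENNReal.ofReal_sum_of_nonneg fun a _ => sum_nonneg fun b _ => by split_ifs <;> positivity]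
  unfold energy
  refine le_trans (sum_le_sum fun a _ => ?_) (ENNReal.sum_le_tsum B)
  rw [ENNReal.ofReal_sum_of_nonneg fun b _ => by split_ifs <;> positivity]
  refine le_trans (sum_le_sum fun b _ => ?_) (ENNReal.sum_le_tsum B)
  by_cases h : Γ.Adj a b
  · rw [if_pos h, if_pos h]
  · rw [if_neg h, if_neg h, ENNReal.ofReal_zero]

end DualL

open Finset in
/-- [DUAL] -/
theorem dual : S_DUAL := by
  classical
  intro X Γ W S B Θ f u κ hF hu hfB hfu hf01 he hκ hBS
  set θ := Θ u with hθ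
  have hanti : ∀ a b, θ a b = - θ b a := hF.anti u hu
  have hdiv := hF.div u hu
  have hsupp := hF.supp u hu
  have hScard : 0 < S.card := card_pos.2 ⟨u, hu⟩
  have hSr : (0 : ℝ) < S.card := by exact_mod_cast hScard
  -- the pairing
  have e1 : ∑ a ∈ W, ∑ b ∈ W, θ a b * (f a - f b) = 2 * ∑ a ∈ W, f a * ∑ b ∈ W, θ a b := by
    have e2 : ∑ a ∈ W, ∑ b ∈ W, θ a b * f a = ∑ a ∈ W, ∑ b ∈ W, - (θ a b * f b) := by
      rw [sum_comm]
      refine sum_congr rfl fun b _ => sum_congr rfl fun a _ => ?_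
      rw [hanti a b]
      ring
    have e3 : ∑ a ∈ W, f a * ∑ b ∈ W, θ a b = ∑ a ∈ W, ∑ b ∈ W, θ a b * f a := by
      refine sum_congr rfl fun a _ => ?_
      rw [mul_sum]
      exact sum_congr rfl fun b _ => mul_comm _ _
    rw [two_mul, e3]
    nth_rewrite 2 [e2]
    rw [← sum_add_distrib]
    refine sum_congr rfl fun a _ => ?_
    rw [← sum_add_distrib]
    refine sum_congr rfl fun b _ => ?_
    ring
  have huW : u ∈ W := hF.sub hu
  have e4 : ∑ a ∈ W, f a * ∑ b ∈ W, θ a b = 1 - (∑ a ∈ S, f a) / S.card := by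
    rw [sum_congr rfl fun a ha => by rw [hdiv a ha]]
    simp_rw [mul_sub]
    rw [sum_sub_distrib]
    congr 1
    · simp_rw [mul_ite, mul_one, mul_zero]
      rw [sum_ite_eq' W u, if_pos huW, hfu]
    · simp_rw [mul_ite, mul_zero]
      rw [← sum_filter]
      have : W.filter (fun a => a ∈ S) = S := by
        ext a
        rw [mem_filter]
        exact ⟨fun h => h.2, fun h => ⟨hF.sub h, h⟩⟩
      rw [this, sum_div]
      exact sum_congr rfl fun a _ => by ring
  have e5 : ∑ a ∈ S, f a ≤ B.card := by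
    have h1 : ∑ a ∈ S, f a ≤ ∑ a ∈ S, if a ∈ B then (1 : ℝ) else 0 := by
      refine sum_le_sum fun a _ => ?_
      split_ifs with h
      · exact (hf01 a).2
      · by_contra h2
        exact h (hfB a (by intro h3; rw [h3] at h2; exact h2 le_rfl))
    refine h1.trans ?_
    rw [← sum_filter, sum_const, nsmul_eq_mul, mul_one]
    have : (S.filter fun a => a ∈ B) ⊆ B := fun a ha => (mem_filter.1 ha).2
    exact_mod_cast card_le_card this
  have e6 : 0 ≤ 1 - (B.card : ℝ) / S.card := by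
    rw [sub_nonneg, div_le_one hSr]
    exact_mod_cast hBS
  have e7 : 1 - (B.card : ℝ) / S.card ≤ 1 - (∑ a ∈ S, f a) / S.card := by
    have := div_le_div_of_nonneg_right e5 hSr.le
    linarith
  -- Cauchy-Schwarz
  have hcs : (∑ p ∈ W ×ˢ W, θ p.1 p.2 *
      (if Γ.Adj p.1 p.2 then (f p.1 - f p.2) else 0)) ^ 2 ≤
      (∑ p ∈ W ×ˢ W, (θ p.1 p.2) ^ 2) *
      (∑ p ∈ W ×ˢ W, (if Γ.Adj p.1 p.2 then (f p.1 - f p.2) else 0) ^ 2) :=
    sum_mul_sq_le_sq_mul_sq _ _ _
  have c1 : ∑ p ∈ W ×ˢ W, θ p.1 p.2 *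
      (if Γ.Adj p.1 p.2 then (f p.1 - f p.2) else 0) =
      ∑ a ∈ W, ∑ b ∈ W, θ a b * (f a - f b) := by
    rw [sum_product]
    refine sum_congr rfl fun a _ => sum_congr rfl fun b _ => ?_
    dsimp only
    split_ifs with h
    · rfl
    · have : θ a b = 0 := by
        by_contra h2
        exact h (hsupp a b h2).1
      rw [this]; ring
  have c2 : ∑ p ∈ W ×ˢ W, (if Γ.Adj p.1 p.2 then (f p.1 - f p.2) else 0) ^ 2 =
      ∑ a ∈ W, ∑ b ∈ W, (if Γ.Adj a b then (f a - f b) ^ 2 else 0) := by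
    rw [sum_product]
    refine sum_congr rfl fun a _ => sum_congr rfl fun b _ => ?_
    split_ifs <;> simp
  have c3 : ∑ a ∈ W, ∑ b ∈ W, (if Γ.Adj a b then (f a - f b) ^ 2 else 0) ≤ κ := by
    have := (DualL.sum_le_energy Γ f W).trans he
    rwa [ENNReal.ofReal_le_ofReal_iff hκ] at this
  rw [c1, c2, e1, e4, sum_product] at hcs
  have c4 : 0 ≤ ∑ a ∈ W, ∑ b ∈ W, θ a b ^ 2 :=
    sum_nonneg fun a _ => sum_nonneg fun b _ => sq_nonneg _
  calc 4 * (1 - (B.card : ℝ) / S.card) ^ 2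
      ≤ 4 * (1 - (∑ a ∈ S, f a) / S.card) ^ 2 := by gcongr
    _ = (2 * (1 - (∑ a ∈ S, f a) / S.card)) ^ 2 := by ring
    _ ≤ _ := hcs
    _ ≤ (∑ a ∈ W, ∑ b ∈ W, θ a b ^ 2) * κ := by gcongr
    _ = _ := mul_comm _ _

open Finset in
/-- [SCON] -/
theorem scon : S_SCON := by
  classical
  intro X Γ W S Θ hF u hu v hv
  by_contra hnr
  have hanti := hF.anti u hu
  have hdiv := hF.div u hu
  have hsupp := hF.supp u hu
  have hScard : 0 < S.card := card_pos.2 ⟨u, hu⟩
  have hSr : (0 : ℝ) < S.card := by exact_mod_cast hScard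
  set K : Finset X := W.filter fun a => Γ.Reachable u a with hK
  have huK : u ∈ K := by
    rw [hK, mem_filter]
    exact ⟨hF.sub hu, SimpleGraph.Reachable.refl _⟩
  have e1 : ∑ a ∈ K, ∑ b ∈ W, Θ u a b = ∑ a ∈ K, ∑ b ∈ K, Θ u a b := by
    refine sum_congr rfl fun a ha => ?_
    symm
    apply sum_subset (filter_subset _ _)
    intro b hb hbK
    by_contra h
    apply hbK
    rw [mem_filter] at ha ⊢
    exact ⟨hb, ha.2.trans (hsupp a b h).1.reachable⟩
  have e2 : ∑ a ∈ K, ∑ b ∈ K, Θ u a b = 0 := by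
    have : ∑ a ∈ K, ∑ b ∈ K, Θ u a b = - ∑ a ∈ K, ∑ b ∈ K, Θ u a b := by
      nth_rewrite 1 [sum_comm]
      rw [← sum_neg_distrib]
      refine sum_congr rfl fun b _ => ?_
      rw [← sum_neg_distrib]
      exact sum_congr rfl fun a _ => hanti a b
    linarith
  have e3 : ∑ a ∈ K, ∑ b ∈ W, Θ u a b = 1 - ((K.filter fun a => a ∈ S).card : ℝ) / S.card := by
    rw [sum_congr rfl fun a ha => by rw [hdiv a (mem_filter.1 ha).1]]
    rw [sum_sub_distrib, sum_ite_eq' K u, if_pos huK, ← sum_filter, sum_const, nsmul_eq_mul]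
    ring
  rw [e1, e2] at e3
  have e4 : (K.filter fun a => a ∈ S).card < S.card := by
    apply card_lt_card
    rw [ssubset_iff_of_subset fun a ha => (mem_filter.1 ha).2]
    refine ⟨v, hv, fun h => hnr ?_⟩
    exact (mem_filter.1 (mem_filter.1 h).1).2
  have e5 : ((K.filter fun a => a ∈ S).card : ℝ) / S.card < 1 := by
    rw [div_lt_one hSr]
    exact_mod_cast e4
  linarith

open Finset in
/-- [CNT] -/
theorem cnt : S_CNT := by
  classical
  intro N _ κ a' j k y ω S Θ hκ hF hen hS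
  set T := S.filter fun u => ω ∈ Zs j κ u with hT
  have h1 : ∀ u ∈ T, 1 ≤ κ * ∑ a ∈ ball k y, ∑ b ∈ ball k y, Θ u a b ^ 2 := by
    intro u hu
    rw [hT, mem_filter] at hu
    obtain ⟨hu, f, hf, hfu, hf01, he⟩ := hu
    have hc : (ball j u).card ≤ S.card := by
      rw [card_ball]
      omega
    have h2 := dual (V N) (G ω) (ball k y) S (ball j u) Θ f u κ hF hu hf hfu hf01 he hκ.le hc
    have hSr : (0 : ℝ) < S.card := by
      exact_mod_cast card_pos.2 ⟨u, hu⟩
    have h3 : ((ball j u).card : ℝ) / S.card ≤ 1 / 2 := by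
      rw [div_le_iff₀ hSr, card_ball]
      have : ((2 * N ^ j : ℕ) : ℝ) ≤ S.card := by exact_mod_cast hS
      push_cast at this ⊢
      linarith
    have h4 : (1 : ℝ) ≤ 4 * (1 - ((ball j u).card : ℝ) / S.card) ^ 2 := by
      nlinarith
    exact h4.trans h2
  have h2 : (T.card : ℝ) ≤ κ * enF (ball k y) S Θ := by
    calc (T.card : ℝ) = ∑ u ∈ T, (1 : ℝ) := by simp
      _ ≤ ∑ u ∈ T, κ * ∑ a ∈ ball k y, ∑ b ∈ ball k y, Θ u a b ^ 2 := sum_le_sum h1
      _ ≤ ∑ u ∈ S, κ * ∑ a ∈ ball k y, ∑ b ∈ ball k y, Θ u a b ^ 2 := by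
          apply sum_le_sum_of_subset_of_nonneg (filter_subset _ _)
          intro u _ _
          exact mul_nonneg hκ.le (sum_nonneg fun a _ => sum_nonneg fun b _ => sq_nonneg _)
      _ = κ * enF (ball k y) S Θ := by
          rw [← mul_sum]
          rfl
  calc (T.card : ℝ) ≤ κ * enF (ball k y) S Θ := h2
    _ ≤ κ * (a' * (N : ℝ) ^ k) := by gcongr
    _ = κ * a' * (N : ℝ) ^ k := by ring

end Pool.Agent.Helper98K9.HP
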