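import Pool.Agent.Helper98K9.HP.St

set_option autoImplicit false

/-!
# [ENN]: the energy of the optimal function of the distance
-/

namespace Pool.Agent.Helper98K9.HP

open MeasureTheory ProbabilityTheory Filter Topology
open scoped ENNReal NNReal

namespace EnnL

/-- the weights -/
noncomputable def W (c : ℕ → ℝ) (K i : ℕ) : ℝ := ∑ l ∈ Finset.Ico i K, 1 / c (l + 1)

theorem W_diff {c : ℕ → ℝ} (hc : ∀ l, 0 < c (l + 1)) (hm : ∀ j k, 1 ≤ j → j ≤ k → c j ≤ c k)
    (K i r : ℕ) : 0 ≤ W c K i - W c K (i + 1 + r) ∧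
      W c K i - W c K (i + 1 + r) ≤ ((r : ℝ) + 1) / c (i + 1) := by
  have hnn : ∀ l, 0 ≤ 1 / c (l + 1) := fun l => by have := hc l; positivity
  constructor
  · rw [sub_nonneg]
    unfold W
    refine Finset.sum_le_sum_of_subset_of_nonneg ?_ fun l _ _ => hnn l
    intro l hl
    rw [Finset.mem_Ico] at hl ⊢
    omega
  · have h1 : W c K i ≤ (∑ l ∈ Finset.Ico i (i + 1 + r), 1 / c (l + 1)) + W c K (i + 1 + r) := by
      unfold W
      rw [← Finset.sum_union (Finset.Ico_disjoint_Ico_consecutive i (i + 1 + r) K)]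
      refine Finset.sum_le_sum_of_subset_of_nonneg ?_ fun l _ _ => hnn l
      intro l hl
      rw [Finset.mem_union]
      rw [Finset.mem_Ico] at hl
      rw [Finset.mem_Ico, Finset.mem_Ico]
      omega
    have h2 : (∑ l ∈ Finset.Ico i (i + 1 + r), 1 / c (l + 1)) ≤
        (Finset.Ico i (i + 1 + r)).card • (1 / c (i + 1)) := by
      refine Finset.sum_le_card_nsmul _ _ _ fun l hl => ?_
      rw [Finset.mem_Ico] at hl
      exact one_div_le_one_div_of_le (hc i) (hm _ _ (by omega) (by omega))
    rw [Nat.card_Ico, nsmul_eq_mul] at h2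
    have h3 : ((i + 1 + r - i : ℕ) : ℝ) = (r : ℝ) + 1 := by
      have : i + 1 + r - i = r + 1 := by omega
      rw [this]; push_cast; ring
    rw [h3] at h2
    have h4 : ((r : ℝ) + 1) * (1 / c (i + 1)) = ((r : ℝ) + 1) / c (i + 1) := by ring
    linarith

end EnnL

open Classical in
theorem enn : S_ENN := by
  intro N _ c A K hN hA hK
  have hc : ∀ l, 0 < c (l + 1) := fun l => hA.pos _ (by omega)
  have hN0 : (0 : ℝ) < N := by
    have : 0 < N := by omega
    exact_mod_cast this
  obtain ⟨S, hS⟩ : ∃ S : ℝ, S = ∑ l ∈ Finset.range K, 1 / c (l + 1) := ⟨_, rfl⟩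
  have hS0 : 0 < S := by
    rw [hS]
    refine Finset.sum_pos (fun l _ => by have := hc l; positivity) ?_
    exact ⟨0, Finset.mem_range.2 (by omega)⟩
  have hA0 : 0 ≤ A := by
    have h1 := hA.tail 0
    have h2 : 0 ≤ ∑' r : ℕ, c (0 + 1 + r) * ((r : ℝ) + 1) ^ 2 / (N : ℝ) ^ (r + 1) := by
      refine tsum_nonneg fun r => ?_
      have : 0 < c (0 + 1 + r) := hA.pos _ (by omega)
      positivity
    have h3 := hc 0
    by_contra hcon
    push Not at hcon
    have : A * c (0 + 1) < 0 := mul_neg_of_neg_of_pos hcon h3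
    linarith
  have hW0 : EnnL.W c K 0 = S := by
    unfold EnnL.W
    rw [hS, Finset.range_eq_Ico]
  have hWK : ∀ i, K ≤ i → EnnL.W c K i = 0 := by
    intro i hi
    unfold EnnL.W
    rw [Finset.Ico_eq_empty (by omega), Finset.sum_empty]
  refine ⟨fun i => EnnL.W c K i / S, ?_, ?_, ?_⟩
  · show EnnL.W c K 0 / S = 1
    rw [hW0, div_self hS0.ne']
  · intro i hi
    show EnnL.W c K i / S = 0
    rw [hWK i hi, zero_div]
  · -- the inner sums
    have hin : ∀ i : ℕ, ∑' j : ℕ, (if i < j then
        ENNReal.ofReal (2 * c j * (EnnL.W c K i / S - EnnL.W c K j / S) ^ 2 * (N : ℝ) ^ i /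
          (N : ℝ) ^ j) else 0) ≤
        if i < K then ENNReal.ofReal (2 * A / S ^ 2 * (1 / c (i + 1))) else 0 := by
      intro i
      have h1 := Function.Injective.tsum_eq (g := fun r : ℕ => i + 1 + r)
        (f := fun j : ℕ => if i < j then
          ENNReal.ofReal (2 * c j * (EnnL.W c K i / S - EnnL.W c K j / S) ^ 2 * (N : ℝ) ^ i /
          (N : ℝ) ^ j) else 0) (fun a b hab => by simpa using hab) (by
          intro j hj
          rw [Function.mem_support] at hj
          by_cases hij : i < j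
          · exact ⟨j - (i + 1), by show i + 1 + (j - (i + 1)) = j; omega⟩
          · exact absurd (if_neg hij) hj)
      rw [← h1]
      by_cases hiK : i < K
      · rw [if_pos hiK]
        have h2 : ∀ r : ℕ, (if i < i + 1 + r then
            ENNReal.ofReal (2 * c (i + 1 + r) * (EnnL.W c K i / S - EnnL.W c K (i + 1 + r) / S) ^ 2 *
              (N : ℝ) ^ i / (N : ℝ) ^ (i + 1 + r)) else 0) ≤
            ENNReal.ofReal (2 / (S ^ 2 * c (i + 1) ^ 2) *
              (c (i + 1 + r) * ((r : ℝ) + 1) ^ 2 / (N : ℝ) ^ (r + 1))) := by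
          intro r
          rw [if_pos (by omega)]
          apply ENNReal.ofReal_le_ofReal
          obtain ⟨h3, h4⟩ := EnnL.W_diff hc hA.mono K i r
          have h5 : (EnnL.W c K i - EnnL.W c K (i + 1 + r)) ^ 2 ≤
              (((r : ℝ) + 1) / c (i + 1)) ^ 2 := pow_le_pow_left₀ h3 h4 2
          have hcr : 0 < c (i + 1 + r) := hA.pos _ (by omega)
          have hci := hc i
          have e1 : 2 * c (i + 1 + r) * (EnnL.W c K i / S - EnnL.W c K (i + 1 + r) / S) ^ 2 *
              (N : ℝ) ^ i / (N : ℝ) ^ (i + 1 + r) =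
              2 * c (i + 1 + r) / (S ^ 2 * (N : ℝ) ^ (r + 1)) *
                (EnnL.W c K i - EnnL.W c K (i + 1 + r)) ^ 2 := by
            have : (N : ℝ) ^ (i + 1 + r) = (N : ℝ) ^ i * (N : ℝ) ^ (r + 1) := by
              rw [← pow_add]; congr 1; ring
            rw [this]
            field_simp
          have e2 : 2 / (S ^ 2 * c (i + 1) ^ 2) *
              (c (i + 1 + r) * ((r : ℝ) + 1) ^ 2 / (N : ℝ) ^ (r + 1)) =
              2 * c (i + 1 + r) / (S ^ 2 * (N : ℝ) ^ (r + 1)) *
                (((r : ℝ) + 1) / c (i + 1)) ^ 2 := by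
            field_simp
          rw [e1, e2]
          exact mul_le_mul_of_nonneg_left h5 (by positivity)
        refine (ENNReal.tsum_le_tsum h2).trans ?_
        have hci := hc i
        have hsum : Summable fun r : ℕ => 2 / (S ^ 2 * c (i + 1) ^ 2) *
              (c (i + 1 + r) * ((r : ℝ) + 1) ^ 2 / (N : ℝ) ^ (r + 1)) := (hA.summ i).mul_left _
        rw [← ENNReal.ofReal_tsum_of_nonneg (fun r => by
          have hcr : 0 < c (i + 1 + r) := hA.pos _ (by omega)
          positivity) hsum, tsum_mul_left]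
        apply ENNReal.ofReal_le_ofReal
        have h6 := mul_le_mul_of_nonneg_left (hA.tail i)
          (show (0 : ℝ) ≤ 2 / (S ^ 2 * c (i + 1) ^ 2) by positivity)
        refine h6.trans (le_of_eq ?_)
        field_simp
      · rw [if_neg hiK]
        refine le_of_eq (ENNReal.tsum_eq_zero.2 fun r => ?_)
        show (if i < i + 1 + r then _ else _) = _
        rw [if_pos (by omega), hWK i (by omega), hWK (i + 1 + r) (by omega)]
        simp
    refine (ENNReal.tsum_le_tsum hin).trans ?_
    rw [tsum_eq_sum (s := Finset.range K) (fun i hi => if_neg (by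
      rw [Finset.mem_range] at hi; exact hi))]
    rw [Finset.sum_congr rfl (fun i hi => if_pos (Finset.mem_range.1 hi)),
      ← ENNReal.ofReal_sum_of_nonneg (fun i _ => by have := hc i; positivity), ← Finset.mul_sum,
      ← hS]
    apply ENNReal.ofReal_le_ofReal
    refine le_of_eq ?_
    field_simp

end Pool.Agent.Helper98K9.HP
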