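import Pool.Agent.Helper98K9.HP.Clo

set_option autoImplicit false

/-!
# [ENP]: mean energy of a function of the distance
-/

namespace Pool.Agent.Helper98K9.HP

open MeasureTheory ProbabilityTheory Filter Topology
open scoped ENNReal NNReal

namespace EnpL

/-- the sum of a function of the distance -/
theorem tsum_dist_le {N : ℕ} [NeZero N] (x : V N) (g : ℕ → ℝ≥0∞) :
    ∑' y : V N, g (dist x y) ≤ ∑' i : ℕ, (N : ℝ≥0∞) ^ i * g i := by
  classical
  have h1 : ∀ y : V N, g (dist x y) ≤ ∑' i : ℕ, (if dist x y = i then g i else 0) := by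
    intro y
    refine le_trans (le_of_eq ?_) (ENNReal.le_tsum (dist x y))
    rw [if_pos rfl]
  calc ∑' y : V N, g (dist x y) ≤ ∑' y : V N, ∑' i : ℕ, (if dist x y = i then g i else 0) :=
        ENNReal.tsum_le_tsum h1
    _ = ∑' i : ℕ, ∑' y : V N, (if dist x y = i then g i else 0) := ENNReal.tsum_comm
    _ ≤ ∑' i : ℕ, (N : ℝ≥0∞) ^ i * g i := by
        refine ENNReal.tsum_le_tsum fun i => ?_
        rw [tsum_eq_sum (s := ball i x)]
        · calc ∑ y ∈ ball i x, (if dist x y = i then g i else 0) ≤ ∑ _y ∈ ball i x, g i := by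
                refine Finset.sum_le_sum fun y _ => ?_
                split_ifs
                · exact le_rfl
                · exact bot_le
            _ = (N : ℝ≥0∞) ^ i * g i := by
                rw [Finset.sum_const, card_ball, nsmul_eq_mul]
                push_cast
                rfl
        · intro y hy
          rw [if_neg]
          intro h
          exact hy (mem_ball.2 h.le)

/-- ultrametric: two different distances to `x` -/
theorem dist_eq_max {N : ℕ} {x y z : V N} (h : dist x y ≠ dist x z) :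
    dist y z = max (dist x y) (dist x z) := by
  have h1 : dist y z ≤ max (dist x y) (dist x z) := by
    have := dist_ultra y x z
    rwa [dist_comm y x] at this
  have h2 : dist x y ≤ max (dist x z) (dist y z) := by
    have := dist_ultra x z y
    rwa [dist_comm z y] at this
  have h3 : dist x z ≤ max (dist x y) (dist y z) := dist_ultra x y z
  omega

theorem meas_open {N : ℕ} (y z : V N) : MeasurableSet {ω : Cf N | ω s(y, z) = true} := by
  have h : Measurable fun ω : Cf N => ω s(y, z) := measurable_pi_apply (s(y, z) : Ed N)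
  exact h (measurableSet_singleton true)

/-- the mean of one term of the energy -/
theorem lint_term {N : ℕ} (c : ℕ → ℝ) (y z : V N) (a : ℝ≥0∞) :
    ∫⁻ ω, (open Classical in if (G ω).Adj y z then a else 0) ∂(PP N c) ≤
      a * (pr N c (dist y z) : ℝ≥0∞) := by
  classical
  have hms : MeasurableSet {ω : Cf N | ω s(y, z) = true} :=
    meas_open y z
  calc ∫⁻ ω, (if (G ω).Adj y z then a else 0) ∂(PP N c)
      ≤ ∫⁻ ω, {ω : Cf N | ω s(y, z) = true}.indicator (fun _ => a) ω ∂(PP N c) := by
        refine lintegral_mono fun ω => ?_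
        by_cases h : (G ω).Adj y z
        · rw [if_pos h, Set.indicator_of_mem]
          exact h.2
        · rw [if_neg h]
          exact bot_le
    _ = a * PP N c {ω : Cf N | ω s(y, z) = true} := by
        rw [lintegral_indicator hms, lintegral_const, Measure.restrict_apply_univ]
    _ = a * (pr N c (dist y z) : ℝ≥0∞) := by
        rw [CloL.open_one, prE_mk]

theorem meas_term {N : ℕ} (y z : V N) (a : ℝ≥0∞) :
    Measurable fun ω : Cf N => (open Classical in if (G ω).Adj y z then a else 0 : ℝ≥0∞) := by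
  classical
  by_cases hyz : y = z
  · subst hyz
    have : (fun ω : Cf N => (if (G ω).Adj y y then a else 0 : ℝ≥0∞)) = fun _ => 0 := by
      funext ω
      rw [if_neg]
      exact fun h => h.1 rfl
    rw [this]
    exact measurable_const
  · refine Measurable.ite ?_ measurable_const measurable_const
    have : {ω : Cf N | (G ω).Adj y z} = {ω : Cf N | ω s(y, z) = true} := by
      ext ω
      exact ⟨fun h => h.2, fun h => ⟨hyz, h⟩⟩
    rw [this]
    exact meas_open y z

/-- the energy of a fixed function is a measurable function of the configuration -/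
theorem meas_energy {N : ℕ} [NeZero N] (f : V N → ℝ) :
    Measurable fun ω : Cf N => energy (G ω) f := by
  unfold energy
  exact Measurable.tsum fun y => Measurable.tsum fun z => meas_term y z _

theorem pr_le_ofReal {N : ℕ} (c : ℕ → ℝ) (k : ℕ) :
    (pr N c k : ℝ≥0∞) ≤ ENNReal.ofReal (c k / (N : ℝ) ^ (2 * k)) := by
  unfold pr ENNReal.ofReal
  exact_mod_cast min_le_left _ _

end EnpL

open EnpL

theorem enp : S_ENP := by
  intro N _ c x ψ hc
  classical
  have hN0 : (0 : ℝ) < N := by
    have : 0 < N := Nat.pos_of_ne_zero (NeZero.ne N)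
    exact_mod_cast this
  -- the mean energy
  have h1 : ∫⁻ ω, energy (G ω) (fun y => ψ (dist x y)) ∂(PP N c) =
      ∑' y : V N, ∑' z : V N, ∫⁻ ω, (open Classical in if (G ω).Adj y z then
        ENNReal.ofReal ((ψ (dist x y) - ψ (dist x z)) ^ 2) else 0) ∂(PP N c) := by
    unfold energy
    rw [lintegral_tsum fun y =>
      (Measurable.tsum fun z => meas_term y z _).aemeasurable]
    refine tsum_congr fun y => ?_
    rw [lintegral_tsum fun z => (meas_term y z _).aemeasurable]
  rw [h1]
  set T : ℕ → ℕ → ℝ≥0∞ := fun i j => if i = j then 0 else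
    ENNReal.ofReal ((ψ i - ψ j) ^ 2) * (pr N c (max i j) : ℝ≥0∞) with hT
  set U : ℕ → ℕ → ℝ≥0∞ := fun i j => if i < j then
    (N : ℝ≥0∞) ^ i * ((N : ℝ≥0∞) ^ j * (ENNReal.ofReal ((ψ i - ψ j) ^ 2) *
      (pr N c j : ℝ≥0∞))) else 0 with hU
  have h2 : ∀ y z : V N, ∫⁻ ω, (open Classical in if (G ω).Adj y z then
        ENNReal.ofReal ((ψ (dist x y) - ψ (dist x z)) ^ 2) else 0) ∂(PP N c) ≤
      T (dist x y) (dist x z) := by
    intro y z
    by_cases h : dist x y = dist x z
    · rw [hT]
      simp only [h, if_true, sub_self, ne_eq, OfNat.ofNat_ne_zero, not_false_eq_true, zero_pow,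
        ENNReal.ofReal_zero, ite_self, lintegral_zero, le_refl]
    · refine (lint_term c y z _).trans (le_of_eq ?_)
      rw [hT]
      simp only [if_neg h]
      rw [dist_eq_max h]
  have h3 : ∀ i j, (N : ℝ≥0∞) ^ i * ((N : ℝ≥0∞) ^ j * T i j) ≤ U i j + U j i := by
    intro i j
    rcases lt_trichotomy i j with h | h | h
    · rw [hT, hU]
      simp only [if_pos h, if_neg h.ne, if_neg h.not_gt, max_eq_right h.le, add_zero]
      exact le_rfl
    · subst h
      rw [hT]
      simp only [if_true, mul_zero]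
      exact bot_le
    · rw [hT, hU]
      simp only [if_pos h, if_neg h.ne', if_neg h.not_gt, max_eq_left h.le, zero_add]
      apply le_of_eq
      have e : (ψ i - ψ j) ^ 2 = (ψ j - ψ i) ^ 2 := by ring
      rw [e]
      ring
  have h4 : ∀ i j, U i j + U i j ≤ (if i < j then
        ENNReal.ofReal (2 * c j * (ψ i - ψ j) ^ 2 * (N : ℝ) ^ i / (N : ℝ) ^ j) else 0) := by
    intro i j
    rw [hU]
    by_cases h : i < j
    · simp only [if_pos h]
      have hcj : 0 ≤ c j := hc j (by omega)
      have e1 : ∀ m : ℕ, (N : ℝ≥0∞) ^ m = ENNReal.ofReal ((N : ℝ) ^ m) := by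
        intro m
        rw [ENNReal.ofReal_pow hN0.le, ENNReal.ofReal_natCast]
      have e2 : (N : ℝ≥0∞) ^ i * ((N : ℝ≥0∞) ^ j * (ENNReal.ofReal ((ψ i - ψ j) ^ 2) *
          (pr N c j : ℝ≥0∞))) ≤
          ENNReal.ofReal ((N : ℝ) ^ i * ((N : ℝ) ^ j * ((ψ i - ψ j) ^ 2 *
            (c j / (N : ℝ) ^ (2 * j))))) := by
        rw [ENNReal.ofReal_mul (by positivity), ENNReal.ofReal_mul (by positivity),
          ENNReal.ofReal_mul (by positivity), e1 i, e1 j]
        gcongr
        exact pr_le_ofReal c j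
      refine (add_le_add e2 e2).trans (le_of_eq ?_)
      rw [← ENNReal.ofReal_add (by positivity) (by positivity)]
      congr 1
      have hNj : (N : ℝ) ^ (2 * j) = (N : ℝ) ^ j * (N : ℝ) ^ j := by
        rw [two_mul, pow_add]
      rw [hNj]
      have hp : (0 : ℝ) < (N : ℝ) ^ j := by positivity
      field_simp
      ring
    · simp only [if_neg h, add_zero]
      exact le_rfl
  calc ∑' y : V N, ∑' z : V N, ∫⁻ ω, (open Classical in if (G ω).Adj y z then
        ENNReal.ofReal ((ψ (dist x y) - ψ (dist x z)) ^ 2) else 0) ∂(PP N c)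
      ≤ ∑' y : V N, ∑' z : V N, T (dist x y) (dist x z) :=
        ENNReal.tsum_le_tsum fun y => ENNReal.tsum_le_tsum fun z => h2 y z
    _ ≤ ∑' y : V N, ∑' j : ℕ, (N : ℝ≥0∞) ^ j * T (dist x y) j :=
        ENNReal.tsum_le_tsum fun y => tsum_dist_le x (T (dist x y))
    _ ≤ ∑' i : ℕ, (N : ℝ≥0∞) ^ i * ∑' j : ℕ, (N : ℝ≥0∞) ^ j * T i j :=
        tsum_dist_le x fun i => ∑' j : ℕ, (N : ℝ≥0∞) ^ j * T i j
    _ = ∑' i : ℕ, ∑' j : ℕ, (N : ℝ≥0∞) ^ i * ((N : ℝ≥0∞) ^ j * T i j) := by
        refine tsum_congr fun i => ?_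
        rw [ENNReal.tsum_mul_left]
    _ ≤ ∑' i : ℕ, ∑' j : ℕ, (U i j + U j i) :=
        ENNReal.tsum_le_tsum fun i => ENNReal.tsum_le_tsum fun j => h3 i j
    _ = ∑' i : ℕ, ∑' j : ℕ, (U i j + U i j) := by
        simp only [ENNReal.tsum_add]
        congr 1
        exact ENNReal.tsum_comm
    _ ≤ _ := ENNReal.tsum_le_tsum fun i => ENNReal.tsum_le_tsum fun j => h4 i j

end Pool.Agent.Helper98K9.HP
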