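import Pool.Agent.Helper98K9.HP.St

/-!
# Gluing of families of flows ([FLOW])
-/

set_option autoImplicit false

namespace Pool.Agent.Helper98K9.HP

namespace FlowL

open Finset

open Classical in
/-- the point mass -/
noncomputable def dl {X : Type} (a u : X) : ℝ := if a = u then 1 else 0

open Classical in
/-- the uniform distribution -/
noncomputable def un {X : Type} (S : Finset X) (a : X) : ℝ := if a ∈ S then 1 / (S.card : ℝ) else 0

open Classical in
/-- the indicator -/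
noncomputable def ic {X : Type} (F : Finset X) (e : X) : ℝ := if e ∈ F then 1 else 0

lemma ic_sq {X : Type} (F : Finset X) (e : X) : ic F e ^ 2 = ic F e := by
  unfold ic; split_ifs <;> norm_num

lemma ic_nonneg {X : Type} (F : Finset X) (e : X) : 0 ≤ ic F e := by
  unfold ic; split_ifs <;> norm_num

lemma fam_div {X : Type} {Γ : SimpleGraph X} {W S : Finset X} {Θ : X → X → X → ℝ}
    (h : Fam Γ W S Θ) {u : X} (hu : u ∈ S) {a : X} (ha : a ∈ W) :
    ∑ b ∈ W, Θ u a b = dl a u - un S a := by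
  have h1 := h.div u hu a ha
  unfold dl un
  convert h1 using 2

lemma div_ext {X : Type} {Γ : SimpleGraph X} {W S : Finset X} {Θ : X → X → X → ℝ}
    (h : Fam Γ W S Θ) {W' : Finset X} (hW : W ⊆ W') {u : X} (hu : u ∈ S) (a : X) :
    ∑ b ∈ W', Θ u a b = dl a u - un S a := by
  by_cases ha : a ∈ W
  · rw [← fam_div h hu ha]
    refine (Finset.sum_subset hW fun b _ hb => ?_).symm
    by_contra hne
    exact hb (h.supp u hu a b hne).2.2
  · have h1 : dl a u = 0 := by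
      unfold dl
      rw [if_neg]
      rintro rfl
      exact ha (h.sub hu)
    have h2 : un S a = 0 := by
      unfold un
      rw [if_neg]
      exact fun h3 => ha (h.sub h3)
    rw [h1, h2, sub_zero]
    refine Finset.sum_eq_zero fun b _ => ?_
    by_contra hne
    exact ha (h.supp u hu a b hne).2.1

/-- the data -/
structure Dat {X ι : Type} (Γ : SimpleGraph X) (W : Finset X) (Z : Finset ι)
    (Wz Sz : ι → Finset X) (Θ : ι → X → X → X → ℝ) (F : ι → ι → Finset (X × X)) : Prop where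
  sub : ∀ z ∈ Z, Wz z ⊆ W
  dis : ∀ z ∈ Z, ∀ z' ∈ Z, z ≠ z' → Disjoint (Wz z) (Wz z')
  non : ∀ z ∈ Z, (Sz z).Nonempty
  fam : ∀ z ∈ Z, Fam Γ (Wz z) (Sz z) (Θ z)
  ne : ∀ z ∈ Z, ∀ z' ∈ Z, z ≠ z' → (F z z').Nonempty
  ed : ∀ z ∈ Z, ∀ z' ∈ Z, z ≠ z' → ∀ e ∈ F z z', e.1 ∈ Sz z ∧ e.2 ∈ Sz z' ∧ Γ.Adj e.1 e.2
  sw : ∀ z ∈ Z, ∀ z' ∈ Z, z ≠ z' → ∀ e, e ∈ F z z' ↔ e.swap ∈ F z' z

variable {X ι : Type} {Γ : SimpleGraph X} {W : Finset X} {Z : Finset ι} {Wz Sz : ι → Finset X}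
    {Θ : ι → X → X → X → ℝ} {F : ι → ι → Finset (X × X)}

/-- the averaged inner flow -/
noncomputable def AA (Θ : ι → X → X → X → ℝ) (F : ι → ι → Finset (X × X)) (z z' : ι) (a b : X) :
    ℝ := (∑ e ∈ F z z', Θ z e.1 a b) / ((F z z').card : ℝ)

/-- the flow through the edges between two sets -/
noncomputable def MM (F : ι → ι → Finset (X × X)) (z z' : ι) (a b : X) : ℝ :=
  (ic (F z z') (a, b) - ic (F z z') (b, a)) / ((F z z').card : ℝ)

open Classical in
/-- the flow between two uniform distributions -/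
noncomputable def GG (Θ : ι → X → X → X → ℝ) (F : ι → ι → Finset (X × X)) (z z' : ι) (a b : X) :
    ℝ := if z = z' then 0 else -AA Θ F z z' a b + MM F z z' a b + AA Θ F z' z a b

lemma GG_self (z : ι) (a b : X) : GG Θ F z z a b = 0 := if_pos rfl

lemma GG_ne {z z' : ι} (h : z ≠ z') (a b : X) :
    GG Θ F z z' a b = -AA Θ F z z' a b + MM F z z' a b + AA Θ F z' z a b := if_neg h

section

variable (D : Dat Γ W Z Wz Sz Θ F) {z z' : ι} (hz : z ∈ Z) (hz' : z' ∈ Z)
include D hz hz'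

lemma card_sw (hne : z ≠ z') : (F z z').card = (F z' z).card :=
  Finset.card_equiv (Equiv.prodComm X X) fun e => D.sw z hz z' hz' hne e

lemma AA_supp (hne : z ≠ z') {a b : X} (h : AA Θ F z z' a b ≠ 0) :
    Γ.Adj a b ∧ a ∈ Wz z ∧ b ∈ Wz z := by
  unfold AA at h
  have h1 : ∑ e ∈ F z z', Θ z e.1 a b ≠ 0 := fun h2 => h (by rw [h2, zero_div])
  obtain ⟨e, he, he1⟩ := Finset.exists_ne_zero_of_sum_ne_zero h1
  exact (D.fam z hz).supp e.1 (D.ed z hz z' hz' hne e he).1 a b he1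

lemma MM_supp (hne : z ≠ z') {a b : X} (h : MM F z z' a b ≠ 0) :
    Γ.Adj a b ∧ (a ∈ Wz z ∧ b ∈ Wz z' ∨ a ∈ Wz z' ∧ b ∈ Wz z) := by
  by_cases h1 : (a, b) ∈ F z z'
  · have h2 := D.ed z hz z' hz' hne _ h1
    exact ⟨h2.2.2, Or.inl ⟨(D.fam z hz).sub h2.1, (D.fam z' hz').sub h2.2.1⟩⟩
  · by_cases h3 : (b, a) ∈ F z z'
    · have h2 := D.ed z hz z' hz' hne _ h3
      exact ⟨h2.2.2.symm, Or.inr ⟨(D.fam z' hz').sub h2.2.1, (D.fam z hz).sub h2.1⟩⟩
    · exfalso
      apply h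
      unfold MM ic
      rw [if_neg h1, if_neg h3, sub_zero, zero_div]

lemma ic_sw (hne : z ≠ z') (a b : X) : ic (F z z') (a, b) = ic (F z' z) (b, a) := by
  unfold ic
  have h : (a, b) ∈ F z z' ↔ (b, a) ∈ F z' z := D.sw z hz z' hz' hne (a, b)
  by_cases h1 : (a, b) ∈ F z z'
  · rw [if_pos h1, if_pos (h.1 h1)]
  · rw [if_neg h1, if_neg (fun h2 => h1 (h.2 h2))]

lemma GG_anti (a b : X) : GG Θ F z z' a b = -GG Θ F z' z a b := by
  by_cases hne : z = z'
  · subst hne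
    rw [GG_self, neg_zero]
  · rw [GG_ne hne, GG_ne (Ne.symm hne)]
    have h : MM F z z' a b = -MM F z' z a b := by
      unfold MM
      rw [ic_sw D hz hz' hne, ic_sw D hz hz' hne b a, card_sw D hz hz' hne]
      ring
    rw [h]
    ring

lemma AA_anti (hne : z ≠ z') (a b : X) : AA Θ F z z' a b = -AA Θ F z z' b a := by
  unfold AA
  rw [← neg_div, ← Finset.sum_neg_distrib]
  congr 1
  refine Finset.sum_congr rfl fun e he => ?_
  exact (D.fam z hz).anti e.1 (D.ed z hz z' hz' hne e he).1 a b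

lemma GG_symm (a b : X) : GG Θ F z z' a b = -GG Θ F z z' b a := by
  by_cases hne : z = z'
  · subst hne
    rw [GG_self, GG_self, neg_zero]
  · rw [GG_ne hne, GG_ne hne, AA_anti D hz hz' hne a b, AA_anti D hz' hz (Ne.symm hne) a b]
    unfold MM
    ring

lemma GG_supp {a b : X} (h : GG Θ F z z' a b ≠ 0) : Γ.Adj a b ∧ a ∈ W ∧ b ∈ W := by
  by_cases hne : z = z'
  · subst hne
    exact absurd (GG_self z a b) h
  · rw [GG_ne hne] at h
    by_cases h1 : AA Θ F z z' a b = 0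
    · by_cases h2 : MM F z z' a b = 0
      · rw [h1, h2, neg_zero, zero_add, zero_add] at h
        have h3 := AA_supp D hz' hz (Ne.symm hne) h
        exact ⟨h3.1, D.sub z' hz' h3.2.1, D.sub z' hz' h3.2.2⟩
      · have h3 := MM_supp D hz hz' hne h2
        rcases h3.2 with h4 | h4
        · exact ⟨h3.1, D.sub z hz h4.1, D.sub z' hz' h4.2⟩
        · exact ⟨h3.1, D.sub z' hz' h4.1, D.sub z hz h4.2⟩
    · have h3 := AA_supp D hz hz' hne h1
      exact ⟨h3.1, D.sub z hz h3.2.1, D.sub z hz h3.2.2⟩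

lemma AA_div (hne : z ≠ z') (a : X) : ∑ b ∈ W, AA Θ F z z' a b =
    (∑ e ∈ F z z', dl a e.1) / ((F z z').card : ℝ) - un (Sz z) a := by
  have hc : ((F z z').card : ℝ) ≠ 0 := by
    have := (D.ne z hz z' hz' hne).card_pos
    positivity
  unfold AA
  rw [← Finset.sum_div, Finset.sum_comm]
  have h1 : ∀ e ∈ F z z', ∑ b ∈ W, Θ z e.1 a b = dl a e.1 - un (Sz z) a := fun e he =>
    div_ext (D.fam z hz) (D.sub z hz) (D.ed z hz z' hz' hne e he).1 a
  rw [Finset.sum_congr rfl h1, Finset.sum_sub_distrib, Finset.sum_const, nsmul_eq_mul]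
  field_simp

lemma ic_sum1 (hne : z ≠ z') (a : X) : ∑ b ∈ W, ic (F z z') (a, b) = ∑ e ∈ F z z', dl a e.1 := by
  classical
  have h1 : ∀ b, ic (F z z') (a, b) = ∑ e ∈ F z z', if (a, b) = e then (1 : ℝ) else 0 := by
    intro b
    rw [Finset.sum_ite_eq]
    unfold ic
    by_cases h : (a, b) ∈ F z z'
    · rw [if_pos h, if_pos h]
    · rw [if_neg h, if_neg h]
  rw [Finset.sum_congr rfl fun b _ => h1 b, Finset.sum_comm]
  refine Finset.sum_congr rfl fun e he => ?_
  obtain ⟨p, q⟩ := e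
  have hq : q ∈ W := D.sub z' hz' ((D.fam z' hz').sub (D.ed z hz z' hz' hne _ he).2.1)
  unfold dl
  by_cases hap : a = p
  · subst hap
    rw [if_pos rfl, Finset.sum_eq_single q]
    · rw [if_pos rfl]
    · intro b _ hb
      rw [if_neg]
      intro h
      exact hb (Prod.ext_iff.1 h).2
    · intro h
      exact absurd hq h
  · rw [if_neg hap]
    refine Finset.sum_eq_zero fun b _ => ?_
    rw [if_neg]
    intro h
    exact hap (Prod.ext_iff.1 h).1

lemma ic_sum2 (hne : z ≠ z') (a : X) : ∑ b ∈ W, ic (F z z') (b, a) = ∑ e ∈ F z z', dl a e.2 := by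
  rw [Finset.sum_congr rfl fun b _ => ic_sw D hz hz' hne b a, ic_sum1 D hz' hz (Ne.symm hne) a]
  refine (Finset.sum_equiv (Equiv.prodComm X X) (fun e => D.sw z hz z' hz' hne e) ?_).symm
  intro e _
  rfl

lemma MM_div (hne : z ≠ z') (a : X) : ∑ b ∈ W, MM F z z' a b =
    (∑ e ∈ F z z', dl a e.1 - ∑ e ∈ F z z', dl a e.2) / ((F z z').card : ℝ) := by
  unfold MM
  rw [← Finset.sum_div, Finset.sum_sub_distrib, ic_sum1 D hz hz' hne, ic_sum2 D hz hz' hne]

lemma GG_div (a : X) : ∑ b ∈ W, GG Θ F z z' a b = un (Sz z) a - un (Sz z') a := by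
  by_cases hne : z = z'
  · subst hne
    rw [sub_self]
    exact Finset.sum_eq_zero fun b _ => GG_self z a b
  · rw [Finset.sum_congr rfl fun b _ => GG_ne hne a b, Finset.sum_add_distrib,
      Finset.sum_add_distrib, Finset.sum_neg_distrib, AA_div D hz hz' hne, MM_div D hz hz' hne,
      AA_div D hz' hz (Ne.symm hne), ← card_sw D hz hz' hne]
    have h : ∑ e ∈ F z' z, dl a e.1 = ∑ e ∈ F z z', dl a e.2 := by
      refine (Finset.sum_equiv (Equiv.prodComm X X) (fun e => D.sw z hz z' hz' hne e) ?_).symm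
      intro e _
      rfl
    rw [h]
    ring

lemma AA_en (hne : z ≠ z') : ∑ a ∈ W, ∑ b ∈ W, AA Θ F z z' a b ^ 2 =
    phi (Wz z) (Θ z) (F z z') := by
  unfold phi
  have h1 : ∀ a, ∑ b ∈ W, AA Θ F z z' a b ^ 2 = ∑ b ∈ Wz z, AA Θ F z z' a b ^ 2 := by
    intro a
    refine (Finset.sum_subset (D.sub z hz) fun b _ hb => ?_).symm
    by_contra h
    have h2 : AA Θ F z z' a b ≠ 0 := fun h3 => h (by rw [h3]; norm_num)
    exact hb (AA_supp D hz hz' hne h2).2.2
  rw [Finset.sum_congr rfl fun a _ => h1 a]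
  refine (Finset.sum_subset (D.sub z hz) fun a _ ha => ?_).symm
  refine Finset.sum_eq_zero fun b _ => ?_
  by_contra h
  have h2 : AA Θ F z z' a b ≠ 0 := fun h3 => h (by rw [h3]; norm_num)
  exact ha (AA_supp D hz hz' hne h2).2.1

lemma MM_en (hne : z ≠ z') : ∑ a ∈ W, ∑ b ∈ W, MM F z z' a b ^ 2 ≤ 2 / ((F z z').card : ℝ) := by
  have hc : 0 < ((F z z').card : ℝ) := by
    have := (D.ne z hz z' hz' hne).card_pos
    positivity
  have h1 : ∀ a b, MM F z z' a b ^ 2 ≤
      (ic (F z z') (a, b) + ic (F z z') (b, a)) / ((F z z').card : ℝ) ^ 2 := by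
    intro a b
    unfold MM
    rw [div_pow]
    refine div_le_div_of_nonneg_right ?_ (by positivity)
    have h2 := ic_sq (F z z') (a, b)
    have h3 := ic_sq (F z z') (b, a)
    have h4 := mul_nonneg (ic_nonneg (F z z') (a, b)) (ic_nonneg (F z z') (b, a))
    nlinarith
  have h5 : ∑ a ∈ W, ∑ b ∈ W, ic (F z z') (a, b) = ((F z z').card : ℝ) := by
    rw [Finset.sum_congr rfl fun a _ => ic_sum1 D hz hz' hne a, Finset.sum_comm]
    have h6 : ∀ e ∈ F z z', ∑ a ∈ W, dl a e.1 = 1 := by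
      intro e he
      have hq : e.1 ∈ W := D.sub z hz ((D.fam z hz).sub (D.ed z hz z' hz' hne _ he).1)
      rw [Finset.sum_eq_single e.1]
      · exact if_pos rfl
      · intro b _ hb
        exact if_neg hb
      · intro h
        exact absurd hq h
    rw [Finset.sum_congr rfl h6, Finset.sum_const, nsmul_eq_mul, mul_one]
  have h7 : ∑ a ∈ W, ∑ b ∈ W, ic (F z z') (b, a) = ((F z z').card : ℝ) := by
    rw [Finset.sum_comm, h5]
  calc ∑ a ∈ W, ∑ b ∈ W, MM F z z' a b ^ 2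
      ≤ ∑ a ∈ W, ∑ b ∈ W, (ic (F z z') (a, b) + ic (F z z') (b, a)) / ((F z z').card : ℝ) ^ 2 :=
        Finset.sum_le_sum fun a _ => Finset.sum_le_sum fun b _ => h1 a b
    _ = (∑ a ∈ W, ∑ b ∈ W, ic (F z z') (a, b) + ∑ a ∈ W, ∑ b ∈ W, ic (F z z') (b, a)) /
          ((F z z').card : ℝ) ^ 2 := by
        rw [← Finset.sum_add_distrib, Finset.sum_div]
        refine Finset.sum_congr rfl fun a _ => ?_
        rw [← Finset.sum_add_distrib, Finset.sum_div]
    _ = 2 / ((F z z').card : ℝ) := by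
        rw [h5, h7]
        field_simp
        ring

lemma GG_en (hne : z ≠ z') : ∑ a ∈ W, ∑ b ∈ W, GG Θ F z z' a b ^ 2 ≤
    phi (Wz z) (Θ z) (F z z') + 2 / ((F z z').card : ℝ) + phi (Wz z') (Θ z') (F z' z) := by
  have hd := Finset.disjoint_left.1 (D.dis z hz z' hz' hne)
  have h1 : ∀ a b, GG Θ F z z' a b ^ 2 =
      AA Θ F z z' a b ^ 2 + MM F z z' a b ^ 2 + AA Θ F z' z a b ^ 2 := by
    intro a b
    rw [GG_ne hne]
    have e1 : AA Θ F z z' a b * MM F z z' a b = 0 := by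
      by_contra h
      have h2 := AA_supp D hz hz' hne (left_ne_zero_of_mul h)
      have h3 := MM_supp D hz hz' hne (right_ne_zero_of_mul h)
      rcases h3.2 with h4 | h4
      · exact hd h2.2.2 h4.2
      · exact hd h2.2.1 h4.1
    have e2 : AA Θ F z z' a b * AA Θ F z' z a b = 0 := by
      by_contra h
      have h2 := AA_supp D hz hz' hne (left_ne_zero_of_mul h)
      have h3 := AA_supp D hz' hz (Ne.symm hne) (right_ne_zero_of_mul h)
      exact hd h2.2.1 h3.2.1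
    have e3 : MM F z z' a b * AA Θ F z' z a b = 0 := by
      by_contra h
      have h2 := AA_supp D hz' hz (Ne.symm hne) (right_ne_zero_of_mul h)
      have h3 := MM_supp D hz hz' hne (left_ne_zero_of_mul h)
      rcases h3.2 with h4 | h4
      · exact hd h4.1 h2.2.1
      · exact hd h4.2 h2.2.2
    linear_combination (-2) * e1 - 2 * e2 + 2 * e3
  have h2 : ∑ a ∈ W, ∑ b ∈ W, GG Θ F z z' a b ^ 2 = ∑ a ∈ W, ∑ b ∈ W, AA Θ F z z' a b ^ 2 +
      ∑ a ∈ W, ∑ b ∈ W, MM F z z' a b ^ 2 + ∑ a ∈ W, ∑ b ∈ W, AA Θ F z' z a b ^ 2 := by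
    rw [← Finset.sum_add_distrib, ← Finset.sum_add_distrib]
    refine Finset.sum_congr rfl fun a _ => ?_
    rw [← Finset.sum_add_distrib, ← Finset.sum_add_distrib]
    exact Finset.sum_congr rfl fun b _ => h1 a b
  rw [h2, AA_en D hz hz' hne, AA_en D hz' hz (Ne.symm hne)]
  have h3 := MM_en D hz hz' hne
  linarith

end

/-- the flow from the uniform distribution of a part to the uniform distribution of the union -/
noncomputable def Ps (Z : Finset ι) (Sz : ι → Finset X) (Θ : ι → X → X → X → ℝ)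
    (F : ι → ι → Finset (X × X)) (s : ℝ) (z : ι) (a b : X) : ℝ :=
  ∑ z' ∈ Z, ((Sz z').card : ℝ) / s * GG Θ F z z' a b

open Classical in
/-- the new family -/
noncomputable def Th (Z : Finset ι) (Sz : ι → Finset X) (Θ : ι → X → X → X → ℝ)
    (F : ι → ι → Finset (X × X)) (s : ℝ) (u a b : X) : ℝ :=
  ∑ z ∈ Z, if u ∈ Sz z then Θ z u a b + Ps Z Sz Θ F s z a b else 0

lemma jensen {Z : Finset ι} (w x : ι → ℝ) (hw : ∀ z ∈ Z, 0 ≤ w z) (h1 : ∑ z ∈ Z, w z = 1) :
    (∑ z ∈ Z, w z * x z) ^ 2 ≤ ∑ z ∈ Z, w z * x z ^ 2 := by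
  have h := Finset.sum_sq_le_sum_mul_sum_of_sq_le_mul Z (r := fun z => w z * x z)
    (f := w) (g := fun z => w z * x z ^ 2) hw
    (fun z hz => mul_nonneg (hw z hz) (sq_nonneg _)) (fun z _ => le_of_eq (by ring))
  rwa [h1, one_mul] at h

section

variable [DecidableEq X] [DecidableEq ι] (D : Dat Γ W Z Wz Sz Θ F)
include D

lemma Sz_dis : (Z : Set ι).PairwiseDisjoint Sz := by
  intro z hz z' hz' hne
  exact Finset.disjoint_of_subset_left (D.fam z hz).sub
    (Finset.disjoint_of_subset_right (D.fam z' hz').sub (D.dis z hz z' hz' hne))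

lemma Th_eq (s : ℝ) {z : ι} (hz : z ∈ Z) {u : X} (hu : u ∈ Sz z) (a b : X) :
    Th Z Sz Θ F s u a b = Θ z u a b + Ps Z Sz Θ F s z a b := by
  unfold Th
  rw [Finset.sum_eq_single z]
  · rw [if_pos hu]
  · intro z' hz' hne
    rw [if_neg]
    intro h
    exact Finset.disjoint_left.1 (Sz_dis D hz' hz hne) h hu
  · intro h
    exact absurd hz h

theorem main (hZ : Z.Nonempty) : ∃ Θ', Fam Γ W (Z.biUnion Sz) Θ' ∧
      enF W (Z.biUnion Sz) Θ' ≤ ∑ z ∈ Z, enF (Wz z) (Sz z) (Θ z) +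
        ∑ z ∈ Z, ((Sz z).card : ℝ) * ∑ z' ∈ Z.erase z,
          ((Sz z').card : ℝ) / ((Z.biUnion Sz).card : ℝ) *
            (phi (Wz z) (Θ z) (F z z') + 2 / ((F z z').card : ℝ) +
              phi (Wz z') (Θ z') (F z' z)) := by
  set s : ℝ := ((Z.biUnion Sz).card : ℝ) with hs
  have hcard : s = ∑ z ∈ Z, ((Sz z).card : ℝ) := by
    rw [hs, Finset.card_biUnion (Sz_dis D)]
    push_cast
    rfl
  have hs0 : 0 < s := by
    obtain ⟨z, hz⟩ := hZ
    obtain ⟨u, hu⟩ := D.non z hz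
    have : 0 < (Z.biUnion Sz).card := Finset.card_pos.2 ⟨u, Finset.mem_biUnion.2 ⟨z, hz, hu⟩⟩
    rw [hs]
    exact_mod_cast this
  have hw0 : ∀ z ∈ Z, 0 ≤ ((Sz z).card : ℝ) / s := fun z _ => by positivity
  have hw1 : ∑ z ∈ Z, ((Sz z).card : ℝ) / s = 1 := by
    rw [← Finset.sum_div, ← hcard, div_self hs0.ne']
  have hun : ∀ z ∈ Z, ∀ a, ((Sz z).card : ℝ) * un (Sz z) a = ic (Sz z) a := by
    intro z hz a
    unfold un ic
    by_cases h : a ∈ Sz z
    · rw [if_pos h, if_pos h]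
      have := (D.non z hz).card_pos
      field_simp
    · rw [if_neg h, if_neg h, mul_zero]
  have hic : ∀ a, ∑ z ∈ Z, ic (Sz z) a = ic (Z.biUnion Sz) a := by
    intro a
    by_cases h : a ∈ Z.biUnion Sz
    · obtain ⟨z, hz, ha⟩ := Finset.mem_biUnion.1 h
      have h2 : ic (Z.biUnion Sz) a = 1 := if_pos h
      rw [h2, Finset.sum_eq_single z]
      · exact if_pos ha
      · intro z' hz' hne
        refine if_neg fun h3 => ?_
        exact Finset.disjoint_left.1 (Sz_dis D hz' hz hne) h3 ha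
      · intro h3
        exact absurd hz h3
    · have h2 : ic (Z.biUnion Sz) a = 0 := if_neg h
      rw [h2]
      refine Finset.sum_eq_zero fun z hz => if_neg fun h3 => h (Finset.mem_biUnion.2 ⟨z, hz, h3⟩)
  have hPs : ∀ z ∈ Z, ∀ a, ∑ b ∈ W, Ps Z Sz Θ F s z a b = un (Sz z) a - un (Z.biUnion Sz) a := by
    intro z hz a
    unfold Ps
    rw [Finset.sum_comm]
    have h1 : ∀ z' ∈ Z, ∑ b ∈ W, ((Sz z').card : ℝ) / s * GG Θ F z z' a b =
        ((Sz z').card : ℝ) / s * un (Sz z) a - ic (Sz z') a / s := by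
      intro z' hz'
      rw [← Finset.mul_sum, GG_div D hz hz' a, ← hun z' hz' a]
      ring
    rw [Finset.sum_congr rfl h1, Finset.sum_sub_distrib, ← Finset.sum_mul, hw1, one_mul,
      ← Finset.sum_div, hic]
    congr 1
    unfold ic un
    by_cases h : a ∈ Z.biUnion Sz
    · rw [if_pos h, if_pos h]
    · rw [if_neg h, if_neg h, zero_div]
  have hsum : ∀ f : X → ℝ, ∑ u ∈ Z.biUnion Sz, f u = ∑ z ∈ Z, ∑ u ∈ Sz z, f u := fun f =>
    Finset.sum_biUnion (Sz_dis D)
  refine ⟨Th Z Sz Θ F s, ⟨?_, ?_, ?_, ?_, ?_⟩, ?_⟩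
  · intro u hu
    obtain ⟨z, hz, hu1⟩ := Finset.mem_biUnion.1 hu
    exact D.sub z hz ((D.fam z hz).sub hu1)
  · intro u hu a b h
    obtain ⟨z, hz, hu1⟩ := Finset.mem_biUnion.1 hu
    rw [Th_eq D s hz hu1] at h
    by_cases h1 : Θ z u a b = 0
    · rw [h1, zero_add] at h
      obtain ⟨z', hz', h2⟩ := Finset.exists_ne_zero_of_sum_ne_zero h
      exact GG_supp D hz hz' (right_ne_zero_of_mul h2)
    · have h2 := (D.fam z hz).supp u hu1 a b h1
      exact ⟨h2.1, D.sub z hz h2.2.1, D.sub z hz h2.2.2⟩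
  · intro u hu a b
    obtain ⟨z, hz, hu1⟩ := Finset.mem_biUnion.1 hu
    rw [Th_eq D s hz hu1, Th_eq D s hz hu1, (D.fam z hz).anti u hu1 a b]
    have h1 : Ps Z Sz Θ F s z a b = -Ps Z Sz Θ F s z b a := by
      unfold Ps
      rw [← Finset.sum_neg_distrib]
      refine Finset.sum_congr rfl fun z' hz' => ?_
      rw [GG_symm D hz hz' a b]
      ring
    rw [h1]
    ring
  · intro u hu a ha
    obtain ⟨z, hz, hu1⟩ := Finset.mem_biUnion.1 hu
    rw [Finset.sum_congr rfl fun b _ => Th_eq D s hz hu1 a b, Finset.sum_add_distrib,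
      div_ext (D.fam z hz) (D.sub z hz) hu1 a, hPs z hz a]
    have h1 : dl a u - un (Sz z) a + (un (Sz z) a - un (Z.biUnion Sz) a) =
        dl a u - un (Z.biUnion Sz) a := by ring
    rw [h1]
    unfold dl un
    congr 1
  · intro a b
    rw [hsum]
    have h1 : ∀ z ∈ Z, ∑ u ∈ Sz z, Th Z Sz Θ F s u a b =
        ∑ z' ∈ Z, ((Sz z).card : ℝ) * ((Sz z').card : ℝ) / s * GG Θ F z z' a b := by
      intro z hz
      rw [Finset.sum_congr rfl fun u hu => Th_eq D s hz hu a b, Finset.sum_add_distrib,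
        (D.fam z hz).zero a b, zero_add, Finset.sum_const, nsmul_eq_mul]
      unfold Ps
      rw [Finset.mul_sum]
      refine Finset.sum_congr rfl fun z' _ => ?_
      ring
    rw [Finset.sum_congr rfl h1]
    have h2 : ∑ z ∈ Z, ∑ z' ∈ Z, ((Sz z).card : ℝ) * ((Sz z').card : ℝ) / s * GG Θ F z z' a b =
        -∑ z ∈ Z, ∑ z' ∈ Z, ((Sz z).card : ℝ) * ((Sz z').card : ℝ) / s * GG Θ F z z' a b := by
      conv_lhs => rw [Finset.sum_comm]
      rw [← Finset.sum_neg_distrib]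
      refine Finset.sum_congr rfl fun z hz => ?_
      rw [← Finset.sum_neg_distrib]
      refine Finset.sum_congr rfl fun z' hz' => ?_
      rw [GG_anti D hz' hz a b]
      ring
    linarith
  · have e1 : enF W (Z.biUnion Sz) (Th Z Sz Θ F s) = ∑ z ∈ Z, enF (Wz z) (Sz z) (Θ z) +
        ∑ z ∈ Z, ((Sz z).card : ℝ) * ∑ a ∈ W, ∑ b ∈ W, Ps Z Sz Θ F s z a b ^ 2 := by
      unfold enF
      rw [hsum, ← Finset.sum_add_distrib]
      refine Finset.sum_congr rfl fun z hz => ?_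
      have e2 : ∀ u ∈ Sz z, ∑ a ∈ W, ∑ b ∈ W, Th Z Sz Θ F s u a b ^ 2 =
          ∑ a ∈ W, ∑ b ∈ W, Θ z u a b ^ 2 + ∑ a ∈ W, ∑ b ∈ W, 2 * (Θ z u a b * Ps Z Sz Θ F s z a b) +
          ∑ a ∈ W, ∑ b ∈ W, Ps Z Sz Θ F s z a b ^ 2 := by
        intro u hu
        rw [← Finset.sum_add_distrib, ← Finset.sum_add_distrib]
        refine Finset.sum_congr rfl fun a _ => ?_
        rw [← Finset.sum_add_distrib, ← Finset.sum_add_distrib]
        refine Finset.sum_congr rfl fun b _ => ?_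
        rw [Th_eq D s hz hu]
        ring
      rw [Finset.sum_congr rfl e2, Finset.sum_add_distrib, Finset.sum_add_distrib,
        Finset.sum_const, nsmul_eq_mul]
      have e3 : ∑ u ∈ Sz z, ∑ a ∈ W, ∑ b ∈ W, 2 * (Θ z u a b * Ps Z Sz Θ F s z a b) = 0 := by
        rw [Finset.sum_comm]
        refine Finset.sum_eq_zero fun a _ => ?_
        rw [Finset.sum_comm]
        refine Finset.sum_eq_zero fun b _ => ?_
        rw [← Finset.mul_sum, ← Finset.sum_mul, (D.fam z hz).zero a b, zero_mul, mul_zero]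
      rw [e3, add_zero]
      congr 1
      refine Finset.sum_congr rfl fun u hu => ?_
      have h1 : ∀ a, ∑ b ∈ W, Θ z u a b ^ 2 = ∑ b ∈ Wz z, Θ z u a b ^ 2 := by
        intro a
        refine (Finset.sum_subset (D.sub z hz) fun b _ hb => ?_).symm
        by_contra h
        have h2 : Θ z u a b ≠ 0 := fun h3 => h (by rw [h3]; norm_num)
        exact hb ((D.fam z hz).supp u hu a b h2).2.2
      rw [Finset.sum_congr rfl fun a _ => h1 a]
      refine (Finset.sum_subset (D.sub z hz) fun a _ ha => ?_).symm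
      refine Finset.sum_eq_zero fun b _ => ?_
      by_contra h
      have h2 : Θ z u a b ≠ 0 := fun h3 => h (by rw [h3]; norm_num)
      exact ha ((D.fam z hz).supp u hu a b h2).2.1
    rw [e1]
    refine add_le_add le_rfl (Finset.sum_le_sum fun z hz => ?_)
    refine mul_le_mul_of_nonneg_left ?_ (by positivity)
    calc ∑ a ∈ W, ∑ b ∈ W, Ps Z Sz Θ F s z a b ^ 2
        ≤ ∑ a ∈ W, ∑ b ∈ W, ∑ z' ∈ Z, ((Sz z').card : ℝ) / s * GG Θ F z z' a b ^ 2 :=
          Finset.sum_le_sum fun a _ => Finset.sum_le_sum fun b _ => jensen _ _ hw0 hw1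
      _ = ∑ z' ∈ Z, ((Sz z').card : ℝ) / s * ∑ a ∈ W, ∑ b ∈ W, GG Θ F z z' a b ^ 2 := by
          have h1 : ∀ a, ∑ b ∈ W, ∑ z' ∈ Z, ((Sz z').card : ℝ) / s * GG Θ F z z' a b ^ 2 =
              ∑ z' ∈ Z, ((Sz z').card : ℝ) / s * ∑ b ∈ W, GG Θ F z z' a b ^ 2 := by
            intro a
            rw [Finset.sum_comm]
            exact Finset.sum_congr rfl fun z' _ => (Finset.mul_sum _ _ _).symm
          rw [Finset.sum_congr rfl fun a _ => h1 a, Finset.sum_comm]
          exact Finset.sum_congr rfl fun z' _ => (Finset.mul_sum _ _ _).symm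
      _ = ∑ z' ∈ Z.erase z, ((Sz z').card : ℝ) / s * ∑ a ∈ W, ∑ b ∈ W, GG Θ F z z' a b ^ 2 := by
          rw [← Finset.add_sum_erase Z _ hz]
          have h1 : ∑ a ∈ W, ∑ b ∈ W, GG Θ F z z a b ^ 2 = 0 :=
            Finset.sum_eq_zero fun a _ => Finset.sum_eq_zero fun b _ => by
              rw [GG_self]; norm_num
          rw [h1, mul_zero, zero_add]
      _ ≤ _ := by
          refine Finset.sum_le_sum fun z' hz' => ?_
          refine mul_le_mul_of_nonneg_left ?_ (by positivity)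
          rw [Finset.mem_erase] at hz'
          exact GG_en D hz hz'.2 (Ne.symm hz'.1)

end

end FlowL

theorem flow : S_FLOW := by
  intro X ι Γ W Z Wz Sz Θ F hZ h1 h2 h3 h4
  have D : FlowL.Dat Γ W Z Wz Sz Θ F := ⟨h1, h2, fun z hz => (h3 z hz).1, fun z hz => (h3 z hz).2,
    fun z hz z' hz' hne => (h4 z hz z' hz' hne).1, fun z hz z' hz' hne => (h4 z hz z' hz' hne).2.1,
    fun z hz z' hz' hne => (h4 z hz z' hz' hne).2.2⟩
  classical
  exact FlowL.main D hZ

end Pool.Agent.Helper98K9.HP
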