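import Pool.Agent.Helper98K9.HP.Esc

set_option autoImplicit false

namespace Pool.Agent.Helper98K9.HP

open MeasureTheory ProbabilityTheory Filter Topology
open scoped ENNReal NNReal

/-- [GIANT] -/
theorem giant (hlln : S_LLN) (hmerge : S_MERGE) : S_GIANT := by
  classical
  intro N _ c A h2 hA hc θ hθ hθ1 hinf ε hε
  have hN1 : (1 : ℝ) < N := by exact_mod_cast (by omega : 1 < N)
  have hN : (0 : ℝ) < N := by linarith
  obtain ⟨l, hl⟩ := pow_unbounded_of_one_lt (max (64 / θ ^ 2) (32 / (θ ^ 2 * ε))) hN1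
  have hl1 : 64 / θ ^ 2 ≤ (N : ℝ) ^ l := (le_max_left _ _).trans hl.le
  have hl2 : 32 / (θ ^ 2 * ε) ≤ (N : ℝ) ^ l := (le_max_right _ _).trans hl.le
  have hM : 0 < 256 * (N : ℝ) ^ l / θ ^ 2 := by positivity
  obtain ⟨k0, hk0⟩ := hlln N c A h2 hA θ (256 * (N : ℝ) ^ l / θ ^ 2) hθ hM hinf l
  -- `c → ∞`
  have hexp : ∀ᶠ k in atTop, 256 / θ ^ 2 * (-Real.log (ε / 2)) ≤ c (k + 1) :=
    ((tendsto_add_atTop_iff_nat 1).2 hc).eventually (eventually_ge_atTop _)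
  obtain ⟨k1, hk1⟩ := eventually_atTop.1 hexp
  -- `c (k+1) ≤ N^(k+1)` for large `k`
  have hsm := (hA.summ 0).tendsto_atTop_zero
  obtain ⟨k2, hk2⟩ := eventually_atTop.1
    (hsm.eventually (gt_mem_nhds (show (0 : ℝ) < 1 by norm_num)))
  refine ⟨max (max k0 k1) (k2 + 1) + l, fun n hn x => ?_⟩
  obtain ⟨k, rfl⟩ : ∃ k, n = k + l := ⟨n - l, by omega⟩
  have a0 : k0 ≤ k := by have := le_max_left k0 k1; have := le_max_left (max k0 k1) (k2 + 1); omega
  have a1 : k1 ≤ k := by have := le_max_right k0 k1; have := le_max_left (max k0 k1) (k2 + 1); omega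
  have a2 : k2 + 1 ≤ k := by have := le_max_right (max k0 k1) (k2 + 1); omega
  have hcN : c (k + 1) ≤ (N : ℝ) ^ (2 * (k + l)) := by
    have h3 := hk2 k (by omega)
    have e : 0 + 1 + k = k + 1 := by omega
    rw [e] at h3
    have h4 : (1 : ℝ) ≤ ((k : ℝ) + 1) ^ 2 := by
      have : (0 : ℝ) ≤ k := Nat.cast_nonneg k
      nlinarith
    have h5 := hA.pos (k + 1) (by omega)
    rw [div_lt_one (by positivity)] at h3
    have h6 : c (k + 1) ≤ (N : ℝ) ^ (k + 1) := by nlinarith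
    exact h6.trans (pow_le_pow_right₀ hN1.le (by omega))
  have b1 := hk0 k a0 x
  have b2 := hmerge N c A h2 hA θ (256 * (N : ℝ) ^ l / θ ^ 2) k l x hθ hθ1 hl1 le_rfl hcN
  have c1 : 16 / (θ ^ 2 * (N : ℝ) ^ l) ≤ ε / 2 := by
    rw [div_le_iff₀ (by positivity)] at hl2 ⊢
    nlinarith
  have c2 : Real.exp (-(θ ^ 2 * c (k + 1) / 256)) ≤ ε / 2 := by
    rw [← Real.le_log_iff_exp_le (by positivity)]
    have h3 := hk1 k a1
    rw [div_mul_eq_mul_div, div_le_iff₀ (by positivity)] at h3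
    linarith
  calc PP N c {ω | ∀ y ∈ ball (k + l) x, ((clu ω (k + l) y).card : ℝ) <
        θ / 8 * (N : ℝ) ^ (k + l)}
      ≤ PP N c ({ω | ∑ z ∈ subs k l x, ((Hv c ω k (256 * (N : ℝ) ^ l / θ ^ 2) z).card : ℝ) <
            θ / 4 * (N : ℝ) ^ (k + l)} ∪
          {ω | θ / 4 * (N : ℝ) ^ (k + l) ≤
            ∑ z ∈ subs k l x, ((Hv c ω k (256 * (N : ℝ) ^ l / θ ^ 2) z).card : ℝ) ∧
            ∀ y ∈ ball (k + l) x, ((clu ω (k + l) y).card : ℝ) < θ / 8 * (N : ℝ) ^ (k + l)}) := by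
        apply measure_mono
        intro ω hω
        rcases lt_or_ge (∑ z ∈ subs k l x, ((Hv c ω k (256 * (N : ℝ) ^ l / θ ^ 2) z).card : ℝ))
          (θ / 4 * (N : ℝ) ^ (k + l)) with h | h
        · exact Or.inl h
        · exact Or.inr ⟨h, hω⟩
    _ ≤ _ := measure_union_le _ _
    _ ≤ ENNReal.ofReal (16 / (θ ^ 2 * (N : ℝ) ^ l)) +
          ENNReal.ofReal (Real.exp (-(θ ^ 2 * c (k + 1) / 256))) := add_le_add b1 b2
    _ ≤ ENNReal.ofReal (ε / 2) + ENNReal.ofReal (ε / 2) :=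
        add_le_add (ENNReal.ofReal_le_ofReal c1) (ENNReal.ofReal_le_ofReal c2)
    _ = ENNReal.ofReal ε := by
        rw [← ENNReal.ofReal_add (by positivity) (by positivity)]
        congr 1
        ring

end Pool.Agent.Helper98K9.HP
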