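import Pool.Agent.Helper98K9.HP.Esc

set_option autoImplicit false

namespace Pool.Agent.Helper98K9.HP

open MeasureTheory ProbabilityTheory Filter Topology
open scoped ENNReal NNReal

namespace HeavyL

variable {N : ℕ} [NeZero N]

/-- the cluster of level `m` is not contained in the ball of level `n` -/
def En (x : V N) (n m : ℕ) : Set (Cf N) := {ω | ¬ clu ω m x ⊆ ball n x}

theorem clu_mono (ω : Cf N) {m m' : ℕ} (h : m ≤ m') (x : V N) : clu ω m x ⊆ clu ω m' x := by
  intro y hy
  rw [EscL.mem_clu] at hy ⊢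
  refine ⟨ball_mono h x hy.1, hy.2.mono ?_⟩
  intro a b hab
  exact ⟨hab.1, ball_mono h x hab.2.1, ball_mono h x hab.2.2⟩

theorem clu_reach (ω : Cf N) {m : ℕ} {x y : V N} (hy : y ∈ clu ω m x) :
    (G ω).Reachable x y := by
  rw [EscL.mem_clu] at hy
  exact hy.2.mono (show GW ω (ball m x : Set (V N)) ≤ G ω from fun a b h => h.1)

theorem exists_clu (ω : Cf N) (x y : V N) (h : (G ω).Reachable x y) : ∃ m, y ∈ clu ω m x := by
  rw [SimpleGraph.reachable_iff_reflTransGen] at h
  induction h with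
  | refl =>
    refine ⟨0, ?_⟩
    rw [EscL.mem_clu]
    exact ⟨self_mem_ball 0 x, SimpleGraph.Reachable.refl _⟩
  | tail _ hbc ih =>
    rename_i b z _
    obtain ⟨m, hm⟩ := ih
    refine ⟨max m (dist x z), ?_⟩
    have hb := clu_mono ω (le_max_left m (dist x z)) x hm
    have hz : z ∈ ball (max m (dist x z)) x := mem_ball.2 (le_max_right _ _)
    rw [EscL.mem_clu] at hb ⊢
    refine ⟨hz, hb.2.trans ?_⟩
    apply SimpleGraph.Adj.reachable
    exact ⟨hbc, hb.1, hz⟩

theorem infC_iff (ω : Cf N) (x : V N) : InfC (G ω) x ↔ ∀ n, ∃ m, ω ∈ En x n m := by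
  constructor
  · intro h n
    by_contra hne
    push Not at hne
    apply h
    apply (Finset.finite_toSet (ball n x)).subset
    intro y hy
    obtain ⟨m, hm⟩ := exists_clu ω x y hy
    have h1 : ω ∉ En x n m := hne m
    unfold En at h1
    rw [Set.mem_ofPred_eq, not_not] at h1
    exact h1 hm
  · intro h hfin
    obtain ⟨n, hn⟩ := (hfin.image (dist x)).bddAbove
    obtain ⟨m, hm⟩ := h n
    apply hm
    intro y hy
    rw [mem_ball]
    exact hn ⟨y, clu_reach ω hy, rfl⟩

theorem En_dep (x : V N) (n m : ℕ) : Dep (ins m x) (fun ω => ω ∈ En x n m) := by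
  intro ω ω' h
  have h1 := EscL.clu_dep m x ω ω' h
  simp only at h1
  show (¬ clu ω m x ⊆ ball n x) = (¬ clu ω' m x ⊆ ball n x)
  rw [h1]

theorem ins_mono {k l : ℕ} (h : k ≤ l) (x : V N) : ins k x ⊆ ins l x :=
  fun _ he v hv => ball_mono h x (he v hv)

omit [NeZero N] in
theorem Dep.mono {β : Type*} {D D' : Set (Ed N)} {F : Cf N → β} (h : D ⊆ D') (hF : Dep D F) :
    Dep D' F := fun ω ω' h' => hF ω ω' fun e he => h' e (h he)

theorem meas_En (hmeas : S_MEAS) (x : V N) (n m : ℕ) : MeasurableSet (En x n m) := by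
  have := hmeas.2 N (ins m x) Prop (fun ω => ω ∈ En x n m) (hmeas.1 N m x) (En_dep x n m)
  exact measurableSet_setOfPred.2 this

theorem En_mono (x : V N) (n : ℕ) {m m' : ℕ} (h : m ≤ m') : En x n m ⊆ En x n m' := by
  intro ω hω h1
  exact hω ((clu_mono ω h x).trans h1)

theorem En_anti (x : V N) {n n' : ℕ} (h : n ≤ n') (m : ℕ) : En x n' m ⊆ En x n m := by
  intro ω hω h1
  exact hω (h1.trans (ball_mono h x))

theorem meas_inf (hmeas : S_MEAS) (x : V N) : MeasurableSet {ω : Cf N | InfC (G ω) x} := by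
  have : {ω : Cf N | InfC (G ω) x} = ⋂ n, ⋃ m, En x n m := by
    ext ω
    rw [Set.mem_ofPred_eq, infC_iff]
    simp
  rw [this]
  exact MeasurableSet.iInter fun n => MeasurableSet.iUnion fun m => meas_En hmeas x n m

theorem meas_light (hmeas : S_MEAS) (c : ℕ → ℝ) (k : ℕ) (M : ℝ) (x : V N) :
    MeasurableSet (light c k M x) := by
  have := hmeas.2 N (ins k x) Prop (fun ω => ω ∈ light c k M x) (hmeas.1 N k x)
    (EscL.light_dep c k M x)
  exact measurableSet_setOfPred.2 this

/-- approximation of the event that the component is infinite -/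
theorem approx (hmeas : S_MEAS) (c : ℕ → ℝ) (x : V N) (η : ℝ≥0∞) (hη : 0 < η) :
    ∃ n m, PP N c ({ω | InfC (G ω) x} \ En x n m) ≤ η ∧
      PP N c (En x n m \ {ω | InfC (G ω) x}) ≤ η := by
  set I : Set (Cf N) := {ω | InfC (G ω) x} with hI
  have mI := meas_inf hmeas (N := N) x
  have h1 : Tendsto (PP N c ∘ fun n => (⋃ m, En x n m) \ I) atTop
      (𝓝 (PP N c (⋂ n, (⋃ m, En x n m) \ I))) := by
    apply tendsto_measure_iInter_atTop
    · intro n
      exact ((MeasurableSet.iUnion fun m => meas_En hmeas x n m).diff mI).nullMeasurableSet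
    · intro n n' h
      exact Set.sdiff_subset_sdiff_left (Set.iUnion_mono fun m => En_anti x h m)
    · exact ⟨0, measure_ne_top _ _⟩
  have e1 : (⋂ n, (⋃ m, En x n m) \ I) = ∅ := by
    rw [Set.eq_empty_iff_forall_notMem]
    intro ω hω
    rw [Set.mem_iInter] at hω
    apply (hω 0).2
    rw [hI, Set.mem_ofPred_eq, infC_iff]
    intro n
    simpa using (hω n).1
  rw [e1, measure_empty] at h1
  obtain ⟨n, hn⟩ := ((tendsto_order.1 h1).2 η hη).exists
  have h2 : Tendsto (PP N c ∘ fun m => (⋃ m, En x n m) \ En x n m) atTop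
      (𝓝 (PP N c (⋂ m, (⋃ m, En x n m) \ En x n m))) := by
    apply tendsto_measure_iInter_atTop
    · intro m
      exact ((MeasurableSet.iUnion fun m => meas_En hmeas x n m).diff
        (meas_En hmeas x n m)).nullMeasurableSet
    · intro m m' h
      exact Set.sdiff_subset_sdiff_right (En_mono x n h)
    · exact ⟨0, measure_ne_top _ _⟩
  have e2 : (⋂ m, (⋃ m, En x n m) \ En x n m) = ∅ := by
    rw [Set.eq_empty_iff_forall_notMem]
    intro ω hω
    rw [Set.mem_iInter] at hω
    obtain ⟨m, hm⟩ := Set.mem_iUnion.1 (hω 0).1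
    exact (hω m).2 hm
  rw [e2, measure_empty] at h2
  obtain ⟨m, hm⟩ := ((tendsto_order.1 h2).2 η hη).exists
  refine ⟨n, m, ?_, ?_⟩
  · refine le_trans (measure_mono ?_) (le_of_lt hm)
    apply Set.sdiff_subset_sdiff_left
    intro ω hω
    rw [hI, Set.mem_ofPred_eq, infC_iff] at hω
    exact Set.mem_iUnion.2 (hω n)
  · refine le_trans (measure_mono ?_) (le_of_lt hn)
    exact Set.sdiff_subset_sdiff_left (Set.subset_iUnion _ m)

/-! ### translations -/

/-- translation of the configuration -/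
noncomputable def Tr (a : V N) (ω : Cf N) : Cf N := fun e => ω (e.map (· + a))

omit [NeZero N] in
theorem G_adj (a : V N) (ω : Cf N) (u v : V N) :
    (G ω).Adj (u + a) (v + a) ↔ (G (Tr a ω)).Adj u v := by
  show (u + a ≠ v + a ∧ ω s(u + a, v + a) = true) ↔ (u ≠ v ∧ ω (s(u, v).map (· + a)) = true)
  rw [Sym2.map_mk, Ne, Ne, add_left_inj]

omit [NeZero N] in
theorem inf_tr (a : V N) (ω : Cf N) (x : V N) :
    InfC (G (Tr a ω)) x ↔ InfC (G ω) (x + a) := by
  let φ : G (Tr a ω) ≃g G ω :=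
    { toEquiv := Equiv.addRight a
      map_rel_iff' := by
        intro u v
        exact G_adj a ω u v }
  have h : {y | (G ω).Reachable (x + a) y} = (· + a) '' {y | (G (Tr a ω)).Reachable x y} := by
    ext y
    constructor
    · intro hy
      refine ⟨y - a, ?_, sub_add_cancel y a⟩
      have : (G ω).Reachable (φ x) (φ (y - a)) := by
        show (G ω).Reachable (x + a) (y - a + a)
        rwa [sub_add_cancel]
      exact φ.reachable_iff.1 this
    · rintro ⟨z, hz, rfl⟩
      exact φ.reachable_iff.2 hz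
  unfold InfC
  rw [h, Set.infinite_image_iff]
  exact fun u _ v _ h => add_right_cancel h

theorem ball_add (k : ℕ) (x u a : V N) : u + a ∈ ball k (x + a) ↔ u ∈ ball k x := by
  rw [mem_ball, mem_ball, dist_add]

theorem card_clu_tr (a : V N) (ω : Cf N) (k : ℕ) (x : V N) :
    (clu (Tr a ω) k x).card = (clu ω k (x + a)).card := by
  let φ : GW (Tr a ω) (ball k x : Set (V N)) ≃g GW ω (ball k (x + a) : Set (V N)) :=
    { toEquiv := Equiv.addRight a
      map_rel_iff' := by
        intro u v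
        show ((G ω).Adj (u + a) (v + a) ∧ u + a ∈ ball k (x + a) ∧ v + a ∈ ball k (x + a)) ↔
          ((G (Tr a ω)).Adj u v ∧ u ∈ ball k x ∧ v ∈ ball k x)
        rw [G_adj, ball_add, ball_add] }
  have h : clu ω k (x + a) = (clu (Tr a ω) k x).map (Equiv.addRight a).toEmbedding := by
    ext y
    rw [Finset.mem_map, EscL.mem_clu]
    constructor
    · rintro ⟨h1, h2⟩
      refine ⟨y - a, ?_, sub_add_cancel y a⟩
      rw [EscL.mem_clu]
      constructor
      · rw [← ball_add k x (y - a) a, sub_add_cancel]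
        exact h1
      · have : (GW ω (ball k (x + a) : Set (V N))).Reachable (φ x) (φ (y - a)) := by
          show (GW ω (ball k (x + a) : Set (V N))).Reachable (x + a) (y - a + a)
          rwa [sub_add_cancel]
        exact φ.reachable_iff.1 this
    · rintro ⟨z, hz, rfl⟩
      rw [EscL.mem_clu] at hz
      exact ⟨(ball_add k x z a).2 hz.1, φ.reachable_iff.2 hz.2⟩
  rw [h, Finset.card_map]

theorem light_tr (c : ℕ → ℝ) (k : ℕ) (M : ℝ) (a : V N) (ω : Cf N) (x : V N) :
    Tr a ω ∈ light c k M x ↔ ω ∈ light c k M (x + a) := by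
  show (((clu (Tr a ω) k x).card : ℝ) * c (k + 1) < M * (N : ℝ) ^ k) ↔
    (((clu ω k (x + a)).card : ℝ) * c (k + 1) < M * (N : ℝ) ^ k)
  rw [card_clu_tr]

theorem inf_eq (hti : S_TI) (c : ℕ → ℝ) (x : V N) :
    PP N c {ω | InfC (G ω) x} = PP N c {ω | InfC (G ω) 0} := by
  rw [← hti N c x {ω | InfC (G ω) 0}]
  congr 1
  ext ω
  have := inf_tr x ω 0
  rw [zero_add] at this
  exact this.symm

end HeavyL

open HeavyL in
/-- [HEAVY] -/
theorem heavy (hmeas : S_MEAS) (hti : S_TI) (hesc : S_ESC) : S_HEAVY := by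
  intro N _ c A h2 hA M ε hM hε
  obtain ⟨δ, hδ, hδ1, k0, hk0⟩ := hesc N c A h2 hA M hM
  have hη : 0 < ε * δ / 2 := by positivity
  obtain ⟨n, m, h3, h4⟩ := approx hmeas c (0 : V N) (ENNReal.ofReal (ε * δ / 2))
    (ENNReal.ofReal_pos.2 hη)
  refine ⟨max k0 m, fun k hk x => ?_⟩
  have hk1 : k0 ≤ k := (le_max_left _ _).trans hk
  have hk2 : m ≤ k := (le_max_right _ _).trans hk
  have key : PP N c ({ω | InfC (G ω) 0} ∩ light c k M 0) ≤ ENNReal.ofReal ε := by
    set I : Set (Cf N) := {ω | InfC (G ω) 0} with hI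
    set L : Set (Cf N) := light c k M 0 with hL
    set H : Set (Cf N) := En 0 n m with hH
    have mI : MeasurableSet I := meas_inf hmeas 0
    have mL : MeasurableSet L := meas_light hmeas c k M 0
    have mH : MeasurableSet H := meas_En hmeas 0 n m
    have h5 := hk0 k hk1 0 H (HeavyL.Dep.mono (ins_mono hk2 0) (En_dep 0 n m))
    rw [← hL, ← hI] at h5
    have h6 : PP N c (H ∩ L) ≤ PP N c (H ∩ L ∩ I) + ENNReal.ofReal (ε * δ / 2) := by
      rw [← measure_inter_add_sdiff (H ∩ L) mI]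
      gcongr
      refine le_trans (measure_mono ?_) h4
      exact Set.sdiff_subset_sdiff_left Set.inter_subset_left
    have h7 : PP N c (I ∩ L) ≤ ENNReal.ofReal (ε * δ / 2) + PP N c (H ∩ L ∩ I) := by
      have hs : I ∩ L ⊆ (I \ H) ∪ (H ∩ L ∩ I) := by
        rintro ω ⟨a1, a2⟩
        by_cases a3 : ω ∈ H
        · exact Or.inr ⟨⟨a3, a2⟩, a1⟩
        · exact Or.inl ⟨a1, a3⟩
      refine le_trans (measure_mono hs) (le_trans (measure_union_le _ _) ?_)
      gcongr
    -- real numbers
    set p : ℝ := (PP N c (H ∩ L ∩ I)).toReal with hp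
    have hpe : PP N c (H ∩ L ∩ I) = ENNReal.ofReal p := (ENNReal.ofReal_toReal (measure_ne_top _ _)).symm
    have hp0 : 0 ≤ p := ENNReal.toReal_nonneg
    have h8 : p ≤ (1 - δ) * (p + ε * δ / 2) := by
      have h9 : ENNReal.ofReal p ≤ ENNReal.ofReal ((1 - δ) * (p + ε * δ / 2)) := by
        rw [ENNReal.ofReal_mul (by linarith), ENNReal.ofReal_add hp0 hη.le, ← hpe]
        exact h5.trans (mul_le_mul_right h6 _)
      rwa [ENNReal.ofReal_le_ofReal_iff (by have := mul_nonneg (sub_nonneg.2 hδ1.le) (add_nonneg hp0 hη.le); exact this)] at h9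
    have h10 : p ≤ ε / 2 := by
      have h11 : δ * p ≤ (1 - δ) * (ε * δ / 2) := by linarith
      have h12 : (1 - δ) * (ε * δ / 2) ≤ ε * δ / 2 := by nlinarith
      have h13 : δ * p ≤ δ * (ε / 2) := by linarith
      exact le_of_mul_le_mul_left h13 hδ
    refine h7.trans ?_
    rw [hpe, ← ENNReal.ofReal_add hη.le hp0]
    apply ENNReal.ofReal_le_ofReal
    nlinarith
  have hset : {ω : Cf N | InfC (G ω) x} ∩ light c k M x =
      {ω | (fun e : Ed N => ω (e.map (· + x))) ∈ ({ω | InfC (G ω) 0} ∩ light c k M 0 : Set (Cf N))} := by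
    ext ω
    have a1 := inf_tr x ω 0
    have a2 := light_tr c k M x ω 0
    rw [zero_add] at a1 a2
    exact and_congr a1.symm a2.symm
  rw [hset, hti N c x]
  exact key

end Pool.Agent.Helper98K9.HP
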