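import Pool.Agent.Helper98K9.HP.Mix

set_option autoImplicit false

namespace Pool.Agent.Helper98K9.HP

open MeasureTheory ProbabilityTheory Filter Topology
open scoped ENNReal NNReal

namespace IndfL

open Classical in
/-- two events depending on disjoint sets of bits -/
theorem two (hmix : S_MIX) {N : ℕ} [NeZero N] (c : ℕ → ℝ) {D D' : Set (Ed N)}
    {A B : Set (Cf N)} (hD : Disjoint D D') (hA : Dep D (fun ω => ω ∈ A))
    (hB : Dep D' (fun ω => ω ∈ B)) (mA : MeasurableSet A) (mB : MeasurableSet B) :
    PP N c (A ∩ B) = PP N c A * PP N c B := by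
  have h := (hmix N c D).measure_preimage (mA.inter mB).nullMeasurableSet
  rw [← h]
  have hpre : (fun q : Cf N × Cf N => fun e : Ed N => if e ∈ D then q.1 e else q.2 e) ⁻¹'
      (A ∩ B) = A ×ˢ B := by
    ext q
    simp only [Set.mem_preimage, Set.mem_inter_iff, Set.mem_prod]
    have h1 := hA (fun e => if e ∈ D then q.1 e else q.2 e) q.1 (fun e he => if_pos he)
    have h2 := hB (fun e => if e ∈ D then q.1 e else q.2 e) q.2
      (fun e he => if_neg (fun h' => Set.disjoint_left.1 hD h' he))
    simp only [eq_iff_iff] at h1 h2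
    rw [h1, h2]
  rw [hpre, Measure.prod_prod]

end IndfL

/-- independence -/
theorem indf (hmix : S_MIX) : S_INDF := by
  intro N _ c ι I D E hdis hdep hmeas
  classical
  induction I using Finset.induction_on with
  | empty => simp
  | insert i I hi ih =>
    rw [Finset.prod_insert hi, Finset.set_biInter_insert]
    have hdep' : Dep (⋃ j ∈ I, D j) (fun ω => ω ∈ ⋂ j ∈ I, E j) := by
      intro ω ω' h
      simp only [Set.mem_iInter, eq_iff_iff]
      refine forall_congr' fun j => forall_congr' fun hj => ?_
      have := hdep j (Finset.mem_insert_of_mem hj) ω ω'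
        (fun e he => h e (Set.mem_biUnion hj he))
      exact eq_iff_iff.1 this
    have hdj : Disjoint (D i) (⋃ j ∈ I, D j) := by
      rw [Set.disjoint_iUnion₂_right]
      intro j hj
      exact hdis i (Finset.mem_insert_self _ _) j (Finset.mem_insert_of_mem hj)
        (fun h => hi (h ▸ hj))
    rw [IndfL.two hmix c hdj (hdep i (Finset.mem_insert_self _ _)) hdep'
      (hmeas i (Finset.mem_insert_self _ _))
      (Finset.measurableSet_biInter I fun j hj => hmeas j (Finset.mem_insert_of_mem hj))]
    rw [ih (fun a ha b hb => hdis a (Finset.mem_insert_of_mem ha) b (Finset.mem_insert_of_mem hb))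
      (fun a ha => hdep a (Finset.mem_insert_of_mem ha))
      (fun a ha => hmeas a (Finset.mem_insert_of_mem ha))]

end Pool.Agent.Helper98K9.HP
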