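import Pool.Agent.Helper98K9.HP.St2

set_option autoImplicit false

/-! Leaf [ITR] (helper18). -/

namespace Pool.Agent.Helper98K9.HP

namespace ItrL

open Filter Topology

variable {N : ℕ} {c : ℕ → ℝ} {L : ℕ → ℝ → ℝ → ℝ → Prop}

/-- the property of the step -/
def Stp (N : ℕ) (c : ℕ → ℝ) (L : ℕ → ℝ → ℝ → ℝ → Prop) (k1 : ℕ) : Prop :=
  ∀ k, k1 ≤ k → ∀ (ρ q a : ℝ) (l r : ℕ), 0 < ρ → ρ ≤ 1 → 0 ≤ q → 0 ≤ a →
    r < N ^ l → L k ρ q a →
    L (k + l) (ρ * (1 - r / (N : ℝ) ^ l))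
      ((3 * (N : ℝ) ^ l * q / (r + 1)) ^ (r + 1) +
        (N : ℝ) ^ (2 * l) * Real.exp (-(ρ ^ 2 * c (k + 1) / (N : ℝ) ^ (2 * l) / 8)))
      ((1 + 8 / (ρ ^ 2 * c (k + 1) / (N : ℝ) ^ (2 * l))) * a +
        8 / (ρ ^ 2 * c (k + 1) / (N : ℝ) ^ (2 * l)))

/-- one step with uniform errors -/
theorem gstep (hN : 2 ≤ N) (hR : Rule N c L) {k1 : ℕ} (hst : Stp N c L k1) (K : ℕ)
    (y lam β : ℝ) (hy : 0 < y) (hlam : 0 < lam) (hβ : 0 < β)
    (hc : ∀ k, K ≤ k → lam * y ^ 2 ≤ (β / 2) ^ 2 * c (k + 1)) (k l r : ℕ) (hk1 : k1 ≤ k)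
    (hK : K ≤ k) (hl : (N : ℝ) ^ l ≤ y) (hr : r < N ^ l) (ρ q a : ℝ) (hρ : β / 2 ≤ ρ)
    (hρ1 : ρ ≤ 1) (hq : 0 ≤ q) (ha : 0 ≤ a) (h : L k ρ q a) :
    L (k + l) (ρ * (1 - r / (N : ℝ) ^ l))
      ((3 * (N : ℝ) ^ l * q / (r + 1)) ^ (r + 1) + y ^ 2 * Real.exp (-(lam / 8)))
      ((1 + 8 / lam) * (a + 1) - 1) := by
  have hN0 : (0 : ℝ) < N := by exact_mod_cast (by omega : 0 < N)
  have h1 := hst k hk1 ρ q a l r (by linarith) hρ1 hq ha hr h
  have h2 : (0 : ℝ) < (N : ℝ) ^ (2 * l) := by positivity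
  have h3 : (N : ℝ) ^ (2 * l) ≤ y ^ 2 := by
    rw [mul_comm, pow_mul]
    exact pow_le_pow_left₀ (by positivity) hl 2
  have hck : 0 < c (k + 1) := by
    have := hc k hK
    have h4 : 0 < (β / 2) ^ 2 * c (k + 1) := lt_of_lt_of_le (by positivity) this
    exact (pos_iff_pos_of_mul_pos h4).1 (by positivity)
  have h5 : lam ≤ ρ ^ 2 * c (k + 1) / (N : ℝ) ^ (2 * l) := by
    rw [le_div_iff₀ h2]
    calc lam * (N : ℝ) ^ (2 * l) ≤ lam * y ^ 2 := mul_le_mul_of_nonneg_left h3 hlam.le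
      _ ≤ (β / 2) ^ 2 * c (k + 1) := hc k hK
      _ ≤ ρ ^ 2 * c (k + 1) :=
          mul_le_mul_of_nonneg_right (pow_le_pow_left₀ (by positivity) hρ 2) hck.le
  refine hR.mono _ _ _ _ _ _ _ h1 le_rfl ?_ ?_
  · refine add_le_add le_rfl (mul_le_mul h3 ?_ (Real.exp_pos _).le (by positivity))
    apply Real.exp_le_exp.2
    linarith
  · have h6 : 8 / (ρ ^ 2 * c (k + 1) / (N : ℝ) ^ (2 * l)) ≤ 8 / lam :=
      div_le_div_of_nonneg_left (by norm_num) hlam h5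
    have h7 := mul_le_mul_of_nonneg_right h6 ha
    have e1 : (1 + 8 / lam) * (a + 1) - 1 = a + 8 / lam * a + 8 / lam := by ring
    rw [e1, one_add_mul]
    linarith

/-- several steps of length one -/
theorem giter (hN : 2 ≤ N) (hR : Rule N c L) {k1 : ℕ} (hst : Stp N c L k1) (K : ℕ)
    (y lam β : ℝ) (hy : 0 < y) (hlam : 0 < lam) (hβ : 0 < β)
    (hc : ∀ k, K ≤ k → lam * y ^ 2 ≤ (β / 2) ^ 2 * c (k + 1)) (hNy : (N : ℝ) ≤ y) (k : ℕ)
    (hk1 : k1 ≤ k) (hK : K ≤ k) (ρ q a : ℝ) (hρ : β / 2 ≤ ρ)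
    (hρ1 : ρ ≤ 1) (hq : 0 ≤ q) (ha : 0 ≤ a) (h : L k ρ q a) (n : ℕ) :
    L (k + n) ρ ((N : ℝ) ^ (3 * n) * (q + y ^ 2 * Real.exp (-(lam / 8))) -
      y ^ 2 * Real.exp (-(lam / 8))) ((1 + 8 / lam) ^ n * (a + 1) - 1) := by
  obtain ⟨e, he⟩ : ∃ e, e = y ^ 2 * Real.exp (-(lam / 8)) := ⟨_, rfl⟩
  have he0 : 0 ≤ e := by rw [he]; positivity
  rw [← he]
  have hN2 : (2 : ℝ) ≤ N := by exact_mod_cast hN
  have hl1 : 0 < 8 / lam := by positivity
  induction n with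
  | zero =>
    have e1 : (N : ℝ) ^ (3 * 0) * (q + e) - e = q := by simp
    have e2 : (1 + 8 / lam) ^ 0 * (a + 1) - 1 = a := by simp
    rw [e1, e2]
    exact h
  | succ n ih =>
    have hp : (1 : ℝ) ≤ (N : ℝ) ^ (3 * n) := one_le_pow₀ (by linarith)
    have hQ : 0 ≤ (N : ℝ) ^ (3 * n) * (q + e) - e := by
      have : 1 * (q + e) ≤ (N : ℝ) ^ (3 * n) * (q + e) :=
        mul_le_mul_of_nonneg_right hp (by linarith)
      linarith
    have hA : 0 ≤ (1 + 8 / lam) ^ n * (a + 1) - 1 := by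
      have h1 : (1 : ℝ) ≤ (1 + 8 / lam) ^ n := one_le_pow₀ (by linarith)
      have : 1 * (a + 1) ≤ (1 + 8 / lam) ^ n * (a + 1) :=
        mul_le_mul_of_nonneg_right h1 (by linarith)
      linarith
    have h1 := gstep hN hR hst K y lam β hy hlam hβ hc (k + n) 1 0 (by omega) (by omega)
      (by rw [pow_one]; exact hNy) (by rw [pow_one]; omega) ρ _ _ hρ hρ1 hQ hA ih
    rw [← he] at h1
    have e1 : ρ * (1 - ((0 : ℕ) : ℝ) / (N : ℝ) ^ 1) = ρ := by simp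
    rw [e1] at h1
    refine hR.mono _ _ _ _ _ _ _ h1 le_rfl ?_ ?_
    · have e2 : (3 * (N : ℝ) ^ 1 * ((N : ℝ) ^ (3 * n) * (q + e) - e) / (((0 : ℕ) : ℝ) + 1)) ^ (0 + 1)
          + e = 3 * N * ((N : ℝ) ^ (3 * n) * (q + e)) - 3 * N * e + e := by
        push_cast
        ring
      rw [e2]
      have e3 : (N : ℝ) ^ (3 * (n + 1)) = (N : ℝ) ^ 3 * (N : ℝ) ^ (3 * n) := by
        rw [← pow_add]; congr 1; ring
      rw [e3]
      have e4 : 3 * (N : ℝ) ≤ (N : ℝ) ^ 3 := by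
        have f1 : (3 : ℝ) ≤ (N : ℝ) ^ 2 := by nlinarith
        have f2 := mul_le_mul_of_nonneg_right f1 (by linarith : (0 : ℝ) ≤ N)
        have f3 : (N : ℝ) ^ 3 = (N : ℝ) ^ 2 * N := by ring
        rw [f3]
        exact f2
      have e5 : 3 * (N : ℝ) * ((N : ℝ) ^ (3 * n) * (q + e)) ≤
          (N : ℝ) ^ 3 * ((N : ℝ) ^ (3 * n) * (q + e)) :=
        mul_le_mul_of_nonneg_right e4 (by positivity)
      have e6 : 2 * e ≤ 3 * N * e := mul_le_mul_of_nonneg_right (by linarith) he0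
      rw [mul_assoc]
      linarith
    · rw [pow_succ, sub_add_cancel]
      apply le_of_eq
      ring

/-- one stage -/
theorem stage (hN : 2 ≤ N) (hR : Rule N c L) {k1 : ℕ} (hst : Stp N c L k1) (K : ℕ)
    (y a0 β : ℝ) (hβ : 0 < β) (ha0 : 0 < a0) (hk1 : k1 ≤ K) (hK : 1 ≤ K) (hy2 : 2 ≤ y)
    (hy4 : y ^ 4 ≤ K) (hy9 : 9 * N < y)
    (hyb : 1 + 7 * Real.log N ≤ (β ^ 2 * a0 / 32) * y ^ 2)
    (hc : ∀ k, K ≤ k → a0 * (K * y ^ 4) ≤ c (k + 1)) (ρ a : ℝ) (hρ0 : 0 < ρ) (hρ1 : ρ ≤ 1)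
    (hρ : β / 2 ≤ ρ * (1 - 9 * N / y)) (ha : 0 ≤ a) (h : L K ρ ((N : ℝ) ^ K)⁻¹ a) :
    L (2 * K) (ρ * (1 - 9 * N / y)) ((N : ℝ) ^ (2 * K))⁻¹
      ((a + 1) * Real.exp (64 / (β ^ 2 * a0) / y ^ 2) - 1) := by
  have hN2 : (2 : ℝ) ≤ N := by exact_mod_cast hN
  have hy0 : 0 < y := by linarith
  have hK0 : (1 : ℝ) ≤ K := by exact_mod_cast hK
  obtain ⟨lam, hlam⟩ : ∃ lam, lam = β ^ 2 * a0 / 4 * (K * y ^ 2) := ⟨_, rfl⟩
  have hlam0 : 0 < lam := by rw [hlam]; positivity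
  have hc' : ∀ k, K ≤ k → lam * y ^ 2 ≤ (β / 2) ^ 2 * c (k + 1) := by
    intro k hk
    have h1 := mul_le_mul_of_nonneg_left (hc k hk) (by positivity : 0 ≤ (β / 2) ^ 2)
    refine le_trans (le_of_eq ?_) h1
    rw [hlam]; ring
  have hfrac : 0 ≤ 9 * N / y := by positivity
  have hρ' : β / 2 ≤ ρ := by
    refine hρ.trans ?_
    have : ρ * (1 - 9 * N / y) ≤ ρ * 1 := mul_le_mul_of_nonneg_left (by linarith) hρ0.le
    linarith
  obtain ⟨l, hl1, hl2⟩ := exists_nat_pow_near (by linarith : (1 : ℝ) ≤ y)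
    (by linarith : (1 : ℝ) < N)
  have hNl : (9 : ℝ) < (N : ℝ) ^ l := by
    have h1 : 9 * (N : ℝ) < (N : ℝ) ^ l * N := by
      rw [← pow_succ]; linarith
    exact lt_of_mul_lt_mul_right h1 (by linarith)
  have hr : 9 < N ^ l := by exact_mod_cast hNl
  have h4y : 4 * y ≤ K := by
    refine le_trans ?_ hy4
    have h1 : (2 : ℝ) ^ 3 ≤ y ^ 3 := pow_le_pow_left₀ (by norm_num) hy2 3
    have h2 : y ^ 4 = y ^ 3 * y := by ring
    rw [h2]
    exact mul_le_mul_of_nonneg_right (by linarith) hy0.le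
  have hlK : 4 * l ≤ K := by
    have h1 : (l : ℝ) ≤ (N : ℝ) ^ l := by
      exact_mod_cast (Nat.lt_pow_self (by omega : 1 < N)).le
    have h2 : 4 * (l : ℝ) ≤ K := by linarith
    exact_mod_cast h2
  obtain ⟨e, he⟩ : ∃ e, e = y ^ 2 * Real.exp (-(lam / 8)) := ⟨_, rfl⟩
  have he0 : 0 ≤ e := by rw [he]; positivity
  have hlog : 0 ≤ Real.log N := Real.log_nonneg (by linarith)
  have he1 : e ≤ ((N : ℝ) ^ (5 * K + 2))⁻¹ := by
    have h1 : y ^ 2 ≤ Real.exp K := by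
      have h2 : y ^ 2 ≤ y ^ 4 := pow_le_pow_right₀ (by linarith) (by norm_num)
      have h3 := Real.add_one_le_exp (K : ℝ)
      linarith
    have h4 : ((N : ℝ) ^ (5 * K + 2))⁻¹ = Real.exp (-((5 * K + 2) * Real.log N)) := by
      rw [Real.exp_neg]
      congr 1
      have h5 : (5 * (K : ℝ) + 2) = ((5 * K + 2 : ℕ) : ℝ) := by push_cast; ring
      rw [h5, Real.exp_nat_mul, Real.exp_log (by linarith)]
    rw [h4, he]
    calc y ^ 2 * Real.exp (-(lam / 8)) ≤ Real.exp K * Real.exp (-(lam / 8)) :=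
          mul_le_mul_of_nonneg_right h1 (Real.exp_pos _).le
      _ = Real.exp (K - lam / 8) := by rw [← Real.exp_add]; congr 1
      _ ≤ _ := by
          apply Real.exp_le_exp.2
          have h6 := mul_le_mul_of_nonneg_left hyb (by linarith : (0 : ℝ) ≤ K)
          have h7 : lam / 8 = K * (β ^ 2 * a0 / 32 * y ^ 2) := by rw [hlam]; ring
          have h8 : (5 * (K : ℝ) + 2) * Real.log N ≤ 7 * K * Real.log N :=
            mul_le_mul_of_nonneg_right (by linarith) hlog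
          rw [h7]
          linarith
  -- the first step
  have h1 := gstep hN hR hst K y lam β hy0 hlam0 hβ hc' K l 9 hk1 le_rfl hl1 hr ρ
    ((N : ℝ) ^ K)⁻¹ a hρ' hρ1 (by positivity) ha h
  rw [← he] at h1
  have h2 : L (K + l) (ρ * (1 - 9 * N / y)) (((N : ℝ) ^ (5 * K + 1))⁻¹ + e)
      ((1 + 8 / lam) * (a + 1) - 1) := by
    refine hR.mono _ _ _ _ _ _ _ h1 ?_ ?_ le_rfl
    · refine mul_le_mul_of_nonneg_left ?_ hρ0.le
      have h3 : ((9 : ℕ) : ℝ) / (N : ℝ) ^ l ≤ 9 * N / y := by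
        rw [div_le_div_iff₀ (by positivity) hy0]
        push_cast
        have : y ≤ (N : ℝ) ^ l * N := by rw [← pow_succ]; exact hl2.le
        linarith
      linarith
    · refine add_le_add ?_ le_rfl
      have h3 : 3 * (N : ℝ) ^ l * ((N : ℝ) ^ K)⁻¹ / (((9 : ℕ) : ℝ) + 1) ≤
          ((N : ℝ) ^ (K - l))⁻¹ := by
        have h4 : (N : ℝ) ^ K = (N : ℝ) ^ (K - l) * (N : ℝ) ^ l := by
          rw [← pow_add]; congr 1; omega
        have h5 : (0 : ℝ) < (N : ℝ) ^ (K - l) := by positivity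
        have h6 : (0 : ℝ) < (N : ℝ) ^ l := by positivity
        rw [h4]
        have h7 : 3 * (N : ℝ) ^ l * ((N : ℝ) ^ (K - l) * (N : ℝ) ^ l)⁻¹ / (((9 : ℕ) : ℝ) + 1) =
            3 / 10 * ((N : ℝ) ^ (K - l))⁻¹ := by
          push_cast
          field_simp
          norm_num
        rw [h7]
        have h8 : (0 : ℝ) < ((N : ℝ) ^ (K - l))⁻¹ := by positivity
        linarith
      calc _ ≤ (((N : ℝ) ^ (K - l))⁻¹) ^ (9 + 1) := pow_le_pow_left₀ (by positivity) h3 _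
        _ = ((N : ℝ) ^ ((K - l) * 10))⁻¹ := by rw [inv_pow, ← pow_mul]
        _ ≤ _ := by
            refine inv_anti₀ (by positivity) (pow_le_pow_right₀ (by linarith) (by omega))
  have hA1 : 0 ≤ (1 + 8 / lam) * (a + 1) - 1 := by
    have : 0 < 8 / lam := by positivity
    nlinarith
  have hρle : ρ * (1 - 9 * N / y) ≤ 1 := by
    have : ρ * (1 - 9 * N / y) ≤ ρ * 1 := mul_le_mul_of_nonneg_left (by linarith) hρ0.le
    linarith
  have h3 := giter hN hR hst K y lam β hy0 hlam0 hβ hc' (by linarith) (K + l) (by omega)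
    (by omega) _ _ _ hρ hρle (by positivity) hA1 h2 (K - l)
  rw [← he] at h3
  have h4 : K + l + (K - l) = 2 * K := by omega
  rw [h4] at h3
  refine hR.mono _ _ _ _ _ _ _ h3 le_rfl ?_ ?_
  · obtain ⟨X, hX⟩ : ∃ X : ℝ, X = (N : ℝ) ^ K := ⟨_, rfl⟩
    have hX0 : 0 < X := by rw [hX]; positivity
    have e1 : (N : ℝ) ^ (5 * K + 1) = X ^ 5 * N := by rw [hX]; ring
    have e2 : (N : ℝ) ^ (5 * K + 2) = X ^ 5 * (N : ℝ) ^ 2 := by rw [hX]; ring
    have e3 : (N : ℝ) ^ (2 * K) = X ^ 2 := by rw [hX]; ring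
    have e4 : (N : ℝ) ^ (3 * (K - l)) ≤ X ^ 3 := by
      have : X ^ 3 = (N : ℝ) ^ (3 * K) := by rw [hX]; ring
      rw [this]
      exact pow_le_pow_right₀ (by linarith) (by omega)
    rw [e2] at he1
    rw [e1, e3]
    have hN0 : (0 : ℝ) < N := by linarith
    calc (N : ℝ) ^ (3 * (K - l)) * ((X ^ 5 * N)⁻¹ + e + e) - e
        ≤ (N : ℝ) ^ (3 * (K - l)) * ((X ^ 5 * N)⁻¹ + e + e) := by linarith
      _ ≤ X ^ 3 * ((X ^ 5 * N)⁻¹ + (X ^ 5 * (N : ℝ) ^ 2)⁻¹ + (X ^ 5 * (N : ℝ) ^ 2)⁻¹) :=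
          mul_le_mul e4 (by linarith) (by positivity) (by positivity)
      _ = (X ^ 2)⁻¹ * (1 / N + 2 / (N : ℝ) ^ 2) := by field_simp; ring
      _ ≤ (X ^ 2)⁻¹ * 1 := by
          refine mul_le_mul_of_nonneg_left ?_ (by positivity)
          have f1 : 1 / (N : ℝ) ≤ 1 / 2 := one_div_le_one_div_of_le (by norm_num) hN2
          have f2 : 2 / (N : ℝ) ^ 2 ≤ 2 / 4 := by
            refine div_le_div_of_nonneg_left (by norm_num) (by norm_num) ?_
            nlinarith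
          linarith
      _ = _ := mul_one _
  · rw [sub_add_cancel]
    have e1 : (1 + 8 / lam) ^ (K - l) * ((1 + 8 / lam) * (a + 1)) =
        (a + 1) * (1 + 8 / lam) ^ (K - l + 1) := by ring
    rw [e1]
    have hl0 : 0 < 8 / lam := by positivity
    have e2 : (1 + 8 / lam) ^ (K - l + 1) ≤ Real.exp (64 / (β ^ 2 * a0) / y ^ 2) := by
      calc (1 + 8 / lam) ^ (K - l + 1) ≤ (1 + 8 / lam) ^ (2 * K) :=
            pow_le_pow_right₀ (by linarith) (by omega)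
        _ ≤ (Real.exp (8 / lam)) ^ (2 * K) := by
            refine pow_le_pow_left₀ (by linarith) ?_ _
            have := Real.add_one_le_exp (8 / lam)
            linarith
        _ = Real.exp ((2 * K : ℕ) * (8 / lam)) := (Real.exp_nat_mul _ _).symm
        _ = _ := by
            congr 1
            rw [hlam]
            push_cast
            field_simp
            norm_num
    have := mul_le_mul_of_nonneg_left e2 (by linarith : 0 ≤ a + 1)
    linarith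

end ItrL

open ItrL Filter Topology in
/-- **ITR** -/
theorem itr : S_ITR := by
  intro N c a0 η β L hN ha0 hη hη1 hc hβ hβ1 hR hL
  obtain ⟨k1, hst⟩ := hR.step
  have hN2 : (2 : ℝ) ≤ N := by exact_mod_cast hN
  -- the function `y`
  obtain ⟨y, hy⟩ : ∃ y : ℕ → ℝ, y = fun K : ℕ => (K : ℝ) ^ (η / 4) := ⟨_, rfl⟩
  have hytend : Tendsto y atTop atTop := by
    rw [hy]
    exact Tendsto.comp (g := fun x : ℝ => x ^ (η / 4)) (f := fun K : ℕ => (K : ℝ))
      (tendsto_rpow_atTop (by positivity)) tendsto_natCast_atTop_atTop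
  have hymono : ∀ K K' : ℕ, K ≤ K' → y K ≤ y K' := by
    intro K K' hKK
    rw [hy]
    exact Real.rpow_le_rpow (Nat.cast_nonneg _) (by exact_mod_cast hKK) (by positivity)
  have hy4 : ∀ K : ℕ, 1 ≤ K → (y K) ^ 4 = (K : ℝ) ^ η := by
    intro K hK
    rw [hy]
    show ((K : ℝ) ^ (η / 4)) ^ 4 = _
    rw [← Real.rpow_natCast, ← Real.rpow_mul (Nat.cast_nonneg _)]
    congr 1
    push_cast
    ring
  obtain ⟨θ, hθ⟩ : ∃ θ : ℝ, θ = ((2 : ℝ) ^ (η / 4))⁻¹ := ⟨_, rfl⟩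
  have h2 : (1 : ℝ) < (2 : ℝ) ^ (η / 4) := Real.one_lt_rpow (by norm_num) (by positivity)
  have hθ0 : 0 < θ := by rw [hθ]; positivity
  have hθ1 : θ < 1 := by rw [hθ]; exact inv_lt_one_of_one_lt₀ h2
  have hydbl : ∀ K : ℕ, (y (2 * K))⁻¹ = θ * (y K)⁻¹ := by
    intro K
    rw [hy, hθ]
    show (((2 * K : ℕ) : ℝ) ^ (η / 4))⁻¹ = _
    push_cast
    rw [Real.mul_rpow (by norm_num) (Nat.cast_nonneg _), mul_inv]
  obtain ⟨D, hD⟩ : ∃ D : ℝ, D = 18 * N / (1 - θ) := ⟨_, rfl⟩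
  have hD0 : 0 < D := by
    rw [hD]
    have : 0 < 1 - θ := by linarith
    positivity
  have hD1 : D * (1 - θ) = 18 * N := by
    rw [hD]
    have : 1 - θ ≠ 0 := by linarith
    field_simp
  obtain ⟨C, hC⟩ : ∃ C : ℝ, C = 64 / (β ^ 2 * a0) := ⟨_, rfl⟩
  have hC0 : 0 < C := by rw [hC]; positivity
  have hθ2 : 0 < 1 - θ ^ 2 := by nlinarith
  obtain ⟨D', hD'⟩ : ∃ D' : ℝ, D' = C / (1 - θ ^ 2) := ⟨_, rfl⟩
  have hD'0 : 0 < D' := by rw [hD']; positivity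
  have hD'1 : D' * (1 - θ ^ 2) = C := by rw [hD']; field_simp
  -- large `K`
  obtain ⟨Ks, hKs⟩ : ∃ Ks : ℕ, ∀ K, Ks ≤ K → k1 ≤ K ∧ 1 ≤ K ∧ 2 ≤ y K ∧ 9 * N < y K ∧
      1 + 7 * Real.log N ≤ (β ^ 2 * a0 / 32) * (y K) ^ 2 ∧ 2 * D ≤ y K := by
    have hb : 0 < β ^ 2 * a0 / 32 := by positivity
    obtain ⟨K2, hK2⟩ := eventually_atTop.1 (hytend.eventually_ge_atTop
      (max (max 2 (9 * N + 1)) (max (max 1 ((1 + 7 * Real.log N) / (β ^ 2 * a0 / 32))) (2 * D))))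
    refine ⟨max (max k1 1) K2, fun K hK => ?_⟩
    have h1 := hK2 K ((le_max_right _ _).trans hK)
    have h3 : (2 : ℝ) ≤ y K := (le_max_left _ _).trans ((le_max_left _ _).trans h1)
    have h4 : 9 * (N : ℝ) + 1 ≤ y K := (le_max_right _ _).trans ((le_max_left _ _).trans h1)
    have h5 : (1 + 7 * Real.log N) / (β ^ 2 * a0 / 32) ≤ y K :=
      (le_max_right _ _).trans ((le_max_left _ _).trans ((le_max_right _ _).trans h1))
    have h6 : 2 * D ≤ y K := (le_max_right _ _).trans ((le_max_right _ _).trans h1)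
    refine ⟨(le_max_left _ _).trans ((le_max_left _ _).trans hK),
      (le_max_right _ _).trans ((le_max_left _ _).trans hK), h3, by linarith, ?_, h6⟩
    rw [div_le_iff₀ hb] at h5
    refine h5.trans ?_
    rw [mul_comm]
    refine mul_le_mul_of_nonneg_left ?_ hb.le
    nlinarith
  obtain ⟨K, hK, a, ha, hLK⟩ := hL Ks
  obtain ⟨_, hK1, _, _, _, hKD⟩ := hKs K hK
  have hpow : ∀ j : ℕ, K ≤ 2 ^ j * K := fun j => Nat.le_mul_of_pos_left _ (by positivity)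
  have key : ∀ j : ℕ, L (2 ^ j * K) (β / 2 * (1 + D * (y (2 ^ j * K))⁻¹))
      ((N : ℝ) ^ (2 ^ j * K))⁻¹
      ((a + 1) * Real.exp (D' * (((y K)⁻¹) ^ 2 - ((y (2 ^ j * K))⁻¹) ^ 2)) - 1) := by
    intro j
    induction j with
    | zero =>
      rw [pow_zero, one_mul, sub_self, mul_zero, Real.exp_zero, mul_one, add_sub_cancel_right]
      refine hR.mono _ _ _ _ _ _ _ hLK ?_ le_rfl le_rfl
      have h1 : D * (y K)⁻¹ ≤ 1 / 2 := by
        rw [← div_eq_mul_inv, div_le_iff₀ (by linarith)]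
        linarith
      have h3 : β / 2 * (1 + D * (y K)⁻¹) ≤ β / 2 * (1 + 1 / 2) :=
        mul_le_mul_of_nonneg_left (by linarith) (by positivity)
      linarith
    | succ j ih =>
      obtain ⟨Kj, hKj⟩ : ∃ Kj, Kj = 2 ^ j * K := ⟨_, rfl⟩
      have hsucc : 2 ^ (j + 1) * K = 2 * Kj := by rw [hKj]; ring
      rw [hsucc]
      rw [← hKj] at ih
      have hle : Ks ≤ Kj := by rw [hKj]; exact hK.trans (hpow j)
      obtain ⟨g1, g2, g3, g4, g5, g6⟩ := hKs Kj hle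
      obtain ⟨x, hx⟩ : ∃ x, x = (y Kj)⁻¹ := ⟨_, rfl⟩
      have hy0 : 0 < y Kj := by linarith
      have hx0 : 0 < x := by rw [hx]; positivity
      have hDx : D * x ≤ 1 / 2 := by
        rw [hx, ← div_eq_mul_inv, div_le_iff₀ hy0]
        linarith
      have hKj0 : (0 : ℝ) < Kj := by exact_mod_cast g2
      have hKη : (Kj : ℝ) ^ η ≤ Kj := by
        have : (Kj : ℝ) ^ η ≤ (Kj : ℝ) ^ (1 : ℝ) :=
          Real.rpow_le_rpow_of_exponent_le (by exact_mod_cast g2) hη1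
        rwa [Real.rpow_one] at this
      have hcK : ∀ k, Kj ≤ k → a0 * (Kj * (y Kj) ^ 4) ≤ c (k + 1) := by
        intro k hk
        refine le_trans ?_ (hc (k + 1) (by omega))
        refine mul_le_mul_of_nonneg_left ?_ ha0.le
        rw [hy4 Kj g2]
        have h3 : (Kj : ℝ) * (Kj : ℝ) ^ η = (Kj : ℝ) ^ (1 + η) := by
          rw [Real.rpow_add hKj0, Real.rpow_one]
        rw [h3]
        refine Real.rpow_le_rpow hKj0.le ?_ (by linarith)
        exact_mod_cast (by omega : Kj ≤ k + 1)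
      have hexpn : 0 ≤ (a + 1) * Real.exp (D' * (((y K)⁻¹) ^ 2 - x ^ 2)) - 1 := by
        have h3 : x ≤ (y K)⁻¹ := by
          rw [hx]
          refine inv_anti₀ (by linarith) (hymono K Kj (by rw [hKj]; exact hpow j))
        have h4 : 0 ≤ D' * (((y K)⁻¹) ^ 2 - x ^ 2) := by
          refine mul_nonneg hD'0.le ?_
          have := pow_le_pow_left₀ hx0.le h3 2
          linarith
        have h5 := Real.one_le_exp h4
        have h6 : 1 * 1 ≤ (a + 1) * Real.exp (D' * (((y K)⁻¹) ^ 2 - x ^ 2)) :=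
          mul_le_mul (by linarith) h5 (by norm_num) (by linarith)
        linarith
      rw [← hx] at ih
      have hdens : β / 2 * (1 + D * (θ * x)) ≤ β / 2 * (1 + D * x) * (1 - 9 * N / y Kj) := by
        have h3 : 9 * (N : ℝ) / y Kj = 9 * N * x := by rw [hx, div_eq_mul_inv]
        rw [h3, mul_assoc]
        refine mul_le_mul_of_nonneg_left ?_ (by positivity)
        have h4 : (1 + D * x) * (1 - 9 * N * x) - (1 + D * (θ * x)) =
            x * (D * (1 - θ) - 9 * N - 9 * N * (D * x)) := by ring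
        have h5 : 0 ≤ x * (D * (1 - θ) - 9 * N - 9 * N * (D * x)) := by
          refine mul_nonneg hx0.le ?_
          rw [hD1]
          have : 9 * (N : ℝ) * (D * x) ≤ 9 * N * (1 / 2) :=
            mul_le_mul_of_nonneg_left hDx (by positivity)
          linarith
        linarith
      have hst1 := stage hN hR hst Kj (y Kj) a0 β hβ ha0 g1 g2 g3
        (by rw [hy4 Kj g2]; exact hKη) g4 g5 hcK (β / 2 * (1 + D * x)) _
        (by positivity) (by
          have : β / 2 * (1 + D * x) ≤ β / 2 * (1 + 1 / 2) :=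
            mul_le_mul_of_nonneg_left (by linarith) (by positivity)
          linarith) (by
          refine le_trans ?_ hdens
          have : 0 ≤ β / 2 * (D * (θ * x)) := by positivity
          linarith) hexpn ih
      refine hR.mono _ _ _ _ _ _ _ hst1 ?_ le_rfl ?_
      · rw [hydbl, ← hx]
        exact hdens
      · rw [hydbl, ← hx, sub_add_cancel, mul_assoc, ← Real.exp_add, ← hC]
        have h3 : C / (y Kj) ^ 2 = C * x ^ 2 := by rw [hx, inv_pow, div_eq_mul_inv]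
        rw [h3, ← hD'1]
        apply le_of_eq
        congr 3
        ring
  refine ⟨(a + 1) * Real.exp (D' * ((y K)⁻¹) ^ 2), by positivity, fun k0 => ?_⟩
  refine ⟨2 ^ k0 * K, ?_, ?_⟩
  · have h3 : k0 < 2 ^ k0 := Nat.lt_two_pow_self
    have h4 : 2 ^ k0 * 1 ≤ 2 ^ k0 * K := Nat.mul_le_mul_left _ hK1
    omega
  · refine hR.mono _ _ _ _ _ _ _ (key k0) ?_ le_rfl ?_
    · have h3 : 0 < y (2 ^ k0 * K) := by
        have := (hKs _ (hK.trans (hpow k0))).2.2.1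
        linarith
      have : 0 ≤ β / 2 * (D * (y (2 ^ k0 * K))⁻¹) := by positivity
      linarith
    · have h3 : Real.exp (D' * (((y K)⁻¹) ^ 2 - ((y (2 ^ k0 * K))⁻¹) ^ 2)) ≤
          Real.exp (D' * ((y K)⁻¹) ^ 2) := by
        apply Real.exp_le_exp.2
        refine mul_le_mul_of_nonneg_left ?_ hD'0.le
        have : 0 ≤ ((y (2 ^ k0 * K))⁻¹) ^ 2 := by positivity
        linarith
      have := mul_le_mul_of_nonneg_left h3 (by linarith : 0 ≤ a + 1)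
      linarith

end Pool.Agent.Helper98K9.HP
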