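import Pool.Agent.Helper98K9.HP.St2

set_option autoImplicit false

/-! Leaf [LAST] (helper18). -/

namespace Pool.Agent.Helper98K9.HP

namespace LastL

open MeasureTheory Filter Topology
open scoped ENNReal NNReal

section iso

variable {X : Type} {Γ Γ' : SimpleGraph X} (φ : X ≃ X)
  (h : ∀ x y, Γ'.Adj x y ↔ Γ.Adj (φ x) (φ y))

include h

theorem reach_iff (x y : X) : Γ'.Reachable x y ↔ Γ.Reachable (φ x) (φ y) := by
  have i : Γ' ≃g Γ := ⟨φ, by intro a b; exact (h a b).symm⟩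
  constructor
  · rintro ⟨w⟩
    exact ⟨w.map ⟨φ, fun {a b} hab => (h a b).1 hab⟩⟩
  · rintro ⟨w⟩
    have w' := w.map (⟨φ.symm, fun {a b} hab => (h _ _).2 (by
      rwa [φ.apply_symm_apply, φ.apply_symm_apply])⟩ : Γ →g Γ')
    have e1 : (⟨φ.symm, fun {a b} hab => (h _ _).2 (by
      rwa [φ.apply_symm_apply, φ.apply_symm_apply])⟩ : Γ →g Γ') (φ x) = x := φ.symm_apply_apply x
    have e2 : (⟨φ.symm, fun {a b} hab => (h _ _).2 (by
      rwa [φ.apply_symm_apply, φ.apply_symm_apply])⟩ : Γ →g Γ') (φ y) = y := φ.symm_apply_apply y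
    rw [e1, e2] at w'
    exact ⟨w'⟩

theorem infC_iff (x : X) : InfC Γ' x ↔ InfC Γ (φ x) := by
  unfold InfC
  have : {y | Γ.Reachable (φ x) y} = φ '' {y | Γ'.Reachable x y} := by
    ext y
    constructor
    · intro hy
      refine ⟨φ.symm y, ?_, φ.apply_symm_apply y⟩
      show Γ'.Reachable x (φ.symm y)
      rw [reach_iff φ h, φ.apply_symm_apply]; exact hy
    · rintro ⟨z, hz, rfl⟩
      exact (reach_iff φ h x z).1 hz
  rw [this, Set.infinite_image_iff φ.injective.injOn]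

theorem stepP_iso (n : ℕ) (x y : X) : stepP Γ' n x y = stepP Γ n (φ x) (φ y) := by
  induction n generalizing x with
  | zero =>
    simp only [stepP]
    by_cases hxy : x = y
    · rw [if_pos hxy, if_pos (congrArg φ hxy)]
    · rw [if_neg hxy, if_neg fun e => hxy (φ.injective e)]
  | succ n ih =>
    simp only [stepP]
    have hset : Γ.neighborSet (φ x) = φ '' Γ'.neighborSet x := by
      ext z
      constructor
      · intro hz
        refine ⟨φ.symm z, ?_, φ.apply_symm_apply z⟩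
        show Γ'.Adj x (φ.symm z)
        rw [h, φ.apply_symm_apply]; exact hz
      · rintro ⟨w, hw, rfl⟩
        exact (h x w).1 hw
    rw [hset, Set.ncard_image_of_injective _ φ.injective, finsum_mem_image φ.injective.injOn]
    congr 1
    exact finsum_mem_congr rfl fun z _ => ih z

theorem rec_iff (x : X) : Recurrent Γ' x ↔ Recurrent Γ (φ x) := by
  unfold Recurrent
  simp only [stepP_iso φ h]

theorem energy_iso (f : X → ℝ) : energy Γ' (fun x => f (φ x)) = energy Γ f := by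
  unfold energy
  refine Eq.trans ?_ (φ.tsum_eq _)
  refine tsum_congr fun x => ?_
  refine Eq.trans ?_ (φ.tsum_eq _)
  refine tsum_congr fun y => ?_
  by_cases hxy : Γ'.Adj x y
  · rw [if_pos hxy, if_pos ((h x y).1 hxy)]
  · rw [if_neg hxy, if_neg fun e => hxy ((h x y).2 e)]

end iso

variable {N : ℕ}

/-- translation -/
noncomputable def trl (a : V N) (ω : Cf N) : Cf N := fun e => ω (e.map (· + a))

theorem trl_adj (a : V N) (ω : Cf N) (x y : V N) :
    (G (trl a ω)).Adj x y ↔ (G ω).Adj (Equiv.addRight a x) (Equiv.addRight a y) := by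
  show x ≠ y ∧ ω (Sym2.map (· + a) s(x, y)) = true ↔ x + a ≠ y + a ∧ ω s(x + a, y + a) = true
  rw [Sym2.map_mk, Ne, Ne, add_left_inj]

/-- the bad event -/
def U (u : V N) : Set (Cf N) := {ω | InfC (G ω) u ∧ Recurrent (G ω) u}

theorem U_trl (u : V N) (ω : Cf N) : trl u ω ∈ U (0 : V N) ↔ ω ∈ U u := by
  show InfC (G (trl u ω)) 0 ∧ Recurrent (G (trl u ω)) 0 ↔ InfC (G ω) u ∧ Recurrent (G ω) u
  rw [infC_iff (Equiv.addRight u) (trl_adj u ω), rec_iff (Equiv.addRight u) (trl_adj u ω)]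
  have : Equiv.addRight u (0 : V N) = u := by
    show (0 : V N) + u = u
    exact zero_add u
  rw [this]

variable [NeZero N]

theorem Zs_trl (j : ℕ) (κ : ℝ) (u : V N) (ω : Cf N) :
    trl u ω ∈ Zs j κ (0 : V N) ↔ ω ∈ Zs j κ u := by
  have hd : ∀ y : V N, dist (0 : V N) y = dist u (y + u) := by
    intro y
    have := dist_add 0 y u
    rw [zero_add] at this
    exact this.symm
  constructor
  · rintro ⟨f, h1, h2, h3, h4⟩
    refine ⟨fun y => f (y - u), fun y hy => ?_, ?_, fun y => h3 _, ?_⟩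
    · have := h1 _ hy
      rw [mem_ball, hd, sub_add_cancel] at this
      exact mem_ball.2 this
    · show f (u - u) = 1
      rw [sub_self]; exact h2
    · rw [← energy_iso (Equiv.addRight u) (trl_adj u ω)]
      have : (fun x : V N => f (Equiv.addRight u x - u)) = f := by
        funext x
        show f (x + u - u) = f x
        rw [add_sub_cancel_right]
      rw [this]
      exact h4
  · rintro ⟨f, h1, h2, h3, h4⟩
    refine ⟨fun y => f (y + u), fun y hy => ?_, ?_, fun y => h3 _, ?_⟩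
    · have := h1 _ hy
      rw [mem_ball] at this ⊢
      rw [hd]; exact this
    · show f (0 + u) = 1
      rw [zero_add]; exact h2
    · have := energy_iso (Equiv.addRight u) (trl_adj u ω) f
      exact this.trans_le h4

theorem zs_mono (κ : ℝ) (u : V N) : Monotone fun j => Zs j κ u := by
  rintro j j' hj ω ⟨f, h1, h2⟩
  exact ⟨f, fun y hy => ball_mono hj u (h1 y hy), h2⟩

theorem exists_j (hTI : S_TI) (hLF : S_LF) (hREC2 : S_REC2) (hMZ : S_MZ) (c : ℕ → ℝ) (A : ℝ)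
    (hN : 2 ≤ N) (hA : Adm N c A) (κ δ : ℝ) (hκ : 0 < κ) (hδ : 0 < δ) :
    ∃ j, ∀ u : V N, PP N c (U u \ Zs j κ u) ≤ ENNReal.ofReal δ := by
  have hcov : PP N c (U (0 : V N) \ ⋃ j, Zs j κ 0) = 0 := by
    refine measure_mono_null ?_ (ae_iff.1 (hLF N c A hN hA))
    rintro ω ⟨⟨h1, h2⟩, h3⟩
    intro hfin
    obtain ⟨f, hf1, hf2, hf3, hf4⟩ := hREC2 (V N) (G ω) 0 hfin h2 κ hκ
    apply h3
    obtain ⟨j, hj⟩ : ∃ j, ∀ y, f y ≠ 0 → dist (0 : V N) y ≤ j :=
      ⟨hf1.toFinset.sup (fun y => dist (0 : V N) y), fun y hy =>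
        Finset.le_sup (f := fun y => dist (0 : V N) y) (hf1.mem_toFinset.2 hy)⟩
    exact Set.mem_iUnion.2 ⟨j, f, fun y hy => mem_ball.2 (hj y hy), hf2, hf3, hf4⟩
  have hlim : Tendsto (fun j => PP N c (U (0 : V N) \ Zs j κ 0)) atTop (𝓝 0) := by
    have h1 : Tendsto (fun j => PP N c (U (0 : V N) ∩ Zs j κ 0)) atTop
        (𝓝 (PP N c (⋃ j, U (0 : V N) ∩ Zs j κ 0))) :=
      tendsto_measure_iUnion_atTop fun j j' h => Set.inter_subset_inter_right _ (zs_mono κ 0 h)
    have h2 : ∀ j, PP N c (U (0 : V N) \ Zs j κ 0) =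
        PP N c (U (0 : V N)) - PP N c (U (0 : V N) ∩ Zs j κ 0) := by
      intro j
      rw [← measure_inter_add_sdiff (U (0 : V N)) (hMZ N j κ 0),
        ENNReal.add_sub_cancel_left (measure_ne_top _ _)]
    have h3 : PP N c (⋃ j, U (0 : V N) ∩ Zs j κ 0) = PP N c (U (0 : V N)) := by
      rw [← Set.inter_iUnion]
      have := measure_inter_add_sdiff (μ := PP N c) (U (0 : V N))
        (MeasurableSet.iUnion fun j => hMZ N j κ (0 : V N))
      rw [hcov, add_zero] at this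
      exact this
    simp_rw [h2]
    have := ENNReal.Tendsto.sub (tendsto_const_nhds (x := PP N c (U (0 : V N)))) h1
      (Or.inl (measure_ne_top _ _))
    rw [h3, tsub_self] at this
    exact this
  have hev := hlim.eventually (eventually_lt_nhds (ENNReal.ofReal_pos.2 hδ))
  obtain ⟨j, hj⟩ := hev.exists
  refine ⟨j, fun u => ?_⟩
  have : U u \ Zs j κ u = {ω | (fun e : Ed N => ω (e.map (· + u))) ∈ U (0 : V N) \ Zs j κ 0} := by
    ext ω
    show ω ∈ U u ∧ ω ∉ Zs j κ u ↔ trl u ω ∈ U (0 : V N) ∧ trl u ω ∉ Zs j κ 0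
    rw [U_trl, Zs_trl]
  rw [this, hTI N c u]
  exact hj.le

/-! ### the family -/

open Classical in
/-- the configuration inside the ball -/
noncomputable def cutc (k : ℕ) (y : V N) (ω : Cf N) : Cf N :=
  fun e => if e ∈ ins k y then ω e else false

theorem cutc_eq (k : ℕ) (y : V N) (ω : Cf N) : ∀ e ∈ ins k y, cutc k y ω e = ω e := by
  intro e he
  unfold cutc
  rw [if_pos he]

theorem cutc_congr (k : ℕ) (y : V N) (ω ω' : Cf N) (h : ∀ e ∈ ins k y, ω e = ω' e) :
    cutc k y ω = cutc k y ω' := by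
  funext e
  unfold cutc
  split_ifs with he
  · exact h e he
  · rfl

theorem fam_of {k : ℕ} {y : V N} {ω ω' : Cf N} (hω : ∀ e ∈ ins k y, ω e = ω' e)
    {S : Finset (V N)} {Θ : V N → V N → V N → ℝ} (h : Fam (G ω) (ball k y) S Θ) :
    Fam (G ω') (ball k y) S Θ where
  sub := h.sub
  supp := fun u hu a b hab => by
    obtain ⟨h1, h2, h3⟩ := h.supp u hu a b hab
    refine ⟨⟨h1.1, ?_⟩, h2, h3⟩
    rw [← hω s(a, b) ?_]
    · exact h1.2
    · intro v hv
      rcases Sym2.mem_iff.1 hv with rfl | rfl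
      exacts [h2, h3]
  anti := h.anti
  div := h.div
  zero := h.zero

theorem qq_congr (ρ : ℝ) {k : ℕ} {y : V N} {ω ω' : Cf N} (hω : ∀ e ∈ ins k y, ω e = ω' e) :
    QQ ρ k y ω = QQ ρ k y ω' := by
  unfold QQ
  refine iInf_congr fun S => iInf_congr fun Θ => iInf_congr fun h1 => iInf_congr fun h2 => ?_
  exact iInf_congr_Prop ⟨fam_of hω, fam_of fun e he => (hω e he).symm⟩ fun _ => rfl

theorem good_of {ρ : ℝ} {k : ℕ} {y : V N} {ω : Cf N} {t : ℝ≥0∞} (h : QQ ρ k y ω < t) :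
    ∃ (S : Finset (V N)) (Θ : V N → V N → V N → ℝ), ρ * (N : ℝ) ^ k ≤ S.card ∧ 0 < S.card ∧
      Fam (G ω) (ball k y) S Θ ∧ ENNReal.ofReal (enF (ball k y) S Θ) < t := by
  unfold QQ at h
  simp only [iInf_lt_iff] at h
  obtain ⟨S, Θ, h1, h2, h3, h4⟩ := h
  exact ⟨S, Θ, h1, h2, h3, h4⟩

/-- good configurations -/
def Good (ρ a' : ℝ) (k : ℕ) (y : V N) (ω : Cf N) : Prop :=
  ∃ (S : Finset (V N)), ∃ (Θ : V N → V N → V N → ℝ), ρ * (N : ℝ) ^ k ≤ S.card ∧
    Fam (G ω) (ball k y) S Θ ∧ enF (ball k y) S Θ ≤ a' * (N : ℝ) ^ k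

open Classical in
/-- the chosen set -/
noncomputable def TT (ρ a' : ℝ) (k : ℕ) (y : V N) (ω : Cf N) : Finset (V N) :=
  if h : Good ρ a' k y (cutc k y ω) then h.choose else ∅

theorem TT_dep (ρ a' : ℝ) (k : ℕ) (y : V N) : Dep (ins k y) (TT ρ a' k y) := by
  intro ω ω' h
  unfold TT
  rw [cutc_congr k y ω ω' h]

theorem TT_sub (ρ a' : ℝ) (k : ℕ) (y : V N) (ω : Cf N) : TT ρ a' k y ω ⊆ ball k y := by
  unfold TT
  split_ifs with h
  · obtain ⟨Θ, _, h2, _⟩ := h.choose_spec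
    exact h2.sub
  · exact Finset.empty_subset _

theorem TT_spec (ρ a' : ℝ) (k : ℕ) (y : V N) (ω : Cf N) (ha : 0 < a')
    (h : QQ ρ k y ω < ENNReal.ofReal (a' * (N : ℝ) ^ k)) :
    ∃ Θ, ρ * (N : ℝ) ^ k ≤ (TT ρ a' k y ω).card ∧ Fam (G ω) (ball k y) (TT ρ a' k y ω) Θ ∧
      enF (ball k y) (TT ρ a' k y ω) Θ ≤ a' * (N : ℝ) ^ k := by
  have hg : Good ρ a' k y (cutc k y ω) := by
    obtain ⟨S, Θ, h1, h2, h3, h4⟩ := good_of h
    refine ⟨S, Θ, h1, fam_of (fun e he => (cutc_eq k y ω e he).symm) h3, ?_⟩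
    have hN : 0 < N := Nat.pos_of_ne_zero (NeZero.ne N)
    have : 0 < a' * (N : ℝ) ^ k := by positivity
    exact ((ENNReal.ofReal_lt_ofReal_iff this).1 h4).le
  obtain ⟨Θ, h1, h2, h3⟩ := hg.choose_spec
  have : TT ρ a' k y ω = hg.choose := by
    unfold TT
    rw [dif_pos hg]
  rw [this]
  exact ⟨Θ, h1, fam_of (cutc_eq k y ω) h2, h3⟩

omit [NeZero N] in
/-- Markov for countings -/
theorem markov (c : ℕ → ℝ) (B : Finset (V N)) (E : V N → Set (Cf N)) (δ t : ℝ)
    (ht : 0 < t) (hE : ∀ u ∈ B, PP N c (E u) ≤ ENNReal.ofReal δ) (Q : Set (Cf N))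
    (hQ : ∀ ω ∈ Q, ∃ S ⊆ B, t ≤ (S.card : ℝ) ∧ ∀ u ∈ S, ω ∈ E u) :
    PP N c Q ≤ ENNReal.ofReal (B.card * δ / t) := by
  classical
  obtain ⟨H, hH⟩ : ∃ H : V N → Set (Cf N), H = fun u => toMeasurable (PP N c) (E u) := ⟨_, rfl⟩
  have hHm : ∀ u, MeasurableSet (H u) := fun u => by
    rw [hH]; exact measurableSet_toMeasurable _ _
  have hHs : ∀ u, E u ⊆ H u := fun u => by
    rw [hH]; exact subset_toMeasurable _ _
  have hHe : ∀ u ∈ B, PP N c (H u) ≤ ENNReal.ofReal δ := fun u hu => by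
    rw [hH]
    exact (measure_toMeasurable _).trans_le (hE u hu)
  have h1 : Q ⊆ {ω | ENNReal.ofReal t ≤ ∑ u ∈ B, (H u).indicator (fun _ => (1 : ℝ≥0∞)) ω} := by
    intro ω hω
    obtain ⟨S, hS, h2, h3⟩ := hQ ω hω
    show ENNReal.ofReal t ≤ ∑ u ∈ B, (H u).indicator (fun _ => (1 : ℝ≥0∞)) ω
    calc ENNReal.ofReal t ≤ ENNReal.ofReal (S.card : ℝ) := ENNReal.ofReal_le_ofReal h2
      _ = (S.card : ℝ≥0∞) := ENNReal.ofReal_natCast _
      _ = ∑ u ∈ S, (H u).indicator (fun _ => (1 : ℝ≥0∞)) ω := by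
          rw [Finset.sum_congr rfl fun u hu =>
            Set.indicator_of_mem (hHs u (h3 u hu)) (fun _ => (1 : ℝ≥0∞))]
          simp
      _ ≤ _ := Finset.sum_le_sum_of_subset hS
  have hm : Measurable fun ω => ∑ u ∈ B, (H u).indicator (fun _ => (1 : ℝ≥0∞)) ω :=
    Finset.measurable_sum _ fun u _ => measurable_const.indicator (hHm u)
  have ht0 : ENNReal.ofReal t ≠ 0 := (ENNReal.ofReal_pos.2 ht).ne'
  calc PP N c Q ≤ PP N c {ω | ENNReal.ofReal t ≤
        ∑ u ∈ B, (H u).indicator (fun _ => (1 : ℝ≥0∞)) ω} := measure_mono h1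
    _ ≤ (∫⁻ ω, ∑ u ∈ B, (H u).indicator (fun _ => (1 : ℝ≥0∞)) ω ∂(PP N c)) / ENNReal.ofReal t :=
        meas_ge_le_lintegral_div hm.aemeasurable ht0 ENNReal.ofReal_ne_top
    _ ≤ (B.card * ENNReal.ofReal δ) / ENNReal.ofReal t := by
        refine ENNReal.div_le_div_right ?_ _
        rw [lintegral_finsetSum _ fun u _ => measurable_const.indicator (hHm u)]
        calc ∑ u ∈ B, ∫⁻ ω, (H u).indicator (fun _ => (1 : ℝ≥0∞)) ω ∂(PP N c)
            = ∑ u ∈ B, PP N c (H u) := Finset.sum_congr rfl fun u _ => by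
              rw [lintegral_indicator_const (hHm u), one_mul]
          _ ≤ ∑ u ∈ B, ENNReal.ofReal δ := Finset.sum_le_sum hHe
          _ = _ := by rw [Finset.sum_const, nsmul_eq_mul]
    _ = ENNReal.ofReal (B.card * δ / t) := by
        rw [ENNReal.ofReal_div_of_pos ht, ENNReal.ofReal_mul (Nat.cast_nonneg _),
          ENNReal.ofReal_natCast]

omit [NeZero N] in
theorem dist_single (k : ℕ) (x : V N) (hN : 2 ≤ N) :
    dist x (x + Finsupp.single k 1) = k + 1 := by
  have : Fact (1 < N) := ⟨hN⟩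
  apply le_antisymm
  · rw [dist_le]
    intro i hi
    rw [Finsupp.add_apply, Finsupp.single_apply, if_neg (by omega), add_zero]
  · by_contra hcon
    have h1 : dist x (x + Finsupp.single k 1) ≤ k := by omega
    rw [dist_le] at h1
    have h2 := h1 k le_rfl
    rw [Finsupp.add_apply, Finsupp.single_eq_same] at h2
    have h3 : (1 : ZMod N) = 0 := by
      have := h2.symm
      rwa [add_eq_left] at this
    exact one_ne_zero h3

omit [NeZero N] in
theorem c_small (c : ℕ → ℝ) (A : ℝ) (hN : 2 ≤ N) (hA : Adm N c A) :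
    ∃ k1 : ℕ, ∀ k, k1 ≤ k → c (k + 1) ≤ (N : ℝ) ^ (2 * (k + 1)) := by
  have h1 := (hA.summ 0).tendsto_atTop_zero
  have h2 := (h1.eventually (eventually_lt_nhds one_pos))
  obtain ⟨k1, hk1⟩ := eventually_atTop.1 h2
  refine ⟨k1, fun k hk => ?_⟩
  have h3 := hk1 k hk
  have hN1 : (1 : ℝ) ≤ N := by exact_mod_cast (by omega : 1 ≤ N)
  have h4 : (0 : ℝ) < (N : ℝ) ^ (k + 1) := by positivity
  rw [div_lt_one h4, zero_add, add_comm 1 k] at h3
  have hc : 0 < c (k + 1) := hA.pos _ (by omega)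
  have h5 : c (k + 1) * 1 ≤ c (k + 1) * ((k : ℝ) + 1) ^ 2 := by
    refine mul_le_mul_of_nonneg_left ?_ hc.le
    have : (0 : ℝ) ≤ k := Nat.cast_nonneg k
    nlinarith
  have h6 : (N : ℝ) ^ (k + 1) ≤ (N : ℝ) ^ (2 * (k + 1)) :=
    pow_le_pow_right₀ hN1 (by omega)
  linarith

end LastL

open LastL MeasureTheory Filter Topology in
open scoped ENNReal NNReal in
/-- **LAST** -/
theorem last : S_TI → S_MEAS → S_LF → S_REC2 → S_RCMP → S_HEAVY → S_MZ → S_CONN → S_SCON →
    S_CNT → S_LAST := by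
  classical
  intro hTI hMEAS hLF hREC2 hRCMP hHEAVY hMZ hCONN hSCON hCNT N _ c A hN hA hLev x
  have hN0 : (0 : ℝ) < N := by exact_mod_cast (by omega : 0 < N)
  have hN1 : (1 : ℝ) < N := by exact_mod_cast (by omega : 1 < N)
  have main : ∀ ε : ℝ, 0 < ε → PP N c (U x) ≤ ENNReal.ofReal (5 * ε) := by
    intro ε hε
    obtain ⟨ρ, hρ, a, ha, hlev⟩ := hLev ε hε
    obtain ⟨a', ha'⟩ : ∃ a', a' = a / ε + 1 := ⟨_, rfl⟩
    have ha'0 : 0 < a' := by rw [ha']; positivity
    have ha'1 : a ≤ ε * a' := by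
      rw [ha', mul_add, mul_div_cancel₀ _ hε.ne', mul_one]
      linarith
    obtain ⟨κ, hκ⟩ : ∃ κ, κ = ρ / (2 * a') := ⟨_, rfl⟩
    have hκ0 : 0 < κ := by rw [hκ]; positivity
    have hκ1 : κ * a' = ρ / 2 := by rw [hκ]; field_simp
    obtain ⟨M, hM⟩ : ∃ M, M = (N : ℝ) ^ 2 / (ρ * ε) := ⟨_, rfl⟩
    have hM0 : 0 < M := by rw [hM]; positivity
    have hM1 : M * ρ / (N : ℝ) ^ 2 = 1 / ε := by rw [hM]; field_simp
    have hM2 : Real.exp (-(M * ρ / (N : ℝ) ^ 2)) ≤ ε := by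
      rw [hM1, Real.exp_neg]
      refine inv_le_of_inv_le₀ hε ?_
      rw [← one_div]
      have := Real.add_one_le_exp (1 / ε)
      linarith
    obtain ⟨j, hj⟩ := exists_j hTI hLF hREC2 hMZ c A hN hA κ (ε * ρ / 2) hκ0 (by positivity)
    obtain ⟨k0, hk0⟩ := hHEAVY N c A hN hA M ε hM0 hε
    obtain ⟨k1, hk1⟩ := c_small c A hN hA
    obtain ⟨k2, hk2⟩ : ∃ k2 : ℕ, ∀ k, k2 ≤ k → 2 * (N : ℝ) ^ j ≤ ρ * (N : ℝ) ^ k := by
      have h1 := tendsto_pow_atTop_atTop_of_one_lt hN1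
      obtain ⟨k2, hk2⟩ := eventually_atTop.1 (h1.eventually_ge_atTop (2 * (N : ℝ) ^ j / ρ))
      refine ⟨k2, fun k hk => ?_⟩
      have := hk2 k hk
      rw [div_le_iff₀ hρ] at this
      linarith
    obtain ⟨k, hk, hL⟩ := hlev (max k0 (max k1 k2))
    have hkk0 : k0 ≤ k := (le_max_left _ _).trans hk
    have hkk1 : k1 ≤ k := (le_max_left _ _).trans ((le_max_right _ _).trans hk)
    have hkk2 : k2 ≤ k := (le_max_right _ _).trans ((le_max_right _ _).trans hk)
    obtain ⟨y, hy⟩ : ∃ y : V N, y = x + Finsupp.single k 1 := ⟨_, rfl⟩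
    have hxy : dist x y = k + 1 := by rw [hy]; exact dist_single k x hN
    have hNk : 0 < (N : ℝ) ^ k := by positivity
    obtain ⟨E, hE1, hE2, hE3, hE4, hE5⟩ := hL y
    obtain ⟨T, hT⟩ : ∃ T, T = TT ρ a' k y := ⟨_, rfl⟩
    have hcn := hCONN N c A hN hA ρ M k x y T hρ hM0 (hk1 k hkk1) hxy
      (by rw [hT]; exact TT_dep ρ a' k y) (by rw [hT]; exact TT_sub ρ a' k y)
    -- the exceptional events
    obtain ⟨B1, hB1⟩ : ∃ B1 : Set (Cf N), B1 = {ω | ¬ ∀ x, ((G ω).neighborSet x).Finite} :=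
      ⟨_, rfl⟩
    have pB1 : PP N c B1 = 0 := by rw [hB1]; exact ae_iff.1 (hLF N c A hN hA)
    obtain ⟨B2, hB2⟩ : ∃ B2 : Set (Cf N), B2 = {ω | InfC (G ω) x} ∩ light c k M x := ⟨_, rfl⟩
    have pB2 : PP N c B2 ≤ ENNReal.ofReal ε := by rw [hB2]; exact hk0 k hkk0 x
    obtain ⟨B3, hB3⟩ : ∃ B3 : Set (Cf N), B3 = E ∩ {ω | ENNReal.ofReal (a' * (N : ℝ) ^ k) ≤
      QQ ρ k y ω} := ⟨_, rfl⟩
    have hQm : Measurable (QQ ρ k y) :=
      hMEAS.2 N (ins k y) ℝ≥0∞ _ (hMEAS.1 N k y) fun ω ω' h => qq_congr ρ h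
    have pB3 : PP N c B3 ≤ ENNReal.ofReal ε := by
      have h1 : ENNReal.ofReal (a' * (N : ℝ) ^ k) ≠ 0 :=
        (ENNReal.ofReal_pos.2 (by positivity)).ne'
      have h2 := meas_ge_le_lintegral_div (μ := (PP N c).restrict E) (f := QQ ρ k y)
        hQm.aemeasurable h1 ENNReal.ofReal_ne_top
      have h3 : PP N c B3 = ((PP N c).restrict E) {ω | ENNReal.ofReal (a' * (N : ℝ) ^ k) ≤
          QQ ρ k y ω} := by
        rw [Measure.restrict_apply (measurableSet_le measurable_const hQm), hB3, Set.inter_comm]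
      rw [h3]
      refine h2.trans ?_
      refine (ENNReal.div_le_div_right hE5 _).trans ?_
      rw [← ENNReal.ofReal_div_of_pos (by positivity)]
      refine ENNReal.ofReal_le_ofReal ?_
      rw [div_le_iff₀ (by positivity), ← mul_assoc]
      exact mul_le_mul_of_nonneg_right ha'1 hNk.le
    obtain ⟨B4, hB4⟩ : ∃ B4 : Set (Cf N), B4 = {ω | ω ∉ light c k M x ∧
      ρ * (N : ℝ) ^ k ≤ (T ω).card ∧ ∀ u ∈ clu ω k x, ∀ v ∈ T ω, ω s(u, v) = false} := ⟨_, rfl⟩
    have pB4 : PP N c B4 ≤ ENNReal.ofReal ε := by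
      rw [hB4]; exact hcn.trans (ENNReal.ofReal_le_ofReal hM2)
    obtain ⟨B5, hB5⟩ : ∃ B5 : Set (Cf N), B5 = {ω | ∃ S ⊆ ball k y,
      ρ / 2 * (N : ℝ) ^ k ≤ (S.card : ℝ) ∧ ∀ u ∈ S, ω ∈ U u \ Zs j κ u} := ⟨_, rfl⟩
    have pB5 : PP N c B5 ≤ ENNReal.ofReal ε := by
      have h1 := markov c (ball k y) (fun u => U u \ Zs j κ u) (ε * ρ / 2)
        (ρ / 2 * (N : ℝ) ^ k) (by positivity) (fun u _ => hj u) B5
        (by rw [hB5]; exact fun ω hω => hω)
      refine h1.trans (ENNReal.ofReal_le_ofReal ?_)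
      rw [card_ball]
      push_cast
      rw [div_le_iff₀ (by positivity)]
      apply le_of_eq
      ring
    have hsub : U x ⊆ B1 ∪ (B2 ∪ (Eᶜ ∪ (B3 ∪ (B4 ∪ B5)))) := by
      intro ω hω
      by_contra hcon
      simp only [Set.mem_union, not_or, Set.mem_compl_iff, not_not] at hcon
      obtain ⟨n1, n2, n3, n4, n5, n6⟩ := hcon
      rw [hB1] at n1
      rw [hB2] at n2
      rw [hB3] at n4
      rw [hB4] at n5
      have hfin : ∀ x, ((G ω).neighborSet x).Finite := not_not.1 n1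
      have hlight : ω ∉ light c k M x := fun h => n2 ⟨hω.1, h⟩
      have hQ : QQ ρ k y ω < ENNReal.ofReal (a' * (N : ℝ) ^ k) := by
        by_contra h
        exact n4 ⟨n3, not_lt.1 h⟩
      obtain ⟨Θ, t1, t2, t3⟩ := TT_spec ρ a' k y ω ha'0 hQ
      rw [← hT] at t1 t2 t3
      obtain ⟨u, hu, v, hv, huv⟩ : ∃ u ∈ clu ω k x, ∃ v ∈ T ω, ω s(u, v) = true := by
        by_contra hcon
        push Not at hcon
        apply n5
        refine ⟨hlight, t1, fun u hu v hv => ?_⟩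
        have := hcon u hu v hv
        simpa using this
      have huB : u ∈ ball k x ∧ (G ω).Reachable x u := by
        unfold clu at hu
        rw [Finset.mem_filter] at hu
        refine ⟨hu.1, ?_⟩
        have hle : GW ω (ball k x : Set (V N)) ≤ G ω := fun a b hab => hab.1
        exact hu.2.mono hle
      have hvB : v ∈ ball k y := by
        have := t2.sub hv
        exact this
      have hne : u ≠ v := by
        rintro rfl
        have h1 := mem_ball.1 huB.1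
        have h2 := mem_ball.1 hvB
        have h3 := dist_ultra x u y
        rw [dist_comm u y] at h3
        have := max_le h1 h2
        omega
      have hxv : (G ω).Reachable x v := huB.2.trans (SimpleGraph.Adj.reachable ⟨hne, huv⟩)
      have hall : ∀ w ∈ T ω, ω ∈ U w := by
        intro w hw
        have hxw : (G ω).Reachable x w := hxv.trans (hSCON _ _ _ _ _ t2 v hv w hw)
        refine ⟨?_, hRCMP _ _ x w hfin hω.2 hxw⟩
        have h1 : {z | (G ω).Reachable w z} = {z | (G ω).Reachable x z} := by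
          ext z
          exact ⟨fun h => hxw.trans h, fun h => hxw.symm.trans h⟩
        show {z | (G ω).Reachable w z}.Infinite
        rw [h1]
        exact hω.1
      have hcard : 2 * N ^ j ≤ (T ω).card := by
        have := (hk2 k hkk2).trans t1
        exact_mod_cast this
      have hcnt := hCNT N κ a' j k y ω (T ω) Θ hκ0 t2 t3 hcard
      apply n6
      rw [hB5]
      refine ⟨(T ω).filter fun u => ω ∉ Zs j κ u, (Finset.filter_subset _ _).trans t2.sub, ?_,
        fun u hu => ?_⟩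
      · have h1 := Finset.card_filter_add_card_filter_not (s := T ω) (fun u => ω ∈ Zs j κ u)
        have h2 : (((T ω).filter fun u => ω ∈ Zs j κ u).card : ℝ) +
            (((T ω).filter fun u => ω ∉ Zs j κ u).card : ℝ) = (T ω).card := by
          exact_mod_cast h1
        rw [hκ1] at hcnt
        linarith
      · rw [Finset.mem_filter] at hu
        exact ⟨hall u hu.1, hu.2⟩
    calc PP N c (U x) ≤ PP N c (B1 ∪ (B2 ∪ (Eᶜ ∪ (B3 ∪ (B4 ∪ B5))))) := measure_mono hsub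
      _ ≤ PP N c B1 + (PP N c B2 + (PP N c Eᶜ + (PP N c B3 + (PP N c B4 + PP N c B5)))) := by
          refine (measure_union_le _ _).trans (add_le_add le_rfl ?_)
          refine (measure_union_le _ _).trans (add_le_add le_rfl ?_)
          refine (measure_union_le _ _).trans (add_le_add le_rfl ?_)
          refine (measure_union_le _ _).trans (add_le_add le_rfl ?_)
          exact measure_union_le _ _
      _ ≤ 0 + (ENNReal.ofReal ε + (ENNReal.ofReal ε + (ENNReal.ofReal ε + (ENNReal.ofReal ε +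
          ENNReal.ofReal ε)))) :=
          add_le_add pB1.le (add_le_add pB2 (add_le_add hE4 (add_le_add pB3 (add_le_add pB4 pB5))))
      _ = ENNReal.ofReal (5 * ε) := by
          rw [zero_add, ← ENNReal.ofReal_add hε.le hε.le,
            ← ENNReal.ofReal_add hε.le (by positivity), ← ENNReal.ofReal_add hε.le (by positivity),
            ← ENNReal.ofReal_add hε.le (by positivity)]
          congr 1
          ring
  have h0 : PP N c (U x) ≤ 0 := by
    refine ENNReal.le_of_forall_pos_le_add fun ε hε _ => ?_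
    rw [zero_add]
    have h1 := main ((ε : ℝ) / 5) (by positivity)
    have h2 : ENNReal.ofReal (5 * ((ε : ℝ) / 5)) = (ε : ℝ≥0∞) := by
      rw [mul_div_cancel₀ _ (by norm_num : (5 : ℝ) ≠ 0), ENNReal.ofReal_coe_nnreal]
    rw [h2] at h1
    exact h1
  exact nonpos_iff_eq_zero.1 h0

end Pool.Agent.Helper98K9.HP
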