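import Pool.Agent.Helper98K9.HP.Clo

set_option autoImplicit false

namespace Pool.Agent.Helper98K9.HP

open MeasureTheory ProbabilityTheory Filter Topology
open scoped ENNReal NNReal

namespace LfL

variable {N : ℕ} [NeZero N]

open Classical in
/-- sum over all points of a function of the distance -/
theorem tsum_dist_le (x : V N) (f : ℕ → ℝ≥0∞) :
    ∑' y : V N, f (dist x y) ≤ ∑' k : ℕ, (N : ℝ≥0∞) ^ k * f k := by
  have h1 : ∀ y : V N, f (dist x y) ≤ ∑' k : ℕ, (if y ∈ ball k x then f k else 0) := by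
    intro y
    refine le_trans ?_ (ENNReal.le_tsum (dist x y))
    rw [if_pos (mem_ball.2 le_rfl)]
  refine (ENNReal.tsum_le_tsum h1).trans ?_
  rw [ENNReal.tsum_comm]
  apply ENNReal.tsum_le_tsum
  intro k
  rw [tsum_eq_sum (s := ball k x) (fun y hy => if_neg hy)]
  rw [Finset.sum_congr rfl (fun y hy => if_pos hy), Finset.sum_const, card_ball, nsmul_eq_mul]
  push_cast
  exact le_rfl

theorem pr_le_ofReal (c : ℕ → ℝ) (k : ℕ) :
    (pr N c k : ℝ≥0∞) ≤ ENNReal.ofReal (c k / (N : ℝ) ^ (2 * k)) := by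
  unfold pr
  rw [ENNReal.ofReal]
  exact_mod_cast min_le_left _ _

theorem tsum_pr_ne_top {c : ℕ → ℝ} {A : ℝ} (hc : Adm N c A) (x : V N) :
    ∑' y : V N, (prE N c s(x, y) : ℝ≥0∞) ≠ ∞ := by
  have hN0 : (0 : ℝ) < N := Nat.cast_pos.2 (Nat.pos_of_ne_zero (NeZero.ne N))
  have h1 := tsum_dist_le x (fun k => (pr N c k : ℝ≥0∞))
  have h2 : ∑' k : ℕ, (N : ℝ≥0∞) ^ k * (pr N c k : ℝ≥0∞) ≠ ∞ := by
    rw [tsum_eq_zero_add' ENNReal.summable]
    apply ENNReal.add_ne_top.2
    refine ⟨by simp, ?_⟩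
    have h3 : ∀ r : ℕ, (N : ℝ≥0∞) ^ (r + 1) * (pr N c (r + 1) : ℝ≥0∞) ≤
        ENNReal.ofReal (c (0 + 1 + r) * ((r : ℝ) + 1) ^ 2 / (N : ℝ) ^ (r + 1)) := by
      intro r
      have hp := hc.pos (r + 1) (by omega)
      calc (N : ℝ≥0∞) ^ (r + 1) * (pr N c (r + 1) : ℝ≥0∞)
          ≤ (N : ℝ≥0∞) ^ (r + 1) * ENNReal.ofReal (c (r + 1) / (N : ℝ) ^ (2 * (r + 1))) := by
            gcongr
            exact pr_le_ofReal c (r + 1)
        _ = ENNReal.ofReal ((N : ℝ) ^ (r + 1) * (c (r + 1) / (N : ℝ) ^ (2 * (r + 1)))) := by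
            rw [ENNReal.ofReal_mul (by positivity), ENNReal.ofReal_pow hN0.le,
              ENNReal.ofReal_natCast]
        _ ≤ _ := by
            apply ENNReal.ofReal_le_ofReal
            rw [show 0 + 1 + r = r + 1 by ring]
            have h4 : (N : ℝ) ^ (r + 1) * (c (r + 1) / (N : ℝ) ^ (2 * (r + 1))) =
                c (r + 1) / (N : ℝ) ^ (r + 1) := by
              rw [show 2 * (r + 1) = (r + 1) + (r + 1) by ring, pow_add]
              field_simp
              ring
            rw [h4]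
            apply div_le_div_of_nonneg_right _ (by positivity)
            have h5 : (1 : ℝ) ≤ ((r : ℝ) + 1) ^ 2 := by
              have : (0 : ℝ) ≤ r := Nat.cast_nonneg r
              nlinarith
            nlinarith
    refine ne_top_of_le_ne_top ?_ (ENNReal.tsum_le_tsum h3)
    rw [← ENNReal.ofReal_tsum_of_nonneg]
    · exact ENNReal.ofReal_ne_top
    · intro r
      have hp := hc.pos (0 + 1 + r) (by omega)
      positivity
    · exact hc.summ 0
  exact ne_top_of_le_ne_top h2 h1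

end LfL

theorem lf : S_LF := by
  intro N _ c A hN hc
  rw [ae_all_iff]
  intro x
  have h := ae_finite_setOfPred_mem (μ := PP N c) (s := fun y : V N => {ω | ω s(x, y) = true}) (by
    simp only [CloL.open_one]
    exact LfL.tsum_pr_ne_top hc x)
  filter_upwards [h] with ω hω
  refine hω.subset ?_
  intro y hy
  exact hy.2

end Pool.Agent.Helper98K9.HP
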