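import Pool.Agent.Helper98K9.HP.Heavy

set_option autoImplicit false

namespace Pool.Agent.Helper98K9.HP

open MeasureTheory ProbabilityTheory Filter Topology
open scoped ENNReal NNReal

namespace LlnL

variable {N : ℕ} [NeZero N]

theorem ins_eq {k : ℕ} {x y : V N} (h : y ∈ ball k x) : ins k y = ins k x := by
  have h1 : ball k x = ball k y := ball_eq (mem_ball.1 h)
  unfold ins
  rw [h1]

theorem ins_disj {k l : ℕ} {x z z' : V N} (hz : z ∈ subs k l x) (hz' : z' ∈ subs k l x)
    (hne : z ≠ z') : Disjoint (ins k z) (ins k z') := by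
  rw [Set.disjoint_left]
  intro e
  induction e using Sym2.ind with
  | _ u v =>
    intro he he'
    exact Finset.disjoint_left.1 (subs_disjoint hz hz' hne) (he u (Sym2.mem_mk_left u v))
      (he' u (Sym2.mem_mk_left u v))

theorem Hv_dep (c : ℕ → ℝ) (k : ℕ) (M : ℝ) (z : V N) :
    Dep (ins k z) (fun ω => ((Hv c ω k M z).card : ℝ)) := by
  classical
  intro ω ω' h
  show ((Hv c ω k M z).card : ℝ) = ((Hv c ω' k M z).card : ℝ)
  have : Hv c ω k M z = Hv c ω' k M z := by
    unfold Hv
    apply Finset.filter_congr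
    intro u hu
    have h1 := EscL.light_dep c k M u ω ω' (by rwa [ins_eq hu])
    simp only [eq_iff_iff] at h1
    rw [h1]
  rw [this]

theorem Hv_le (c : ℕ → ℝ) (k : ℕ) (M : ℝ) (z : V N) (ω : Cf N) :
    ((Hv c ω k M z).card : ℝ) ≤ (N : ℝ) ^ k := by
  classical
  have h : (Hv c ω k M z).card ≤ N ^ k := by
    rw [← card_ball k z]
    exact Finset.card_le_card (Finset.filter_subset _ _)
  exact_mod_cast h

end LlnL

open LlnL in
/-- [LLN] -/
theorem lln (hmix : S_MIX) (hmeas : S_MEAS) (hti : S_TI) (hheavy : S_HEAVY) : S_LLN := by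
  classical
  intro N _ c A h2 hA θ M hθ hM hθ' l
  obtain ⟨k0, hk0⟩ := hheavy N c A h2 hA M (θ / 2) hM (by positivity)
  refine ⟨k0, fun k hk x => ?_⟩
  have hN : (0 : ℝ) < N := by exact_mod_cast Nat.pos_of_ne_zero (NeZero.ne N)
  set Y : V N → Cf N → ℝ := fun z ω => ((Hv c ω k M z).card : ℝ) with hY
  have hYm : ∀ z, Measurable (Y z) := fun z =>
    hmeas.2 N (ins k z) ℝ (Y z) (hmeas.1 N k z) (Hv_dep c k M z)
  have hYI : ∀ z, ∀ ω, Y z ω ∈ Set.Icc (0 : ℝ) ((N : ℝ) ^ k) := fun z ω =>
    ⟨Nat.cast_nonneg _, Hv_le c k M z ω⟩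
  have hYL : ∀ z, MemLp (Y z) 2 (PP N c) := fun z =>
    memLp_of_bounded (Eventually.of_forall (hYI z)) (hYm z).aestronglyMeasurable 2
  have hind : Set.Pairwise (subs k l x : Set (V N)) fun i j => IndepFun (Y i) (Y j) (PP N c) := by
    intro z hz z' hz' hne
    rw [Finset.mem_coe] at hz hz'
    rw [indepFun_iff_measure_inter_preimage_eq_mul]
    intro s t hs ht
    apply IndfL.two hmix c (ins_disj hz hz' hne)
    · intro ω ω' h
      have := Hv_dep c k M z ω ω' h
      simp only at this
      show (Y z ω ∈ s) = (Y z ω' ∈ s)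
      rw [hY]
      simp only [this]
    · intro ω ω' h
      have := Hv_dep c k M z' ω ω' h
      simp only at this
      show (Y z' ω ∈ t) = (Y z' ω' ∈ t)
      rw [hY]
      simp only [this]
    · exact hYm z hs
    · exact hYm z' ht
  -- the variance
  have hvar : variance (∑ z ∈ subs k l x, Y z) (PP N c) ≤ (N : ℝ) ^ l * ((N : ℝ) ^ k) ^ 2 := by
    rw [IndepFun.variance_sum (fun z _ => hYL z) hind]
    calc ∑ z ∈ subs k l x, variance (Y z) (PP N c)
        ≤ ∑ _z ∈ subs k l x, ((N : ℝ) ^ k) ^ 2 := by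
          apply Finset.sum_le_sum
          intro z _
          refine (variance_le_sq_of_bounded (Eventually.of_forall (hYI z))
            (hYm z).aemeasurable).trans ?_
          have : (0 : ℝ) ≤ ((N : ℝ) ^ k) ^ 2 := by positivity
          nlinarith
      _ = (N : ℝ) ^ l * ((N : ℝ) ^ k) ^ 2 := by
          rw [Finset.sum_const, card_subs, nsmul_eq_mul]
          push_cast
          rfl
  -- the mean
  have hlight : ∀ u : V N, θ / 2 ≤ (PP N c).real (light c k M u)ᶜ := by
    intro u
    have h3 := HeavyL.inf_eq hti c u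
    have h4 := hk0 k hk u
    have h5 : PP N c {ω | InfC (G ω) u} ≤
        PP N c ({ω | InfC (G ω) u} ∩ light c k M u) + PP N c (light c k M u)ᶜ := by
      refine le_trans (measure_mono ?_) (measure_union_le _ _)
      intro ω hω
      by_cases h : ω ∈ light c k M u
      · exact Or.inl ⟨hω, h⟩
      · exact Or.inr h
    rw [h3] at h5
    have h6 : ENNReal.ofReal θ ≤ ENNReal.ofReal (θ / 2) + PP N c (light c k M u)ᶜ :=
      hθ'.trans (h5.trans (by gcongr))
    have h7 : PP N c (light c k M u)ᶜ = ENNReal.ofReal ((PP N c).real (light c k M u)ᶜ) :=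
      (ENNReal.ofReal_toReal (measure_ne_top _ _)).symm
    rw [h7, ← ENNReal.ofReal_add (by positivity) measureReal_nonneg,
      ENNReal.ofReal_le_ofReal_iff (by positivity)] at h6
    linarith
  have hmean : ∀ z, θ / 2 * (N : ℝ) ^ k ≤ ∫ ω, Y z ω ∂(PP N c) := by
    intro z
    have h3 : ∀ ω, Y z ω = ∑ u ∈ ball k z, Set.indicator (light c k M u)ᶜ (1 : Cf N → ℝ) ω := by
      intro ω
      show ((Hv c ω k M z).card : ℝ) = _
      unfold Hv
      rw [Finset.card_filter]
      push_cast
      apply Finset.sum_congr rfl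
      intro u _
      by_cases h : ω ∈ light c k M u
      · rw [if_neg (not_not.2 h), Set.indicator_of_notMem (by simpa using h)]
      · rw [if_pos h, Set.indicator_of_mem (by simpa using h)]
        rfl
    simp_rw [h3]
    rw [integral_finsetSum]
    · calc θ / 2 * (N : ℝ) ^ k = ∑ _u ∈ ball k z, θ / 2 := by
            rw [Finset.sum_const, card_ball, nsmul_eq_mul]
            push_cast
            ring
        _ ≤ _ := by
            apply Finset.sum_le_sum
            intro u _
            rw [integral_indicator_one (HeavyL.meas_light hmeas c k M u).compl]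
            exact hlight u
    · intro u _
      exact (integrable_const (1 : ℝ)).indicator (HeavyL.meas_light hmeas c k M u).compl
  have hint : ∀ z ∈ subs k l x, Integrable (Y z) (PP N c) := fun z _ =>
    (hYL z).integrable (by norm_num)
  have hmean2 : θ / 2 * (N : ℝ) ^ (k + l) ≤ ∫ ω, (∑ z ∈ subs k l x, Y z) ω ∂(PP N c) := by
    simp_rw [Finset.sum_apply]
    rw [integral_finsetSum _ hint]
    calc θ / 2 * (N : ℝ) ^ (k + l) = ∑ _z ∈ subs k l x, θ / 2 * (N : ℝ) ^ k := by
          rw [Finset.sum_const, card_subs, nsmul_eq_mul]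
          push_cast
          rw [pow_add]
          ring
      _ ≤ _ := Finset.sum_le_sum fun z _ => hmean z
  have hL : MemLp (∑ z ∈ subs k l x, Y z) 2 (PP N c) := memLp_finsetSum' _ fun z _ => hYL z
  have hc : 0 < θ / 4 * (N : ℝ) ^ (k + l) := by positivity
  have hch := meas_ge_le_variance_div_sq hL hc
  refine le_trans (measure_mono ?_) (hch.trans (ENNReal.ofReal_le_ofReal ?_))
  · intro ω hω
    have hω' : (∑ z ∈ subs k l x, Y z) ω < θ / 4 * (N : ℝ) ^ (k + l) := by
      rw [Finset.sum_apply]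
      exact hω
    show θ / 4 * (N : ℝ) ^ (k + l) ≤ |(∑ z ∈ subs k l x, Y z) ω -
      ∫ ω, (∑ z ∈ subs k l x, Y z) ω ∂(PP N c)|
    rw [abs_sub_comm]
    refine le_trans ?_ (le_abs_self _)
    linarith
  · calc variance (∑ z ∈ subs k l x, Y z) (PP N c) / (θ / 4 * (N : ℝ) ^ (k + l)) ^ 2
        ≤ ((N : ℝ) ^ l * ((N : ℝ) ^ k) ^ 2) / (θ / 4 * (N : ℝ) ^ (k + l)) ^ 2 :=
          div_le_div_of_nonneg_right hvar (by positivity)
      _ = 16 / (θ ^ 2 * (N : ℝ) ^ l) := by
          rw [pow_add]
          field_simp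
          norm_num

end Pool.Agent.Helper98K9.HP
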