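import Pool.Agent.Helper98K9.HP.St

set_option autoImplicit false

namespace Pool.Agent.Helper98K9.HP

open MeasureTheory ProbabilityTheory Filter Topology
open scoped ENNReal NNReal

theorem meas : S_MEAS := by
  classical
  refine ⟨fun N _ k x => ?_, fun N _ D β _ F hD hF => ?_⟩
  · have h : ins k x ⊆ (fun p : V N × V N => s(p.1, p.2)) ''
        ((ball k x ×ˢ ball k x : Finset (V N × V N)) : Set (V N × V N)) := by
      intro e he
      induction e using Sym2.ind with
      | _ u v =>
        refine ⟨(u, v), ?_, rfl⟩
        rw [Finset.mem_coe, Finset.mem_product]
        exact ⟨he u (Sym2.mem_mk_left u v), he v (Sym2.mem_mk_right u v)⟩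
    exact ((Finset.finite_toSet _).image _).subset h
  · have : Finite D := hD
    have : Finite (D → Bool) := inferInstance
    let ext : (D → Bool) → Cf N := fun g e => if h : e ∈ D then g ⟨e, h⟩ else false
    let res : Cf N → (D → Bool) := fun ω e => ω e
    have hr : Measurable res := by
      rw [measurable_pi_iff]
      intro e
      exact measurable_pi_apply _
    have hE : F = (fun g => F (ext g)) ∘ res := by
      funext ω
      apply hF
      intro e he
      simp only [ext, res, dif_pos he]
    rw [hE]
    have hm : Measurable (fun g : D → Bool => F (ext g)) := measurable_of_finite _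
    exact hm.comp hr

end Pool.Agent.Helper98K9.HP
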