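import Pool.Agent.Helper98K9.HP.St

set_option autoImplicit false

namespace Pool.Agent.Helper98K9.HP

open MeasureTheory ProbabilityTheory Filter Topology
open scoped ENNReal NNReal

namespace MixL

open Classical in
theorem meas (N : ℕ) (D : Set (Ed N)) :
    Measurable (fun q : Cf N × Cf N => fun e : Ed N => if e ∈ D then q.1 e else q.2 e) := by
  rw [measurable_pi_iff]
  intro e
  by_cases he : e ∈ D
  · simp only [he, if_true]
    exact (measurable_pi_apply e).comp measurable_fst
  · simp only [he, if_false]
    exact (measurable_pi_apply e).comp measurable_snd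

end MixL

open Classical in
theorem mix : S_MIX := by
  intro N _ c D
  refine ⟨MixL.meas N D, ?_⟩
  unfold PP
  apply Measure.eq_infinitePi
  intro s t ht
  have hm : MeasurableSet ((s : Set (Ed N)).pi t) :=
    MeasurableSet.pi s.countable_toSet fun i _ => ht i
  rw [Measure.map_apply (MixL.meas N D) hm]
  have hpre : (fun q : Cf N × Cf N => fun e : Ed N => if e ∈ D then q.1 e else q.2 e) ⁻¹'
      ((s : Set (Ed N)).pi t) =
      (((s.filter (· ∈ D) : Finset (Ed N)) : Set (Ed N)).pi t) ×ˢ
        (((s.filter (· ∉ D) : Finset (Ed N)) : Set (Ed N)).pi t) := by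
    ext q
    simp only [Set.mem_preimage, Set.mem_pi, Finset.mem_coe, Set.mem_prod, Finset.mem_filter]
    constructor
    · intro h
      refine ⟨fun e he => ?_, fun e he => ?_⟩
      · have := h e he.1
        rwa [if_pos he.2] at this
      · have := h e he.1
        rwa [if_neg he.2] at this
    · intro h e he
      split_ifs with h1
      · exact h.1 e ⟨he, h1⟩
      · exact h.2 e ⟨he, h1⟩
  rw [hpre, Measure.prod_prod, Measure.infinitePi_pi _ (fun i _ => ht i),
    Measure.infinitePi_pi _ (fun i _ => ht i), ← Finset.prod_filter_mul_prod_filter_not s (· ∈ D)]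

end Pool.Agent.Helper98K9.HP
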