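import Pool.Agent.Helper98K9.HP.St2

set_option autoImplicit false

namespace Pool.Agent.Helper98K9.HP

open MeasureTheory ProbabilityTheory Filter Topology
open scoped ENNReal NNReal

namespace MzL

variable {N : ℕ} [NeZero N]

open Classical in
/-- the number of open edges from `x` to the complement of the ball -/
noncomputable def SS (j : ℕ) (u : V N) (ω : Cf N) (x : V N) : ℝ≥0∞ :=
  ∑' y, if y ∉ ball j u ∧ (G ω).Adj x y then 1 else 0

theorem meas_SS (j : ℕ) (u x : V N) : Measurable fun ω : Cf N => SS j u ω x := by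
  classical
  unfold SS
  refine Measurable.ennreal_tsum fun y => ?_
  have hs : MeasurableSet {ω : Cf N | y ∉ ball j u ∧ (G ω).Adj x y} := by
    have h1 : MeasurableSet {ω : Cf N | ω s(x, y) = true} :=
      measurableSet_eq_fun (measurable_pi_apply s(x, y)) measurable_const
    have h2 : {ω : Cf N | y ∉ ball j u ∧ (G ω).Adj x y} =
        {_ω : Cf N | y ∉ ball j u ∧ x ≠ y} ∩ {ω : Cf N | ω s(x, y) = true} := by
      ext ω
      constructor
      · rintro ⟨a, b, d⟩
        exact ⟨⟨a, b⟩, d⟩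
      · rintro ⟨⟨a, b⟩, d⟩
        exact ⟨a, b, d⟩
    rw [h2]
    exact (MeasurableSet.const _).inter h1
  exact Measurable.ite hs measurable_const measurable_const

open Classical in
theorem SS_encard (j : ℕ) (u x : V N) (ω : Cf N) :
    SS j u ω x = (({y | y ∉ ball j u ∧ (G ω).Adj x y} : Set (V N)).encard : ℝ≥0∞) := by
  rw [← ENNReal.tsum_set_one, tsum_subtype ({y | y ∉ ball j u ∧ (G ω).Adj x y} : Set (V N))
    (fun _ => (1 : ℝ≥0∞))]
  unfold SS
  refine tsum_congr fun y => ?_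
  by_cases h : y ∉ ball j u ∧ (G ω).Adj x y
  · rw [if_pos h, Set.indicator_of_mem (show y ∈ {y | y ∉ ball j u ∧ (G ω).Adj x y} from h)]
  · rw [if_neg h, Set.indicator_of_notMem (show y ∉ {y | y ∉ ball j u ∧ (G ω).Adj x y} from h)]

open Classical in
theorem energy_eq (j : ℕ) (u : V N) (ω : Cf N) (f : V N → ℝ)
    (hf : ∀ y, f y ≠ 0 → y ∈ ball j u) :
    energy (G ω) f = (∑' x, ∑' y, if (x ∈ ball j u ∧ y ∈ ball j u) ∧ (G ω).Adj x y then
      ENNReal.ofReal ((f x - f y) ^ 2) else 0) +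
      2 * ∑' x, if x ∈ ball j u then ENNReal.ofReal (f x ^ 2) * SS j u ω x else 0 := by
  have h0 : ∀ y, y ∉ ball j u → f y = 0 := fun y hy => by
    by_contra h
    exact hy (hf y h)
  have h1 : ∀ x y, (if (G ω).Adj x y then ENNReal.ofReal ((f x - f y) ^ 2) else 0) =
      (if (x ∈ ball j u ∧ y ∈ ball j u) ∧ (G ω).Adj x y then
        ENNReal.ofReal ((f x - f y) ^ 2) else 0) +
      ((if x ∈ ball j u then ENNReal.ofReal (f x ^ 2) *
        (if y ∉ ball j u ∧ (G ω).Adj x y then 1 else 0) else 0) +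
      (if y ∈ ball j u then ENNReal.ofReal (f y ^ 2) *
        (if x ∉ ball j u ∧ (G ω).Adj y x then 1 else 0) else 0)) := by
    intro x y
    have hs : (G ω).Adj y x ↔ (G ω).Adj x y := (G ω).adj_comm y x
    by_cases ha : (G ω).Adj x y
    · by_cases hx : x ∈ ball j u <;> by_cases hy : y ∈ ball j u
      · simp [ha, hx, hy]
      · simp [ha, hx, hy, h0 y hy]
      · simp [ha, hs, hx, hy, h0 x hx]
      · simp [ha, hx, hy, h0 x hx, h0 y hy]
    · simp [ha, hs]
  unfold energy
  simp only [h1]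
  rw [two_mul]
  have h2 : ∀ x, ∑' y, ((if (x ∈ ball j u ∧ y ∈ ball j u) ∧ (G ω).Adj x y then
        ENNReal.ofReal ((f x - f y) ^ 2) else 0) +
      ((if x ∈ ball j u then ENNReal.ofReal (f x ^ 2) *
        (if y ∉ ball j u ∧ (G ω).Adj x y then 1 else 0) else 0) +
      (if y ∈ ball j u then ENNReal.ofReal (f y ^ 2) *
        (if x ∉ ball j u ∧ (G ω).Adj y x then 1 else 0) else 0))) =
      (∑' y, (if (x ∈ ball j u ∧ y ∈ ball j u) ∧ (G ω).Adj x y then
        ENNReal.ofReal ((f x - f y) ^ 2) else 0)) +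
      ((∑' y, (if x ∈ ball j u then ENNReal.ofReal (f x ^ 2) *
        (if y ∉ ball j u ∧ (G ω).Adj x y then 1 else 0) else 0)) +
      ∑' y, (if y ∈ ball j u then ENNReal.ofReal (f y ^ 2) *
        (if x ∉ ball j u ∧ (G ω).Adj y x then 1 else 0) else 0)) := by
    intro x
    rw [ENNReal.tsum_add, ENNReal.tsum_add]
  simp only [h2]
  rw [ENNReal.tsum_add, ENNReal.tsum_add]
  have h3 : ∀ x, (∑' y, (if x ∈ ball j u then ENNReal.ofReal (f x ^ 2) *
        (if y ∉ ball j u ∧ (G ω).Adj x y then 1 else 0) else 0)) =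
      if x ∈ ball j u then ENNReal.ofReal (f x ^ 2) * SS j u ω x else 0 := by
    intro x
    by_cases hx : x ∈ ball j u
    · simp only [if_pos hx]
      rw [ENNReal.tsum_mul_left]
      rfl
    · simp only [if_neg hx, tsum_zero]
  rw [ENNReal.tsum_comm (f := fun x y => (if y ∈ ball j u then ENNReal.ofReal (f y ^ 2) *
        (if x ∉ ball j u ∧ (G ω).Adj y x then 1 else 0) else 0))]
  simp only [h3]

end MzL

open MzL

theorem mz : S_MZ := by
  classical
  intro N _ j κ u
  -- the countable space of values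
  let T : Type := ({e : Ed N // e ∈ ins j u} → Bool) × ({x : V N // x ∈ ball j u} → ℕ∞)
  have hfin : (ins j u).Finite := by
    have h : ins j u ⊆ (fun p : V N × V N => s(p.1, p.2)) ''
        ((ball j u ×ˢ ball j u : Finset (V N × V N)) : Set (V N × V N)) := by
      intro e he
      induction e using Sym2.ind with
      | _ a b =>
        refine ⟨(a, b), ?_, rfl⟩
        rw [Finset.mem_coe, Finset.mem_product]
        exact ⟨he a (Sym2.mem_mk_left a b), he b (Sym2.mem_mk_right a b)⟩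
    exact ((Finset.finite_toSet _).image _).subset h
  have hF : Finite {e : Ed N // e ∈ ins j u} := hfin
  have hT : Countable T := inferInstance
  let C : T → Set (Cf N) := fun v => {ω | (∀ e : {e : Ed N // e ∈ ins j u}, ω e = v.1 e) ∧
    ∀ x : {x : V N // x ∈ ball j u}, SS j u ω x = ((v.2 x : ℕ∞) : ℝ≥0∞)}
  have hCm : ∀ v, MeasurableSet (C v) := by
    intro v
    have h1 : MeasurableSet {ω : Cf N | ∀ e : {e : Ed N // e ∈ ins j u}, ω e = v.1 e} := by
      have : {ω : Cf N | ∀ e : {e : Ed N // e ∈ ins j u}, ω e = v.1 e} =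
          ⋂ e : {e : Ed N // e ∈ ins j u}, {ω : Cf N | ω e = v.1 e} := by
        ext ω; simp
      rw [this]
      exact MeasurableSet.iInter fun e =>
        measurableSet_eq_fun (measurable_pi_apply (e : Ed N)) measurable_const
    have h2 : MeasurableSet {ω : Cf N | ∀ x : {x : V N // x ∈ ball j u},
        SS j u ω x = ((v.2 x : ℕ∞) : ℝ≥0∞)} := by
      have : {ω : Cf N | ∀ x : {x : V N // x ∈ ball j u},
          SS j u ω x = ((v.2 x : ℕ∞) : ℝ≥0∞)} = ⋂ x : {x : V N // x ∈ ball j u},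
          {ω : Cf N | SS j u ω x = ((v.2 x : ℕ∞) : ℝ≥0∞)} := by
        ext ω; simp
      rw [this]
      exact MeasurableSet.iInter fun x => (meas_SS j u x) (measurableSet_singleton _)
    exact h1.inter h2
  have hcov : ∀ ω : Cf N, ∃ v : T, ω ∈ C v := by
    intro ω
    exact ⟨(fun e => ω e, fun x => ({y | y ∉ ball j u ∧ (G ω).Adj x y} : Set (V N)).encard),
      fun e => rfl, fun x => SS_encard j u x ω⟩
  have hinv : ∀ (v : T) (ω ω' : Cf N), ω ∈ C v → ω' ∈ C v → ω ∈ Zs j κ u → ω' ∈ Zs j κ u := by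
    rintro v ω ω' ⟨h1, h2⟩ ⟨h1', h2'⟩ ⟨f, hf, hfu, hf01, hfe⟩
    refine ⟨f, hf, hfu, hf01, ?_⟩
    rw [energy_eq j u ω' f hf]
    rw [energy_eq j u ω f hf] at hfe
    have hbit : ∀ x y, ((x ∈ ball j u ∧ y ∈ ball j u) ∧ (G ω').Adj x y) ↔
        ((x ∈ ball j u ∧ y ∈ ball j u) ∧ (G ω).Adj x y) := by
      intro x y
      refine and_congr_right fun hxy => ?_
      have hin : s(x, y) ∈ ins j u := by
        intro w hw
        rcases Sym2.mem_iff.1 hw with rfl | rfl
        · exact hxy.1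
        · exact hxy.2
      have e1 := h1 ⟨_, hin⟩
      have e2 := h1' ⟨_, hin⟩
      change (x ≠ y ∧ ω' s(x, y) = true) ↔ (x ≠ y ∧ ω s(x, y) = true)
      rw [e1, e2]
    have hss : ∀ x, (if x ∈ ball j u then ENNReal.ofReal (f x ^ 2) * SS j u ω' x else 0) =
        if x ∈ ball j u then ENNReal.ofReal (f x ^ 2) * SS j u ω x else 0 := by
      intro x
      by_cases hx : x ∈ ball j u
      · rw [if_pos hx, if_pos hx, h2 ⟨x, hx⟩, h2' ⟨x, hx⟩]
      · rw [if_neg hx, if_neg hx]
    simp only [hbit, hss]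
    exact hfe
  have hZ : Zs j κ u = ⋃ v : T, ⋃ _ : ∃ ω, ω ∈ Zs j κ u ∧ ω ∈ C v, C v := by
    ext ω
    simp only [Set.mem_iUnion]
    constructor
    · intro h
      obtain ⟨v, hv⟩ := hcov ω
      exact ⟨v, ⟨ω, h, hv⟩, hv⟩
    · rintro ⟨v, ⟨ω', h', hv'⟩, hv⟩
      exact hinv v ω' ω hv' hv h'
  rw [hZ]
  exact MeasurableSet.iUnion fun v => MeasurableSet.iUnion fun _ => hCm v

end Pool.Agent.Helper98K9.HP
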