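import Pool.Agent.Helper98K9.HP.St

/-!
# One step with given insides ([ONE])
-/

set_option autoImplicit false

namespace Pool.Agent.Helper98K9.HP

open MeasureTheory ProbabilityTheory Filter Topology
open scoped ENNReal NNReal

namespace OneL

variable {N : ℕ} [NeZero N] {c : ℕ → ℝ}

/-- the edge of a pair -/
def eg (p : V N × V N) : Ed N := s(p.1, p.2)

omit [NeZero N] in
lemma eg_inj {S T : Finset (V N)} (h : Disjoint S T) :
    Set.InjOn eg ((S ×ˢ T : Finset (V N × V N)) : Set (V N × V N)) := by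
  intro p hp q hq he
  rw [Finset.mem_coe, Finset.mem_product] at hp hq
  unfold eg at he
  rw [Sym2.eq_iff] at he
  rcases he with h1 | h1
  · exact Prod.ext h1.1 h1.2
  · exfalso
    refine Finset.disjoint_left.1 h hp.1 ?_
    rw [h1.1]
    exact hq.2

lemma meas_bit (e : Ed N) (a : ℝ) : Measurable fun ω : Cf N => if ω e = true then a else 0 := by
  have h0 : Measurable fun ω : Cf N => ω e := measurable_pi_apply e
  have h : MeasurableSet {ω : Cf N | ω e = true} := h0 (measurableSet_singleton true)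
  exact Measurable.ite h measurable_const measurable_const

lemma meas_lin (P : Finset (V N × V N)) (f : V N × V N → ℝ) :
    Measurable fun ω : Cf N => ∑ q ∈ P, if ω (eg q) = true then f q else 0 :=
  Finset.measurable_sum _ fun q _ => meas_bit (eg q) (f q)

lemma ber_pair (hB : S_BER) {S T : Finset (V N)} (h : Disjoint S T) (p : ℝ)
    (hp : ∀ q ∈ S ×ˢ T, (prE N c (eg q) : ℝ) = p) (f : V N × V N → ℝ)
    (h0 : ∑ q ∈ S ×ˢ T, f q = 0) :
    ∫⁻ ω, ENNReal.ofReal ((∑ q ∈ S ×ˢ T, if ω (eg q) = true then f q else 0) ^ 2) ∂(PP N c) ≤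
      ENNReal.ofReal (p * ∑ q ∈ S ×ˢ T, f q ^ 2) := by
  classical
  have hi := eg_inj h
  set t : Ed N → ℝ := fun e => f (Function.invFunOn eg ((S ×ˢ T : Finset (V N × V N)) :
    Set (V N × V N)) e) with ht0
  have ht : ∀ q ∈ S ×ˢ T, t (eg q) = f q := fun q hq => by
    show f _ = f q
    rw [hi.leftInvOn_invFunOn (Finset.mem_coe.2 hq)]
  have e1 : ∑ e ∈ (S ×ˢ T).image eg, t e = 0 := by
    rw [Finset.sum_image hi, Finset.sum_congr rfl ht, h0]
  have h1 := hB N c ((S ×ˢ T).image eg) p t (by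
    intro e he
    obtain ⟨q, hq, rfl⟩ := Finset.mem_image.1 he
    exact hp q hq) e1
  rw [Finset.sum_image hi] at h1
  have e2 : ∀ ω : Cf N, ∑ e ∈ (S ×ˢ T).image eg, (if ω e = true then t e else 0) =
      ∑ q ∈ S ×ˢ T, if ω (eg q) = true then f q else 0 := by
    intro ω
    rw [Finset.sum_image hi]
    refine Finset.sum_congr rfl fun q hq => ?_
    rw [ht q hq]
  simp only [e2] at h1
  rwa [Finset.sum_congr rfl fun q hq => by rw [ht q hq]] at h1

lemma cher_pair (hC : S_CHER) {S T : Finset (V N)} (h : Disjoint S T) (p : ℝ)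
    (hp : ∀ q ∈ S ×ˢ T, (prE N c (eg q) : ℝ) = p) :
    PP N c {ω | (((S ×ˢ T).filter fun q => ω (eg q) = true).card : ℝ) <
      p * ((S.card : ℝ) * T.card) / 2} ≤
      ENNReal.ofReal (Real.exp (-(p * ((S.card : ℝ) * T.card) / 8))) := by
  classical
  have hi := eg_inj h
  have h1 := hC N c ((S ×ˢ T).image eg) p (by
    intro e he
    obtain ⟨q, hq, rfl⟩ := Finset.mem_image.1 he
    exact hp q hq)
  rw [Finset.card_image_of_injOn hi, Finset.card_product] at h1
  push_cast at h1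
  have e2 : ∀ ω : Cf N, (((S ×ˢ T).image eg).filter fun e => ω e = true).card =
      ((S ×ˢ T).filter fun q => ω (eg q) = true).card := by
    intro ω
    rw [Finset.filter_image, Finset.card_image_of_injOn]
    exact hi.mono (Finset.coe_subset.2 (Finset.filter_subset _ _))
  have e3 : {ω : Cf N | (((S ×ˢ T).filter fun q => ω (eg q) = true).card : ℝ) <
      p * ((S.card : ℝ) * T.card) / 2} = {ω : Cf N |
        (((((S ×ˢ T).image eg).filter fun e => ω e = true).card : ℕ) : ℝ) <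
          p * ((S.card : ℝ) * T.card) / 2} := by
    ext ω
    rw [Set.mem_ofPred_eq, Set.mem_ofPred_eq, e2 ω]
  rw [e3]
  convert h1 using 3

lemma dist_const {k l : ℕ} {x z z' u v : V N} (hz : z ∈ subs k l x) (hz' : z' ∈ subs k l x)
    (hne : z ≠ z') (hu : u ∈ ball k z) (hv : v ∈ ball k z') : dist u v = dist z z' := by
  have h1 := subs_dist hz hz' hne hu hv
  have h2 := subs_dist hz hz' hne (self_mem_ball k z) (self_mem_ball k z')
  rw [mem_ball] at hu hv
  apply le_antisymm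
  · have h3 := dist_ultra u z v
    have h4 := dist_ultra z z' v
    rw [dist_comm u z] at h3
    omega
  · have h3 := dist_ultra z u z'
    have h4 := dist_ultra u v z'
    rw [dist_comm v z'] at h4
    omega

lemma pr_low {A : ℝ} (hN : 2 ≤ N) (hA : Adm N c A) {k l j : ℕ} (h1 : k < j) (h2 : j ≤ k + l)
    (hc : c (k + 1) ≤ (N : ℝ) ^ (2 * (k + l))) :
    c (k + 1) / (N : ℝ) ^ (2 * (k + l)) ≤ (pr N c j : ℝ) := by
  have hN1 : (1 : ℝ) ≤ N := by exact_mod_cast (by omega : 1 ≤ N)
  have hN0 : (0 : ℝ) < N := by linarith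
  unfold pr
  rw [NNReal.coe_min, Real.coe_toNNReal', NNReal.coe_one]
  refine le_min (le_max_of_le_left ?_) ?_
  · refine div_le_div₀ (hA.pos j (by omega)).le (hA.mono _ _ (by omega) (by omega))
      (by positivity) ?_
    exact pow_le_pow_right₀ hN1 (by omega)
  · rw [div_le_one (by positivity)]
    exact hc

/-- the data -/
structure Dt (N : ℕ) [NeZero N] (c : ℕ → ℝ) (k l : ℕ) (x : V N) (Z : Finset (V N))
    (Sz : V N → Finset (V N)) (Θ : V N → V N → V N → V N → ℝ) (ω₀ : Cf N) (lm : ℝ) : Prop where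
  sub : Z ⊆ subs k l x
  pos : ∀ z ∈ Z, 0 < (Sz z).card
  fam : ∀ z ∈ Z, Fam (G ω₀) (ball k z) (Sz z) (Θ z)
  lm0 : 0 < lm
  lam : ∀ z ∈ Z, ∀ z' ∈ Z, z ≠ z' →
    lm ≤ (pr N c (dist z z') : ℝ) * (((Sz z).card : ℝ) * (Sz z').card)

/-- the mean number of edges -/
noncomputable def lam (c : ℕ → ℝ) (Sz : V N → Finset (V N)) (z z' : V N) : ℝ :=
  (pr N c (dist z z') : ℝ) * (((Sz z).card : ℝ) * (Sz z').card)

/-- the open pairs -/
def Fo (Sz : V N → Finset (V N)) (ω : Cf N) (z z' : V N) : Finset (V N × V N) :=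
  (Sz z ×ˢ Sz z').filter fun q => ω (eg q) = true

/-- the energy bound -/
noncomputable def HH (c : ℕ → ℝ) (k : ℕ) (Sz : V N → Finset (V N))
    (Θ : V N → V N → V N → V N → ℝ) (z z' : V N) (ω : Cf N) : ℝ :=
  4 / lam c Sz z z' ^ 2 * ∑ a ∈ ball k z, ∑ b ∈ ball k z,
    (∑ q ∈ Sz z ×ˢ Sz z', if ω (eg q) = true then Θ z q.1 a b else 0) ^ 2

lemma HH_nonneg (k : ℕ) (Sz : V N → Finset (V N)) (Θ : V N → V N → V N → V N → ℝ) (z z' : V N)
    (ω : Cf N) : 0 ≤ HH c k Sz Θ z z' ω := by
  unfold HH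
  positivity

lemma HH_meas (k : ℕ) (Sz : V N → Finset (V N)) (Θ : V N → V N → V N → V N → ℝ) (z z' : V N) :
    Measurable (HH c k Sz Θ z z') := by
  unfold HH
  refine Measurable.const_mul ?_ _
  refine Finset.measurable_sum _ fun a _ => Finset.measurable_sum _ fun b _ => ?_
  exact (meas_lin (Sz z ×ˢ Sz z') fun q => Θ z q.1 a b).pow_const 2

section

variable {k l : ℕ} {x : V N} {Z : Finset (V N)} {Sz : V N → Finset (V N)}
  {Θ : V N → V N → V N → V N → ℝ} {ω₀ : Cf N} {lm : ℝ} (D : Dt N c k l x Z Sz Θ ω₀ lm)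
include D

lemma S_sub {z : V N} (hz : z ∈ Z) : Sz z ⊆ ball k z := (D.fam z hz).sub

lemma S_dis {z z' : V N} (hz : z ∈ Z) (hz' : z' ∈ Z) (hne : z ≠ z') :
    Disjoint (Sz z) (Sz z') :=
  Finset.disjoint_of_subset_left (S_sub D hz) (Finset.disjoint_of_subset_right (S_sub D hz')
    (subs_disjoint (D.sub hz) (D.sub hz') hne))

lemma S_pr {z z' : V N} (hz : z ∈ Z) (hz' : z' ∈ Z) (hne : z ≠ z') :
    ∀ q ∈ Sz z ×ˢ Sz z', (prE N c (eg q) : ℝ) = (pr N c (dist z z') : ℝ) := by
  intro q hq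
  rw [Finset.mem_product] at hq
  unfold eg
  rw [prE_mk, dist_const (D.sub hz) (D.sub hz') hne (S_sub D hz hq.1) (S_sub D hz' hq.2)]

lemma lam_symm (z z' : V N) : lam c Sz z z' = lam c Sz z' z := by
  unfold lam
  rw [dist_comm z z']
  ring

lemma lam_pos {z z' : V N} (hz : z ∈ Z) (hz' : z' ∈ Z) (hne : z ≠ z') : 0 < lam c Sz z z' :=
  D.lm0.trans_le (D.lam z hz z' hz' hne)

lemma HH_int (hB : S_BER) {z z' : V N} (hz : z ∈ Z) (hz' : z' ∈ Z) (hne : z ≠ z') :
    ∫⁻ ω, ENNReal.ofReal (HH c k Sz Θ z z' ω) ∂(PP N c) ≤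
      ENNReal.ofReal (4 * enF (ball k z) (Sz z) (Θ z) / (lm * (Sz z).card)) := by
  have hl := lam_pos D hz hz' hne
  have hl2 : lm ≤ lam c Sz z z' := D.lam z hz z' hz' hne
  have hlm := D.lm0
  have hs : (0 : ℝ) < (Sz z).card := by exact_mod_cast D.pos z hz
  have hs' : (0 : ℝ) < (Sz z').card := by exact_mod_cast D.pos z' hz'
  have hen : 0 ≤ enF (ball k z) (Sz z) (Θ z) := by unfold enF; positivity
  have hm : ∀ a b : V N, Measurable fun ω : Cf N => ENNReal.ofReal
      ((∑ q ∈ Sz z ×ˢ Sz z', if ω (eg q) = true then Θ z q.1 a b else 0) ^ 2) := fun a b =>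
    ENNReal.measurable_ofReal.comp ((meas_lin (Sz z ×ˢ Sz z') fun q => Θ z q.1 a b).pow_const 2)
  have h1 : ∀ a b : V N, ∫⁻ ω, ENNReal.ofReal
      ((∑ q ∈ Sz z ×ˢ Sz z', if ω (eg q) = true then Θ z q.1 a b else 0) ^ 2) ∂(PP N c) ≤
      ENNReal.ofReal ((pr N c (dist z z') : ℝ) * ((Sz z').card * ∑ u ∈ Sz z, Θ z u a b ^ 2)) := by
    intro a b
    have h2 := ber_pair hB (S_dis D hz hz' hne) _ (S_pr D hz hz' hne) (fun q => Θ z q.1 a b)
      (by
        rw [Finset.sum_product]
        simp only [Finset.sum_const]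
        rw [← Finset.smul_sum, (D.fam z hz).zero a b, smul_zero])
    refine h2.trans (le_of_eq ?_)
    congr 2
    rw [Finset.sum_product]
    simp only [Finset.sum_const, nsmul_eq_mul]
    rw [Finset.mul_sum]
  have h3 : ∀ ω : Cf N, ENNReal.ofReal (HH c k Sz Θ z z' ω) =
      ENNReal.ofReal (4 / lam c Sz z z' ^ 2) * ∑ a ∈ ball k z, ∑ b ∈ ball k z,
        ENNReal.ofReal ((∑ q ∈ Sz z ×ˢ Sz z', if ω (eg q) = true then Θ z q.1 a b else 0) ^ 2) := by
    intro ω
    unfold HH
    rw [ENNReal.ofReal_mul (by positivity), ENNReal.ofReal_sum_of_nonneg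
      (fun a _ => Finset.sum_nonneg fun b _ => sq_nonneg _)]
    congr 1
    refine Finset.sum_congr rfl fun a _ => ?_
    rw [ENNReal.ofReal_sum_of_nonneg (fun b _ => sq_nonneg _)]
  simp only [h3]
  rw [lintegral_const_mul _ (Finset.measurable_sum _ fun a _ => Finset.measurable_sum _ fun b _ =>
    hm a b), lintegral_finsetSum _ (fun a _ => Finset.measurable_sum _ fun b _ => hm a b)]
  have h4 : ∑ a ∈ ball k z, ∫⁻ ω, ∑ b ∈ ball k z, ENNReal.ofReal
      ((∑ q ∈ Sz z ×ˢ Sz z', if ω (eg q) = true then Θ z q.1 a b else 0) ^ 2) ∂(PP N c) ≤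
      ENNReal.ofReal ((pr N c (dist z z') : ℝ) * ((Sz z').card *
        enF (ball k z) (Sz z) (Θ z))) := by
    have h5 : (pr N c (dist z z') : ℝ) * ((Sz z').card * enF (ball k z) (Sz z) (Θ z)) =
        ∑ a ∈ ball k z, ∑ b ∈ ball k z,
          (pr N c (dist z z') : ℝ) * ((Sz z').card * ∑ u ∈ Sz z, Θ z u a b ^ 2) := by
      unfold enF
      rw [Finset.sum_comm, Finset.mul_sum, Finset.mul_sum]
      refine Finset.sum_congr rfl fun a _ => ?_
      rw [Finset.sum_comm, Finset.mul_sum, Finset.mul_sum]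
    rw [h5, ENNReal.ofReal_sum_of_nonneg (fun a _ => Finset.sum_nonneg fun b _ => by positivity)]
    refine Finset.sum_le_sum fun a _ => ?_
    rw [lintegral_finsetSum _ (fun b _ => hm a b),
      ENNReal.ofReal_sum_of_nonneg (fun b _ => by positivity)]
    exact Finset.sum_le_sum fun b _ => h1 a b
  refine (mul_le_mul_right h4 _).trans ?_
  rw [← ENNReal.ofReal_mul (by positivity)]
  refine ENNReal.ofReal_le_ofReal ?_
  have h6 : 4 / lam c Sz z z' ^ 2 * ((pr N c (dist z z') : ℝ) * ((Sz z').card *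
      enF (ball k z) (Sz z) (Θ z))) = 4 * enF (ball k z) (Sz z) (Θ z) /
        (lam c Sz z z' * (Sz z).card) := by
    have h7 : lam c Sz z z' ^ 2 = lam c Sz z z' * ((pr N c (dist z z') : ℝ) *
        (((Sz z).card : ℝ) * (Sz z').card)) := by
      rw [sq]
      rfl
    have h8 : (0 : ℝ) < (pr N c (dist z z') : ℝ) := by
      have : 0 < (pr N c (dist z z') : ℝ) * (((Sz z).card : ℝ) * (Sz z').card) := hl
      exact (mul_pos_iff_of_pos_right (by positivity)).1 this
    rw [h7]
    field_simp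
  rw [h6]
  exact div_le_div_of_nonneg_left (by positivity) (by positivity)
    (mul_le_mul_of_nonneg_right hl2 hs.le)

lemma phi_le {ω : Cf N} {z z' : V N} (hz : z ∈ Z) (hz' : z' ∈ Z) (hne : z ≠ z')
    (h : lam c Sz z z' / 2 ≤ ((Fo Sz ω z z').card : ℝ)) :
    phi (ball k z) (Θ z) (Fo Sz ω z z') ≤ HH c k Sz Θ z z' ω := by
  have hl := lam_pos D hz hz' hne
  unfold phi HH
  rw [Finset.mul_sum]
  refine Finset.sum_le_sum fun a _ => ?_
  rw [Finset.mul_sum]
  refine Finset.sum_le_sum fun b _ => ?_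
  have e1 : ∑ e ∈ Fo Sz ω z z', Θ z e.1 a b =
      ∑ q ∈ Sz z ×ˢ Sz z', if ω (eg q) = true then Θ z q.1 a b else 0 := by
    unfold Fo
    rw [Finset.sum_filter]
  rw [e1, div_pow, div_eq_mul_inv, mul_comm]
  refine mul_le_mul_of_nonneg_right ?_ (sq_nonneg _)
  rw [inv_eq_one_div, div_le_div_iff₀ (by
    have : 0 < ((Fo Sz ω z z').card : ℝ) := by linarith
    positivity) (by positivity)]
  have h2 : (lam c Sz z z' / 2) ^ 2 ≤ ((Fo Sz ω z z').card : ℝ) ^ 2 :=
    pow_le_pow_left₀ (by positivity) h 2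
  nlinarith

end

end OneL

open OneL

set_option maxHeartbeats 1000000 in
theorem one (hF : S_FLOW) (hB : S_BER) (hC : S_CHER) : S_ONE := by
  classical
  intro N _ c A hN hA ρ k l r x hρ hρ1 hr hc Z Sz Θ ω₀ hZ hZc hfam
  have hN1 : (1 : ℝ) ≤ N := by exact_mod_cast (by omega : 1 ≤ N)
  have hN0 : (0 : ℝ) < N := by linarith
  have hc0 : 0 < c (k + 1) := hA.pos _ (by omega)
  set lm : ℝ := ρ ^ 2 * c (k + 1) / (N : ℝ) ^ (2 * l) with hlm
  have hlm0 : 0 < lm := by positivity
  have hsz : ∀ z ∈ Z, (0 : ℝ) < (Sz z).card := fun z hz => lt_of_lt_of_le (by positivity) (hfam z hz).1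
  have D : Dt N c k l x Z Sz Θ ω₀ lm := by
    refine ⟨hZ, fun z hz => by exact_mod_cast hsz z hz, fun z hz => (hfam z hz).2, hlm0, ?_⟩
    intro z hz z' hz' hne
    have h2 := subs_dist (hZ hz) (hZ hz') hne (self_mem_ball k z) (self_mem_ball k z')
    have h3 := pr_low hN hA h2.1 h2.2 hc
    have h4 := (hfam z hz).1
    have h5 := (hfam z' hz').1
    have h6 : (ρ * (N : ℝ) ^ k) * (ρ * (N : ℝ) ^ k) ≤ ((Sz z).card : ℝ) * (Sz z').card :=
      mul_le_mul h4 h5 (by positivity) (by positivity)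
    refine le_trans (le_of_eq ?_) (mul_le_mul h3 h6 (by positivity) (by positivity))
    rw [hlm, show 2 * (k + l) = 2 * k + 2 * l by ring, pow_add]
    rw [show (N : ℝ) ^ (2 * k) = (N : ℝ) ^ k * (N : ℝ) ^ k by rw [two_mul, pow_add]]
    field_simp
  have hZne : Z.Nonempty := by
    rw [← Finset.card_pos]
    omega
  set mix : Cf N → Cf N := fun ω e => if e ∈ ⋃ z ∈ subs k l x, ins k z then ω₀ e else ω e with hmix
  -- edges between different sub-balls
  have hnot : ∀ z ∈ Z, ∀ z' ∈ Z, z ≠ z' → ∀ q ∈ Sz z ×ˢ Sz z',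
      eg q ∉ ⋃ z ∈ subs k l x, ins k z := by
    intro z hz z' hz' hne q hq hm
    rw [Finset.mem_product] at hq
    rw [Set.mem_iUnion₂] at hm
    obtain ⟨z'', hz'', h1⟩ := hm
    have h2 : q.1 ∈ ball k z'' := h1 q.1 (Sym2.mem_mk_left _ _)
    have h3 : q.2 ∈ ball k z'' := h1 q.2 (Sym2.mem_mk_right _ _)
    have h4 : z = z'' := by
      by_contra h5
      exact Finset.disjoint_left.1 (subs_disjoint (hZ hz) hz'' h5) (S_sub D hz hq.1) h2
    have h6 : z' = z'' := by
      by_contra h5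
      exact Finset.disjoint_left.1 (subs_disjoint (hZ hz') hz'' h5) (S_sub D hz' hq.2) h3
    exact hne (h4.trans h6.symm)
  set E₁ : Set (Cf N) := {ω | ∀ z ∈ Z, ∀ z' ∈ Z, z ≠ z' →
    lam c Sz z z' / 2 ≤ ((Fo Sz ω z z').card : ℝ)} with hE₁
  -- the flow
  set S : Finset (V N) := Z.biUnion Sz with hS
  have hSc : ((S.card : ℕ) : ℝ) = ∑ z ∈ Z, ((Sz z).card : ℝ) := by
    rw [hS, Finset.card_biUnion (fun z hz z' hz' hne => S_dis D hz hz' hne)]
    push_cast
    rfl
  have hSpos : (0 : ℝ) < S.card := by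
    rw [hSc]
    exact Finset.sum_pos hsz hZne
  have hSle : (S.card : ℝ) ≤ (N : ℝ) ^ (k + l) := by
    have h1 : S ⊆ ball (k + l) x := by
      intro u hu
      obtain ⟨z, hz, hu1⟩ := Finset.mem_biUnion.1 hu
      exact ball_subs_subset (hZ hz) (S_sub D hz hu1)
    have h2 := Finset.card_le_card h1
    rw [card_ball] at h2
    exact_mod_cast h2
  have hdens : ρ * (1 - r / (N : ℝ) ^ l) * (N : ℝ) ^ (k + l) ≤ S.card := by
    rw [hSc]
    have h1 : (Z.card : ℝ) * (ρ * (N : ℝ) ^ k) ≤ ∑ z ∈ Z, ((Sz z).card : ℝ) := by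
      rw [← nsmul_eq_mul, ← Finset.sum_const]
      exact Finset.sum_le_sum fun z hz => (hfam z hz).1
    refine le_trans ?_ h1
    have h2 : ρ * (1 - r / (N : ℝ) ^ l) * (N : ℝ) ^ (k + l) =
        ((N : ℝ) ^ l - r) * (ρ * (N : ℝ) ^ k) := by
      rw [pow_add]
      field_simp
    rw [h2]
    refine mul_le_mul_of_nonneg_right ?_ (by positivity)
    have h3 : ((N ^ l : ℕ) : ℝ) ≤ ((Z.card + r : ℕ) : ℝ) := by exact_mod_cast hZc
    push_cast at h3
    linarith
  have hflow : ∀ ω ∈ E₁, ∃ Θ', Fam (G (mix ω)) (ball (k + l) x) S Θ' ∧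
      enF (ball (k + l) x) S Θ' ≤ ∑ z ∈ Z, enF (ball k z) (Sz z) (Θ z) +
        ∑ z ∈ Z, ((Sz z).card : ℝ) * ∑ z' ∈ Z.erase z,
          ((Sz z').card : ℝ) / (S.card : ℝ) *
            (phi (ball k z) (Θ z) (Fo Sz ω z z') + 2 / ((Fo Sz ω z z').card : ℝ) +
              phi (ball k z') (Θ z') (Fo Sz ω z' z)) := by
    intro ω hω
    have h1 := hF (V N) (V N) (G (mix ω)) (ball (k + l) x) Z (fun z => ball k z) Sz Θ
      (Fo Sz ω) hZne (fun z hz => ball_subs_subset (hZ hz))
      (fun z hz z' hz' hne => subs_disjoint (hZ hz) (hZ hz') hne)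
      (fun z hz => ⟨Finset.card_pos.1 (D.pos z hz), by
        refine ⟨(D.fam z hz).sub, ?_, (D.fam z hz).anti, (D.fam z hz).div, (D.fam z hz).zero⟩
        intro u hu a b hab
        obtain ⟨h2, h3, h4⟩ := (D.fam z hz).supp u hu a b hab
        refine ⟨⟨h2.1, ?_⟩, h3, h4⟩
        have h5 : s(a, b) ∈ ⋃ z ∈ subs k l x, ins k z := by
          rw [Set.mem_iUnion₂]
          refine ⟨z, hZ hz, ?_⟩
          intro v hv
          rw [Sym2.mem_iff] at hv
          rcases hv with rfl | rfl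
          · exact h3
          · exact h4
        show (if s(a, b) ∈ ⋃ z ∈ subs k l x, ins k z then ω₀ s(a, b) else ω s(a, b)) = true
        rw [if_pos h5]
        exact h2.2⟩)
      (fun z hz z' hz' hne => by
        have h2 := hω z hz z' hz' hne
        have h3 := lam_pos D hz hz' hne
        refine ⟨?_, ?_, ?_⟩
        · rw [← Finset.card_pos]
          have h4 : (0 : ℝ) < ((Fo Sz ω z z').card : ℝ) := by linarith
          exact_mod_cast h4
        · intro e he
          unfold Fo at he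
          rw [Finset.mem_filter] at he
          have h5 := Finset.mem_product.1 he.1
          refine ⟨h5.1, h5.2, ?_, ?_⟩
          · intro h6
            exact Finset.disjoint_left.1 (S_dis D hz hz' hne) h5.1 (h6 ▸ h5.2)
          · have h7 := hnot z hz z' hz' hne e he.1
            show (if eg e ∈ ⋃ z ∈ subs k l x, ins k z then ω₀ (eg e) else ω (eg e)) = true
            rw [if_neg h7]
            exact he.2
        · intro e
          unfold Fo
          rw [Finset.mem_filter, Finset.mem_filter, Finset.mem_product, Finset.mem_product]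
          have h8 : eg e.swap = eg e := Sym2.eq_swap
          rw [h8]
          constructor
          · rintro ⟨⟨h5, h6⟩, h7⟩
            exact ⟨⟨h6, h5⟩, h7⟩
          · rintro ⟨⟨h5, h6⟩, h7⟩
            exact ⟨⟨h6, h5⟩, h7⟩)
    obtain ⟨Θ', h2, h3⟩ := h1
    have key : ∀ (i : DecidableEq (V N)), (@Finset.biUnion (V N) (V N) i Z Sz) = S := by
      intro i
      ext u
      simp only [hS, Finset.mem_biUnion]
    rw [key] at h2 h3
    refine ⟨Θ', h2, h3.trans (le_of_eq ?_)⟩
    refine congrArg₂ (· + ·) rfl (Finset.sum_congr rfl fun z _ => congrArg₂ (· * ·) rfl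
      (Finset.sum_congr ?_ fun _ _ => rfl))
    ext u
    simp only [Finset.mem_erase]
  have hQ : ∀ ω ∈ E₁, QQ (ρ * (1 - r / (N : ℝ) ^ l)) (k + l) x (mix ω) ≤
      ENNReal.ofReal (∑ z ∈ Z, enF (ball k z) (Sz z) (Θ z) +
        ∑ z ∈ Z, ((Sz z).card : ℝ) * ∑ z' ∈ Z.erase z,
          ((Sz z').card : ℝ) / (S.card : ℝ) *
            (phi (ball k z) (Θ z) (Fo Sz ω z z') + 2 / ((Fo Sz ω z z').card : ℝ) +
              phi (ball k z') (Θ z') (Fo Sz ω z' z))) := by
    intro ω hω
    obtain ⟨Θ', h1, h2⟩ := hflow ω hω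
    refine le_trans ?_ (ENNReal.ofReal_le_ofReal h2)
    unfold QQ
    exact iInf_le_of_le S (iInf_le_of_le Θ' (iInf_le_of_le hdens
      (iInf_le_of_le (by exact_mod_cast hSpos) (iInf_le_of_le h1 le_rfl))))
  refine ⟨E₁, ?_, ?_, ?_, ?_⟩
  · intro ω ω' h
    have h1 : ∀ z ∈ Z, ∀ z' ∈ Z, z ≠ z' → Fo Sz ω z z' = Fo Sz ω' z z' := by
      intro z hz z' hz' hne
      unfold Fo
      refine Finset.filter_congr fun q hq => ?_
      rw [h (eg q) ⟨?_, hnot z hz z' hz' hne q hq⟩]
      rw [Finset.mem_product] at hq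
      intro v hv
      unfold eg at hv
      rw [Sym2.mem_iff] at hv
      rcases hv with rfl | rfl
      · exact ball_subs_subset (hZ hz) (S_sub D hz hq.1)
      · exact ball_subs_subset (hZ hz') (S_sub D hz' hq.2)
    show (ω ∈ E₁) = (ω' ∈ E₁)
    refine propext ⟨fun h2 z hz z' hz' hne => ?_, fun h2 z hz z' hz' hne => ?_⟩
    · rw [← h1 z hz z' hz' hne]; exact h2 z hz z' hz' hne
    · rw [h1 z hz z' hz' hne]; exact h2 z hz z' hz' hne
  · set I : Finset (V N × V N) := (Z ×ˢ Z).filter fun q => q.1 ≠ q.2 with hI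
    have h1 : E₁ᶜ ⊆ ⋃ q ∈ I, {ω : Cf N | (((Sz q.1 ×ˢ Sz q.2).filter
        fun q => ω (eg q) = true).card : ℝ) < (pr N c (dist q.1 q.2) : ℝ) *
          (((Sz q.1).card : ℝ) * (Sz q.2).card) / 2} := by
      intro ω hω
      by_contra h2
      apply hω
      intro z hz z' hz' hne
      by_contra h3
      apply h2
      rw [Set.mem_iUnion₂]
      refine ⟨(z, z'), Finset.mem_filter.2 ⟨Finset.mem_product.2 ⟨hz, hz'⟩, hne⟩, ?_⟩
      rw [not_le] at h3
      exact h3
    refine (measure_mono h1).trans ((measure_biUnion_finset_le _ _).trans ?_)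
    have h2 : ∀ q ∈ I, PP N c {ω : Cf N | (((Sz q.1 ×ˢ Sz q.2).filter
        fun q => ω (eg q) = true).card : ℝ) < (pr N c (dist q.1 q.2) : ℝ) *
          (((Sz q.1).card : ℝ) * (Sz q.2).card) / 2} ≤
        ENNReal.ofReal (Real.exp (-(lm / 8))) := by
      intro q hq
      obtain ⟨hq1, hne⟩ := Finset.mem_filter.1 hq
      rw [Finset.mem_product] at hq1
      refine (cher_pair hC (S_dis D hq1.1 hq1.2 hne) _ (S_pr D hq1.1 hq1.2 hne)).trans ?_
      refine ENNReal.ofReal_le_ofReal (Real.exp_le_exp.2 ?_)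
      have := D.lam q.1 hq1.1 q.2 hq1.2 hne
      linarith
    refine (Finset.sum_le_sum h2).trans ?_
    rw [Finset.sum_const, nsmul_eq_mul, ENNReal.ofReal_mul (by positivity)]
    refine mul_le_mul_left ?_ _
    have h3 : I.card ≤ N ^ (2 * l) := by
      refine (Finset.card_filter_le _ _).trans ?_
      rw [Finset.card_product, two_mul, pow_add]
      have h4 := Finset.card_le_card hZ
      rw [card_subs] at h4
      exact Nat.mul_le_mul h4 h4
    rw [show (N : ℝ) ^ (2 * l) = ((N ^ (2 * l) : ℕ) : ℝ) by push_cast; rfl,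
      ENNReal.ofReal_natCast]
    exact_mod_cast h3
  · intro ω hω
    exact ne_top_of_le_ne_top ENNReal.ofReal_ne_top (hQ ω hω)
  · set w : V N → V N → ℝ := fun z z' => ((Sz z).card : ℝ) * (((Sz z').card : ℝ) / (S.card : ℝ))
      with hw
    have hw0 : ∀ z z', 0 ≤ w z z' := fun z z' => by rw [hw]; positivity
    set en : ℝ := ∑ z ∈ Z, enF (ball k z) (Sz z) (Θ z) with hen
    have hen1 : ∀ z, 0 ≤ enF (ball k z) (Sz z) (Θ z) := fun z => by unfold enF; positivity
    have hen0 : 0 ≤ en := Finset.sum_nonneg fun z _ => hen1 z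
    set Gf : Cf N → ℝ≥0∞ := fun ω => ENNReal.ofReal en + ∑ z ∈ Z, ∑ z' ∈ Z.erase z,
      ENNReal.ofReal (w z z') * (ENNReal.ofReal (HH c k Sz Θ z z' ω) + ENNReal.ofReal (4 / lm) +
        ENNReal.ofReal (HH c k Sz Θ z' z ω)) with hGf
    have hmH : ∀ z z', Measurable fun ω : Cf N => ENNReal.ofReal (HH c k Sz Θ z z' ω) :=
      fun z z' => ENNReal.measurable_ofReal.comp (HH_meas k Sz Θ z z')
    have hm1 : ∀ z z', Measurable fun ω : Cf N => ENNReal.ofReal (w z z') *
        (ENNReal.ofReal (HH c k Sz Θ z z' ω) + ENNReal.ofReal (4 / lm) +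
          ENNReal.ofReal (HH c k Sz Θ z' z ω)) := fun z z' =>
      (((hmH z z').add_const _).add (hmH z' z)).const_mul _
    have hmG : Measurable Gf := Measurable.const_add
      (Finset.measurable_sum _ fun z _ => Finset.measurable_sum _ fun z' _ => hm1 z z') _
    have hle : ∀ ω ∈ E₁, QQ (ρ * (1 - r / (N : ℝ) ^ l)) (k + l) x (mix ω) ≤ Gf ω := by
      intro ω hω
      refine (hQ ω hω).trans ?_
      rw [ENNReal.ofReal_add hen0 (Finset.sum_nonneg fun z _ => mul_nonneg (by positivity)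
        (Finset.sum_nonneg fun z' _ => mul_nonneg (by positivity) (by unfold phi; positivity)))]
      refine add_le_add le_rfl ?_
      rw [ENNReal.ofReal_sum_of_nonneg (fun z _ => mul_nonneg (by positivity)
        (Finset.sum_nonneg fun z' _ => mul_nonneg (by positivity) (by unfold phi; positivity)))]
      refine Finset.sum_le_sum fun z hz => ?_
      rw [Finset.mul_sum, ENNReal.ofReal_sum_of_nonneg (fun z' _ => mul_nonneg (by positivity)
        (mul_nonneg (by positivity) (by unfold phi; positivity)))]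
      refine Finset.sum_le_sum fun z' hz' => ?_
      rw [Finset.mem_erase] at hz'
      have hne : z ≠ z' := Ne.symm hz'.1
      have h1 := hω z hz z' hz'.2 hne
      have h1' := hω z' hz'.2 z hz (Ne.symm hne)
      have h2 := phi_le D hz hz'.2 hne h1
      have h3 := phi_le D hz'.2 hz (Ne.symm hne) h1'
      have h4 : lm ≤ lam c Sz z z' := D.lam z hz z' hz'.2 hne
      have h5 : 2 / ((Fo Sz ω z z').card : ℝ) ≤ 4 / lm := by
        rw [div_le_div_iff₀ (by linarith) hlm0]
        linarith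
      rw [← mul_assoc, ← ENNReal.ofReal_add (HH_nonneg k Sz Θ z z' ω) (by positivity),
        ← ENNReal.ofReal_add (add_nonneg (HH_nonneg k Sz Θ z z' ω) (by positivity))
          (HH_nonneg k Sz Θ z' z ω), ← ENNReal.ofReal_mul (hw0 z z')]
      refine ENNReal.ofReal_le_ofReal (mul_le_mul_of_nonneg_left ?_ (hw0 z z'))
      linarith
    refine (setLIntegral_mono hmG hle).trans ((setLIntegral_le_lintegral _ _).trans ?_)
    rw [hGf, lintegral_add_left measurable_const, lintegral_const, measure_univ, mul_one,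
      lintegral_finsetSum _ (fun z _ => Finset.measurable_sum _ fun z' _ => hm1 z z')]
    have hb : ∀ z ∈ Z, ∫⁻ ω, ∑ z' ∈ Z.erase z, ENNReal.ofReal (w z z') *
        (ENNReal.ofReal (HH c k Sz Θ z z' ω) + ENNReal.ofReal (4 / lm) +
          ENNReal.ofReal (HH c k Sz Θ z' z ω)) ∂(PP N c) ≤
        ENNReal.ofReal (∑ z' ∈ Z, w z z' * (4 * enF (ball k z) (Sz z) (Θ z) / (lm * (Sz z).card) +
          4 / lm + 4 * enF (ball k z') (Sz z') (Θ z') / (lm * (Sz z').card))) := by
      intro z hz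
      rw [lintegral_finsetSum _ (fun z' _ => hm1 z z'),
        ENNReal.ofReal_sum_of_nonneg (fun z' _ => mul_nonneg (hw0 z z') (by
          have := hen1 z; have := hen1 z'; positivity))]
      refine (Finset.sum_le_sum fun z' hz' => ?_).trans
        (Finset.sum_le_sum_of_subset (Finset.erase_subset z Z))
      rw [Finset.mem_erase] at hz'
      have hne : z ≠ z' := Ne.symm hz'.1
      have hm2 : Measurable fun ω : Cf N => ENNReal.ofReal (HH c k Sz Θ z z' ω) +
          ENNReal.ofReal (4 / lm) + ENNReal.ofReal (HH c k Sz Θ z' z ω) :=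
        ((hmH z z').add_const _).add (hmH z' z)
      rw [lintegral_const_mul _ hm2, lintegral_add_right _ (hmH z' z), lintegral_add_right _ measurable_const, lintegral_const,
        measure_univ, mul_one, ENNReal.ofReal_mul (hw0 z z')]
      refine mul_le_mul_right ?_ _
      have h1 := hen1 z
      have h2 := hen1 z'
      rw [ENNReal.ofReal_add (by positivity) (by positivity),
        ENNReal.ofReal_add (by positivity) (by positivity)]
      exact add_le_add (add_le_add (HH_int D hB hz hz'.2 hne) le_rfl)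
        (HH_int D hB hz'.2 hz (Ne.symm hne))
    refine (add_le_add le_rfl (Finset.sum_le_sum hb)).trans ?_
    rw [← ENNReal.ofReal_sum_of_nonneg (fun z _ => Finset.sum_nonneg fun z' _ =>
      mul_nonneg (hw0 z z') (by have := hen1 z; have := hen1 z'; positivity)),
      ← ENNReal.ofReal_add hen0 (Finset.sum_nonneg fun z _ => Finset.sum_nonneg fun z' _ =>
      mul_nonneg (hw0 z z') (by have := hen1 z; have := hen1 z'; positivity))]
    refine ENNReal.ofReal_le_ofReal ?_
    have h1 : ∀ z ∈ Z, ∀ z' ∈ Z, w z z' * (4 * enF (ball k z) (Sz z) (Θ z) / (lm * (Sz z).card) +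
          4 / lm + 4 * enF (ball k z') (Sz z') (Θ z') / (lm * (Sz z').card)) =
        4 / (lm * S.card) * (enF (ball k z) (Sz z) (Θ z) * ((Sz z').card : ℝ) +
          ((Sz z).card : ℝ) * (Sz z').card + ((Sz z).card : ℝ) *
            enF (ball k z') (Sz z') (Θ z')) := by
      intro z hz z' hz'
      have := hsz z hz
      have := hsz z' hz'
      rw [hw]
      field_simp
    have h2 : ∑ z ∈ Z, ∑ z' ∈ Z, w z z' * (4 * enF (ball k z) (Sz z) (Θ z) /
          (lm * (Sz z).card) + 4 / lm + 4 * enF (ball k z') (Sz z') (Θ z') / (lm * (Sz z').card)) =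
        4 / (lm * S.card) * (en * S.card + S.card * S.card + S.card * en) := by
      rw [Finset.sum_congr rfl fun z hz => Finset.sum_congr rfl (h1 z hz)]
      simp only [← Finset.mul_sum, Finset.sum_add_distrib, ← Finset.sum_mul]
      rw [← hSc, ← hen]
    rw [h2]
    have h3 : 4 / (lm * S.card) * (en * S.card + S.card * S.card + S.card * en) =
        8 / lm * en + 4 * S.card / lm := by
      field_simp
      ring
    rw [h3]
    have h4 : 4 * (S.card : ℝ) / lm ≤ 4 * (N : ℝ) ^ (k + l) / lm := by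
      refine div_le_div_of_nonneg_right ?_ hlm0.le
      linarith
    linarith

end Pool.Agent.Helper98K9.HP
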