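import Pool.Agent.Helper98K9.HP.St

set_option autoImplicit false

/-!
# [PATHF]: path flows
-/

namespace Pool.Agent.Helper98K9.HP

namespace PathL

open Finset

variable {X : Type}

/-- the graph restricted to `W` -/
def res (Γ : SimpleGraph X) (W : Finset X) : SimpleGraph X where
  Adj a b := a ∈ W ∧ b ∈ W ∧ Γ.Adj a b
  symm := ⟨fun _ _ h => ⟨h.2.1, h.1, h.2.2.symm⟩⟩
  loopless := ⟨fun _ h => h.2.2.ne rfl⟩

theorem reach (Γ : SimpleGraph X) (W : Finset X) {u v : X}
    (h : Relation.ReflTransGen (fun a b => a ∈ W ∧ b ∈ W ∧ Γ.Adj a b) u v) :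
    (res Γ W).Reachable u v := by
  induction h with
  | refl => exact SimpleGraph.Reachable.refl _
  | tail _ h ih =>
    exact ih.trans (SimpleGraph.Adj.reachable (G := res Γ W) h)

open Classical in
/-- the unit flow through a pair -/
noncomputable def dl (u w a b : X) : ℝ :=
  (if a = u ∧ b = w then 1 else 0) - (if a = w ∧ b = u then 1 else 0)

theorem dl_anti (u w a b : X) : dl u w a b = - dl u w b a := by
  classical
  unfold dl
  have e1 : (if b = u ∧ a = w then (1 : ℝ) else 0) = if a = w ∧ b = u then 1 else 0 :=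
    if_congr and_comm rfl rfl
  have e2 : (if b = w ∧ a = u then (1 : ℝ) else 0) = if a = u ∧ b = w then 1 else 0 :=
    if_congr and_comm rfl rfl
  rw [e1, e2]
  ring

theorem dl_ne {u w a b : X} (h : dl u w a b ≠ 0) : s(a, b) = s(u, w) := by
  classical
  unfold dl at h
  by_cases h1 : a = u ∧ b = w
  · rw [h1.1, h1.2]
  · by_cases h2 : a = w ∧ b = u
    · rw [h2.1, h2.2, Sym2.eq_swap]
    · rw [if_neg h1, if_neg h2] at h
      simp at h

theorem dl_sum {u w : X} {W : Finset X} (hu : u ∈ W) (hw : w ∈ W) (a : X) :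
    ∑ b ∈ W, dl u w a b = (open Classical in if a = u then (1 : ℝ) else 0) -
      (open Classical in if a = w then 1 else 0) := by
  classical
  unfold dl
  rw [sum_sub_distrib]
  congr 1
  · by_cases h : a = u
    · simp only [h, true_and, if_true]
      rw [sum_ite_eq' W w, if_pos hw]
    · simp [h]
  · by_cases h : a = w
    · simp only [h, true_and, if_true]
      rw [sum_ite_eq' W u, if_pos hu]
    · simp [h]

theorem dl_sq (u w : X) (W : Finset X) : ∑ a ∈ W, ∑ b ∈ W, dl u w a b ^ 2 ≤ 2 := by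
  classical
  have h1 : ∀ a b, dl u w a b ^ 2 ≤ (if a = u then (if b = w then (1 : ℝ) else 0) else 0) +
      (if a = w then (if b = u then 1 else 0) else 0) := by
    intro a b
    unfold dl
    by_cases h1 : a = u <;> by_cases h2 : b = w <;> by_cases h3 : a = w <;> by_cases h4 : b = u <;>
      simp [h1, h2, h3, h4] <;> (try split_ifs) <;> norm_num
  calc ∑ a ∈ W, ∑ b ∈ W, dl u w a b ^ 2
      ≤ ∑ a ∈ W, ∑ b ∈ W, ((if a = u then (if b = w then (1 : ℝ) else 0) else 0) +
      (if a = w then (if b = u then 1 else 0) else 0)) :=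
        sum_le_sum fun a _ => sum_le_sum fun b _ => h1 a b
    _ = (∑ a ∈ W, if a = u then (∑ b ∈ W, if b = w then (1 : ℝ) else 0) else 0) +
        (∑ a ∈ W, if a = w then (∑ b ∈ W, if b = u then (1 : ℝ) else 0) else 0) := by
        rw [← sum_add_distrib]
        refine sum_congr rfl fun a _ => ?_
        rw [sum_add_distrib]
        congr 1
        · split_ifs <;> simp
        · split_ifs <;> simp
    _ ≤ 1 + 1 := by
        have k : ∀ (t : X) (c : ℝ), 0 ≤ c → c ≤ 1 → (∑ a ∈ W, if a = t then c else 0) ≤ 1 := by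
          intro t c hc hc1
          rw [sum_ite_eq' W t]
          split_ifs
          · exact hc1
          · exact zero_le_one
        have k0 : ∀ t : X, 0 ≤ (∑ b ∈ W, if b = t then (1 : ℝ) else 0) := fun t =>
          sum_nonneg fun b _ => by split_ifs <;> norm_num
        exact add_le_add (k u _ (k0 w) (k w 1 zero_le_one le_rfl))
          (k w _ (k0 u) (k u 1 zero_le_one le_rfl))
    _ = 2 := by norm_num

/-- a trail carries a flow -/
theorem trail_flow (Γ : SimpleGraph X) (W : Finset X) {u v : X} (p : (res Γ W).Walk u v)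
    (hp : p.IsTrail) :
    ∃ P : X → X → ℝ, (∀ a b, P a b ≠ 0 → s(a, b) ∈ p.edges) ∧ (∀ a b, P a b = - P b a) ∧
      (∀ a, ∑ b ∈ W, P a b = (open Classical in if a = u then (1 : ℝ) else 0) -
        (open Classical in if a = v then 1 else 0)) ∧
      ∑ a ∈ W, ∑ b ∈ W, P a b ^ 2 ≤ 2 * (p.length : ℝ) := by
  induction p with
  | nil =>
    refine ⟨fun _ _ => 0, fun a b h => absurd rfl h, fun a b => by simp, fun a => by simp, by simp⟩
  | @cons u w v h p ih =>
    rw [SimpleGraph.Walk.isTrail_cons] at hp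
    obtain ⟨P, h1, h2, h3, h4⟩ := ih hp.1
    have hadj : u ∈ W ∧ w ∈ W ∧ Γ.Adj u w := h
    refine ⟨fun a b => dl u w a b + P a b, ?_, ?_, ?_, ?_⟩
    · intro a b hab
      rw [SimpleGraph.Walk.edges_cons, List.mem_cons]
      by_cases h0 : dl u w a b = 0
      · right
        apply h1
        intro h5
        apply hab
        show dl u w a b + P a b = 0
        rw [h0, h5, add_zero]
      · left
        exact dl_ne h0
    · intro a b
      show dl u w a b + P a b = - (dl u w b a + P b a)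
      rw [dl_anti u w a b, h2 a b]
      ring
    · intro a
      rw [sum_add_distrib, dl_sum hadj.1 hadj.2.1, h3]
      ring
    · have h5 : ∀ a b, (dl u w a b + P a b) ^ 2 = dl u w a b ^ 2 + P a b ^ 2 := by
        intro a b
        have : dl u w a b * P a b = 0 := by
          by_contra hne
          have k1 := dl_ne (left_ne_zero_of_mul hne)
          have k2 := h1 a b (right_ne_zero_of_mul hne)
          rw [k1] at k2
          exact hp.2 k2
        linear_combination 2 * this
      simp_rw [h5, sum_add_distrib]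
      rw [SimpleGraph.Walk.length_cons]
      push_cast
      have := dl_sq u w W
      linarith

theorem path_flow (Γ : SimpleGraph X) (W : Finset X) {u v : X} (hu : u ∈ W)
    (h : Relation.ReflTransGen (fun a b => a ∈ W ∧ b ∈ W ∧ Γ.Adj a b) u v) :
    ∃ P : X → X → ℝ, (∀ a b, P a b ≠ 0 → Γ.Adj a b ∧ a ∈ W ∧ b ∈ W) ∧ (∀ a b, P a b = - P b a) ∧
      (∀ a, ∑ b ∈ W, P a b = (open Classical in if a = u then (1 : ℝ) else 0) -
        (open Classical in if a = v then 1 else 0)) ∧
      ∑ a ∈ W, ∑ b ∈ W, P a b ^ 2 ≤ 2 * (W.card : ℝ) := by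
  classical
  obtain ⟨p⟩ := reach Γ W h
  obtain ⟨P, h1, h2, h3, h4⟩ := trail_flow Γ W (p.toPath : (res Γ W).Walk u v)
    p.toPath.2.isTrail
  refine ⟨P, ?_, h2, h3, h4.trans ?_⟩
  · intro a b hab
    have := (p.toPath : (res Γ W).Walk u v).adj_of_mem_edges (h1 a b hab)
    have h5 : a ∈ W ∧ b ∈ W ∧ Γ.Adj a b := this
    exact ⟨h5.2.2, h5.1, h5.2.1⟩
  · have hnd : (p.toPath : (res Γ W).Walk u v).support.Nodup := p.toPath.2.support_nodup
    have hsub : (p.toPath : (res Γ W).Walk u v).support.toFinset ⊆ W := by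
      intro a ha
      rw [List.mem_toFinset] at ha
      have key : ∀ {u v : X} (q : (res Γ W).Walk u v), u ∈ W → ∀ a ∈ q.support, a ∈ W := by
        intro u v q
        induction q with
        | nil =>
          intro hu a ha
          rw [SimpleGraph.Walk.support_nil, List.mem_singleton] at ha
          rwa [ha]
        | @cons u w v hh q ih =>
          intro hu a ha
          rw [SimpleGraph.Walk.support_cons, List.mem_cons] at ha
          rcases ha with ha | ha
          · rwa [ha]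
          · exact ih (show u ∈ W ∧ w ∈ W ∧ Γ.Adj u w from hh).2.1 a ha
      exact key _ hu a ha
    have h5 := card_le_card hsub
    rw [List.toFinset_card_of_nodup hnd, SimpleGraph.Walk.length_support] at h5
    have h6 : (p.toPath : (res Γ W).Walk u v).length ≤ W.card := by omega
    have h7 : ((p.toPath : (res Γ W).Walk u v).length : ℝ) ≤ W.card := by exact_mod_cast h6
    linarith

end PathL

open Finset in
/-- [PATHF] -/
theorem pathf : S_PATHF := by
  classical
  intro X Γ W S hSW hSne hconn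
  have hP : ∀ u v, ∃ P : X → X → ℝ, u ∈ S → v ∈ S →
      (∀ a b, P a b ≠ 0 → Γ.Adj a b ∧ a ∈ W ∧ b ∈ W) ∧ (∀ a b, P a b = - P b a) ∧
      (∀ a, ∑ b ∈ W, P a b = (if a = u then (1 : ℝ) else 0) - (if a = v then 1 else 0)) ∧
      ∑ a ∈ W, ∑ b ∈ W, P a b ^ 2 ≤ 2 * (W.card : ℝ) := by
    intro u v
    by_cases h : u ∈ S ∧ v ∈ S
    · obtain ⟨P, h1, h2, h3, h4⟩ := PathL.path_flow Γ W (hSW h.1) (hconn u h.1 v h.2)
      refine ⟨P, fun _ _ => ⟨h1, h2, fun a => ?_, h4⟩⟩
      convert h3 a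
    · exact ⟨fun _ _ => 0, fun h1 h2 => absurd ⟨h1, h2⟩ h⟩
  choose P hP using hP
  have hSc : (0 : ℝ) < S.card := by exact_mod_cast card_pos.2 hSne
  set Q : X → X → X → X → ℝ := fun u v a b => (P u v a b - P v u a b) / 2 with hQ
  have hQn : ∀ u v a b, Q v u a b = - Q u v a b := by
    intro u v a b
    simp only [hQ]
    ring
  have hQs : ∀ u ∈ S, ∀ v ∈ S, ∀ a b, Q u v a b ≠ 0 → Γ.Adj a b ∧ a ∈ W ∧ b ∈ W := by
    intro u hu v hv a b h
    by_cases h1 : P u v a b = 0
    · by_cases h2 : P v u a b = 0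
      · exfalso
        apply h
        simp only [hQ, h1, h2]
        norm_num
      · exact (hP v u hv hu).1 a b h2
    · exact (hP u v hu hv).1 a b h1
  have hQa : ∀ u ∈ S, ∀ v ∈ S, ∀ a b, Q u v a b = - Q u v b a := by
    intro u hu v hv a b
    simp only [hQ]
    rw [(hP u v hu hv).2.1 a b, (hP v u hv hu).2.1 a b]
    ring
  have hQd : ∀ u ∈ S, ∀ v ∈ S, ∀ a, ∑ b ∈ W, Q u v a b =
      (if a = u then (1 : ℝ) else 0) - (if a = v then 1 else 0) := by
    intro u hu v hv a
    simp only [hQ]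
    rw [← sum_div, sum_sub_distrib, (hP u v hu hv).2.2.1 a, (hP v u hv hu).2.2.1 a]
    ring
  have hQe : ∀ u ∈ S, ∀ v ∈ S, ∑ a ∈ W, ∑ b ∈ W, Q u v a b ^ 2 ≤ 2 * (W.card : ℝ) := by
    intro u hu v hv
    have h1 := (hP u v hu hv).2.2.2
    have h2 := (hP v u hv hu).2.2.2
    have h3 : ∑ a ∈ W, ∑ b ∈ W, Q u v a b ^ 2 ≤
        (∑ a ∈ W, ∑ b ∈ W, P u v a b ^ 2 + ∑ a ∈ W, ∑ b ∈ W, P v u a b ^ 2) / 2 := by
      rw [← sum_add_distrib, sum_div]
      refine sum_le_sum fun a _ => ?_
      rw [← sum_add_distrib, sum_div]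
      refine sum_le_sum fun b _ => ?_
      simp only [hQ]
      nlinarith [sq_nonneg (P u v a b + P v u a b)]
    linarith
  refine ⟨fun u a b => (∑ v ∈ S, Q u v a b) / S.card, ⟨hSW, ?_, ?_, ?_, ?_⟩, ?_⟩
  · intro u hu a b h
    have h1 : ∃ v ∈ S, Q u v a b ≠ 0 := by
      by_contra hcon
      push Not at hcon
      apply h
      show (∑ v ∈ S, Q u v a b) / (S.card : ℝ) = 0
      rw [sum_eq_zero hcon, zero_div]
    obtain ⟨v, hv, hne⟩ := h1
    exact hQs u hu v hv a b hne
  · intro u hu a b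
    show (∑ v ∈ S, Q u v a b) / (S.card : ℝ) = - ((∑ v ∈ S, Q u v b a) / (S.card : ℝ))
    rw [← neg_div, ← sum_neg_distrib]
    congr 1
    exact sum_congr rfl fun v hv => hQa u hu v hv a b
  · intro u hu a _
    show ∑ b ∈ W, (∑ v ∈ S, Q u v a b) / (S.card : ℝ) = _
    rw [← sum_div, sum_comm, sum_congr rfl fun v hv => hQd u hu v hv a, sum_sub_distrib,
      sum_const, sum_ite_eq S a, nsmul_eq_mul, sub_div]
    congr 1
    · by_cases h : a = u
      · rw [if_pos h, mul_one, div_self hSc.ne']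
      · rw [if_neg h, mul_zero, zero_div]
    · split_ifs
      · rfl
      · rw [zero_div]
  · intro a b
    show ∑ u ∈ S, (∑ v ∈ S, Q u v a b) / (S.card : ℝ) = 0
    rw [← sum_div]
    have h1 : ∑ u ∈ S, ∑ v ∈ S, Q u v a b = - ∑ u ∈ S, ∑ v ∈ S, Q u v a b := by
      nth_rewrite 1 [sum_comm]
      rw [← sum_neg_distrib]
      refine sum_congr rfl fun v _ => ?_
      rw [← sum_neg_distrib]
      exact sum_congr rfl fun u _ => hQn v u a b
    have h2 : ∑ u ∈ S, ∑ v ∈ S, Q u v a b = 0 := by linarith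
    rw [h2, zero_div]
  · unfold enF
    have h1 : ∀ u ∈ S, ∑ a ∈ W, ∑ b ∈ W, ((∑ v ∈ S, Q u v a b) / (S.card : ℝ)) ^ 2 ≤
        2 * (W.card : ℝ) := by
      intro u hu
      have h2 : ∀ a b, ((∑ v ∈ S, Q u v a b) / (S.card : ℝ)) ^ 2 ≤
          (∑ v ∈ S, Q u v a b ^ 2) / S.card := by
        intro a b
        rw [div_pow, div_le_div_iff₀ (pow_pos hSc 2) hSc]
        have h3 := sq_sum_le_card_mul_sum_sq (s := S) (f := fun v => Q u v a b)
        calc (∑ v ∈ S, Q u v a b) ^ 2 * (S.card : ℝ)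
            ≤ ((S.card : ℝ) * ∑ v ∈ S, Q u v a b ^ 2) * S.card :=
              mul_le_mul_of_nonneg_right h3 hSc.le
          _ = (∑ v ∈ S, Q u v a b ^ 2) * (S.card : ℝ) ^ 2 := by ring
      calc ∑ a ∈ W, ∑ b ∈ W, ((∑ v ∈ S, Q u v a b) / (S.card : ℝ)) ^ 2
          ≤ ∑ a ∈ W, ∑ b ∈ W, (∑ v ∈ S, Q u v a b ^ 2) / S.card :=
            sum_le_sum fun a _ => sum_le_sum fun b _ => h2 a b
        _ = (∑ v ∈ S, ∑ a ∈ W, ∑ b ∈ W, Q u v a b ^ 2) / S.card := by
            rw [sum_comm (s := S), sum_div]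
            refine sum_congr rfl fun a _ => ?_
            rw [sum_comm (s := S), sum_div]
        _ ≤ (∑ v ∈ S, 2 * (W.card : ℝ)) / S.card := by
            apply div_le_div_of_nonneg_right _ hSc.le
            exact sum_le_sum fun v hv => hQe u hu v hv
        _ = 2 * (W.card : ℝ) := by
            rw [sum_const, nsmul_eq_mul, mul_div_cancel_left₀ _ hSc.ne']
    calc ∑ u ∈ S, ∑ a ∈ W, ∑ b ∈ W, ((∑ v ∈ S, Q u v a b) / (S.card : ℝ)) ^ 2
        ≤ ∑ u ∈ S, 2 * (W.card : ℝ) := sum_le_sum h1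
      _ = (S.card : ℝ) * (2 * W.card) := by rw [sum_const, nsmul_eq_mul]
      _ ≤ (W.card : ℝ) * (2 * W.card) := by
          have : (S.card : ℝ) ≤ W.card := by exact_mod_cast card_le_card hSW
          exact mul_le_mul_of_nonneg_right this (mul_nonneg (by norm_num) (Nat.cast_nonneg _))
      _ = 2 * (W.card : ℝ) ^ 2 := by ring

end Pool.Agent.Helper98K9.HP
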