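import Pool.Agent.Helper98K9.HP.St
import Pool.Agent.H21R2.Graph

set_option autoImplicit false

/-!
# Random walk on a locally finite graph: tools for [REC1], [REC2], [RCMP]
-/

namespace Pool.Agent.Helper98K9.HP

namespace WkL

open Finset Filter Topology
open scoped ENNReal NNReal
open Pool.Agent.H21R2 (stepProb green dirichlet sqd)

variable {X : Type}

theorem stepP_eq (Γ : SimpleGraph X) [Γ.LocallyFinite] (n : ℕ) (x y : X) :
    stepP Γ n x y = stepProb Γ n x y := by
  induction n generalizing x with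
  | zero =>
    rw [stepP, stepProb]
  | succ n ih =>
    rw [stepP, stepProb]
    congr 1
    · simp_rw [ih]
      rw [← SimpleGraph.coe_neighborFinset, finsum_mem_coe_finset]
    · rw [← SimpleGraph.coe_neighborFinset, Set.ncard_coe_finset,
        SimpleGraph.card_neighborFinset_eq_degree]

theorem energy_eq (Γ : SimpleGraph X) [Γ.LocallyFinite] (f : X → ℝ) :
    energy Γ f = dirichlet Γ f := by
  classical
  unfold energy dirichlet
  refine tsum_congr fun x => ?_
  rw [tsum_eq_sum (s := Γ.neighborFinset x)]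
  · refine sum_congr rfl fun y hy => ?_
    rw [SimpleGraph.mem_neighborFinset] at hy
    rw [if_pos hy, sqd]
  · intro y hy
    rw [SimpleGraph.mem_neighborFinset] at hy
    rw [if_neg hy]

section
variable (Γ : SimpleGraph X) [Γ.LocallyFinite]

theorem mul_le (m n : ℕ) (x a y : X) :
    stepProb Γ m x a * stepProb Γ n a y ≤ stepProb Γ (m + n) x y := by
  induction m generalizing x with
  | zero =>
    rw [Nat.zero_add]
    rw [stepProb]
    split_ifs with h
    · rw [h, one_mul]
    · rw [zero_mul]; exact Pool.Agent.H21R2.stepProb_nonneg Γ n x y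
  | succ m ih =>
    rw [show m + 1 + n = (m + n) + 1 by ring, stepProb, stepProb, div_mul_eq_mul_div, sum_mul]
    gcongr with z hz
    exact ih z

theorem pos_of_reach {x a : X} (h : Γ.Reachable x a) : ∃ m, 0 < stepProb Γ m x a := by
  obtain ⟨p⟩ := h
  induction p with
  | nil =>
    refine ⟨0, ?_⟩
    rw [stepProb]
    simp
  | @cons u v w hadj p ih =>
    obtain ⟨m, hm⟩ := ih
    refine ⟨m + 1, ?_⟩
    rw [stepProb]
    have hd : 0 < Γ.degree u := by
      rw [SimpleGraph.degree_pos_iff_exists_adj]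
      exact ⟨v, hadj⟩
    apply div_pos _ (by exact_mod_cast hd)
    apply sum_pos'
    · intro z _
      exact Pool.Agent.H21R2.stepProb_nonneg Γ m z w
    · exact ⟨v, by rwa [SimpleGraph.mem_neighborFinset], hm⟩

theorem zero_of_not_reach {x a : X} (h : ¬ Γ.Reachable a x) (n : ℕ) : stepProb Γ n a x = 0 := by
  induction n generalizing a with
  | zero =>
    rw [stepProb, if_neg]
    rintro rfl
    exact h (SimpleGraph.Reachable.refl _)
  | succ n ih =>
    rw [stepProb, sum_eq_zero, zero_div]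
    intro z hz
    rw [SimpleGraph.mem_neighborFinset] at hz
    apply ih
    intro h2
    exact h (hz.reachable.trans h2)

/-- if the walk is transient then the return probabilities from every point tend to zero -/
theorem tends (x a : X) (h : Summable fun n => stepProb Γ n x x) :
    Tendsto (fun n => stepProb Γ n a x) atTop (𝓝 0) := by
  by_cases hr : Γ.Reachable x a
  · obtain ⟨m, hm⟩ := pos_of_reach Γ hr
    have h1 : Tendsto (fun n => stepProb Γ (m + n) x x) atTop (𝓝 0) := by
      have := h.tendsto_atTop_zero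
      have h2 := this.comp (tendsto_add_atTop_nat m)
      refine h2.congr fun n => ?_
      simp only [Function.comp]
      rw [add_comm]
    have h3 : Tendsto (fun n => stepProb Γ (m + n) x x / stepProb Γ m x a) atTop (𝓝 0) := by
      have := h1.div_const (stepProb Γ m x a)
      rwa [zero_div] at this
    refine squeeze_zero (fun n => Pool.Agent.H21R2.stepProb_nonneg Γ n a x) (fun n => ?_) h3
    rw [le_div_iff₀ hm, mul_comm]
    exact mul_le Γ m n x a x
  · have : ∀ n, stepProb Γ n a x = 0 := zero_of_not_reach Γ fun h2 => hr h2.symm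
    simp_rw [this]
    exact tendsto_const_nhds

open Classical in
/-- Green's formula for a finitely supported function and the truncated Green function -/
theorem green_formula (x : X) (M : ℕ) (f : X → ℝ) (B : Finset X)
    (hf : ∀ a, f a ≠ 0 → a ∈ B ∧ ∀ b ∈ Γ.neighborFinset a, b ∈ B) :
    ∑ a ∈ B, ∑ b ∈ B, (if Γ.Adj a b then
      (f a - f b) * (green Γ x M a - green Γ x M b) else 0) =
      2 * ∑ a ∈ B, f a * (Γ.degree a * (stepProb Γ 0 a x - stepProb Γ M a x)) := by
  set g := green Γ x M with hg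
  have h1 : ∀ a ∈ B, f a * (Γ.degree a * (stepProb Γ 0 a x - stepProb Γ M a x)) =
      ∑ b ∈ B, if Γ.Adj a b then f a * (g a - g b) else 0 := by
    intro a _
    by_cases h0 : f a = 0
    · rw [h0, zero_mul]
      symm
      apply sum_eq_zero
      intro b _
      split_ifs <;> simp
    · obtain ⟨-, h2⟩ := hf a h0
      rw [← Pool.Agent.H21R2.green_laplace Γ x M a, ← hg, ← sum_filter]
      have e1 : B.filter (fun b => Γ.Adj a b) = Γ.neighborFinset a := by
        ext b
        rw [mem_filter, SimpleGraph.mem_neighborFinset]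
        constructor
        · exact fun h => h.2
        · intro h
          exact ⟨h2 b (by rwa [SimpleGraph.mem_neighborFinset]), h⟩
      rw [e1, ← mul_sum, sum_sub_distrib, sum_const, nsmul_eq_mul,
        SimpleGraph.card_neighborFinset_eq_degree]
  rw [sum_congr rfl h1]
  have h3 : ∑ a ∈ B, ∑ b ∈ B, (if Γ.Adj a b then f a * (g a - g b) else 0) =
      ∑ a ∈ B, ∑ b ∈ B, (if Γ.Adj a b then - (f b * (g a - g b)) else 0) := by
    rw [sum_comm]
    refine sum_congr rfl fun b _ => sum_congr rfl fun a _ => ?_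
    rw [Γ.adj_comm]
    split_ifs
    · ring
    · rfl
  rw [two_mul]
  nth_rewrite 2 [h3]
  rw [← sum_add_distrib]
  refine sum_congr rfl fun a _ => ?_
  rw [← sum_add_distrib]
  refine sum_congr rfl fun b _ => ?_
  split_ifs
  · ring
  · ring

omit [Γ.LocallyFinite] in
open Classical in
theorem sum_le_energy (f : X → ℝ) (B : Finset X) :
    ENNReal.ofReal (∑ a ∈ B, ∑ b ∈ B, if Γ.Adj a b then (f a - f b) ^ 2 else 0) ≤
      energy Γ f := by
  rw [ENNReal.ofReal_sum_of_nonneg fun a _ => sum_nonneg fun b _ => by split_ifs <;> positivity]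
  unfold energy
  refine le_trans (sum_le_sum fun a _ => ?_) (ENNReal.sum_le_tsum B)
  rw [ENNReal.ofReal_sum_of_nonneg fun b _ => by split_ifs <;> positivity]
  refine le_trans (sum_le_sum fun b _ => ?_) (ENNReal.sum_le_tsum B)
  by_cases h : Γ.Adj a b
  · rw [if_pos h, if_pos h]
  · rw [if_neg h, if_neg h, ENNReal.ofReal_zero]

open Classical in
/-- the main inequality, with truncated Green functions -/
theorem main_ineq (x : X) (M : ℕ) (f : X → ℝ) (hf : (Function.support f).Finite) (ε : ℝ)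
    (hε : 0 ≤ ε) (he : energy Γ f ≤ ENNReal.ofReal ε) :
    ∃ B : Finset X, x ∈ B ∧ hf.toFinset ⊆ B ∧
      (2 * ∑ a ∈ B, f a * (Γ.degree a * (stepProb Γ 0 a x - stepProb Γ M a x))) ^ 2 ≤
      ε * (2 * (Γ.degree x * green Γ x M x)) := by
  set g := green Γ x M with hg
  set S : Finset X := insert x (hf.toFinset ∪ g.support) with hS
  set B : Finset X := S ∪ S.biUnion fun a => Γ.neighborFinset a with hB
  have hSB : S ⊆ B := subset_union_left
  have hNB : ∀ a ∈ S, Γ.neighborFinset a ⊆ B := by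
    intro a ha y hy
    rw [hB, mem_union, mem_biUnion]
    exact Or.inr ⟨a, ha, hy⟩
  have hfB : ∀ a, f a ≠ 0 → a ∈ B ∧ ∀ b ∈ Γ.neighborFinset a, b ∈ B := by
    intro a ha
    have h1 : a ∈ S := by
      rw [hS, mem_insert, mem_union, Set.Finite.mem_toFinset]
      exact Or.inr (Or.inl ha)
    exact ⟨hSB h1, fun b hb => hNB a h1 hb⟩
  have hgB : ∀ a, g a ≠ 0 → a ∈ B ∧ ∀ b ∈ Γ.neighborFinset a, b ∈ B := by
    intro a ha
    have h1 : a ∈ S := by
      rw [hS, mem_insert, mem_union, Finsupp.mem_support_iff]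
      exact Or.inr (Or.inr ha)
    exact ⟨hSB h1, fun b hb => hNB a h1 hb⟩
  refine ⟨B, hSB (mem_insert_self _ _), ?_, ?_⟩
  · intro a ha
    rw [Set.Finite.mem_toFinset] at ha
    exact (hfB a ha).1
  rw [← green_formula Γ x M f B hfB, ← hg]
  -- Cauchy-Schwarz on the product set
  have hcs : (∑ p ∈ B ×ˢ B, (if Γ.Adj p.1 p.2 then (f p.1 - f p.2) else 0) *
      (if Γ.Adj p.1 p.2 then (g p.1 - g p.2) else 0)) ^ 2 ≤
      (∑ p ∈ B ×ˢ B, (if Γ.Adj p.1 p.2 then (f p.1 - f p.2) else 0) ^ 2) *
      (∑ p ∈ B ×ˢ B, (if Γ.Adj p.1 p.2 then (g p.1 - g p.2) else 0) ^ 2) :=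
    sum_mul_sq_le_sq_mul_sq _ _ _
  have e1 : ∑ p ∈ B ×ˢ B, (if Γ.Adj p.1 p.2 then (f p.1 - f p.2) else 0) *
      (if Γ.Adj p.1 p.2 then (g p.1 - g p.2) else 0) =
      ∑ a ∈ B, ∑ b ∈ B, (if Γ.Adj a b then (f a - f b) * (g a - g b) else 0) := by
    rw [sum_product]
    refine sum_congr rfl fun a _ => sum_congr rfl fun b _ => ?_
    split_ifs <;> simp
  have e2 : ∀ h : X → ℝ, ∑ p ∈ B ×ˢ B, (if Γ.Adj p.1 p.2 then (h p.1 - h p.2) else 0) ^ 2 =
      ∑ a ∈ B, ∑ b ∈ B, (if Γ.Adj a b then (h a - h b) ^ 2 else 0) := by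
    intro h
    rw [sum_product]
    refine sum_congr rfl fun a _ => sum_congr rfl fun b _ => ?_
    split_ifs <;> simp
  rw [e1, e2 f, e2 g] at hcs
  have h5 : ∑ a ∈ B, ∑ b ∈ B, (if Γ.Adj a b then (f a - f b) ^ 2 else 0) ≤ ε := by
    have := (sum_le_energy Γ f B).trans he
    rwa [ENNReal.ofReal_le_ofReal_iff hε] at this
  have h6 : ∑ a ∈ B, ∑ b ∈ B, (if Γ.Adj a b then (g a - g b) ^ 2 else 0) ≤
      2 * (Γ.degree x * g x) := by
    have h7 := green_formula Γ x M g B hgB
    rw [← hg] at h7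
    have h8 : ∑ a ∈ B, ∑ b ∈ B, (if Γ.Adj a b then (g a - g b) ^ 2 else 0) =
        ∑ a ∈ B, ∑ b ∈ B, (if Γ.Adj a b then (g a - g b) * (g a - g b) else 0) := by
      refine sum_congr rfl fun a _ => sum_congr rfl fun b _ => ?_
      rw [sq]
    rw [h8, h7]
    apply mul_le_mul_of_nonneg_left _ (by norm_num)
    have h9 : ∀ a ∈ B, g a * (Γ.degree a * (stepProb Γ 0 a x - stepProb Γ M a x)) ≤
        if a = x then Γ.degree x * g x else 0 := by
      intro a _
      have k2 := Pool.Agent.H21R2.stepProb_nonneg Γ M a x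
      have k3 : 0 ≤ g a := Pool.Agent.H21R2.green_nonneg Γ x M a
      have k4 : (0 : ℝ) ≤ Γ.degree a := Nat.cast_nonneg _
      have k5 : 0 ≤ g a * (Γ.degree a * stepProb Γ M a x) := by positivity
      have k6 : stepProb Γ 0 a x = if a = x then 1 else 0 := by
        rw [stepProb]
      rw [k6]
      split_ifs with hx
      · subst hx
        nlinarith
      · nlinarith
    refine (sum_le_sum h9).trans ?_
    rw [sum_ite_eq' B x, if_pos (hSB (mem_insert_self _ _))]
  have h10 : 0 ≤ ∑ a ∈ B, ∑ b ∈ B, (if Γ.Adj a b then (g a - g b) ^ 2 else 0) :=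
    sum_nonneg fun a _ => sum_nonneg fun b _ => by split_ifs <;> positivity
  exact hcs.trans (mul_le_mul h5 h6 h10 hε)

open Classical in
/-- the same, with the sum over the support of `f` -/
theorem main_ineq2 (x : X) (M : ℕ) (f : X → ℝ) (hf : (Function.support f).Finite) (ε : ℝ)
    (hε : 0 ≤ ε) (he : energy Γ f ≤ ENNReal.ofReal ε) (hx : f x = 1) :
    (2 * (Γ.degree x - ∑ a ∈ hf.toFinset, f a * (Γ.degree a * stepProb Γ M a x))) ^ 2 ≤
      ε * (2 * (Γ.degree x * green Γ x M x)) := by
  obtain ⟨B, hxB, hfB, h⟩ := main_ineq Γ x M f hf ε hε he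
  have e1 : ∑ a ∈ B, f a * (Γ.degree a * (stepProb Γ 0 a x - stepProb Γ M a x)) =
      Γ.degree x - ∑ a ∈ hf.toFinset, f a * (Γ.degree a * stepProb Γ M a x) := by
    have e2 : ∑ a ∈ hf.toFinset, f a * (Γ.degree a * stepProb Γ M a x) =
        ∑ a ∈ B, f a * (Γ.degree a * stepProb Γ M a x) := by
      apply sum_subset hfB
      intro a _ ha
      rw [Set.Finite.mem_toFinset, Function.mem_support, not_not] at ha
      rw [ha, zero_mul]
    have e3 : (Γ.degree x : ℝ) = ∑ a ∈ B, if a = x then (Γ.degree x : ℝ) else 0 := by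
      rw [sum_ite_eq' B x, if_pos hxB]
    rw [e2, e3, ← sum_sub_distrib]
    refine sum_congr rfl fun a _ => ?_
    have k6 : stepProb Γ 0 a x = if a = x then 1 else 0 := by
      rw [stepProb]
    rw [k6]
    split_ifs with hax
    · subst hax
      rw [hx]; ring
    · ring
  rw [e1] at h
  exact h

theorem rec1_aux (x : X) (hne : (Γ.neighborSet x).Nonempty)
    (h : ∀ ε : ℝ, 0 < ε → ∃ f : X → ℝ, (Function.support f).Finite ∧ f x = 1 ∧
      energy Γ f ≤ ENNReal.ofReal ε) :
    ¬ Summable fun n => stepProb Γ n x x := by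
  intro hs
  set S := ∑' n, stepProb Γ n x x with hS
  have hS0 : 0 ≤ S := tsum_nonneg fun n => Pool.Agent.H21R2.stepProb_nonneg Γ n x x
  have hd : (1 : ℝ) ≤ Γ.degree x := by
    obtain ⟨v, hv⟩ := hne
    have : 0 < Γ.degree x := by
      rw [SimpleGraph.degree_pos_iff_exists_adj]
      exact ⟨v, hv⟩
    exact_mod_cast this
  obtain ⟨f, hf, hfx, he⟩ := h (1 / (S + 1)) (by positivity)
  have h1 : ∀ M, (2 * (Γ.degree x - ∑ a ∈ hf.toFinset, f a * (Γ.degree a * stepProb Γ M a x))) ^ 2 ≤
      1 / (S + 1) * (2 * (Γ.degree x * S)) := by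
    intro M
    refine (main_ineq2 Γ x M f hf _ (by positivity) he hfx).trans ?_
    gcongr
    rw [Pool.Agent.H21R2.green_apply]
    exact hs.sum_le_tsum _ fun n _ => Pool.Agent.H21R2.stepProb_nonneg Γ n x x
  have h2 : Tendsto (fun M => (2 * ((Γ.degree x : ℝ) -
      ∑ a ∈ hf.toFinset, f a * (Γ.degree a * stepProb Γ M a x))) ^ 2) atTop
      (𝓝 ((2 * ((Γ.degree x : ℝ) - 0)) ^ 2)) := by
    apply Tendsto.pow
    apply Tendsto.const_mul
    apply Tendsto.const_sub
    rw [show (0 : ℝ) = ∑ a ∈ hf.toFinset, f a * (Γ.degree a * 0) by simp]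
    apply tendsto_finsetSum
    intro a _
    apply Tendsto.const_mul
    apply Tendsto.const_mul
    exact tends Γ x a hs
  have h3 := le_of_tendsto h2 (Eventually.of_forall h1)
  rw [sub_zero, one_div_mul_eq_div, le_div_iff₀ (by positivity)] at h3
  have h4 : (Γ.degree x : ℝ) * 1 ≤ Γ.degree x * Γ.degree x := by gcongr
  nlinarith [mul_nonneg hS0 (by linarith : (0 : ℝ) ≤ Γ.degree x)]

theorem rec2_aux (x : X) (h : ¬ Summable fun n => stepProb Γ n x x) (ε : ℝ) (hε : 0 < ε) :
    ∃ f : X → ℝ, (Function.support f).Finite ∧ f x = 1 ∧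
      (∀ y, 0 ≤ f y ∧ f y ≤ 1) ∧ energy Γ f ≤ ENNReal.ofReal ε := by
  have h1 : Tendsto (fun M => green Γ x M x) atTop atTop := by
    simp_rw [Pool.Agent.H21R2.green_apply]
    exact (not_summable_iff_tendsto_nat_atTop_of_nonneg
      fun n => Pool.Agent.H21R2.stepProb_nonneg Γ n x x).1 h
  obtain ⟨M, hM⟩ := (h1.eventually_ge_atTop (max 1 (2 * Γ.degree x / ε))).exists
  have hg1 : 1 ≤ green Γ x M x := (le_max_left _ _).trans hM
  have hg2 : 2 * Γ.degree x / ε ≤ green Γ x M x := (le_max_right _ _).trans hM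
  set g := green Γ x M with hg
  have hg0 : 0 < g x := by linarith
  refine ⟨fun y => min (g y / g x) 1, ?_, ?_, ?_, ?_⟩
  · refine (g.support.finite_toSet).subset ?_
    intro y hy
    rw [Function.mem_support] at hy
    rw [Finset.mem_coe, Finsupp.mem_support_iff]
    intro h0
    apply hy
    simp [h0]
  · simp [div_self hg0.ne']
  · intro y
    have : 0 ≤ g y := Pool.Agent.H21R2.green_nonneg Γ x M y
    exact ⟨le_min (by positivity) zero_le_one, min_le_right _ _⟩
  · have e1 : energy Γ (fun y => min (g y / g x) 1) ≤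
        ENNReal.ofReal (1 / g x ^ 2) * energy Γ g := by
      unfold energy
      rw [← ENNReal.tsum_mul_left]
      refine ENNReal.tsum_le_tsum fun a => ?_
      rw [← ENNReal.tsum_mul_left]
      refine ENNReal.tsum_le_tsum fun b => ?_
      split_ifs
      · rw [← ENNReal.ofReal_mul (by positivity)]
        apply ENNReal.ofReal_le_ofReal
        have h3 : |min (g a / g x) 1 - min (g b / g x) 1| ≤ |g a / g x - g b / g x| := by
          have := abs_min_sub_min_le_max (g a / g x) 1 (g b / g x) 1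
          simpa using this
        have h4 := sq_le_sq.2 h3
        refine h4.trans (le_of_eq ?_)
        field_simp
      · simp
    refine e1.trans ?_
    rw [energy_eq]
    refine (mul_le_mul_right (Pool.Agent.H21R2.dirichlet_green_le Γ x M) _).trans ?_
    rw [← hg, ← ENNReal.ofReal_mul (by positivity)]
    apply ENNReal.ofReal_le_ofReal
    rw [div_le_iff₀ hε] at hg2
    have : 1 / g x ^ 2 * (2 * (Γ.degree x * g x)) = 2 * Γ.degree x / g x := by
      field_simp
    rw [this, div_le_iff₀ hg0]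
    linarith

theorem rcmp_aux (x y : X) (h : ¬ Summable fun n => stepProb Γ n x x) (hr : Γ.Reachable x y) :
    ¬ Summable fun n => stepProb Γ n y y := by
  intro hs
  apply h
  obtain ⟨a, ha⟩ := pos_of_reach Γ hr.symm
  obtain ⟨b, hb⟩ := pos_of_reach Γ hr
  have h1 : ∀ n, stepProb Γ n x x ≤
      (stepProb Γ a y x * stepProb Γ b x y)⁻¹ * stepProb Γ (n + (a + b)) y y := by
    intro n
    rw [inv_mul_eq_div, le_div_iff₀ (by positivity)]
    have k1 := mul_le Γ a n y x x
    have k2 := mul_le Γ (a + n) b y x y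
    rw [show n + (a + b) = a + n + b by ring]
    calc stepProb Γ n x x * (stepProb Γ a y x * stepProb Γ b x y)
        = (stepProb Γ a y x * stepProb Γ n x x) * stepProb Γ b x y := by ring
      _ ≤ stepProb Γ (a + n) y x * stepProb Γ b x y := by gcongr
      _ ≤ _ := k2
  exact Summable.of_nonneg_of_le (fun n => Pool.Agent.H21R2.stepProb_nonneg Γ n x x) h1
    (((summable_nat_add_iff (a + b)).2 hs).mul_left _)

end

end WkL

/-- [REC1] -/
theorem rec1 : S_REC1 := by
  intro X Γ x hfin hne h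
  let _ : Γ.LocallyFinite := fun y => (hfin y).fintype
  unfold Recurrent
  simp_rw [WkL.stepP_eq]
  exact WkL.rec1_aux Γ x hne h

/-- [REC2] -/
theorem rec2 : S_REC2 := by
  intro X Γ x hfin h ε hε
  let _ : Γ.LocallyFinite := fun y => (hfin y).fintype
  unfold Recurrent at h
  simp_rw [WkL.stepP_eq] at h
  exact WkL.rec2_aux Γ x h ε hε

/-- [RCMP] -/
theorem rcmp : S_RCMP := by
  intro X Γ x y hfin h hr
  let _ : Γ.LocallyFinite := fun y => (hfin y).fintype
  unfold Recurrent at h ⊢
  simp_rw [WkL.stepP_eq] at h ⊢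
  exact WkL.rcmp_aux Γ x y h hr

end Pool.Agent.Helper98K9.HP
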