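import Pool.Agent.Helper98K9.HP.Enp
import Pool.Agent.Helper98K9.HP.Enn
import Pool.Agent.Helper98K9.HP.Wk

set_option autoImplicit false

/-!
# [RECA]: recurrence for divergent `∑ 1/c_k`
-/

namespace Pool.Agent.Helper98K9.HP

open MeasureTheory ProbabilityTheory Filter Topology
open scoped ENNReal NNReal

namespace RecaL

open EnpL

/-- a good function of the distance -/
theorem exists_fun (N : ℕ) [NeZero N] (c : ℕ → ℝ) (A : ℝ) (hN : 2 ≤ N) (hA : Adm N c A)
    (hdiv : ¬ Summable fun l : ℕ => 1 / c (l + 1)) (x : V N) (ε : ℝ) (hε : 0 < ε) :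
    ∃ f : V N → ℝ, (Function.support f).Finite ∧ f x = 1 ∧
      ∫⁻ ω, energy (G ω) f ∂(PP N c) ≤ ENNReal.ofReal ε := by
  have hc : ∀ l, 0 < c (l + 1) := fun l => hA.pos _ (by omega)
  have htend : Tendsto (fun n => ∑ l ∈ Finset.range n, 1 / c (l + 1)) atTop atTop :=
    (not_summable_iff_tendsto_nat_atTop_of_nonneg fun l => by have := hc l; positivity).1 hdiv
  obtain ⟨K, hK⟩ := (htend.eventually_ge_atTop (2 * |A| / ε + 1)).exists
  have hpos : 0 ≤ 2 * |A| / ε := by positivity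
  have hK1 : 1 ≤ K := by
    rcases Nat.eq_zero_or_pos K with h | h
    · subst h
      rw [Finset.sum_range_zero] at hK
      linarith
    · exact h
  obtain ⟨ψ, h0, h1, h2⟩ := enn N c A K hN hA hK1
  refine ⟨fun y => ψ (dist x y), ?_, ?_, ?_⟩
  · refine (ball K x).finite_toSet.subset fun y hy => ?_
    rw [Finset.mem_coe, mem_ball]
    by_contra hlt
    exact hy (h1 _ (by omega))
  · show ψ (dist x x) = 1
    rw [dist_self, h0]
  · refine (enp N c x ψ fun k hk => (hA.pos k hk).le).trans (h2.trans ?_)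
    apply ENNReal.ofReal_le_ofReal
    have hS : 0 < ∑ l ∈ Finset.range K, 1 / c (l + 1) := by linarith
    rw [div_le_iff₀ hS]
    have h3 : 2 * |A| ≤ ε * ∑ l ∈ Finset.range K, 1 / c (l + 1) := by
      have h4 : 2 * |A| / ε ≤ ∑ l ∈ Finset.range K, 1 / c (l + 1) := by linarith
      rw [div_le_iff₀ hε] at h4
      linarith
    have := le_abs_self A
    linarith

theorem one_point (N : ℕ) [NeZero N] (c : ℕ → ℝ) (A : ℝ) (hN : 2 ≤ N) (hA : Adm N c A)
    (hdiv : ¬ Summable fun l : ℕ => 1 / c (l + 1)) (x : V N) :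
    ∀ᵐ ω ∂(PP N c), ∀ ε : ℝ, 0 < ε → ∃ f : V N → ℝ, (Function.support f).Finite ∧ f x = 1 ∧
      energy (G ω) f ≤ ENNReal.ofReal ε := by
  choose f hf1 hf2 hf3 using fun n : ℕ => exists_fun N c A hN hA hdiv x ((1 / 2 : ℝ) ^ n)
    (by positivity)
  have h1 : ∫⁻ ω, ∑' n, energy (G ω) (f n) ∂(PP N c) ≠ ∞ := by
    rw [lintegral_tsum fun n => (meas_energy (f n)).aemeasurable]
    refine ne_top_of_le_ne_top ?_ (ENNReal.tsum_le_tsum hf3)
    rw [← ENNReal.ofReal_tsum_of_nonneg (fun n => by positivity) summable_geometric_two]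
    exact ENNReal.ofReal_ne_top
  have h2 : ∀ᵐ ω ∂(PP N c), ∑' n, energy (G ω) (f n) < ∞ :=
    ae_lt_top (Measurable.tsum fun n => meas_energy (f n)) h1
  filter_upwards [h2] with ω hω ε hε
  have h3 : Tendsto (fun n => energy (G ω) (f n)) atTop (𝓝 0) :=
    ENNReal.tendsto_atTop_zero_of_tsum_ne_top hω.ne
  have h4 : ∀ᶠ n in atTop, energy (G ω) (f n) ≤ ENNReal.ofReal ε :=
    h3.eventually_le_const (ENNReal.ofReal_pos.2 hε)
  obtain ⟨n, hn⟩ := h4.exists
  exact ⟨f n, hf1 n, hf2 n, hn⟩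

end RecaL

open EnpL RecaL

/-- [RECA] -/
theorem reca : S_LF → S_RECA := by
  intro hLF N _ c A hN hA hdiv
  have h1 := ae_all_iff.2 fun x : V N => one_point N c A hN hA hdiv x
  filter_upwards [hLF N c A hN hA, h1] with ω hω1 hω2 x hx
  exact rec1 (V N) (G ω) x hω1 hx (hω2 x)

end Pool.Agent.Helper98K9.HP
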