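import Pool.Agent.Helper98K9.HP.St

set_option autoImplicit false

namespace Pool.Agent.Helper98K9.HP

open MeasureTheory ProbabilityTheory Filter Topology
open scoped ENNReal NNReal

namespace TiL

variable {N : ℕ}

/-- translation of the configuration -/
noncomputable def T (a : V N) (ω : Cf N) : Cf N := fun e => ω (e.map (· + a))

theorem map_map (a : V N) (e : Ed N) : (e.map (· + a)).map (· + (-a)) = e := by
  rw [Sym2.map_map]
  have : ((· + (-a)) ∘ (· + a) : V N → V N) = id := by
    funext x; simp
  rw [this, Sym2.map_id]; rfl

theorem map_inj (a : V N) : Function.Injective (fun e : Ed N => e.map (· + a)) := by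
  intro e e' h
  have := congrArg (fun e : Ed N => e.map (· + (-a))) h
  simpa only [map_map] using this

theorem T_T (a : V N) (ω : Cf N) : T a (T (-a) ω) = ω := by
  funext e
  show ω ((e.map (· + a)).map (· + (-a))) = ω e
  rw [map_map]

theorem T_T' (a : V N) (ω : Cf N) : T (-a) (T a ω) = ω := by
  have := T_T (-a) ω
  rwa [neg_neg] at this

theorem meas (a : V N) : Measurable (T a) := by
  rw [measurable_pi_iff]
  intro e
  exact measurable_pi_apply _

/-- the translation as a measurable equivalence -/
noncomputable def Te (a : V N) : Cf N ≃ᵐ Cf N where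
  toFun := T a
  invFun := T (-a)
  left_inv := T_T' a
  right_inv := T_T a
  measurable_toFun := meas a
  measurable_invFun := meas (-a)

theorem prE_map (c : ℕ → ℝ) (a : V N) (e : Ed N) : prE N c (e.map (· + a)) = prE N c e := by
  induction e using Sym2.ind with
  | _ x y =>
    rw [Sym2.map_mk, prE_mk, prE_mk, dist_add]

theorem mp (c : ℕ → ℝ) (a : V N) : MeasurePreserving (T a) (PP N c) (PP N c) := by
  classical
  refine ⟨meas a, ?_⟩
  unfold PP
  apply Measure.eq_infinitePi
  intro s t ht
  have hm : MeasurableSet ((s : Set (Ed N)).pi t) :=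
    MeasurableSet.pi s.countable_toSet fun i _ => ht i
  rw [Measure.map_apply (meas a) hm]
  have hpre : T a ⁻¹' ((s : Set (Ed N)).pi t) =
      ((s.image (fun e : Ed N => e.map (· + a)) : Finset (Ed N)) : Set (Ed N)).pi
        (fun e => t (e.map (· + (-a)))) := by
    ext ω
    simp only [Set.mem_preimage, Set.mem_pi, Finset.mem_coe, Finset.mem_image]
    constructor
    · rintro h e' ⟨e, he, rfl⟩
      rw [map_map]
      exact h e he
    · intro h e he
      have := h _ ⟨e, he, rfl⟩
      rwa [map_map] at this
  rw [hpre, Measure.infinitePi_pi _ (fun i _ => ht _),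
    Finset.prod_image (fun x _ y _ h => map_inj a h)]
  apply Finset.prod_congr rfl
  intro e _
  rw [map_map]
  have h1 := prE_map c a e
  congr 2
  simp only [h1]

end TiL

theorem ti : S_TI := by
  intro N _ c a s
  exact (TiL.mp c a).measure_preimage_equiv (f := TiL.Te a) s

end Pool.Agent.Helper98K9.HP
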