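import Pool.Agent.Helper98K9.HP.St2

set_option autoImplicit false

namespace Pool.Agent.Helper98K9.HP

open MeasureTheory ProbabilityTheory Filter Topology
open scoped ENNReal NNReal

namespace RuleL

variable {N : ℕ} [NeZero N]

theorem QQ_mono {ρ ρ' : ℝ} (h : ρ' ≤ ρ) (k : ℕ) (x : V N) (ω : Cf N) :
    QQ ρ' k x ω ≤ QQ ρ k x ω := by
  unfold QQ
  refine iInf_mono fun S => iInf_mono fun Θ => ?_
  refine le_iInf fun h1 => ?_
  refine iInf_le_of_le ?_ le_rfl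
  refine le_trans ?_ h1
  exact mul_le_mul_of_nonneg_right h (by positivity)

theorem Lev_mono {c : ℕ → ℝ} {k : ℕ} {ρ q a ρ' q' a' : ℝ} (h : Lev N c k ρ q a) (h1 : ρ' ≤ ρ)
    (h2 : q ≤ q') (h3 : a ≤ a') : Lev N c k ρ' q' a' := by
  intro x
  obtain ⟨E, hE1, hE2, hE3, hE4, hE5⟩ := h x
  refine ⟨E, hE1, hE2, fun ω hω => ?_, hE4.trans (ENNReal.ofReal_le_ofReal h2), ?_⟩
  · exact ne_top_of_le_ne_top (hE3 ω hω) (QQ_mono h1 k x ω)
  · refine (lintegral_mono fun ω => QQ_mono h1 k x ω).trans (hE5.trans ?_)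
    apply ENNReal.ofReal_le_ofReal
    exact mul_le_mul_of_nonneg_right h3 (by positivity)

/-- `c (k+1) ≤ N ^ (2 k)` for large `k` -/
theorem c_le {c : ℕ → ℝ} {A : ℝ} (hN : 2 ≤ N) (hc : Adm N c A) :
    ∃ k1 : ℕ, ∀ k, k1 ≤ k → c (k + 1) ≤ (N : ℝ) ^ (2 * k) := by
  have h := (hc.summ 0).tendsto_atTop_zero
  have h2 := h.eventually (gt_mem_nhds (show (0 : ℝ) < 1 by norm_num))
  obtain ⟨k1, hk1⟩ := eventually_atTop.1 h2
  refine ⟨max k1 1, fun k hk => ?_⟩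
  have h3 := hk1 k (le_trans (le_max_left _ _) hk)
  have hk1' : 1 ≤ k := le_trans (le_max_right _ _) hk
  have hN0 : (1 : ℝ) ≤ N := by exact_mod_cast (by omega : 1 ≤ N)
  have hp := hc.pos (k + 1) (by omega)
  rw [show 0 + 1 + k = k + 1 by ring, div_lt_one (by positivity)] at h3
  have h5 : (1 : ℝ) ≤ ((k : ℝ) + 1) ^ 2 := by
    have : (0 : ℝ) ≤ k := Nat.cast_nonneg k
    nlinarith
  calc c (k + 1) ≤ c (k + 1) * ((k : ℝ) + 1) ^ 2 := by nlinarith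
    _ ≤ (N : ℝ) ^ (k + 1) := h3.le
    _ ≤ (N : ℝ) ^ (2 * k) := pow_le_pow_right₀ hN0 (by omega)

end RuleL

theorem rule (hstep : S_STEP) : S_RULE := by
  intro N _ c A hN hc
  have hN0 : (1 : ℝ) ≤ N := by exact_mod_cast (by omega : 1 ≤ N)
  refine ⟨fun k ρ q a ρ' q' a' h h1 h2 h3 => RuleL.Lev_mono h h1 h2 h3, ?_⟩
  obtain ⟨k1, hk1⟩ := RuleL.c_le hN hc
  refine ⟨k1, fun k hk ρ q a l r h1 h2 h3 h4 h5 h6 => ?_⟩
  refine hstep N c A hN hc ρ q a k l r h1 h2 h3 h4 h5 ?_ h6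
  exact (hk1 k hk).trans (pow_le_pow_right₀ hN0 (by omega))

end Pool.Agent.Helper98K9.HP
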