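import Pool.Agent.Helper98K9.HP.Last
import Pool.Agent.Helper98K9.HP.Rule

set_option autoImplicit false

namespace Pool.Agent.Helper98K9.HP

open MeasureTheory ProbabilityTheory Filter Topology
open scoped ENNReal NNReal

theorem tra (hti : S_TI) (hbase : S_BASE) (hboot : S_BOOT) (hitr : S_ITR) (hrule : S_RULE)
    (hlast : S_LAST) : S_TRA := by
  intro N _ c A a0 η hN hc ha0 hη hη1 hlow
  have hN1 : (1 : ℝ) < N := by exact_mod_cast (by omega : 1 < N)
  have hinf : ∀ u : V N, PP N c {ω | InfC (G ω) u} = PP N c {ω | InfC (G ω) 0} := by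
    intro u
    have h := hti N c u {ω | InfC (G ω) 0}
    rw [← h]
    congr 1
    ext ω
    show InfC (G ω) u ↔ InfC (G (LastL.trl u ω)) 0
    rw [LastL.infC_iff (Equiv.addRight u) (LastL.trl_adj u ω)]
    have : Equiv.addRight u (0 : V N) = u := by
      show (0 : V N) + u = u
      exact zero_add u
    rw [this]
  by_cases h0 : PP N c {ω | InfC (G ω) 0} = 0
  · rw [ae_all_iff]
    intro x
    have h1 : PP N c {ω | InfC (G ω) x} = 0 := (hinf x).trans h0
    have h2 : ∀ᵐ ω ∂(PP N c), ¬ InfC (G ω) x := by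
      rw [ae_iff]
      simpa only [not_not] using h1
    filter_upwards [h2] with ω hω h
    exact absurd h hω
  · -- percolation
    have htop : PP N c {ω | InfC (G ω) 0} ≠ ∞ := measure_ne_top _ _
    set θ : ℝ := (PP N c {ω | InfC (G ω) 0}).toReal with hθdef
    have hθ : 0 < θ := ENNReal.toReal_pos h0 htop
    have hθ1 : θ ≤ 1 := by
      have : PP N c {ω | InfC (G ω) 0} ≤ 1 := prob_le_one
      rw [hθdef]
      exact ENNReal.toReal_le_of_le_ofReal zero_le_one (by simpa using this)
    have hθle : ENNReal.ofReal θ ≤ PP N c {ω | InfC (G ω) 0} := by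
      rw [hθdef, ENNReal.ofReal_toReal htop]
    have htend : Tendsto c atTop atTop := by
      have h1 : Tendsto (fun k : ℕ => a0 * (k : ℝ) ^ (1 + η)) atTop atTop := by
        apply Tendsto.const_mul_atTop ha0
        exact (tendsto_rpow_atTop (by linarith)).comp tendsto_natCast_atTop_atTop
      refine tendsto_atTop_mono' atTop ?_ h1
      filter_upwards [eventually_ge_atTop 1] with k hk
      exact hlow k hk
    have hR : Rule N c (Lev N c) := hrule N c A hN hc
    have hB := hbase N c A hN hc htend θ hθ hθ1 hθle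
    have hboot' := hboot N c a0 η (θ / 8) (Lev N c) hN ha0 hη hη1 hlow (by positivity)
      (by linarith) hR hB
    obtain ⟨a, ha, hit⟩ := hitr N c a0 η (θ / 8) (Lev N c) hN ha0 hη hη1 hlow (by positivity)
      (by linarith) hR hboot'
    have hfin := hlast N c A hN hc (by
      intro ε hε
      refine ⟨θ / 8 / 2, by positivity, a, ha, fun k0 => ?_⟩
      obtain ⟨k1, hk1⟩ : ∃ k1 : ℕ, ∀ k, k1 ≤ k → ((N : ℝ) ^ k)⁻¹ ≤ ε := by
        have h1 : Tendsto (fun k : ℕ => ((N : ℝ) ^ k)⁻¹) atTop (𝓝 0) :=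
          (tendsto_pow_atTop_atTop_of_one_lt hN1).inv_tendsto_atTop
        have h2 := h1.eventually (gt_mem_nhds hε)
        obtain ⟨k1, hk1⟩ := eventually_atTop.1 h2
        exact ⟨k1, fun k hk => (hk1 k hk).le⟩
      obtain ⟨k, hk, hL⟩ := hit (max k0 k1)
      refine ⟨k, le_trans (le_max_left _ _) hk, ?_⟩
      exact RuleL.Lev_mono hL le_rfl (hk1 k (le_trans (le_max_right _ _) hk)) le_rfl)
    rw [ae_all_iff]
    intro x
    have h2 : ∀ᵐ ω ∂(PP N c), ¬ (InfC (G ω) x ∧ Recurrent (G ω) x) := by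
      rw [ae_iff]
      simpa only [not_not] using hfin x
    filter_upwards [h2] with ω hω h
    by_contra h3
    exact hω ⟨h, h3⟩

end Pool.Agent.Helper98K9.HP
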