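import Pool.Agent.Helper98K9.HP.Fin
import Pool.Agent.Helper98K9.HP.Mix
import Pool.Agent.Helper98K9.HP.Ti
import Pool.Agent.Helper98K9.HP.Meas
import Pool.Agent.Helper98K9.HP.Indf
import Pool.Agent.Helper98K9.HP.Ber
import Pool.Agent.Helper98K9.HP.Clo
import Pool.Agent.Helper98K9.HP.Lf
import Pool.Agent.Helper98K9.HP.Wk
import Pool.Agent.Helper98K9.HP.Enp
import Pool.Agent.Helper98K9.HP.Enn
import Pool.Agent.Helper98K9.HP.Reca
import Pool.Agent.Helper98K9.HP.Adm
import Pool.Agent.Helper98K9.HP.Esc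
import Pool.Agent.Helper98K9.HP.Heavy
import Pool.Agent.Helper98K9.HP.Lln
import Pool.Agent.Helper98K9.HP.Cut
import Pool.Agent.Helper98K9.HP.Cutp
import Pool.Agent.Helper98K9.HP.Merge
import Pool.Agent.Helper98K9.HP.Giant
import Pool.Agent.Helper98K9.HP.Pathf
import Pool.Agent.Helper98K9.HP.Base
import Pool.Agent.Helper98K9.HP.Flow
import Pool.Agent.Helper98K9.HP.One
import Pool.Agent.Helper98K9.HP.Binb
import Pool.Agent.Helper98K9.HP.Step
import Pool.Agent.Helper98K9.HP.Rule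
import Pool.Agent.Helper98K9.HP.Boot
import Pool.Agent.Helper98K9.HP.Itr
import Pool.Agent.Helper98K9.HP.Mz
import Pool.Agent.Helper98K9.HP.Conn
import Pool.Agent.Helper98K9.HP.Dual
import Pool.Agent.Helper98K9.HP.Last
import Pool.Agent.Helper98K9.HP.Tra

set_option autoImplicit false

namespace Pool.Agent.Helper98K9.HP

open MeasureTheory

theorem all_final (N : ℕ) (hN : 2 ≤ N) (C0 C1 C2 α : ℝ) (h0 : 0 ≤ C0) (h1 : 0 ≤ C1) (h2 : 0 < C2)
    (hα : 0 < α) :
    (∀ᵐ ω ∂(PP N (cseq C0 C1 C2 α)), ∀ x, ((G ω).neighborSet x).Finite) ∧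
    (α ≤ 1 → ∀ᵐ ω ∂(PP N (cseq C0 C1 C2 α)), ∀ x, InfC (G ω) x → Recurrent (G ω) x) ∧
    (1 < α → ∀ᵐ ω ∂(PP N (cseq C0 C1 C2 α)), ∀ x, InfC (G ω) x → Transient (G ω) x) := by
  have hheavy : S_HEAVY := heavy meas ti (esc mix meas clo)
  have hlln : S_LLN := lln mix meas ti hheavy
  have hmerge : S_MERGE := merge mix meas cut (cutp clof)
  have hgiant : S_GIANT := giant hlln hmerge
  have hstep : S_STEP := step mix meas (binb (indf mix)) (one flow ber cher)
  have hlast : S_LAST := last ti meas lf rec2 rcmp hheavy mz (conn mix meas clof) scon cnt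
  have htra : S_TRA := tra ti (base meas hgiant pathf) boot itr (rule hstep) hlast
  have hreca : S_RECA := reca lf
  exact final lf adm div hreca htra N hN C0 C1 C2 α h0 h1 h2 hα

end Pool.Agent.Helper98K9.HP
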