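import Mathlib

set_option autoImplicit false

/-!
# Percolation and random walk on the hierarchical group: definitions
-/

namespace Pool.Agent.Helper98K9.HP

open MeasureTheory ProbabilityTheory
open scoped ENNReal NNReal

/-- The hierarchical group of order `N`; the coordinates are indexed from `0`. -/
abbrev V (N : ℕ) : Type := ℕ →₀ ZMod N

/-- Hierarchical distance: the largest `i`, counted from `1`, with `x_i ≠ y_i`; `0` if `x = y`. -/
noncomputable def dist {N : ℕ} (x y : V N) : ℕ := (x - y).support.sup (· + 1)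

theorem dist_le {N : ℕ} {x y : V N} {k : ℕ} : dist x y ≤ k ↔ ∀ i, k ≤ i → x i = y i := by
  unfold dist
  rw [Finset.sup_le_iff]
  constructor
  · intro h i hi
    by_contra hne
    have h1 : i ∈ (x - y).support := by
      rw [Finsupp.mem_support_iff, Finsupp.sub_apply]
      exact sub_ne_zero.2 hne
    have h2 : i + 1 ≤ k := h i h1
    omega
  · intro h i hi
    rw [Finsupp.mem_support_iff, Finsupp.sub_apply, sub_ne_zero] at hi
    show i + 1 ≤ k
    by_contra hne
    exact hi (h i (by omega))

theorem dist_comm {N : ℕ} (x y : V N) : dist x y = dist y x := by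
  apply le_antisymm <;> rw [dist_le] <;> intro i hi
  · exact ((dist_le.1 le_rfl) i hi).symm
  · exact ((dist_le.1 le_rfl) i hi).symm

theorem dist_self {N : ℕ} (x : V N) : dist x x = 0 :=
  Nat.le_zero.1 (dist_le.2 fun _ _ => rfl)

theorem dist_eq_zero {N : ℕ} {x y : V N} : dist x y = 0 ↔ x = y := by
  constructor
  · intro h
    ext i
    exact dist_le.1 h.le i (Nat.zero_le i)
  · rintro rfl
    exact dist_self x

theorem dist_ultra {N : ℕ} (x y z : V N) : dist x z ≤ max (dist x y) (dist y z) := by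
  rw [dist_le]
  intro i hi
  rw [dist_le.1 le_rfl i (le_trans (le_max_left _ _) hi),
    dist_le.1 le_rfl i (le_trans (le_max_right _ _) hi)]

theorem dist_add {N : ℕ} (x y a : V N) : dist (x + a) (y + a) = dist x y := by
  unfold dist
  rw [add_sub_add_right_eq_sub]

/-- The connection probability of two points at distance `k`. -/
noncomputable def pr (N : ℕ) (c : ℕ → ℝ) (k : ℕ) : ℝ≥0 :=
  min (Real.toNNReal (c k / (N : ℝ) ^ (2 * k))) 1

/-- Edges (unordered pairs). -/
abbrev Ed (N : ℕ) : Type := Sym2 (V N)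

/-- Configurations: `true` means open. -/
abbrev Cf (N : ℕ) : Type := Ed N → Bool

/-- The connection probability of a pair. -/
noncomputable def prE (N : ℕ) (c : ℕ → ℝ) : Ed N → ℝ≥0 :=
  Sym2.lift ⟨fun x y => pr N c (dist x y), fun x y => by
    show pr N c (dist x y) = pr N c (dist y x)
    rw [dist_comm]⟩

theorem prE_mk (N : ℕ) (c : ℕ → ℝ) (x y : V N) : prE N c s(x, y) = pr N c (dist x y) := rfl

theorem pr_le (N : ℕ) (c : ℕ → ℝ) (k : ℕ) : pr N c k ≤ 1 := min_le_right _ _

theorem prE_le (N : ℕ) (c : ℕ → ℝ) (e : Ed N) : prE N c e ≤ 1 := by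
  induction e using Sym2.ind with
  | _ x y => exact pr_le N c _

/-- The law of the configuration: independent edges, open with probability `min (c_k / N^(2k)) 1`
for pairs at distance `k`. -/
noncomputable def PP (N : ℕ) (c : ℕ → ℝ) : Measure (Cf N) :=
  Measure.infinitePi fun e : Ed N => (PMF.bernoulli (prE N c e) (prE_le N c e)).toMeasure

instance (N : ℕ) (c : ℕ → ℝ) : IsProbabilityMeasure (PP N c) := by
  unfold PP; infer_instance

/-- The random graph. -/
def G {N : ℕ} (ω : Cf N) : SimpleGraph (V N) where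
  Adj x y := x ≠ y ∧ ω s(x, y) = true
  symm := ⟨fun x y h => ⟨h.1.symm, by rw [Sym2.eq_swap]; exact h.2⟩⟩
  loopless := ⟨fun _ h => h.1 rfl⟩

/-- The random graph restricted to a set `W` of vertices. -/
def GW {N : ℕ} (ω : Cf N) (W : Set (V N)) : SimpleGraph (V N) where
  Adj x y := (G ω).Adj x y ∧ x ∈ W ∧ y ∈ W
  symm := ⟨fun _ _ h => ⟨h.1.symm, h.2.2, h.2.1⟩⟩
  loopless := ⟨fun _ h => h.1.1 rfl⟩

/-- The connected component of `x` is infinite. -/
def InfC {X : Type} (Γ : SimpleGraph X) (x : X) : Prop := {y | Γ.Reachable x y}.Infinite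

/-- `stepP Γ n x y` is the probability that simple random walk on `Γ` started at `x` is at `y`
after `n` steps. -/
noncomputable def stepP {X : Type} (Γ : SimpleGraph X) : ℕ → X → X → ℝ
  | 0, x, y => open Classical in if x = y then 1 else 0
  | n + 1, x, y => (∑ᶠ z ∈ Γ.neighborSet x, stepP Γ n z y) / (Γ.neighborSet x).ncard

/-- Simple random walk started at `x` is recurrent: the expected number of visits to `x` is
infinite. -/
def Recurrent {X : Type} (Γ : SimpleGraph X) (x : X) : Prop := ¬ Summable fun n => stepP Γ n x x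

/-- Simple random walk started at `x` is transient: the expected number of visits to `x` is
finite. -/
def Transient {X : Type} (Γ : SimpleGraph X) (x : X) : Prop := Summable fun n => stepP Γ n x x

/-- The sequence `c_k = C₀ + C₁ log k + C₂ k^α`. -/
noncomputable def cseq (C0 C1 C2 α : ℝ) (k : ℕ) : ℝ :=
  C0 + C1 * Real.log k + C2 * (k : ℝ) ^ α

/-! ## auxiliary definitions -/

/-- Dirichlet energy (every edge is counted twice) -/
noncomputable def energy {X : Type} (Γ : SimpleGraph X) (f : X → ℝ) : ℝ≥0∞ :=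
  open Classical in ∑' x, ∑' y, if Γ.Adj x y then ENNReal.ofReal ((f x - f y) ^ 2) else 0

/-- forget the first `k` coordinates -/
noncomputable def tr {N : ℕ} (k : ℕ) (x : V N) : V N := x.filter (k ≤ ·)

theorem tr_apply {N : ℕ} (k : ℕ) (x : V N) (i : ℕ) : tr k x i = if k ≤ i then x i else 0 := by
  unfold tr
  by_cases h : k ≤ i
  · rw [Finsupp.filter_apply_pos _ _ h, if_pos h]
  · rw [Finsupp.filter_apply_neg _ _ h, if_neg h]

theorem tr_eq {N : ℕ} {k : ℕ} {x y : V N} : tr k x = tr k y ↔ dist x y ≤ k := by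
  rw [dist_le]
  constructor
  · intro h i hi
    have := DFunLike.congr_fun h i
    rwa [tr_apply, tr_apply, if_pos hi, if_pos hi] at this
  · intro h
    ext i
    rw [tr_apply, tr_apply]
    split_ifs with hi
    · exact h i hi
    · rfl

theorem tr_tr {N : ℕ} (k : ℕ) (x : V N) : tr k (tr k x) = tr k x := by
  ext i
  rw [tr_apply, tr_apply]
  split_ifs <;> rfl

theorem dist_tr {N : ℕ} (k : ℕ) (x : V N) : dist (tr k x) x ≤ k := tr_eq.1 (tr_tr k x)

/-- the points with `tr k = tr k x`, parametrised by the first `k` coordinates -/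
noncomputable def ballMap {N : ℕ} (k : ℕ) (x : V N) (g : Fin k → ZMod N) : V N :=
  tr k x + ∑ i : Fin k, Finsupp.single (i : ℕ) (g i)

theorem ballMap_apply {N : ℕ} (k : ℕ) (x : V N) (g : Fin k → ZMod N) (i : ℕ) :
    ballMap k x g i = if h : i < k then g ⟨i, h⟩ else x i := by
  unfold ballMap
  rw [Finsupp.add_apply, tr_apply, Finsupp.finsetSum_apply]
  by_cases h : i < k
  · rw [if_neg (by omega), dif_pos h, zero_add, Finset.sum_eq_single (⟨i, h⟩ : Fin k)]
    · simp
    · intro j _ hj
      rw [Finsupp.single_apply, if_neg]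
      intro e
      exact hj (Fin.ext e)
    · simp
  · rw [if_pos (by omega), dif_neg h, Finset.sum_eq_zero, add_zero]
    intro j _
    rw [Finsupp.single_apply, if_neg]
    have := j.2
    omega

theorem ballMap_inj {N : ℕ} (k : ℕ) (x : V N) : Function.Injective (ballMap (N := N) k x) := by
  intro g g' h
  funext i
  have := DFunLike.congr_fun h (i : ℕ)
  rwa [ballMap_apply, ballMap_apply, dif_pos i.2, dif_pos i.2] at this

theorem dist_ballMap {N : ℕ} (k : ℕ) (x : V N) (g : Fin k → ZMod N) :
    dist x (ballMap k x g) ≤ k := by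
  rw [dist_le]
  intro i hi
  rw [ballMap_apply, dif_neg (by omega)]

theorem exists_ballMap {N : ℕ} {k : ℕ} {x y : V N} (h : dist x y ≤ k) :
    ∃ g, ballMap k x g = y := by
  refine ⟨fun i => y i, ?_⟩
  ext i
  rw [ballMap_apply]
  split_ifs with hi
  · rfl
  · exact dist_le.1 h i (by omega)

/-- The ball of level `k` around `x`. -/
noncomputable def ball {N : ℕ} [NeZero N] (k : ℕ) (x : V N) : Finset (V N) :=
  Finset.univ.map ⟨ballMap k x, ballMap_inj k x⟩

section
variable {N : ℕ} [NeZero N]

theorem mem_ball {k : ℕ} {x y : V N} : y ∈ ball k x ↔ dist x y ≤ k := by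
  unfold ball
  rw [Finset.mem_map]
  constructor
  · rintro ⟨g, -, rfl⟩
    exact dist_ballMap k x g
  · intro h
    obtain ⟨g, hg⟩ := exists_ballMap h
    exact ⟨g, Finset.mem_univ _, hg⟩

theorem card_ball (k : ℕ) (x : V N) : (ball k x).card = N ^ k := by
  unfold ball
  rw [Finset.card_map, Finset.card_univ, Fintype.card_fun, ZMod.card, Fintype.card_fin]

theorem self_mem_ball (k : ℕ) (x : V N) : x ∈ ball k x := by
  rw [mem_ball, dist_self]; exact Nat.zero_le _

theorem ball_eq {k : ℕ} {x y : V N} (h : dist x y ≤ k) : ball k x = ball k y := by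
  ext z
  rw [mem_ball, mem_ball]
  constructor
  · intro h1
    exact (dist_ultra y x z).trans (max_le (by rwa [dist_comm]) h1)
  · intro h1
    exact (dist_ultra x y z).trans (max_le h h1)

theorem ball_tr (k : ℕ) (x : V N) : ball k (tr k x) = ball k x := ball_eq (dist_tr k x)

theorem ball_mono {k l : ℕ} (h : k ≤ l) (x : V N) : ball k x ⊆ ball l x := by
  intro y hy
  rw [mem_ball] at hy ⊢
  exact hy.trans h

/-- The labels of the balls of level `k` contained in the ball of level `k + l` around `x`; the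
ball with label `z` is `ball k z`. -/
noncomputable def subs (k l : ℕ) (x : V N) : Finset (V N) :=
  open Classical in (ball (k + l) x).image (tr k)

theorem mem_subs {k l : ℕ} {x z : V N} : z ∈ subs k l x ↔ tr k z = z ∧ dist x z ≤ k + l := by
  classical
  unfold subs
  rw [Finset.mem_image]
  constructor
  · rintro ⟨y, hy, rfl⟩
    rw [mem_ball] at hy
    refine ⟨tr_tr k y, (dist_ultra x y _).trans (max_le hy ?_)⟩
    rw [dist_comm]
    exact (dist_tr k y).trans (Nat.le_add_right _ _)
  · rintro ⟨h1, h2⟩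
    exact ⟨z, mem_ball.2 h2, h1⟩

theorem tr_mem_subs {k l : ℕ} {x y : V N} (h : y ∈ ball (k + l) x) : tr k y ∈ subs k l x := by
  classical
  unfold subs
  exact Finset.mem_image_of_mem _ h

theorem mem_ball_label {k l : ℕ} {x z y : V N} (hz : z ∈ subs k l x) :
    y ∈ ball k z ↔ tr k y = z := by
  rw [mem_ball, ← tr_eq, (mem_subs.1 hz).1]
  exact eq_comm

theorem ball_subs_subset {k l : ℕ} {x z : V N} (hz : z ∈ subs k l x) :
    ball k z ⊆ ball (k + l) x := by
  intro y hy
  rw [mem_ball] at hy ⊢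
  exact (dist_ultra x z y).trans (max_le (mem_subs.1 hz).2 (hy.trans (Nat.le_add_right _ _)))

theorem subs_disjoint {k l : ℕ} {x z z' : V N} (hz : z ∈ subs k l x) (hz' : z' ∈ subs k l x)
    (hne : z ≠ z') : Disjoint (ball k z) (ball k z') := by
  rw [Finset.disjoint_left]
  intro y hy hy'
  rw [mem_ball_label hz] at hy
  rw [mem_ball_label hz'] at hy'
  exact hne (hy.symm.trans hy')

/-- points of different sub-balls are at distance more than `k` and at most `k + l` -/
theorem subs_dist {k l : ℕ} {x z z' y y' : V N} (hz : z ∈ subs k l x) (hz' : z' ∈ subs k l x)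
    (hne : z ≠ z') (hy : y ∈ ball k z) (hy' : y' ∈ ball k z') :
    k < dist y y' ∧ dist y y' ≤ k + l := by
  constructor
  · by_contra h
    rw [not_lt, ← tr_eq, (mem_ball_label hz).1 hy, (mem_ball_label hz').1 hy'] at h
    exact hne h
  · have h1 := ball_subs_subset hz hy
    have h2 := ball_subs_subset hz' hy'
    rw [mem_ball] at h1 h2
    exact (dist_ultra y x y').trans (max_le (by rwa [dist_comm]) h2)

/-- a sum over a ball is the sum over the sub-balls -/
theorem sum_subs {M : Type} [AddCommMonoid M] (k l : ℕ) (x : V N) (f : V N → M) :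
    ∑ y ∈ ball (k + l) x, f y = ∑ z ∈ subs k l x, ∑ y ∈ ball k z, f y := by
  classical
  rw [← Finset.sum_fiberwise_of_maps_to (s := ball (k + l) x) (t := subs k l x) (g := tr k)
    (fun y hy => tr_mem_subs hy)]
  apply Finset.sum_congr rfl
  intro z hz
  apply Finset.sum_congr _ fun _ _ => rfl
  ext y
  rw [Finset.mem_filter, mem_ball_label hz]
  constructor
  · exact fun h => h.2
  · intro h
    exact ⟨ball_subs_subset hz ((mem_ball_label hz).2 h), h⟩

theorem card_subs (k l : ℕ) (x : V N) : (subs k l x).card = N ^ l := by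
  have h := sum_subs k l x (fun _ => (1 : ℕ))
  rw [Finset.sum_const, card_ball, smul_eq_mul, mul_one] at h
  simp only [Finset.sum_const, card_ball, smul_eq_mul, mul_one] at h
  have hN : 0 < N ^ k := pow_pos (Nat.pos_of_ne_zero (NeZero.ne N)) k
  rw [pow_add, mul_comm] at h
  exact (Nat.eq_of_mul_eq_mul_right hN h).symm

/-- the open cluster of `x` inside the ball of level `k` around `x` -/
noncomputable def clu (ω : Cf N) (k : ℕ) (x : V N) : Finset (V N) :=
  open Classical in (ball k x).filter fun y => (GW ω (ball k x : Set (V N))).Reachable x y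

/-- the edges inside the ball of level `k` around `x` -/
def ins (k : ℕ) (x : V N) : Set (Ed N) := {e | ∀ v ∈ e, v ∈ ball k x}

/-- the event or function `F` depends only on the bits in `D` -/
def Dep {N : ℕ} {β : Type*} (D : Set (Ed N)) (F : Cf N → β) : Prop :=
  ∀ ω ω' : Cf N, (∀ e ∈ D, ω e = ω' e) → F ω = F ω'

/-- `x` is `M`-light at level `k`: its cluster in the ball of level `k` sends in mean at most
about `M` edges to the next level -/
def light (c : ℕ → ℝ) (k : ℕ) (M : ℝ) (x : V N) : Set (Cf N) :=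
  {ω | ((clu ω k x).card : ℝ) * c (k + 1) < M * (N : ℝ) ^ k}

/-- admissible sequences -/
structure Adm (N : ℕ) (c : ℕ → ℝ) (A : ℝ) : Prop where
  pos : ∀ k, 1 ≤ k → 0 < c k
  mono : ∀ j k, 1 ≤ j → j ≤ k → c j ≤ c k
  summ : ∀ i, Summable fun r : ℕ => c (i + 1 + r) * ((r : ℝ) + 1) ^ 2 / (N : ℝ) ^ (r + 1)
  tail : ∀ i, ∑' r : ℕ, c (i + 1 + r) * ((r : ℝ) + 1) ^ 2 / (N : ℝ) ^ (r + 1) ≤ A * c (i + 1)
  ratio : ∀ i, 1 ≤ i → c (i + 1) ≤ A * c i

end

/-! ## flows -/

/-- `Θ u` (`u ∈ S`) is an antisymmetric flow along the edges of `Γ` between points of the finite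
set `W`, from `u` to the uniform distribution of `S`, and the sum of these flows is zero. -/
structure Fam {X : Type} (Γ : SimpleGraph X) (W S : Finset X) (Θ : X → X → X → ℝ) : Prop where
  sub : S ⊆ W
  supp : ∀ u ∈ S, ∀ a b, Θ u a b ≠ 0 → Γ.Adj a b ∧ a ∈ W ∧ b ∈ W
  anti : ∀ u ∈ S, ∀ a b, Θ u a b = - Θ u b a
  div : ∀ u ∈ S, ∀ a ∈ W, ∑ b ∈ W, Θ u a b =
    (open Classical in if a = u then 1 else 0) - (open Classical in if a ∈ S then 1 / (S.card : ℝ) else 0)
  zero : ∀ a b, ∑ u ∈ S, Θ u a b = 0

/-- total energy of a family (every edge is counted twice) -/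
noncomputable def enF {X : Type} (W S : Finset X) (Θ : X → X → X → ℝ) : ℝ :=
  ∑ u ∈ S, ∑ a ∈ W, ∑ b ∈ W, Θ u a b ^ 2

/-- the minimal total energy of a family in the ball of level `k` around `x`, for sets `S` with at
least `ρ N^k` points (`∞` if there is no such family) -/
noncomputable def QQ {N : ℕ} [NeZero N] (ρ : ℝ) (k : ℕ) (x : V N) (ω : Cf N) : ℝ≥0∞ :=
  ⨅ (S : Finset (V N)) (Θ : V N → V N → V N → ℝ) (_ : ρ * (N : ℝ) ^ k ≤ S.card) (_ : 0 < S.card)
    (_ : Fam (G ω) (ball k x) S Θ), ENNReal.ofReal (enF (ball k x) S Θ)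

/-- Level statement: every ball of level `k` has, outside an event of probability at most `q`,
families of density at least `ρ`, with mean total energy at most `a N^k`. -/
def Lev (N : ℕ) [NeZero N] (c : ℕ → ℝ) (k : ℕ) (ρ q a : ℝ) : Prop :=
  ∀ x : V N, ∃ E : Set (Cf N), Dep (ins k x) (fun ω => ω ∈ E) ∧ MeasurableSet E ∧
    (∀ ω ∈ E, QQ ρ k x ω ≠ ∞) ∧ PP N c Eᶜ ≤ ENNReal.ofReal q ∧
    ∫⁻ ω in E, QQ ρ k x ω ∂(PP N c) ≤ ENNReal.ofReal (a * (N : ℝ) ^ k)

end Pool.Agent.Helper98K9.HP
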