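import Pool.Agent.Helper98K9.HP.Indf

set_option autoImplicit false

namespace Pool.Agent.Helper98K9.HP

open MeasureTheory ProbabilityTheory Filter Topology
open scoped ENNReal NNReal

namespace EscL

variable {N : ℕ} [NeZero N]

/-- the edges leaving the ball of level `k` around `x` with one endpoint in `C` -/
def out (k : ℕ) (x : V N) (C : Finset (V N)) : Set (Ed N) :=
  {e | ∃ u ∈ C, ∃ v, v ∉ ball k x ∧ e = s(u, v)}

theorem clu_subset (ω : Cf N) (k : ℕ) (x : V N) : clu ω k x ⊆ ball k x := by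
  classical
  intro y hy
  unfold clu at hy
  exact (Finset.mem_filter.1 hy).1

theorem mem_clu (ω : Cf N) (k : ℕ) (x y : V N) :
    y ∈ clu ω k x ↔ y ∈ ball k x ∧ (GW ω (ball k x : Set (V N))).Reachable x y := by
  classical
  unfold clu
  rw [Finset.mem_filter]

theorem GW_dep (k : ℕ) (x : V N) (ω ω' : Cf N) (h : ∀ e ∈ ins k x, ω e = ω' e) :
    GW ω (ball k x : Set (V N)) = GW ω' (ball k x : Set (V N)) := by
  ext a b
  have key : ∀ ω₁ ω₂ : Cf N, (∀ e ∈ ins k x, ω₁ e = ω₂ e) →
      (GW ω₁ (ball k x : Set (V N))).Adj a b → (GW ω₂ (ball k x : Set (V N))).Adj a b := by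
    rintro ω₁ ω₂ h ⟨⟨h1, h2⟩, h3, h4⟩
    refine ⟨⟨h1, ?_⟩, h3, h4⟩
    rw [← h]
    · exact h2
    · intro v hv
      rw [Sym2.mem_iff] at hv
      rcases hv with rfl | rfl
      · exact h3
      · exact h4
  exact ⟨key ω ω' h, key ω' ω fun e he => (h e he).symm⟩

theorem clu_dep (k : ℕ) (x : V N) : Dep (ins k x) (fun ω => clu ω k x) := by
  intro ω ω' h
  show clu ω k x = clu ω' k x
  ext y
  rw [mem_clu, mem_clu, GW_dep k x ω ω' h]

theorem light_dep (c : ℕ → ℝ) (k : ℕ) (M : ℝ) (x : V N) :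
    Dep (ins k x) (fun ω => ω ∈ light c k M x) := by
  intro ω ω' h
  have h1 := clu_dep k x ω ω' h
  simp only at h1
  show (((clu ω k x).card : ℝ) * c (k + 1) < M * (N : ℝ) ^ k) =
    (((clu ω' k x).card : ℝ) * c (k + 1) < M * (N : ℝ) ^ k)
  rw [h1]

/-- an infinite component leaves the ball through an edge from the cluster -/
theorem exists_out (ω : Cf N) (k : ℕ) (x : V N) (h : InfC (G ω) x) :
    ∃ e ∈ out k x (clu ω k x), ω e = true := by
  by_contra hne
  apply h
  apply (Finset.finite_toSet (clu ω k x)).subset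
  intro y hy
  have hy' : (G ω).Reachable x y := hy
  rw [SimpleGraph.reachable_iff_reflTransGen] at hy'
  rw [Finset.mem_coe]
  induction hy' with
  | refl =>
    rw [mem_clu]
    exact ⟨self_mem_ball k x, SimpleGraph.Reachable.refl _⟩
  | tail _ hbc ih =>
    rename_i b z _
    have hb := ih (by
      rw [Set.mem_ofPred_eq, SimpleGraph.reachable_iff_reflTransGen]
      assumption)
    by_cases hz : z ∈ ball k x
    · rw [mem_clu] at hb ⊢
      refine ⟨hz, hb.2.trans ?_⟩
      apply SimpleGraph.Adj.reachable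
      exact ⟨hbc, hb.1, hz⟩
    · exact absurd ⟨s(b, z), ⟨b, hb, z, hz, rfl⟩, hbc.2⟩ hne

/-- number of points at distance `j` -/
theorem tsum_dist (p : ℕ → ℝ≥0∞) (u : V N) (k : ℕ) :
    ∑' v : {v : V N // v ∉ ball k u}, p (dist u v) ≤
      ∑' r : ℕ, (N : ℝ≥0∞) ^ (k + 1 + r) * p (k + 1 + r) := by
  classical
  calc ∑' v : {v : V N // v ∉ ball k u}, p (dist u v)
      ≤ ∑' v : {v : V N // v ∉ ball k u}, ∑' r : ℕ,
          (if dist u v = k + 1 + r then p (k + 1 + r) else 0) := by
        apply ENNReal.tsum_le_tsum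
        rintro ⟨v, hv⟩
        rw [mem_ball, not_le] at hv
        obtain ⟨r, hr⟩ := Nat.exists_eq_add_of_le (Nat.succ_le_of_lt hv)
        have hr' : dist u v = k + 1 + r := by rw [hr, Nat.succ_eq_add_one]
        refine le_trans ?_ (ENNReal.le_tsum r)
        simp only [hr', if_true]
        exact le_rfl
    _ = ∑' r : ℕ, ∑' v : {v : V N // v ∉ ball k u},
          (if dist u v = k + 1 + r then p (k + 1 + r) else 0) := ENNReal.tsum_comm
    _ ≤ ∑' r : ℕ, (N : ℝ≥0∞) ^ (k + 1 + r) * p (k + 1 + r) := by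
        apply ENNReal.tsum_le_tsum
        intro r
        calc ∑' v : {v : V N // v ∉ ball k u},
              (if dist u v = k + 1 + r then p (k + 1 + r) else 0)
            ≤ ∑' v : V N, (if dist u v = k + 1 + r then p (k + 1 + r) else 0) :=
              ENNReal.tsum_comp_le_tsum_of_injective Subtype.val_injective
                (fun v : V N => if dist u v = k + 1 + r then p (k + 1 + r) else 0)
          _ = ∑ v ∈ ball (k + 1 + r) u,
              (if dist u v = k + 1 + r then p (k + 1 + r) else 0) := by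
              apply tsum_eq_sum
              intro v hv
              rw [if_neg]
              intro h
              exact hv (mem_ball.2 h.le)
          _ ≤ ∑ _v ∈ ball (k + 1 + r) u, p (k + 1 + r) := by
              apply Finset.sum_le_sum
              intro v _
              split_ifs
              · exact le_rfl
              · exact zero_le
          _ = (N : ℝ≥0∞) ^ (k + 1 + r) * p (k + 1 + r) := by
              rw [Finset.sum_const, card_ball, nsmul_eq_mul]
              push_cast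
              rfl

omit [NeZero N] in
theorem A_nonneg {c : ℕ → ℝ} {A : ℝ} (hA : Adm N c A) : 0 ≤ A := by
  have h1 := hA.tail 0
  have h2 : 0 ≤ ∑' r : ℕ, c (0 + 1 + r) * ((r : ℝ) + 1) ^ 2 / (N : ℝ) ^ (r + 1) := by
    apply tsum_nonneg
    intro r
    have := hA.pos (0 + 1 + r) (by omega)
    positivity
  have h3 := hA.pos (0 + 1) (by omega)
  by_contra h
  push Not at h
  nlinarith

theorem pr_le' (N : ℕ) (c : ℕ → ℝ) (k : ℕ) :
    (pr N c k : ℝ≥0∞) ≤ ENNReal.ofReal (c k / (N : ℝ) ^ (2 * k)) := by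
  unfold pr ENNReal.ofReal
  exact_mod_cast min_le_left _ _

/-- the mean number of edges leaving the ball from `u` -/
theorem tail_le {c : ℕ → ℝ} {A : ℝ} (hA : Adm N c A) (u : V N) (k : ℕ) :
    ∑' v : {v : V N // v ∉ ball k u}, (pr N c (dist u v) : ℝ≥0∞) ≤
      ENNReal.ofReal (A * c (k + 1) / (N : ℝ) ^ k) := by
  have hN : (0 : ℝ) < N := by exact_mod_cast Nat.pos_of_ne_zero (NeZero.ne N)
  have hterm : ∀ r : ℕ, c (k + 1 + r) / (N : ℝ) ^ (k + 1 + r) ≤
      (c (k + 1 + r) * ((r : ℝ) + 1) ^ 2 / (N : ℝ) ^ (r + 1)) * (1 / (N : ℝ) ^ k) := by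
    intro r
    have h1 := hA.pos (k + 1 + r) (by omega)
    have e1 : (N : ℝ) ^ (k + 1 + r) = (N : ℝ) ^ (r + 1) * (N : ℝ) ^ k := by
      rw [← pow_add]; congr 1; omega
    rw [e1]
    have h2 : (1 : ℝ) ≤ ((r : ℝ) + 1) ^ 2 := by
      have : (0 : ℝ) ≤ r := Nat.cast_nonneg r
      nlinarith
    rw [div_mul_div_comm, mul_one]
    apply div_le_div_of_nonneg_right _ (by positivity)
    nlinarith
  have hnn : ∀ r : ℕ, 0 ≤ c (k + 1 + r) / (N : ℝ) ^ (k + 1 + r) := by
    intro r
    have h1 := hA.pos (k + 1 + r) (by omega)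
    positivity
  have hs2 := (hA.summ k).mul_right (1 / (N : ℝ) ^ k)
  have hs : Summable fun r : ℕ => c (k + 1 + r) / (N : ℝ) ^ (k + 1 + r) :=
    Summable.of_nonneg_of_le hnn hterm hs2
  calc ∑' v : {v : V N // v ∉ ball k u}, (pr N c (dist u v) : ℝ≥0∞)
      ≤ ∑' r : ℕ, (N : ℝ≥0∞) ^ (k + 1 + r) * (pr N c (k + 1 + r) : ℝ≥0∞) :=
        tsum_dist (fun j => (pr N c j : ℝ≥0∞)) u k
    _ ≤ ∑' r : ℕ, ENNReal.ofReal (c (k + 1 + r) / (N : ℝ) ^ (k + 1 + r)) := by
        apply ENNReal.tsum_le_tsum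
        intro r
        refine le_trans (mul_le_mul_right (pr_le' N c _) _) ?_
        have e : (N : ℝ≥0∞) ^ (k + 1 + r) = ENNReal.ofReal ((N : ℝ) ^ (k + 1 + r)) := by
          rw [ENNReal.ofReal_pow hN.le, ENNReal.ofReal_natCast]
        rw [e, ← ENNReal.ofReal_mul (by positivity)]
        apply ENNReal.ofReal_le_ofReal
        have hq : ∀ P y : ℝ, P ≠ 0 → P * (y / (P * P)) = y / P := by
          intro P y hP
          field_simp
        have e2 : (N : ℝ) ^ (2 * (k + 1 + r)) = (N : ℝ) ^ (k + 1 + r) * (N : ℝ) ^ (k + 1 + r) := by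
          rw [two_mul, ← pow_add]
        rw [e2]
        exact (hq _ _ (by positivity)).le
    _ = ENNReal.ofReal (∑' r : ℕ, c (k + 1 + r) / (N : ℝ) ^ (k + 1 + r)) :=
        (ENNReal.ofReal_tsum_of_nonneg hnn hs).symm
    _ ≤ ENNReal.ofReal (A * c (k + 1) / (N : ℝ) ^ k) := by
        apply ENNReal.ofReal_le_ofReal
        refine le_trans (hs.tsum_le_tsum hterm hs2) ?_
        rw [tsum_mul_right, mul_one_div]
        exact div_le_div_of_nonneg_right (hA.tail k) (by positivity)

/-- the mean number of open edges leaving the ball from `C` -/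
theorem out_le {c : ℕ → ℝ} {A : ℝ} (hA : Adm N c A) (k : ℕ) (x : V N) (C : Finset (V N))
    (hC : C ⊆ ball k x) :
    ∑' e : out k x C, (prE N c e : ℝ≥0∞) ≤
      ENNReal.ofReal (C.card * (A * c (k + 1) / (N : ℝ) ^ k)) := by
  classical
  let g : (Σ u : {u : V N // u ∈ C}, {v : V N // v ∉ ball k (u : V N)}) → out k x C :=
    fun p => ⟨s(p.1.1, p.2.1), p.1.1, p.1.2, p.2.1, by
      have h := p.2.2
      have h2 : ball k (p.1 : V N) = ball k x := ball_eq (by
        rw [dist_comm]; exact mem_ball.1 (hC p.1.2))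
      exact fun h' => h ((Finset.ext_iff.1 h2 _).2 h'), rfl⟩
  have hg : Function.Surjective g := by
    rintro ⟨e, u, hu, v, hv, rfl⟩
    have h2 : ball k u = ball k x := ball_eq (by
        rw [dist_comm]; exact mem_ball.1 (hC hu))
    exact ⟨⟨⟨u, hu⟩, ⟨v, fun h' => hv ((Finset.ext_iff.1 h2 _).1 h')⟩⟩, rfl⟩
  calc ∑' e : out k x C, (prE N c e : ℝ≥0∞)
      ≤ ∑' p, (prE N c (g p : Ed N) : ℝ≥0∞) :=
        ENNReal.tsum_le_tsum_comp_of_surjective hg _
    _ = ∑' u : {u : V N // u ∈ C}, ∑' v : {v : V N // v ∉ ball k (u : V N)},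
          (pr N c (dist (u : V N) v) : ℝ≥0∞) := by
        rw [ENNReal.tsum_sigma']
        rfl
    _ ≤ ∑' _u : {u : V N // u ∈ C}, ENNReal.ofReal (A * c (k + 1) / (N : ℝ) ^ k) := by
        apply ENNReal.tsum_le_tsum
        intro u
        exact tail_le hA _ _
    _ = ENNReal.ofReal (C.card * (A * c (k + 1) / (N : ℝ) ^ k)) := by
        rw [tsum_fintype, Finset.sum_const, nsmul_eq_mul]
        rw [ENNReal.ofReal_mul (Nat.cast_nonneg _), ENNReal.ofReal_natCast]
        simp

omit [NeZero N] in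
/-- the connection probabilities tend to `0` -/
theorem pr_small {c : ℕ → ℝ} {A : ℝ} (h2 : 2 ≤ N) (hA : Adm N c A) :
    ∃ k0 : ℕ, ∀ j, k0 ≤ j → (pr N c j : ℝ) ≤ 1 / 2 := by
  have h := (hA.summ 0).tendsto_atTop_zero
  have h' := h.eventually (gt_mem_nhds (show (0 : ℝ) < 1 / 2 by norm_num))
  obtain ⟨r0, hr0⟩ := eventually_atTop.1 h'
  refine ⟨r0 + 1, fun j hj => ?_⟩
  obtain ⟨r, rfl⟩ : ∃ r, j = 0 + 1 + r := ⟨j - 1, by omega⟩
  have h3 := hr0 r (by omega)
  have hc := hA.pos (0 + 1 + r) (by omega)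
  have hN : (1 : ℝ) ≤ N := by exact_mod_cast (by omega : 1 ≤ N)
  have h4 : (pr N c (0 + 1 + r) : ℝ) ≤ c (0 + 1 + r) / (N : ℝ) ^ (2 * (0 + 1 + r)) := by
    have h5 : pr N c (0 + 1 + r) ≤ Real.toNNReal (c (0 + 1 + r) / (N : ℝ) ^ (2 * (0 + 1 + r))) :=
      min_le_left _ _
    have h6 : (pr N c (0 + 1 + r) : ℝ) ≤
        (Real.toNNReal (c (0 + 1 + r) / (N : ℝ) ^ (2 * (0 + 1 + r))) : ℝ) := by
      exact_mod_cast h5
    rwa [Real.coe_toNNReal _ (by positivity)] at h6
  refine h4.trans (le_trans ?_ h3.le)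
  have h7 : (N : ℝ) ^ (r + 1) ≤ (N : ℝ) ^ (2 * (0 + 1 + r)) :=
    pow_le_pow_right₀ hN (by omega)
  have h8 : (1 : ℝ) ≤ ((r : ℝ) + 1) ^ 2 := by
    have : (0 : ℝ) ≤ r := Nat.cast_nonneg r
    nlinarith
  have h9 : (0 : ℝ) < (N : ℝ) ^ (r + 1) := by positivity
  apply div_le_div₀ (by positivity) (by nlinarith) h9 h7

instance : Countable (Ed N) := by
  unfold Ed Sym2
  infer_instance

theorem meas_closed (D : Set (Ed N)) : MeasurableSet {ω : Cf N | ∀ e ∈ D, ω e = false} := by
  have : {ω : Cf N | ∀ e ∈ D, ω e = false} = ⋂ e ∈ D, {ω : Cf N | ω e = false} := by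
    ext ω; simp
  rw [this]
  apply MeasurableSet.biInter (Set.to_countable D)
  intro e _
  exact measurableSet_eq_fun (measurable_pi_apply e) measurable_const

end EscL

open Classical in
/-- [ESC] -/
theorem esc (hmix : S_MIX) (hmeas : S_MEAS) (hclo : S_CLO) : S_ESC := by
  intro N _ c A h2 hA M hM
  have hA0 := EscL.A_nonneg hA
  obtain ⟨k0, hk0⟩ := EscL.pr_small h2 hA
  have hN : (0 : ℝ) < N := by exact_mod_cast Nat.pos_of_ne_zero (NeZero.ne N)
  have hexp : Real.exp (-(2 * (A * M))) ≤ 1 := by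
    rw [Real.exp_le_one_iff]; have := mul_nonneg hA0 hM.le; linarith
  have hexp0 := Real.exp_pos (-(2 * (A * M)))
  refine ⟨Real.exp (-(2 * (A * M))) / 2, by positivity, by linarith, k0, ?_⟩
  intro k hk x H hH
  -- the event inside
  set B : Set (Cf N) := H ∩ light c k M x with hB
  have hBdep : Dep (ins k x) (fun ω => ω ∈ B) := by
    intro ω ω' h
    have a1 := hH ω ω' h
    have a2 := EscL.light_dep c k M x ω ω' h
    simp only [eq_iff_iff] at a1 a2 ⊢
    rw [hB, Set.mem_inter_iff, Set.mem_inter_iff, a1, a2]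
  obtain ⟨hfin, hm⟩ := hmeas
  have hBC : ∀ C : Finset (V N), MeasurableSet (B ∩ {ω | clu ω k x = C}) ∧
      Dep (ins k x) (fun ω => ω ∈ B ∩ {ω | clu ω k x = C}) := by
    intro C
    have hd : Dep (ins k x) (fun ω => ω ∈ B ∩ {ω | clu ω k x = C}) := by
      intro ω ω' h
      have a1 := hBdep ω ω' h
      have a2 := EscL.clu_dep k x ω ω' h
      simp only [eq_iff_iff] at a1 a2 ⊢
      show (ω ∈ B ∧ clu ω k x = C) ↔ (ω' ∈ B ∧ clu ω' k x = C)
      rw [a1, a2]
    refine ⟨?_, hd⟩
    have := hm N (ins k x) Prop (fun ω => ω ∈ B ∩ {ω | clu ω k x = C}) (hfin N k x) hd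
    exact measurableSet_setOfPred.2 this
  have hO : ∀ C : Finset (V N), MeasurableSet {ω : Cf N | ∃ e ∈ EscL.out k x C, ω e = true} := by
    intro C
    have h := (EscL.meas_closed (EscL.out k x C)).compl
    convert h using 1
    ext ω
    simp
  have hOdep : ∀ C : Finset (V N), Dep (EscL.out k x C)
      (fun ω => ω ∈ {ω : Cf N | ∃ e ∈ EscL.out k x C, ω e = true}) := by
    intro C ω ω' h
    simp only [Set.mem_ofPred_eq, eq_iff_iff]
    refine exists_congr fun e => and_congr_right fun he => ?_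
    rw [h e he]
  have hdisj : ∀ C : Finset (V N), Disjoint (ins k x) (EscL.out k x C) := by
    intro C
    rw [Set.disjoint_left]
    rintro e he ⟨u, _, v, hv, rfl⟩
    exact hv (he v (Sym2.mem_mk_right u v))
  -- bound of the probability of an exit
  have hP : ∀ C ⊆ ball k x, (C.card : ℝ) * c (k + 1) < M * (N : ℝ) ^ k →
      PP N c {ω : Cf N | ∃ e ∈ EscL.out k x C, ω e = true} ≤
        ENNReal.ofReal (1 - Real.exp (-(2 * (A * M))) / 2) := by
    intro C hC hl
    have h1 := hclo N c (EscL.out k x C) (A * M) (mul_nonneg hA0 hM.le) (by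
      rintro e ⟨u, hu, v, hv, rfl⟩
      rw [prE_mk]
      apply hk0
      rw [mem_ball, not_le] at hv
      have h3 := mem_ball.1 (hC hu)
      have h4 := dist_ultra x u v
      have h5 : k < dist u v := by
        by_contra h6
        push Not at h6
        have := h4.trans (max_le h3 h6)
        omega
      omega) (by
      refine (EscL.out_le hA k x C hC).trans (ENNReal.ofReal_le_ofReal ?_)
      have h5 : (C.card : ℝ) * (A * c (k + 1) / (N : ℝ) ^ k) =
          A * ((C.card : ℝ) * c (k + 1) / (N : ℝ) ^ k) := by ring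
      rw [h5]
      apply mul_le_mul_of_nonneg_left _ hA0
      rw [div_le_iff₀ (by positivity)]
      exact hl.le)
    have hcompl : {ω : Cf N | ∃ e ∈ EscL.out k x C, ω e = true} =
        {ω : Cf N | ∀ e ∈ EscL.out k x C, ω e = false}ᶜ := by
      ext ω
      simp
    rw [hcompl, prob_compl_eq_one_sub (EscL.meas_closed _)]
    calc (1 : ℝ≥0∞) - PP N c {ω : Cf N | ∀ e ∈ EscL.out k x C, ω e = false}
        ≤ 1 - ENNReal.ofReal (Real.exp (-(2 * (A * M)))) := tsub_le_tsub_left h1 _
      _ = ENNReal.ofReal (1 - Real.exp (-(2 * (A * M)))) := by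
          rw [ENNReal.ofReal_sub _ hexp0.le, ENNReal.ofReal_one]
      _ ≤ _ := ENNReal.ofReal_le_ofReal (by linarith)
  -- decomposition
  have hsub : B ∩ {ω | InfC (G ω) x} ⊆ ⋃ C ∈ (ball k x).powerset,
      (B ∩ {ω | clu ω k x = C}) ∩ {ω : Cf N | ∃ e ∈ EscL.out k x C, ω e = true} := by
    rintro ω ⟨h3, h4⟩
    simp only [Set.mem_iUnion]
    exact ⟨clu ω k x, Finset.mem_powerset.2 (EscL.clu_subset ω k x), ⟨h3, rfl⟩,
      EscL.exists_out ω k x h4⟩
  calc PP N c (B ∩ {ω | InfC (G ω) x})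
      ≤ PP N c (⋃ C ∈ (ball k x).powerset,
        (B ∩ {ω | clu ω k x = C}) ∩ {ω : Cf N | ∃ e ∈ EscL.out k x C, ω e = true}) :=
        measure_mono hsub
    _ ≤ ∑ C ∈ (ball k x).powerset, PP N c
        ((B ∩ {ω | clu ω k x = C}) ∩ {ω : Cf N | ∃ e ∈ EscL.out k x C, ω e = true}) :=
        measure_biUnion_finset_le _ _
    _ ≤ ∑ C ∈ (ball k x).powerset, ENNReal.ofReal (1 - Real.exp (-(2 * (A * M))) / 2) *
        PP N c (B ∩ {ω | clu ω k x = C}) := by
        apply Finset.sum_le_sum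
        intro C hC
        rw [IndfL.two hmix c (hdisj C) (hBC C).2 (hOdep C) (hBC C).1 (hO C)]
        by_cases hl : (C.card : ℝ) * c (k + 1) < M * (N : ℝ) ^ k
        · rw [mul_comm]
          exact mul_le_mul_left (hP C (Finset.mem_powerset.1 hC) hl) _
        · have hempty : B ∩ {ω | clu ω k x = C} = ∅ := by
            rw [Set.eq_empty_iff_forall_notMem]
            rintro ω ⟨h5, h6⟩
            apply hl
            have h7 : ((clu ω k x).card : ℝ) * c (k + 1) < M * (N : ℝ) ^ k := h5.2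
            rw [Set.mem_ofPred_eq] at h6
            rwa [h6] at h7
          rw [hempty, measure_empty, zero_mul, mul_zero]
    _ = ENNReal.ofReal (1 - Real.exp (-(2 * (A * M))) / 2) *
        ∑ C ∈ (ball k x).powerset, PP N c (B ∩ {ω | clu ω k x = C}) := by
        rw [Finset.mul_sum]
    _ = ENNReal.ofReal (1 - Real.exp (-(2 * (A * M))) / 2) * PP N c B := by
        congr 1
        rw [← measure_biUnion_finset]
        · congr 1
          ext ω
          simp only [Set.mem_iUnion]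
          constructor
          · rintro ⟨C, _, h, _⟩
            exact h
          · intro h
            exact ⟨clu ω k x, Finset.mem_powerset.2 (EscL.clu_subset ω k x), h, rfl⟩
        · intro C _ C' _ hne
          rw [Function.onFun, Set.disjoint_left]
          rintro ω ⟨_, h3⟩ ⟨_, h4⟩
          exact hne (h3.symm.trans h4)
        · intro C _
          exact (hBC C).1

end Pool.Agent.Helper98K9.HP

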