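import Pool.Agent.Helper98K9.HP.St2

set_option autoImplicit false

namespace Pool.Agent.Helper98K9.HP

open MeasureTheory ProbabilityTheory Filter Topology
open scoped ENNReal NNReal

/-- an infinite component has an edge at every vertex -/
theorem nbr_of_infC {X : Type} {Γ : SimpleGraph X} {x : X} (h : InfC Γ x) :
    (Γ.neighborSet x).Nonempty := by
  by_contra hne
  rw [Set.not_nonempty_iff_eq_empty] at hne
  apply h
  refine (Set.finite_singleton x).subset ?_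
  rintro y ⟨w⟩
  cases w with
  | nil => rfl
  | cons hadj _ =>
    exact absurd (show _ ∈ Γ.neighborSet x from hadj) (by rw [hne]; exact Set.notMem_empty _)

theorem final (hlf : S_LF) (hadm : S_ADM) (hdiv : S_DIV) (hreca : S_RECA) (htra : S_TRA)
    (N : ℕ) (hN : 2 ≤ N) (C0 C1 C2 α : ℝ) (h0 : 0 ≤ C0) (h1 : 0 ≤ C1) (h2 : 0 < C2)
    (hα : 0 < α) :
    (∀ᵐ ω ∂(PP N (cseq C0 C1 C2 α)), ∀ x, ((G ω).neighborSet x).Finite) ∧
    (α ≤ 1 → ∀ᵐ ω ∂(PP N (cseq C0 C1 C2 α)), ∀ x, InfC (G ω) x → Recurrent (G ω) x) ∧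
    (1 < α → ∀ᵐ ω ∂(PP N (cseq C0 C1 C2 α)), ∀ x, InfC (G ω) x → Transient (G ω) x) := by
  haveI : NeZero N := ⟨by omega⟩
  obtain ⟨A, hA⟩ := hadm N C0 C1 C2 α hN h0 h1 h2 hα
  refine ⟨hlf N _ A hN hA, fun hα1 => ?_, fun hα1 => ?_⟩
  · filter_upwards [hreca N _ A hN hA (hdiv C0 C1 C2 α h0 h1 h2 hα hα1)] with ω hω x hx
    exact hω x (nbr_of_infC hx)
  · have hη : 0 < min (α - 1) 1 := lt_min (by linarith) one_pos
    refine htra N _ A C2 (min (α - 1) 1) hN hA h2 hη (min_le_right _ _) ?_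
    intro k hk
    have hk1 : (1 : ℝ) ≤ k := by exact_mod_cast hk
    unfold cseq
    have h3 : (k : ℝ) ^ (1 + min (α - 1) 1) ≤ (k : ℝ) ^ α := by
      apply Real.rpow_le_rpow_of_exponent_le hk1
      have := min_le_left (α - 1) 1
      linarith
    have h4 : 0 ≤ Real.log k := Real.log_nonneg hk1
    have h5 := mul_le_mul_of_nonneg_left h3 h2.le
    have h6 := mul_nonneg h1 h4
    linarith

end Pool.Agent.Helper98K9.HP
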