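import Pool.Agent.Helper98K9.HP.Defs

set_option autoImplicit false

/-!
# Statements of the leaves (project HP, MP_133e92_pr)

Goal: the critical exponent is `α_c = 1` for all parameters, and the walk is recurrent at
`α = 1`.  Conventions: `PP N c` is the law, `ins k x` the edges inside the ball of level `k`,
`clu ω k x` the cluster of `x` inside its ball of level `k`.  All balls of level `k` around points
of the same ball coincide (`ball_eq`), and for `z ≠ z'` in `subs k l x` (labels of the sub-balls of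
level `k` of the ball of level `k + l`) the distance of `y ∈ ball k z`, `y' ∈ ball k z'` is
constant (`= dist z z'`), `> k` and `≤ k + l`.
-/

namespace Pool.Agent.Helper98K9.HP

open MeasureTheory ProbabilityTheory Filter Topology
open scoped ENNReal NNReal

/-! ## Part P: product measure -/

open Classical in
/-- [MIX] Take the bits in `D` from one configuration and the others from an independent one: the
result has law `PP`.  Proof: the image measure agrees with `infinitePi` on finite boxes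
(`Measure.eq_infinitePi`); under the product measure the two finite blocks of bits are
independent. -/
def S_MIX : Prop :=
  ∀ (N : ℕ) [NeZero N] (c : ℕ → ℝ) (D : Set (Ed N)),
    MeasurePreserving (fun q : Cf N × Cf N => fun e : Ed N => if e ∈ D then q.1 e else q.2 e)
      ((PP N c).prod (PP N c)) (PP N c)

/-- [TI] Translation invariance, for all sets (the translation is a measurable equivalence). Proof:
`e ↦ e.map (· + a)` is a permutation of the edges which preserves `prE` (`dist_add`); reindexing of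
`infinitePi`. -/
def S_TI : Prop :=
  ∀ (N : ℕ) [NeZero N] (c : ℕ → ℝ) (a : V N) (s : Set (Cf N)),
    PP N c {ω | (fun e : Ed N => ω (e.map (· + a))) ∈ s} = PP N c s

/-- [MEAS] A function of finitely many bits is measurable; in particular a function of the bits
inside a ball.  (`ins k x` is finite: the map `ω ↦ ω` restricted to a finite set of bits goes to a
finite discrete space; `F = F ∘ (extension by false) ∘ restriction`.) -/
def S_MEAS : Prop :=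
  (∀ (N : ℕ) [NeZero N] (k : ℕ) (x : V N), (ins k x).Finite) ∧
  ∀ (N : ℕ) [NeZero N] (D : Set (Ed N)) (β : Type) [MeasurableSpace β] (F : Cf N → β),
    D.Finite → Dep D F → Measurable F

/-- [INDF] Events which depend on disjoint sets of bits are independent (also countably infinite
sets of bits).  `iIndepFun` of the coordinates of `infinitePi`, or [MIX] and induction. -/
def S_INDF : Prop :=
  ∀ (N : ℕ) [NeZero N] (c : ℕ → ℝ) (ι : Type) (I : Finset ι) (D : ι → Set (Ed N))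
    (E : ι → Set (Cf N)), (∀ i ∈ I, ∀ j ∈ I, i ≠ j → Disjoint (D i) (D j)) →
    (∀ i ∈ I, Dep (D i) (fun ω => ω ∈ E i)) → (∀ i ∈ I, MeasurableSet (E i)) →
    PP N c (⋂ i ∈ I, E i) = ∏ i ∈ I, PP N c (E i)

/-- [BER] Second moment of a centred weight: `X_e` independent Bernoulli(`p`), `∑ t_e = 0`, then
`E (∑ X_e t_e)² = p (1 - p) ∑ t_e² ≤ p ∑ t_e²`. -/
def S_BER : Prop :=
  ∀ (N : ℕ) [NeZero N] (c : ℕ → ℝ) (F : Finset (Ed N)) (p : ℝ) (t : Ed N → ℝ),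
    (∀ e ∈ F, (prE N c e : ℝ) = p) → ∑ e ∈ F, t e = 0 →
    ∫⁻ ω, ENNReal.ofReal ((∑ e ∈ F, if ω e = true then t e else 0) ^ 2) ∂(PP N c) ≤
      ENNReal.ofReal (p * ∑ e ∈ F, t e ^ 2)

open Classical in
/-- [CHER] Chernoff bound for the lower tail: `n = ∑ X_e`, `λ = p |F|`,
`P (n < λ/2) ≤ e^{λ/2·s} E e^{-s n}`, with `s = log 2`: `E e^{-s X} = 1 - p/2 ≤ e^{-p/2}`, so
`P ≤ exp (-λ (1 - log 2)/2) ≤ exp (-λ/8)`. -/
def S_CHER : Prop :=
  ∀ (N : ℕ) [NeZero N] (c : ℕ → ℝ) (F : Finset (Ed N)) (p : ℝ),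
    (∀ e ∈ F, (prE N c e : ℝ) = p) →
    PP N c {ω | ((F.filter fun e => ω e = true).card : ℝ) < p * F.card / 2} ≤
      ENNReal.ofReal (Real.exp (-(p * F.card / 8)))

/-- [CLO] The probability that all edges of `D` are closed, from below (infinite `D` allowed).
Proof: `1 - p ≥ exp (-2 p)` for `0 ≤ p ≤ 1/2`; product over finite subsets; continuity of the
measure along an enumeration of `D`. -/
def S_CLO : Prop :=
  ∀ (N : ℕ) [NeZero N] (c : ℕ → ℝ) (D : Set (Ed N)) (s : ℝ), 0 ≤ s →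
    (∀ e ∈ D, (prE N c e : ℝ) ≤ 1 / 2) →
    ∑' e : D, (prE N c e : ℝ≥0∞) ≤ ENNReal.ofReal s →
    ENNReal.ofReal (Real.exp (-(2 * s))) ≤ PP N c {ω | ∀ e ∈ D, ω e = false}

/-- [CLOF] ... and from above: `1 - p ≤ exp (-p)`. -/
def S_CLOF : Prop :=
  ∀ (N : ℕ) [NeZero N] (c : ℕ → ℝ) (F : Finset (Ed N)),
    PP N c {ω | ∀ e ∈ F, ω e = false} ≤ ENNReal.ofReal (Real.exp (-∑ e ∈ F, (prE N c e : ℝ)))

/-- [LF] All degrees are finite: `E deg x ≤ ∑_j N^j c_j / N^{2j} < ∞` by `Adm.summ 0`. -/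
def S_LF : Prop :=
  ∀ (N : ℕ) [NeZero N] (c : ℕ → ℝ) (A : ℝ), 2 ≤ N → Adm N c A →
    ∀ᵐ ω ∂(PP N c), ∀ x, ((G ω).neighborSet x).Finite

/-! ## Part W: random walk -/

/-- [REC1] Capacity zero implies recurrence.  Suppose `∑_n p^n(x,x) < ∞`.  Let
`g_M = ∑_{n < M} p^n(·, x)` (finitely supported).  Green's formula:
`(1/2) ∑_{a ~ b} (f a - f b)(g a - g b) = ∑_a f a (deg a · g a - ∑_{b ~ a} g b)
 = deg x · f x - ∑_a deg a · f a · p^M(a, x)`, and `(1/2)·energy g_M ≤ deg x · g_M x`.  By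
Cauchy–Schwarz and `M → ∞` (`p^M(a,x) → 0` for every `a`: if `a` is connected to `x`,
`p^{m+M}(x,x) ≥ p^m(x,a) p^M(a,x)` for some `m` with `p^m(x,a) > 0`, otherwise `p^M(a,x) = 0`):
`deg x ≤ ((1/2) energy f)^{1/2} (deg x · ∑_n p^n(x,x))^{1/2}` for all finitely supported `f` with
`f x = 1`.  Compare `Pool.Agent.H21R2.Graph` (`green_laplace`, `dirichlet_finsupp`,
`dirichlet_green_le`: the same walk, with the instance `LocallyFinite`). -/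
def S_REC1 : Prop :=
  ∀ (X : Type) (Γ : SimpleGraph X) (x : X), (∀ y, (Γ.neighborSet y).Finite) →
    (Γ.neighborSet x).Nonempty →
    (∀ ε : ℝ, 0 < ε → ∃ f : X → ℝ, (Function.support f).Finite ∧ f x = 1 ∧
      energy Γ f ≤ ENNReal.ofReal ε) →
    Recurrent Γ x

/-- [REC2] Recurrence implies capacity zero: take `f = min (g_M / g_M(x)) 1` (`g_M` as in [REC1]),
with energy at most `2 deg x / g_M(x) → 0`.  See `dirichlet_green_le` in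
`Pool.Agent.H21R2.Graph`. -/
def S_REC2 : Prop :=
  ∀ (X : Type) (Γ : SimpleGraph X) (x : X), (∀ y, (Γ.neighborSet y).Finite) → Recurrent Γ x →
    ∀ ε : ℝ, 0 < ε → ∃ f : X → ℝ, (Function.support f).Finite ∧ f x = 1 ∧
      (∀ y, 0 ≤ f y ∧ f y ≤ 1) ∧ energy Γ f ≤ ENNReal.ofReal ε

/-- [RCMP] Recurrence is a property of the component: `p^{a+n+b}(y,y) ≥ p^a(y,x) p^n(x,x) p^b(x,y)`. -/
def S_RCMP : Prop :=
  ∀ (X : Type) (Γ : SimpleGraph X) (x y : X), (∀ y, (Γ.neighborSet y).Finite) → Recurrent Γ x →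
    Γ.Reachable x y → Recurrent Γ y

/-! ## Part A: recurrence for `α ≤ 1` -/

open Classical in
/-- [ENP] Mean energy of a function of the distance.  Pairs `y, z` with `dist x y = i`,
`dist x z = j`, `i < j` have distance `j`; there are at most `N^i N^j` of them and the edge is open
with probability at most `c_j / N^{2j}`; pairs with `i = j` contribute `0`; every edge is counted
twice in `energy`.  (Tonelli; `PP {ω | ω e = true} = prE e`.) -/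
def S_ENP : Prop :=
  ∀ (N : ℕ) [NeZero N] (c : ℕ → ℝ) (x : V N) (ψ : ℕ → ℝ), (∀ k, 1 ≤ k → 0 ≤ c k) →
    ∫⁻ ω, energy (G ω) (fun y => ψ (dist x y)) ∂(PP N c) ≤
      ∑' (i : ℕ) (j : ℕ), if i < j then
        ENNReal.ofReal (2 * c j * (ψ i - ψ j) ^ 2 * (N : ℝ) ^ i / (N : ℝ) ^ j) else 0

open Classical in
/-- [ENN] Let `Σ = ∑_{l<K} 1/c(l+1)` and `ψ i = (1/Σ) ∑_{i ≤ l < K} 1/c(l+1)`, so `ψ 0 = 1` and
`ψ i = 0` for `i ≥ K`.  By monotonicity of `c`, for `i < j`, `i < K`: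
`(ψ i - ψ j)² ≤ Σ^{-2} (j-i)² / c(i+1)²` (all terms are at most `1/c(i+1)`), so with `j = i + 1 + r`
the inner sum is at most `2 Σ^{-2} c(i+1)^{-2} ∑_r c(i+1+r) (r+1)² / N^{r+1} ≤ 2 Σ^{-2} A / c(i+1)`
(`Adm.tail`), and the sum over `i < K` is `2 A / Σ`. -/
def S_ENN : Prop :=
  ∀ (N : ℕ) [NeZero N] (c : ℕ → ℝ) (A : ℝ) (K : ℕ), 2 ≤ N → Adm N c A → 1 ≤ K →
    ∃ ψ : ℕ → ℝ, ψ 0 = 1 ∧ (∀ i, K ≤ i → ψ i = 0) ∧
      ∑' (i : ℕ) (j : ℕ), (if i < j then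
        ENNReal.ofReal (2 * c j * (ψ i - ψ j) ^ 2 * (N : ℝ) ^ i / (N : ℝ) ^ j) else 0) ≤
      ENNReal.ofReal (2 * A / ∑ l ∈ Finset.range K, 1 / c (l + 1))

/-- [RECA] For divergent `∑ 1/c_k` the walk is recurrent: choose `K_n` with mean energy `≤ 4^{-n}`
([ENP], [ENN]); the sum of the energies has finite mean, so a.s. they tend to `0`; [REC1].  (One
`x` at a time, countably many `x`.) -/
def S_RECA : Prop :=
  ∀ (N : ℕ) [NeZero N] (c : ℕ → ℝ) (A : ℝ), 2 ≤ N → Adm N c A →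
    (¬ Summable fun l : ℕ => 1 / c (l + 1)) →
    ∀ᵐ ω ∂(PP N c), ∀ x, ((G ω).neighborSet x).Nonempty → Recurrent (G ω) x

/-- [ADM] The sequences of the problem are admissible: `c_{i+1+r} ≤ (r+1)^{α+1} K c_{i+1}` since
`i + 1 + r ≤ (i + 1)(r + 1)` and `log (r+1) ≤ r`. -/
def S_ADM : Prop :=
  ∀ (N : ℕ) [NeZero N] (C0 C1 C2 α : ℝ), 2 ≤ N → 0 ≤ C0 → 0 ≤ C1 → 0 < C2 → 0 < α →
    ∃ A, Adm N (cseq C0 C1 C2 α) A

/-- [DIV] `c_k ≤ (C₀ + C₁ + C₂) k` for `α ≤ 1`, `k ≥ 1`. -/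
def S_DIV : Prop :=
  ∀ (C0 C1 C2 α : ℝ), 0 ≤ C0 → 0 ≤ C1 → 0 < C2 → 0 < α → α ≤ 1 →
    ¬ Summable fun l : ℕ => 1 / cseq C0 C1 C2 α (l + 1)

/-! ## Part B1: infinite clusters are heavy -/

/-- [ESC] Given the bits inside the ball, a light cluster has no edge leaving the ball with
probability at least `δ = exp (-2 A M)`.  The event `{InfC (G ω) x}` implies that some edge from
`clu ω k x` to the complement of `ball k x` is open.  Proof by [MIX] with `D = ins k x`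
(`{H, light, clu}` only depend on the first configuration, the edges leaving the ball on the
second one) and [CLO]: the sum of the probabilities of the edges from `C` to the complement is at
most `|C| ∑_{j>k} N^j c_j / N^{2j} ≤ |C| N^{-k} A c(k+1) ≤ A M` (`Adm.tail k`); all are `≤ 1/2` for
`k ≥ k0` since `c_j / N^{j} → 0` (`Adm.summ`). -/
def S_ESC : Prop :=
  ∀ (N : ℕ) [NeZero N] (c : ℕ → ℝ) (A : ℝ), 2 ≤ N → Adm N c A → ∀ M : ℝ, 0 < M →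
    ∃ δ : ℝ, 0 < δ ∧ δ < 1 ∧ ∃ k0 : ℕ, ∀ k, k0 ≤ k → ∀ (x : V N) (H : Set (Cf N)),
      Dep (ins k x) (fun ω => ω ∈ H) →
      PP N c (H ∩ light c k M x ∩ {ω | InfC (G ω) x}) ≤
        ENNReal.ofReal (1 - δ) * PP N c (H ∩ light c k M x)

/-- [HEAVY] On `{InfC}` the cluster is heavy at every large level, in probability, uniformly in
`x`.  Let `I = {InfC (G ω) x}`, `E_{n,m} = {clu ω m x ⊄ ball n x}` (increasing in `m`, depends on
`ins m x`), `E_n = ⋃_m E_{n,m}` (decreasing in `n`), `I = ⋂ E_n`.  For `k ≥ m`, with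
`L = light c k M x`, [ESC] with `H = E_{n,m}`:
`P(I ∩ L) ≤ P(I \ E_{n,m}) + P(E_{n,m} ∩ L ∩ I) ≤ P(I \ E_{n,m}) + (1-δ) P(E_{n,m} ∩ L)
 ≤ P(I \ E_{n,m}) + (1-δ) (P(I ∩ L) + P(E_{n,m} \ I))`, so
`δ P(I ∩ L) ≤ P(I \ E_{n,m}) + P(E_{n,m} \ I)`, small for `n` and then `m` large.  Uniformity in
`x` by [TI] (everything is equivariant). -/
def S_HEAVY : Prop :=
  ∀ (N : ℕ) [NeZero N] (c : ℕ → ℝ) (A : ℝ), 2 ≤ N → Adm N c A → ∀ M ε : ℝ, 0 < M → 0 < ε →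
    ∃ k0 : ℕ, ∀ k, k0 ≤ k → ∀ x : V N,
      PP N c ({ω | InfC (G ω) x} ∩ light c k M x) ≤ ENNReal.ofReal ε

/-! ## Part B2: a giant cluster in most balls -/

open Classical in
/-- heavy points of the ball of level `k` around `z` -/
noncomputable def Hv {N : ℕ} [NeZero N] (c : ℕ → ℝ) (ω : Cf N) (k : ℕ) (M : ℝ) (z : V N) :
    Finset (V N) := (ball k z).filter fun u => ω ∉ light c k M u

/-- [LLN] `Y_z = |Hv_z| / N^k ∈ [0,1]` for `z ∈ subs k l x` are independent ([INDF]: they depend on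
the disjoint sets `ins k z`), with mean at least `θ - P(InfC ∩ light) ≥ θ/2` for large `k`
([HEAVY], [TI]); Chebyshev: `P(∑ Y_z < N^l θ/4) ≤ N^l / (N^l θ/4)² = 16/(θ² N^l)`. -/
def S_LLN : Prop :=
  ∀ (N : ℕ) [NeZero N] (c : ℕ → ℝ) (A : ℝ), 2 ≤ N → Adm N c A → ∀ θ M : ℝ, 0 < θ → 0 < M →
    ENNReal.ofReal θ ≤ PP N c {ω | InfC (G ω) 0} → ∀ l : ℕ, ∃ k0 : ℕ, ∀ k, k0 ≤ k → ∀ x : V N,
      PP N c {ω | ∑ z ∈ subs k l x, ((Hv c ω k M z).card : ℝ) < θ / 4 * (N : ℝ) ^ (k + l)} ≤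
        ENNReal.ofReal (16 / (θ ^ 2 * (N : ℝ) ^ l))

open Classical in
/-- [CUT] (deterministic) If every cut with both weights at least a quarter is crossed by an edge
of the graph `R` on the finite set `I`, then some component has at least half of the weight.
Otherwise all components (inside `I`) have weight `< T/2`; add components until the weight is
`≥ T/4` for the first time: it is `< 3T/4`. -/
def S_CUT : Prop :=
  ∀ (X : Type) (I : Finset X) (w : X → ℝ) (R : X → X → Prop), (∀ i ∈ I, 0 ≤ w i) →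
    (∀ i j, R i j → R j i) → I.Nonempty →
    (∀ J ⊆ I, (∑ i ∈ I, w i) / 4 ≤ ∑ i ∈ J, w i → (∑ i ∈ I, w i) / 4 ≤ ∑ i ∈ I \ J, w i →
      ∃ i ∈ J, ∃ j ∈ I \ J, R i j) →
    ∃ i ∈ I, (∑ i ∈ I, w i) / 2 ≤
      ∑ j ∈ I.filter (fun j => Relation.ReflTransGen (fun a b => a ∈ I ∧ b ∈ I ∧ R a b) i j), w j

/-- [CUTP] Union bound over the cuts.  `𝒞` is a finite family of disjoint subsets of sub-balls of
level `k` (the heavy clusters), `T = ∑ |C| ≥ (θ/4) N^{k+l}`.  For a cut `𝒜` with both sides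
`≥ T/4` the number of pairs of points of different sides in different sub-balls is at least
`(3/16) T² - N^l N^{2k}/4 ≥ T²/8` (`N^l ≥ 64/θ²`), each open with probability at least
`c(k+1)/N^{2(k+l)}`, so no edge with probability at most `exp (-θ² c(k+1)/128)` ([CLOF]); the number
of cuts is `2^{|𝒞|}`, `|𝒞| ≤ N^l c(k+1)/M ≤ θ² c(k+1)/256`. -/
def S_CUTP : Prop :=
  ∀ (N : ℕ) [NeZero N] (c : ℕ → ℝ) (A : ℝ), 2 ≤ N → Adm N c A → ∀ (θ M : ℝ) (k l : ℕ) (x : V N)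
    (𝒞 : Finset (Finset (V N))), 0 < θ → θ ≤ 1 → 64 / θ ^ 2 ≤ (N : ℝ) ^ l →
    256 * (N : ℝ) ^ l / θ ^ 2 ≤ M → c (k + 1) ≤ (N : ℝ) ^ (2 * (k + l)) →
    (∀ C ∈ 𝒞, (∃ z ∈ subs k l x, C ⊆ ball k z) ∧ M * (N : ℝ) ^ k ≤ (C.card : ℝ) * c (k + 1)) →
    (∀ C ∈ 𝒞, ∀ C' ∈ 𝒞, C ≠ C' → Disjoint C C') →
    θ / 4 * (N : ℝ) ^ (k + l) ≤ ∑ C ∈ 𝒞, (C.card : ℝ) →
    PP N c {ω | ∃ 𝒜 ⊆ 𝒞, (∑ C ∈ 𝒞, (C.card : ℝ)) / 4 ≤ ∑ C ∈ 𝒜, (C.card : ℝ) ∧
      (∑ C ∈ 𝒞, (C.card : ℝ)) * (3 / 4) ≥ ∑ C ∈ 𝒜, (C.card : ℝ) ∧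
      ∀ C ∈ 𝒜, ∀ C' ∈ 𝒞, C' ∉ 𝒜 → ∀ u ∈ C, ∀ v ∈ C', tr k u ≠ tr k v → ω s(u, v) = false} ≤
      ENNReal.ofReal (Real.exp (-(θ ^ 2 * c (k + 1) / 256)))

/-- [MERGE] With `n = k + l`: by [MIX] with `D = ⋃_z ins k z` (`z ∈ subs k l x`) the clusters of
level `k` come from the first configuration, the edges between different sub-balls from the second
one; apply [CUTP] to the family of the heavy clusters (`C = clu ω k u`, `u` heavy; all points of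
`C` are heavy) and [CUT] with `I = 𝒞`, `w = card`, `R C C'` = some open edge between points of `C`
and `C'` in different sub-balls: a component of weight `≥ T/2` is contained in one cluster
`clu ω n y`. -/
def S_MERGE : Prop :=
  ∀ (N : ℕ) [NeZero N] (c : ℕ → ℝ) (A : ℝ), 2 ≤ N → Adm N c A → ∀ (θ M : ℝ) (k l : ℕ) (x : V N),
    0 < θ → θ ≤ 1 → 64 / θ ^ 2 ≤ (N : ℝ) ^ l →
    256 * (N : ℝ) ^ l / θ ^ 2 ≤ M → c (k + 1) ≤ (N : ℝ) ^ (2 * (k + l)) →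
    PP N c {ω | θ / 4 * (N : ℝ) ^ (k + l) ≤ ∑ z ∈ subs k l x, ((Hv c ω k M z).card : ℝ) ∧
      ∀ y ∈ ball (k + l) x, ((clu ω (k + l) y).card : ℝ) < θ / 8 * (N : ℝ) ^ (k + l)} ≤
      ENNReal.ofReal (Real.exp (-(θ ^ 2 * c (k + 1) / 256)))

/-- [GIANT] From [LLN] and [MERGE]: fix `l` with `16/(θ² N^l) ≤ ε/2`, `N^l ≥ 64/θ²`, then
`M = 256 N^l/θ²`, then `k` large (`c → ∞` by the hypothesis, `c(k+1) ≤ N^{2(k+l)}` by
`Adm.summ`). -/
def S_GIANT : Prop :=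
  ∀ (N : ℕ) [NeZero N] (c : ℕ → ℝ) (A : ℝ), 2 ≤ N → Adm N c A → Tendsto c atTop atTop →
    ∀ θ : ℝ, 0 < θ → θ ≤ 1 → ENNReal.ofReal θ ≤ PP N c {ω | InfC (G ω) 0} →
    ∀ ε : ℝ, 0 < ε → ∃ n0 : ℕ, ∀ n, n0 ≤ n → ∀ x : V N,
      PP N c {ω | ∀ y ∈ ball n x, ((clu ω n y).card : ℝ) < θ / 8 * (N : ℝ) ^ n} ≤
        ENNReal.ofReal ε

/-! ## Part B3: flows -/

/-- [PATHF] A finite set `S ⊆ W` whose points are connected inside `W` carries a family of flows.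
Path flows `P_{uv}` (entries `±1` on the at most `|W| - 1` edges of a simple path, so
`∑_{a,b} P_{uv}(a,b)² ≤ 2 |W|`), antisymmetrised: `P'_{uv} = (P_{uv} - P_{vu})/2` is a flow from
`u` to `v` with `P'_{vu} = - P'_{uv}`; `Θ_u = (1/|S|) ∑_{v ∈ S} P'_{uv}`, energy `≤ 2 |W|` by
convexity. -/
def S_PATHF : Prop :=
  ∀ (X : Type) (Γ : SimpleGraph X) (W S : Finset X), S ⊆ W → S.Nonempty →
    (∀ u ∈ S, ∀ v ∈ S, Relation.ReflTransGen (fun a b => a ∈ W ∧ b ∈ W ∧ Γ.Adj a b) u v) →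
    ∃ Θ, Fam Γ W S Θ ∧ enF W S Θ ≤ 2 * (W.card : ℝ) ^ 2

/-- [BASE] From [GIANT] and [PATHF]: `E = {some clu ω n y has at least (θ/8) N^n points}`, and
`QQ ≤ 2 N^{2n}` on `E`. -/
def S_BASE : Prop :=
  ∀ (N : ℕ) [NeZero N] (c : ℕ → ℝ) (A : ℝ), 2 ≤ N → Adm N c A → Tendsto c atTop atTop →
    ∀ θ : ℝ, 0 < θ → θ ≤ 1 → ENNReal.ofReal θ ≤ PP N c {ω | InfC (G ω) 0} →
    ∀ ε : ℝ, 0 < ε → ∃ n0 : ℕ, ∀ n, n0 ≤ n → Lev N c n (θ / 8) ε (2 * (N : ℝ) ^ n)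

open Classical in
/-- the energy of the uniform flow along `F`, seen at the first endpoints -/
noncomputable def phi {X : Type} (W : Finset X) (Θ : X → X → X → ℝ) (F : Finset (X × X)) : ℝ :=
  ∑ a ∈ W, ∑ b ∈ W, ((∑ e ∈ F, Θ e.1 a b) / (F.card : ℝ)) ^ 2

open Classical in
/-- [FLOW] (deterministic) Gluing.  `(S_z, Θ_z)` families in the disjoint sets `W_z ⊆ W`
(`z ∈ Z`), `F z z' ⊆ S_z × S_{z'}` nonempty sets of edges of `Γ`, `F z' z` is the reversed set.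
Unit flow from the uniform distribution `π_z` of `S_z` to `π_{z'}`:
`F_{zz'} = (1/|F|) ∑_{(u,v) ∈ F z z'} (-Θ_z u + 1_{(u,v)} + Θ_{z'} v)` (`1_{(u,v)}` the
antisymmetric unit flow through the edge), `F_{z'z} = - F_{zz'}`.  With `s_z = |S_z|`,
`S = ⋃ S_z`, `s = |S|`: `Ψ_z = ∑_{z' ≠ z} (s_{z'}/s) F_{zz'}` is a flow from `π_z` to `π_S`;
`Θ'_u = Θ_z u + Ψ_z` for `u ∈ S_z`.  `∑_u Θ'_u = ∑_z s_z Ψ_z = 0` by antisymmetry.
`∑_{u ∈ S_z} ‖Θ_z u + Ψ_z‖² = ∑_u ‖Θ_z u‖² + s_z ‖Ψ_z‖²` because `∑_{u∈S_z} Θ_z u = 0`, and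
`‖Ψ_z‖² ≤ ∑_{z'≠z} (s_{z'}/s) ‖F_{zz'}‖²` (convexity), and the three parts of `F_{zz'}` live on
disjoint sets of pairs (inside `W_z`, between `W_z` and `W_{z'}`, inside `W_{z'}`):
`‖F_{zz'}‖² = phi (F z z') + 2/|F| + phi (F z' z)`. -/
def S_FLOW : Prop :=
  ∀ (X ι : Type) (Γ : SimpleGraph X) (W : Finset X) (Z : Finset ι) (Wz Sz : ι → Finset X)
    (Θ : ι → X → X → X → ℝ) (F : ι → ι → Finset (X × X)), Z.Nonempty →
    (∀ z ∈ Z, Wz z ⊆ W) → (∀ z ∈ Z, ∀ z' ∈ Z, z ≠ z' → Disjoint (Wz z) (Wz z')) →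
    (∀ z ∈ Z, (Sz z).Nonempty ∧ Fam Γ (Wz z) (Sz z) (Θ z)) →
    (∀ z ∈ Z, ∀ z' ∈ Z, z ≠ z' → (F z z').Nonempty ∧
      (∀ e ∈ F z z', e.1 ∈ Sz z ∧ e.2 ∈ Sz z' ∧ Γ.Adj e.1 e.2) ∧
      ∀ e, e ∈ F z z' ↔ e.swap ∈ F z' z) →
    ∃ Θ', Fam Γ W (Z.biUnion Sz) Θ' ∧
      enF W (Z.biUnion Sz) Θ' ≤ ∑ z ∈ Z, enF (Wz z) (Sz z) (Θ z) +
        ∑ z ∈ Z, ((Sz z).card : ℝ) * ∑ z' ∈ Z.erase z,
          ((Sz z').card : ℝ) / ((Z.biUnion Sz).card : ℝ) *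
            (phi (Wz z) (Θ z) (F z z') + 2 / ((F z z').card : ℝ) +
              phi (Wz z') (Θ z') (F z' z))

open Classical in
/-- [ONE] One step with given insides (`ω₀`), fresh bits between different sub-balls.
`D = ⋃_{z ∈ subs k l x} ins k z`.  `E₁` = for all `z ≠ z'` in `Z` the number `n_{zz'}` of open
edges (in `ω`) between `S_z` and `S_{z'}` is at least `λ_{zz'}/2`, `λ_{zz'} = p s_z s_{z'}`,
`p = pr N c (dist z z')` (constant!); `λ_{zz'} ≥ λ := ρ² c(k+1) / N^{2l}`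
(`c(k+1) ≤ N^{2(k+l)}`, `s_z ≥ ρ N^k`).  `P(E₁ᶜ) ≤ N^{2l} exp(-λ/8)` by [CHER].  On `E₁` apply
[FLOW] to `Γ = G (mix ω₀ ω)`, `F z z'` = open pairs.  By [BER] for each pair `(a, b)` (weights
`t_{(u,v)} = Θ_z u a b`, `∑ t = 0`): `E[1_{n ≥ λ_{zz'}/2} phi(F z z')] ≤ (4/λ_{zz'}²) p s_{z'} en_z =
4 en_z/(λ_{zz'} s_z)`, and `2/n ≤ 4/λ_{zz'}`.  Total:
`∑_z s_z ∑_{z'} (s_{z'}/s)(4 en_z/(λ s_z) + 4/λ + 4 en_{z'}/(λ s_{z'})) ≤ (8/λ) ∑ en_z + 4 N^{k+l}/λ`.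
Density: `∑ s_z ≥ (N^l - r) ρ N^k`. -/
def S_ONE : Prop :=
  ∀ (N : ℕ) [NeZero N] (c : ℕ → ℝ) (A : ℝ), 2 ≤ N → Adm N c A → ∀ (ρ : ℝ) (k l r : ℕ) (x : V N),
    0 < ρ → ρ ≤ 1 → r < N ^ l → c (k + 1) ≤ (N : ℝ) ^ (2 * (k + l)) →
    ∀ (Z : Finset (V N)) (Sz : V N → Finset (V N)) (Θ : V N → V N → V N → V N → ℝ) (ω₀ : Cf N),
    Z ⊆ subs k l x → N ^ l ≤ Z.card + r →
    (∀ z ∈ Z, ρ * (N : ℝ) ^ k ≤ (Sz z).card ∧ Fam (G ω₀) (ball k z) (Sz z) (Θ z)) →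
    ∃ E₁ : Set (Cf N),
      Dep (ins (k + l) x \ ⋃ z ∈ subs k l x, ins k z) (fun ω => ω ∈ E₁) ∧
      PP N c E₁ᶜ ≤ ENNReal.ofReal ((N : ℝ) ^ (2 * l) *
        Real.exp (-(ρ ^ 2 * c (k + 1) / (N : ℝ) ^ (2 * l) / 8))) ∧
      (∀ ω ∈ E₁, QQ (ρ * (1 - r / (N : ℝ) ^ l)) (k + l) x
          (fun e => if e ∈ ⋃ z ∈ subs k l x, ins k z then ω₀ e else ω e) ≠ ∞) ∧
      ∫⁻ ω in E₁, QQ (ρ * (1 - r / (N : ℝ) ^ l)) (k + l) x
          (fun e => if e ∈ ⋃ z ∈ subs k l x, ins k z then ω₀ e else ω e) ∂(PP N c) ≤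
        ENNReal.ofReal ((1 + 8 / (ρ ^ 2 * c (k + 1) / (N : ℝ) ^ (2 * l))) *
            ∑ z ∈ Z, enF (ball k z) (Sz z) (Θ z) +
          4 * (N : ℝ) ^ (k + l) / (ρ ^ 2 * c (k + 1) / (N : ℝ) ^ (2 * l)))

open Classical in
/-- [BINB] At most `r` bad sub-balls: `P(≥ m bad) ≤ C(n,m) q^m ≤ (3 n q/m)^m` with `n = N^l`,
`m = r + 1` ([INDF], union bound over the `m`-subsets, `m! ≥ (m/3)^m`). -/
def S_BINB : Prop :=
  ∀ (N : ℕ) [NeZero N] (c : ℕ → ℝ) (k l r : ℕ) (x : V N) (q : ℝ) (E : V N → Set (Cf N)), 0 ≤ q →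
    (∀ z ∈ subs k l x, Dep (ins k z) (fun ω => ω ∈ E z) ∧ MeasurableSet (E z) ∧
      PP N c (E z)ᶜ ≤ ENNReal.ofReal q) →
    PP N c {ω | r < ((subs k l x).filter fun z => ω ∉ E z).card} ≤
      ENNReal.ofReal ((3 * (N : ℝ) ^ l * q / (r + 1)) ^ (r + 1))

/-- [STEP] From [MIX], [MEAS], [BINB], [ONE].  For `z ∈ subs k l x` take `E_z` from the hypothesis
and, for every configuration which is `false` outside `ins k z`, a choice of `(S_z, Θ_z)` with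
energy at most `QQ + ε'` if `ω ∈ E_z` (`cut ω` = `ω` on `D`, `false` elsewhere; everything inside is
a function of `cut ω`).  `Z = {z : ω ∈ E_z}`, `E = {#Zᶜ ≤ r} ∩ {ω ∈ E₁(cut ω)}`, with `E₁` from
[ONE] for the data given by `cut ω`; by [MIX] and Tonelli
`P(Eᶜ) ≤ BINB + N^{2l} exp(-λ/8)` and
`∫_E QQ ≤ (1+8/λ) ∑_z ∫_{E_z} QQ + 4 N^{k+l}/λ (+ ε')`.  (The infimum in `QQ` need not be attained:
use an error `ε'` absorbed in the slack `4` → `5`.) -/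
def S_STEP : Prop :=
  ∀ (N : ℕ) [NeZero N] (c : ℕ → ℝ) (A : ℝ), 2 ≤ N → Adm N c A → ∀ (ρ q a : ℝ) (k l r : ℕ),
    0 < ρ → ρ ≤ 1 → 0 ≤ q → 0 ≤ a → r < N ^ l → c (k + 1) ≤ (N : ℝ) ^ (2 * (k + l)) →
    Lev N c k ρ q a →
    Lev N c (k + l) (ρ * (1 - r / (N : ℝ) ^ l))
      ((3 * (N : ℝ) ^ l * q / (r + 1)) ^ (r + 1) +
        (N : ℝ) ^ (2 * l) * Real.exp (-(ρ ^ 2 * c (k + 1) / (N : ℝ) ^ (2 * l) / 8)))
      ((1 + 8 / (ρ ^ 2 * c (k + 1) / (N : ℝ) ^ (2 * l))) * a +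
        8 / (ρ ^ 2 * c (k + 1) / (N : ℝ) ^ (2 * l)))

end Pool.Agent.Helper98K9.HP
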