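import Pool.Agent.Helper98K9.HP.St

set_option autoImplicit false

/-!
# Statements of the leaves, second part (project HP, MP_133e92_pr)
-/

namespace Pool.Agent.Helper98K9.HP

open MeasureTheory ProbabilityTheory Filter Topology
open scoped ENNReal NNReal

/-! ## Part I: the iteration (pure numerics, `L` is an abstract predicate) -/

/-- The rules satisfied by `L k ρ q a = Lev N c k ρ q a`. -/
structure Rule (N : ℕ) (c : ℕ → ℝ) (L : ℕ → ℝ → ℝ → ℝ → Prop) : Prop where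
  mono : ∀ k ρ q a ρ' q' a', L k ρ q a → ρ' ≤ ρ → q ≤ q' → a ≤ a' → L k ρ' q' a'
  step : ∃ k1 : ℕ, ∀ k, k1 ≤ k → ∀ (ρ q a : ℝ) (l r : ℕ), 0 < ρ → ρ ≤ 1 → 0 ≤ q → 0 ≤ a →
    r < N ^ l → L k ρ q a →
    L (k + l) (ρ * (1 - r / (N : ℝ) ^ l))
      ((3 * (N : ℝ) ^ l * q / (r + 1)) ^ (r + 1) +
        (N : ℝ) ^ (2 * l) * Real.exp (-(ρ ^ 2 * c (k + 1) / (N : ℝ) ^ (2 * l) / 8)))
      ((1 + 8 / (ρ ^ 2 * c (k + 1) / (N : ℝ) ^ (2 * l))) * a +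
        8 / (ρ ^ 2 * c (k + 1) / (N : ℝ) ^ (2 * l)))

/-- [BOOT] Finitely many blocks of the same length give exponentially small failure probability.
Let `κ = η/8`, `s = ⌈(2/κ)(1 + η/16)⌉`, `γ = 1/(8 s)`, `ε' = γ/(3 e²)`; `n` large,
`N^l ≤ n^κ < N^(l+1)`, `r = ⌊γ N^l⌋` (so `r + 1 ≥ γ N^l`); apply the step `s` times, starting with
`L n β ε' _`, at the levels `n, n + l, ..., n + s l`.  The density stays
`≥ β (1-γ)^s ≥ (3/4) β`.  The error term is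
`e ≤ n^{2κ} exp(-(β²/4) a0 n^{1+η} n^{-2κ}/8) ≤ exp(-n^{1+η/2})` for large `n`.  Claim:
`q_i ≤ exp(-n^{iκ/2})` for `1 ≤ i ≤ s`: `q_1 ≤ (e^{-2})^{γ N^l} + e`, and
`q_{i+1} ≤ (3 q_i/γ)^{γ N^l} + e ≤ exp(-(γ/(2N)) n^{iκ/2 + κ}) + e`; here `sκ/2 ≤ 1 + η/8`.
Finally `q_s ≤ exp(-n^{1+η/16}) ≤ N^{-(n + s l)}`.  (The value of `a` plays no role.) -/
def S_BOOT : Prop :=
  ∀ (N : ℕ) (c : ℕ → ℝ) (a0 η β : ℝ) (L : ℕ → ℝ → ℝ → ℝ → Prop), 2 ≤ N → 0 < a0 → 0 < η →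
    η ≤ 1 → (∀ k : ℕ, 1 ≤ k → a0 * (k : ℝ) ^ (1 + η) ≤ c k) → 0 < β → β ≤ 1 → Rule N c L →
    (∀ ε : ℝ, 0 < ε → ∃ n0 : ℕ, ∀ n, n0 ≤ n → L n β ε (2 * (N : ℝ) ^ n)) →
    ∀ K0 : ℕ, ∃ K, K0 ≤ K ∧ ∃ a, 0 ≤ a ∧ L K (3 / 4 * β) ((N : ℝ) ^ K)⁻¹ a

/-- [ITR] Infinite iteration.  Constants: an integer `B ≥ 2` with `B^η ≥ N^8`, `R = 5 B`,
`m` with `R / N^m ≤ 1/8`, `K` (from the hypothesis) large; `K_j = B^j K`, `l_j = j + m`.
Stage `j`: from `L K_j ρ_j N^{-K_j} a_j`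
(1) one step with `l = l_j`, `r = R`: `q' ≤ (3 N^{l_j} N^{-K_j})^{5B+1} + N^{2 l_j} exp(-λ_j/8)`,
`λ_j = ρ_j² c(K_j+1)/N^{2 l_j} ≥ (β²/4) a0 K_j^{1+η} N^{-2(j+m)}` and `K_j^η ≥ N^{8j} K^η`, so
`λ_j ≥ 80 B log N · K_j · 2^j` for large `K`; hence `q' ≤ N^{-4.5 B K_j} + N^{-9 B K_j}` (using
`l_j + 2 ≤ K_j/10`);
(2) steps with `l = 1`, `r = 0` from level `K_j + l_j` to `B K_j = K_{j+1}`:
`q ↦ 3 N q + N² exp(-ρ² c(k+1)/(8N²))`, the exponential is `≤ N^{-10 B K_j}`; after at most `B K_j`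
steps `q ≤ (3N)^{B K_j} (q' + B K_j N² N^{-10 B K_j}) ≤ N^{-B K_j}` (`3 ≤ N²`).
Density: `ρ_j ≥ (3/4) β ∏ (1 - R/N^{j+m}) ≥ (3/4)(3/4) β ≥ β/2`.
`a`: every step multiplies `a + 1` by at most `exp(8/λ)`, and `∑_j 1/λ_j + ∑_k 4 N²/(β² a0 k^{1+η})`
is finite, so `a_j` stays bounded. -/
def S_ITR : Prop :=
  ∀ (N : ℕ) (c : ℕ → ℝ) (a0 η β : ℝ) (L : ℕ → ℝ → ℝ → ℝ → Prop), 2 ≤ N → 0 < a0 → 0 < η →
    η ≤ 1 → (∀ k : ℕ, 1 ≤ k → a0 * (k : ℝ) ^ (1 + η) ≤ c k) → 0 < β → β ≤ 1 → Rule N c L →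
    (∀ K0 : ℕ, ∃ K, K0 ≤ K ∧ ∃ a, 0 ≤ a ∧ L K (3 / 4 * β) ((N : ℝ) ^ K)⁻¹ a) →
    ∃ a, 0 ≤ a ∧ ∀ k0 : ℕ, ∃ k, k0 ≤ k ∧ L k (β / 2) ((N : ℝ) ^ k)⁻¹ a

/-- [RULE] `Lev` satisfies the rules: `mono` from the monotonicity of `QQ` in `ρ`, `step` is
[STEP]; `c(k+1) ≤ N^{2(k+l)}` for large `k` by `Adm.summ 0`. -/
def S_RULE : Prop :=
  ∀ (N : ℕ) [NeZero N] (c : ℕ → ℝ) (A : ℝ), 2 ≤ N → Adm N c A → Rule N c (Lev N c)

/-! ## Part Z: end of the proof of transience -/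

/-- the capacity of `u` in the ball of level `j` is small -/
def Zs {N : ℕ} [NeZero N] (j : ℕ) (κ : ℝ) (u : V N) : Set (Cf N) :=
  {ω | ∃ f : V N → ℝ, (∀ y, f y ≠ 0 → y ∈ ball j u) ∧ f u = 1 ∧ (∀ y, 0 ≤ f y ∧ f y ≤ 1) ∧
    energy (G ω) f ≤ ENNReal.ofReal κ}

/-- [MZ] `Zs` is measurable: the energy of a function supported in the ball `W = ball j u` is a
function of the bits inside `W` and of the numbers (in `ℕ∞`) of open edges from `y ∈ W` to the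
complement of `W`, a measurable map to a countable discrete space. -/
def S_MZ : Prop :=
  ∀ (N : ℕ) [NeZero N] (j : ℕ) (κ : ℝ) (u : V N), MeasurableSet (Zs j κ u)

/-- [CONN] A heavy cluster of level `k` is joined to a dense set of another ball of level `k` in
the same ball of level `k + 1`.  [MIX] with `D = ins k x ∪ ins k y`, [CLOF]:
`|C| |T| p ≥ (M N^k/c(k+1)) (ρ N^k) c(k+1)/N^{2k+2} = M ρ/N²`. -/
def S_CONN : Prop :=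
  ∀ (N : ℕ) [NeZero N] (c : ℕ → ℝ) (A : ℝ), 2 ≤ N → Adm N c A → ∀ (ρ M : ℝ) (k : ℕ) (x y : V N)
    (T : Cf N → Finset (V N)), 0 < ρ → 0 < M → c (k + 1) ≤ (N : ℝ) ^ (2 * (k + 1)) →
    dist x y = k + 1 → Dep (ins k y) T → (∀ ω, T ω ⊆ ball k y) →
    PP N c {ω | ω ∉ light c k M x ∧ ρ * (N : ℝ) ^ k ≤ (T ω).card ∧
      ∀ u ∈ clu ω k x, ∀ v ∈ T ω, ω s(u, v) = false} ≤
      ENNReal.ofReal (Real.exp (-(M * ρ / (N : ℝ) ^ 2)))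

/-- [DUAL] (deterministic) A function and a flow: with `Θ = Θ_u`, `u ∈ S`,
`∑_{a,b ∈ W} Θ(a,b)(f a - f b) = 2 ∑_{a∈W} f a · div Θ (a) = 2 (f u - (1/|S|) ∑_{a∈S} f a)
 ≥ 2 (1 - |B|/|S|)`, and the left side is at most `(∑ Θ²)^{1/2} (energy f)^{1/2}`. -/
def S_DUAL : Prop :=
  ∀ (X : Type) (Γ : SimpleGraph X) (W S B : Finset X) (Θ : X → X → X → ℝ) (f : X → ℝ) (u : X)
    (κ : ℝ), Fam Γ W S Θ → u ∈ S → (∀ y, f y ≠ 0 → y ∈ B) → f u = 1 →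
    (∀ y, 0 ≤ f y ∧ f y ≤ 1) → energy Γ f ≤ ENNReal.ofReal κ → 0 ≤ κ → B.card ≤ S.card →
    4 * (1 - (B.card : ℝ) / S.card) ^ 2 ≤ κ * ∑ a ∈ W, ∑ b ∈ W, Θ u a b ^ 2

/-- [SCON] (deterministic) The set of a family lies in one component: sum the divergence of `Θ_u`
over the points of `W` connected to `u` inside `W`: `0 = 1 - |S ∩ comp|/|S|`. -/
def S_SCON : Prop :=
  ∀ (X : Type) (Γ : SimpleGraph X) (W S : Finset X) (Θ : X → X → X → ℝ), Fam Γ W S Θ →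
    ∀ u ∈ S, ∀ v ∈ S, Γ.Reachable u v

open Classical in
/-- [CNT] (deterministic) Few points of a family with small total energy have small capacity:
[DUAL] with `B = ball j u`, `|B| = N^j ≤ |S|/2` gives `1 ≤ κ en_u` for the points with
`ω ∈ Zs j κ u`; sum over them. -/
def S_CNT : Prop :=
  ∀ (N : ℕ) [NeZero N] (κ a' : ℝ) (j k : ℕ) (y : V N) (ω : Cf N) (S : Finset (V N))
    (Θ : V N → V N → V N → ℝ), 0 < κ → Fam (G ω) (ball k y) S Θ →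
    enF (ball k y) S Θ ≤ a' * (N : ℝ) ^ k → 2 * N ^ j ≤ S.card →
    ((S.filter fun u => ω ∈ Zs j κ u).card : ℝ) ≤ κ * a' * (N : ℝ) ^ k

/-- [LAST] No recurrent infinite component.  Let `U_x = {InfC (G ω) x ∧ Recurrent (G ω) x}`
(intersected with the a.s. event that all degrees are finite, [LF]).  Fix `ε`, take `ρ, a` from the
hypothesis, `a' = a/ε + 1`, `κ = ρ/(2 a')`, `M` with `exp(-Mρ/N²) ≤ ε`, `j` with
`P(U_u \ Zs j κ u) ≤ ε ρ/2` for all `u` (the sets `Zs j κ u` increase with `j` and cover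
`U_u` by [REC2]; [MZ], [TI]), then `k` large with `Lev N c k ρ ε a`.  Let `y` with `dist x y = k+1`
(change coordinate `k` of `x`), `E` the event of `Lev` for `y`.  `T ω ⊆ ball k y`: if
`QQ ρ k y ω < a' N^k` the set `S` of a chosen pair `(S, Θ)` with `|S| ≥ ρ N^k` and energy `≤ a' N^k`
(chosen as a function of the configuration equal to `ω` on `ins k y` and `false` elsewhere:
`Fam (G ω) (ball k y) S Θ` only sees edges inside the ball), otherwise `∅`.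
On `U_x`, outside events of probability `≤ ε` each: `x` is heavy at level `k` ([HEAVY]); `ω ∈ E`;
`QQ < a' N^k` (Markov: `P(E, QQ ≥ a' N^k) ≤ a/a' ≤ ε`); some open edge from `clu ω k x` to `T ω`
([CONN]).  Then some `v ∈ T ω` is connected to `x`, so all points of `T ω` are connected to `x`
([SCON]) and lie in `U` ([RCMP]).  At most `κ a' N^k = (ρ/2) N^k` points `u ∈ T ω` have
`ω ∈ Zs j κ u` ([CNT]), so at least `(ρ/2) N^k` points `u` of `ball k y` have `ω ∈ U_u \ Zs j κ u`;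
by Markov this has probability at most `(2/ρ) ε ρ/2 = ε` (use a measurable superset
`toMeasurable` of `U_u \ Zs j κ u`, or `lintegral` of indicators of measurable hulls).
So `P(U_x) ≤ 5 ε`. -/
def S_LAST : Prop :=
  ∀ (N : ℕ) [NeZero N] (c : ℕ → ℝ) (A : ℝ), 2 ≤ N → Adm N c A →
    (∀ ε : ℝ, 0 < ε → ∃ ρ : ℝ, 0 < ρ ∧ ∃ a : ℝ, 0 ≤ a ∧ ∀ k0 : ℕ, ∃ k, k0 ≤ k ∧
      Lev N c k ρ ε a) →
    ∀ x : V N, PP N c {ω | InfC (G ω) x ∧ Recurrent (G ω) x} = 0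

/-- [TRA] Transience for `c_k ≥ a0 k^{1+η}` (assembly of [BASE], [BOOT], [ITR], [RULE], [LAST]). -/
def S_TRA : Prop :=
  ∀ (N : ℕ) [NeZero N] (c : ℕ → ℝ) (A a0 η : ℝ), 2 ≤ N → Adm N c A → 0 < a0 → 0 < η → η ≤ 1 →
    (∀ k : ℕ, 1 ≤ k → a0 * (k : ℝ) ^ (1 + η) ≤ c k) →
    ∀ᵐ ω ∂(PP N c), ∀ x, InfC (G ω) x → Transient (G ω) x

end Pool.Agent.Helper98K9.HP
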